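import Pool.Agent.FLP.Defs

/-!
# Combinatorial edges and triangulations of the `2 × n` rectangle
-/

open Finset

namespace Pool.Agent.FLP

/-- The edges: `V x j` is the unit segment from `(x, j)` to `(x, j + 1)`, `L i k` the edge from
`(0, i)` to `(1, k)`, `U k j` the edge from `(1, k)` to `(2, j)`, and `G i j` the edge from
`(0, i)` to `(2, j)`. -/
inductive Ed
  | V (x j : ℕ)
  | L (i k : ℕ)
  | U (k j : ℕ)
  | G (i j : ℕ)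
  deriving DecidableEq

/-- The set of the two endpoints. -/
def Ed.toF : Ed → Finset (ℤ × ℤ)
  | .V x j => {((x : ℤ), (j : ℤ)), ((x : ℤ), (j : ℤ) + 1)}
  | .L i k => {(0, (i : ℤ)), (1, (k : ℤ))}
  | .U k j => {(1, (k : ℤ)), (2, (j : ℤ))}
  | .G i j => {(0, (i : ℤ)), (2, (j : ℤ))}

/-- The edge lies in the rectangle and has no lattice point inside. -/
def Ed.ok (n : ℕ) : Ed → Prop
  | .V x j => x ≤ 2 ∧ j < n
  | .L i k => i ≤ n ∧ k ≤ n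
  | .U k j => k ≤ n ∧ j ≤ n
  | .G i j => i ≤ n ∧ j ≤ n ∧ (i + j) % 2 = 1

/-- The two (different) edges do not cross. -/
def Ed.cmp : Ed → Ed → Prop
  | .V x j, .G i i' => x = 1 → i + i' ≠ 2 * j + 1
  | .G i i', .V x j => x = 1 → i + i' ≠ 2 * j + 1
  | .L i k, .L i' k' => ¬ (i < i' ∧ k' < k) ∧ ¬ (i' < i ∧ k < k')
  | .U k j, .U k' j' => ¬ (k < k' ∧ j' < j) ∧ ¬ (k' < k ∧ j < j')
  | .L i k, .G i' j' => ¬ (i < i' ∧ i' + j' < 2 * k) ∧ ¬ (i' < i ∧ 2 * k < i' + j')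
  | .G i' j', .L i k => ¬ (i < i' ∧ i' + j' < 2 * k) ∧ ¬ (i' < i ∧ 2 * k < i' + j')
  | .U k j, .G i' j' => ¬ (j < j' ∧ i' + j' < 2 * k) ∧ ¬ (j' < j ∧ 2 * k < i' + j')
  | .G i' j', .U k j => ¬ (j < j' ∧ i' + j' < 2 * k) ∧ ¬ (j' < j ∧ 2 * k < i' + j')
  | .G i j, .G i' j' => ¬ (i < i' ∧ j' < j) ∧ ¬ (i' < i ∧ j < j')
  | _, _ => True

/-- The edge lies on the boundary of the rectangle. -/
def Ed.bd (n : ℕ) : Ed → Prop
  | .V x _ => x = 0 ∨ x = 2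
  | .L i k => (i = 0 ∧ k = 0) ∨ (i = n ∧ k = n)
  | .U k j => (k = 0 ∧ j = 0) ∨ (k = n ∧ j = n)
  | .G _ _ => False

/-- Maximal sets of edges which do not cross. -/
structure MaxC (n : ℕ) (T : Finset Ed) : Prop where
  ok : ∀ e ∈ T, e.ok n
  cmp : ∀ e ∈ T, ∀ f ∈ T, e ≠ f → e.cmp f
  max : ∀ e : Ed, e.ok n → (∀ f ∈ T, f ≠ e → e.cmp f) → e ∈ T

variable {n : ℕ}

/-- The triangulation which is encoded by a configuration. -/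
def Tm (x : Cf n) : Finset Ed :=
  (range n).image (Ed.V 0) ∪ (range n).image (Ed.V 2) ∪
    ((univ : Finset (Fin n)).filter fun k => k ∉ x.2.2).image (fun k => Ed.V 1 k.val) ∪
    x.2.2.image (fun k => Ed.G (pr x.1 (k.val + 1)) (pr x.2.1 (k.val + 1))) ∪
    ((range (n + 1) ×ˢ range (n + 1)).filter fun p =>
      pr x.1 p.2 ≤ p.1 ∧ p.1 ≤ pr x.1 (p.2 + 1)).image (fun p => Ed.L p.1 p.2) ∪
    ((range (n + 1) ×ˢ range (n + 1)).filter fun p =>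
      pr x.2.1 p.1 ≤ p.2 ∧ p.2 ≤ pr x.2.1 (p.1 + 1)).image (fun p => Ed.U p.1 p.2)

theorem V_mem_Tm (x : Cf n) (a j : ℕ) : Ed.V a j ∈ Tm x ↔
    (a = 0 ∧ j < n) ∨ (a = 2 ∧ j < n) ∨ (a = 1 ∧ ∃ h : j < n, (⟨j, h⟩ : Fin n) ∉ x.2.2) := by
  simp only [Tm, mem_union, mem_image, mem_range, mem_filter, mem_univ, true_and, mem_product,
    Ed.V.injEq, reduceCtorEq, and_false, exists_false, or_false]
  constructor
  · rintro ((⟨b, hb, rfl, rfl⟩ | ⟨b, hb, rfl, rfl⟩) | ⟨k, hk, rfl, rfl⟩)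
    · exact Or.inl ⟨rfl, hb⟩
    · exact Or.inr (Or.inl ⟨rfl, hb⟩)
    · exact Or.inr (Or.inr ⟨rfl, k.isLt, hk⟩)
  · rintro (⟨rfl, hj⟩ | ⟨rfl, hj⟩ | ⟨rfl, h, hj⟩)
    · exact Or.inl (Or.inl ⟨j, hj, rfl, rfl⟩)
    · exact Or.inl (Or.inr ⟨j, hj, rfl, rfl⟩)
    · exact Or.inr ⟨⟨j, h⟩, hj, rfl, rfl⟩

theorem L_mem_Tm (x : Cf n) (i k : ℕ) : Ed.L i k ∈ Tm x ↔
    i ≤ n ∧ k ≤ n ∧ pr x.1 k ≤ i ∧ i ≤ pr x.1 (k + 1) := by
  simp only [Tm, mem_union, mem_image, mem_range, mem_filter, mem_univ, true_and, mem_product,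
    Ed.L.injEq, reduceCtorEq, and_false, exists_false, or_false, false_or]
  constructor
  · rintro ⟨⟨a, b⟩, ⟨⟨h1, h2⟩, h3, h4⟩, rfl, rfl⟩
    exact ⟨Nat.lt_succ_iff.mp h1, Nat.lt_succ_iff.mp h2, h3, h4⟩
  · rintro ⟨h1, h2, h3, h4⟩
    exact ⟨(i, k), ⟨⟨Nat.lt_succ_iff.mpr h1, Nat.lt_succ_iff.mpr h2⟩, h3, h4⟩, rfl, rfl⟩

theorem U_mem_Tm (x : Cf n) (k j : ℕ) : Ed.U k j ∈ Tm x ↔
    k ≤ n ∧ j ≤ n ∧ pr x.2.1 k ≤ j ∧ j ≤ pr x.2.1 (k + 1) := by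
  simp only [Tm, mem_union, mem_image, mem_range, mem_filter, mem_univ, true_and, mem_product,
    Ed.U.injEq, reduceCtorEq, and_false, exists_false, false_or]
  constructor
  · rintro ⟨⟨a, b⟩, ⟨⟨h1, h2⟩, h3, h4⟩, rfl, rfl⟩
    exact ⟨Nat.lt_succ_iff.mp h1, Nat.lt_succ_iff.mp h2, h3, h4⟩
  · rintro ⟨h1, h2, h3, h4⟩
    exact ⟨(k, j), ⟨⟨Nat.lt_succ_iff.mpr h1, Nat.lt_succ_iff.mpr h2⟩, h3, h4⟩, rfl, rfl⟩

theorem G_mem_Tm (x : Cf n) (i j : ℕ) : Ed.G i j ∈ Tm x ↔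
    ∃ k ∈ x.2.2, pr x.1 (k.val + 1) = i ∧ pr x.2.1 (k.val + 1) = j := by
  simp only [Tm, mem_union, mem_image, mem_range, mem_filter, mem_univ, true_and, mem_product,
    Ed.G.injEq, reduceCtorEq, and_false, exists_false, or_false, false_or]

/-- The triangulations of `x` and `y` differ by one flip. -/
def adj (x y : Cf n) : Prop := (Tm x \ Tm y).card = 1 ∧ (Tm y \ Tm x).card = 1

instance (x y : Cf n) : Decidable (adj x y) := by unfold adj; infer_instance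

/-! ### The geometric notions -/

/-- The point of the plane. -/
def toR (p : ℤ × ℤ) : ℝ × ℝ := ((p.1 : ℝ), (p.2 : ℝ))

/-- The segment with the endpoints `e`. -/
def hl (e : Finset (ℤ × ℤ)) : Set (ℝ × ℝ) := convexHull ℝ (toR '' (e : Set (ℤ × ℤ)))

/-- `e` is the set of the two endpoints of a segment in the `2 × n` rectangle without lattice
points inside. -/
def vld (n : ℕ) (e : Finset (ℤ × ℤ)) : Prop :=
  e.card = 2 ∧ (∀ p ∈ e, 0 ≤ p.1 ∧ p.1 ≤ 2 ∧ 0 ≤ p.2 ∧ p.2 ≤ (n : ℤ)) ∧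
    ∀ z : ℤ × ℤ, toR z ∈ hl e → z ∈ e

/-- The two segments meet at most in common endpoints. -/
def cpt (e f : Finset (ℤ × ℤ)) : Prop :=
  ∀ x ∈ hl e ∩ hl f, x ∈ toR '' ((e ∩ f : Finset (ℤ × ℤ)) : Set (ℤ × ℤ))

end Pool.Agent.FLP
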