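import Pool.Agent.FLP.OMM
import Pool.Agent.FLP.Defs2

/-!
The moves are flips. adjA: a = pr x.1 (k+1) >= 1; pr (shA k x).1 differs from pr x.1 only at k + 1, where it is
smaller by one (pr_mv): Tm x \ Tm (shA k x) = {L a k}, Tm (shA k x) \ Tm x = {L (a-1) (k+1)}; the G edges do not
change since k is not a mark. adjB: U k b and U (k+1) (b-1). adjU: G (pr x.1 (k+1)) (pr x.2.1 (k+1)) and V 1 k
(the G edges of the other marks have a different sum).
-/

open Finset

namespace Pool.Agent.FLP

variable {n : ℕ}

private theorem adj_card {A B : Finset Ed} {e : Ed} (h1 : e ∈ A) (h2 : e ∉ B)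
    (h3 : ∀ f ∈ A, f ∉ B → f = e) : (A \ B).card = 1 := by
  rw [card_eq_one]
  refine ⟨e, ?_⟩
  ext f
  rw [mem_sdiff, mem_singleton]
  constructor
  · rintro ⟨ha, hb⟩
    exact h3 f ha hb
  · rintro rfl
    exact ⟨h1, h2⟩

private theorem adj_pr (k : Fin n) {g : Fin (n + 1) → ℕ} (hg : 1 ≤ g k.castSucc) :
    pr (mv k.castSucc k.succ g) (k.val + 1) = pr g (k.val + 1) - 1 ∧
      1 ≤ pr g (k.val + 1) ∧
      ∀ m, m ≠ k.val + 1 → pr (mv k.castSucc k.succ g) m = pr g m := by
  have hlt : k.castSucc < k.succ := Fin.castSucc_lt_succ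
  refine ⟨?_, ?_, ?_⟩
  · rw [pr_mv hlt hg, if_pos]
    simp [Fin.val_castSucc, Fin.val_succ]
  · exact pr_pos hg (by simp)
  · intro m hm
    rw [pr_mv hlt hg, if_neg]
    simp only [Fin.val_castSucc, Fin.val_succ]
    omega

theorem adjA {x : Cf n} (hx : x ∈ Om n) {k : Fin n} (hk : k ∉ x.2.2) (h1 : 1 ≤ x.1 k.castSucc) :
    adj x (shA k x) := by
  obtain ⟨h2, h3, h4⟩ := adj_pr k h1
  have hO := (mem_Om x).1 hx
  have hle : ∀ m, pr x.1 m ≤ n := fun m => by
    have := pr_le x.1 m
    rw [hO.1] at this
    exact this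
  have hkn : k.val < n := k.isLt
  have e1 : (shA k x).1 = mv k.castSucc k.succ x.1 := rfl
  have e2 : (shA k x).2.1 = x.2.1 := rfl
  have e3 : (shA k x).2.2 = x.2.2 := rfl
  have hm1 := pr_mono x.1 (show k.val ≤ k.val + 1 by omega)
  have hm2 := pr_mono x.1 (show k.val + 1 ≤ k.val + 1 + 1 by omega)
  constructor
  · refine adj_card (e := Ed.L (pr x.1 (k.val + 1)) k.val) ?_ ?_ ?_
    · rw [L_mem_Tm]
      exact ⟨hle _, by omega, hm1, le_rfl⟩
    · rw [L_mem_Tm, e1, h2]
      omega
    · intro f hf hf'
      cases f with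
      | V a j => rw [V_mem_Tm, e3] at hf'; rw [V_mem_Tm] at hf; exact absurd hf hf'
      | U a j => rw [U_mem_Tm, e2] at hf'; rw [U_mem_Tm] at hf; exact absurd hf hf'
      | G a j =>
        rw [G_mem_Tm, e3, e2, e1] at hf'
        rw [G_mem_Tm] at hf
        obtain ⟨j', hj', ha, hb⟩ := hf
        refine absurd ⟨j', hj', ?_, hb⟩ hf'
        rw [h4 _ ?_, ha]
        intro h
        apply hk
        have : j' = k := Fin.ext (by omega)
        rw [← this]
        exact hj'
      | L i m =>
        rw [L_mem_Tm, e1] at hf'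
        rw [L_mem_Tm] at hf
        by_cases hm : m = k.val
        · subst hm
          rw [h4 _ (by omega), h2] at hf'
          have : i = pr x.1 (k.val + 1) := by omega
          rw [this]
        · exfalso
          by_cases hm' : m = k.val + 1
          · subst hm'
            rw [h2, h4 _ (by omega)] at hf'
            omega
          · rw [h4 _ hm', h4 _ (by omega)] at hf'
            exact hf' hf
  · refine adj_card (e := Ed.L (pr x.1 (k.val + 1) - 1) (k.val + 1)) ?_ ?_ ?_
    · rw [L_mem_Tm, e1, h2, h4 _ (by omega)]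
      have := hle (k.val + 1)
      exact ⟨by omega, by omega, le_rfl, by omega⟩
    · rw [L_mem_Tm]
      omega
    · intro f hf hf'
      cases f with
      | V a j => rw [V_mem_Tm, e3] at hf; rw [V_mem_Tm] at hf'; exact absurd hf hf'
      | U a j => rw [U_mem_Tm, e2] at hf; rw [U_mem_Tm] at hf'; exact absurd hf hf'
      | G a j =>
        rw [G_mem_Tm, e3, e2, e1] at hf
        rw [G_mem_Tm] at hf'
        obtain ⟨j', hj', ha, hb⟩ := hf
        refine absurd ⟨j', hj', ?_, hb⟩ hf'
        rw [h4 _ ?_] at ha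
        · exact ha
        intro h
        apply hk
        have : j' = k := Fin.ext (by omega)
        rw [← this]
        exact hj'
      | L i m =>
        rw [L_mem_Tm, e1] at hf
        rw [L_mem_Tm] at hf'
        by_cases hm' : m = k.val + 1
        · subst hm'
          rw [h2, h4 _ (by omega)] at hf
          have : i = pr x.1 (k.val + 1) - 1 := by omega
          rw [this]
        · exfalso
          by_cases hm : m = k.val
          · subst hm
            rw [h4 _ (by omega), h2] at hf
            omega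
          · rw [h4 _ hm', h4 _ (by omega)] at hf
            exact hf' hf

theorem adjB {x : Cf n} (hx : x ∈ Om n) {k : Fin n} (hk : k ∉ x.2.2)
    (h1 : 1 ≤ x.2.1 k.castSucc) : adj x (shB k x) := by
  obtain ⟨h2, h3, h4⟩ := adj_pr k h1
  have hO := (mem_Om x).1 hx
  have hle : ∀ m, pr x.2.1 m ≤ n := fun m => by
    have := pr_le x.2.1 m
    rw [hO.2.1] at this
    exact this
  have hkn : k.val < n := k.isLt
  have e1 : (shB k x).1 = x.1 := rfl
  have e2 : (shB k x).2.1 = mv k.castSucc k.succ x.2.1 := rfl
  have e3 : (shB k x).2.2 = x.2.2 := rfl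
  have hm1 := pr_mono x.2.1 (show k.val ≤ k.val + 1 by omega)
  have hm2 := pr_mono x.2.1 (show k.val + 1 ≤ k.val + 1 + 1 by omega)
  constructor
  · refine adj_card (e := Ed.U k.val (pr x.2.1 (k.val + 1))) ?_ ?_ ?_
    · rw [U_mem_Tm]
      exact ⟨by omega, hle _, hm1, le_rfl⟩
    · rw [U_mem_Tm, e2, h2]
      omega
    · intro f hf hf'
      cases f with
      | V a j => rw [V_mem_Tm, e3] at hf'; rw [V_mem_Tm] at hf; exact absurd hf hf'
      | L a j => rw [L_mem_Tm, e1] at hf'; rw [L_mem_Tm] at hf; exact absurd hf hf'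
      | G a j =>
        rw [G_mem_Tm, e3, e2, e1] at hf'
        rw [G_mem_Tm] at hf
        obtain ⟨j', hj', ha, hb⟩ := hf
        refine absurd ⟨j', hj', ha, ?_⟩ hf'
        rw [h4 _ ?_, hb]
        intro h
        apply hk
        have : j' = k := Fin.ext (by omega)
        rw [← this]
        exact hj'
      | U m i =>
        rw [U_mem_Tm, e2] at hf'
        rw [U_mem_Tm] at hf
        by_cases hm : m = k.val
        · subst hm
          rw [h4 _ (by omega), h2] at hf'
          have : i = pr x.2.1 (k.val + 1) := by omega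
          rw [this]
        · exfalso
          by_cases hm' : m = k.val + 1
          · subst hm'
            rw [h2, h4 _ (by omega)] at hf'
            omega
          · rw [h4 _ hm', h4 _ (by omega)] at hf'
            exact hf' hf
  · refine adj_card (e := Ed.U (k.val + 1) (pr x.2.1 (k.val + 1) - 1)) ?_ ?_ ?_
    · rw [U_mem_Tm, e2, h2, h4 _ (by omega)]
      have := hle (k.val + 1)
      exact ⟨by omega, by omega, le_rfl, by omega⟩
    · rw [U_mem_Tm]
      omega
    · intro f hf hf'
      cases f with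
      | V a j => rw [V_mem_Tm, e3] at hf; rw [V_mem_Tm] at hf'; exact absurd hf hf'
      | L a j => rw [L_mem_Tm, e1] at hf; rw [L_mem_Tm] at hf'; exact absurd hf hf'
      | G a j =>
        rw [G_mem_Tm, e3, e2, e1] at hf
        rw [G_mem_Tm] at hf'
        obtain ⟨j', hj', ha, hb⟩ := hf
        refine absurd ⟨j', hj', ha, ?_⟩ hf'
        rw [h4 _ ?_] at hb
        · exact hb
        intro h
        apply hk
        have : j' = k := Fin.ext (by omega)
        rw [← this]
        exact hj'
      | U m i =>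
        rw [U_mem_Tm, e2] at hf
        rw [U_mem_Tm] at hf'
        by_cases hm' : m = k.val + 1
        · subst hm'
          rw [h2, h4 _ (by omega)] at hf
          have : i = pr x.2.1 (k.val + 1) - 1 := by omega
          rw [this]
        · exfalso
          by_cases hm : m = k.val
          · subst hm
            rw [h4 _ (by omega), h2] at hf
            omega
          · rw [h4 _ hm', h4 _ (by omega)] at hf
            exact hf' hf

theorem adjU {x : Cf n} (hx : x ∈ Om n) {k : Fin n} (hk : k ∈ x.2.2) : adj x (unm k x) := by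
  have hO := (mem_Om x).1 hx
  have e1 : (unm k x).1 = x.1 := rfl
  have e2 : (unm k x).2.1 = x.2.1 := rfl
  have e3 : (unm k x).2.2 = x.2.2.erase k := rfl
  constructor
  · refine adj_card (e := Ed.G (pr x.1 (k.val + 1)) (pr x.2.1 (k.val + 1))) ?_ ?_ ?_
    · rw [G_mem_Tm]
      exact ⟨k, hk, rfl, rfl⟩
    · rw [G_mem_Tm, e1, e2, e3]
      rintro ⟨j, hj, ha, hb⟩
      rw [mem_erase] at hj
      have h1 := hO.2.2 k hk
      have h2 := hO.2.2 j hj.2
      exact hj.1 (Fin.ext (by omega))
    · intro f hf hf'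
      cases f with
      | V a j =>
        rw [V_mem_Tm, e3] at hf'
        rw [V_mem_Tm] at hf
        exfalso
        apply hf'
        rcases hf with h | h | ⟨h, h', h''⟩
        · exact Or.inl h
        · exact Or.inr (Or.inl h)
        · exact Or.inr (Or.inr ⟨h, h', fun hc => h'' (mem_of_mem_erase hc)⟩)
      | L a j => rw [L_mem_Tm, e1] at hf'; rw [L_mem_Tm] at hf; exact absurd hf hf'
      | U a j => rw [U_mem_Tm, e2] at hf'; rw [U_mem_Tm] at hf; exact absurd hf hf'
      | G a j =>
        rw [G_mem_Tm, e3, e2, e1] at hf'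
        rw [G_mem_Tm] at hf
        obtain ⟨j', hj', ha, hb⟩ := hf
        by_cases h : j' = k
        · subst h
          rw [ha, hb]
        · exact absurd ⟨j', mem_erase.2 ⟨h, hj'⟩, ha, hb⟩ hf'
  · refine adj_card (e := Ed.V 1 k.val) ?_ ?_ ?_
    · rw [V_mem_Tm, e3]
      exact Or.inr (Or.inr ⟨rfl, k.isLt, by simp⟩)
    · rw [V_mem_Tm]
      rintro (⟨h, _⟩ | ⟨h, _⟩ | ⟨_, h, h'⟩)
      · omega
      · omega
      · exact h' hk
    · intro f hf hf'
      cases f with
      | V a j =>
        rw [V_mem_Tm, e3] at hf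
        rw [V_mem_Tm] at hf'
        rcases hf with h | h | ⟨h, h', h''⟩
        · exact absurd (Or.inl h) hf'
        · exact absurd (Or.inr (Or.inl h)) hf'
        · by_cases hj : (⟨j, h'⟩ : Fin n) = k
          · rw [h, ← hj]
          · exfalso
            apply hf'
            refine Or.inr (Or.inr ⟨h, h', fun hc => h'' (mem_erase.2 ⟨hj, hc⟩)⟩)
      | L a j => rw [L_mem_Tm, e1] at hf; rw [L_mem_Tm] at hf'; exact absurd hf hf'
      | U a j => rw [U_mem_Tm, e2] at hf; rw [U_mem_Tm] at hf'; exact absurd hf hf'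
      | G a j =>
        rw [G_mem_Tm, e3, e2, e1] at hf
        rw [G_mem_Tm] at hf'
        obtain ⟨j', hj', ha, hb⟩ := hf
        exact absurd ⟨j', mem_of_mem_erase hj', ha, hb⟩ hf'

end Pool.Agent.FLP
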