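import Pool.Agent.FLP.Defs

/-!
Coupling of two intervals. M = r + 1 - l and M' = r' + 1 - l' are the numbers of points.
Cases: (l', r') = (l, r): termwise with the first hypothesis. (l' + 1, r' + 1) = (l, r): termwise
with the second. l' + 1 = l, r' = r (M' = M + 1): enumerate t = l + s - 1, s = 1..M; the masses
c(t, t) = s / (M (M+1)) and c(t, t-1) = (M+1-s) / (M (M+1)) are a coupling: M (M+1) (av F - av H) =
sum_s [s (F t - H t) + (M+1-s) (F t - H (t-1))] (telescoping sum, induction on M). l' = l,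
r' + 1 = r: the same with the roles exchanged.
-/

open Finset

namespace Pool.Agent.FLP

private theorem avc_rng (M : ℕ) (hM : 1 ≤ M) (A B : ℕ → ℝ) (Λ : ℝ)
    (h1 : ∀ s < M, |A s - B s| ≤ Λ) (h2 : ∀ s < M, |A s - B (s + 1)| ≤ Λ) :
    |(∑ s ∈ range M, A s) / (M : ℝ) - (∑ s ∈ range (M + 1), B s) / ((M : ℝ) + 1)| ≤ Λ := by
  have hM0 : (0 : ℝ) < M := by exact_mod_cast hM
  have e1 : ∑ s ∈ range M, (((s : ℝ) + 1) * (A s - B (s + 1)) + ((M : ℝ) - s) * (A s - B s)) =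
      ((M : ℝ) + 1) * ∑ s ∈ range M, A s - (M : ℝ) * ∑ s ∈ range (M + 1), B s := by
    have e2 : ∑ s ∈ range M, ((s : ℝ) + 1) * B (s + 1) = ∑ s ∈ range (M + 1), (s : ℝ) * B s := by
      rw [Finset.sum_range_succ']
      simp
    have e3 : ∑ s ∈ range M, ((M : ℝ) - s) * B s = ∑ s ∈ range (M + 1), ((M : ℝ) - s) * B s := by
      rw [Finset.sum_range_succ]
      simp
    have e4 : (M : ℝ) * ∑ s ∈ range (M + 1), B s = ∑ s ∈ range M, ((s : ℝ) + 1) * B (s + 1) +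
        ∑ s ∈ range M, ((M : ℝ) - s) * B s := by
      rw [e2, e3, ← Finset.sum_add_distrib, Finset.mul_sum]
      refine Finset.sum_congr rfl fun s _ => ?_
      ring
    rw [e4, Finset.mul_sum, ← Finset.sum_add_distrib, ← Finset.sum_sub_distrib]
    refine Finset.sum_congr rfl fun s _ => ?_
    ring
  have e5 : (∑ s ∈ range M, A s) / (M : ℝ) - (∑ s ∈ range (M + 1), B s) / ((M : ℝ) + 1) =
      (∑ s ∈ range M, (((s : ℝ) + 1) * (A s - B (s + 1)) + ((M : ℝ) - s) * (A s - B s))) /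
        ((M : ℝ) * ((M : ℝ) + 1)) := by
    rw [e1]
    have h3 : (M : ℝ) + 1 ≠ 0 := by positivity
    field_simp
  rw [e5, abs_div, abs_of_pos (by positivity : (0 : ℝ) < (M : ℝ) * ((M : ℝ) + 1)),
    div_le_iff₀ (by positivity)]
  refine (Finset.abs_sum_le_sum_abs _ _).trans ?_
  have e6 : Λ * ((M : ℝ) * ((M : ℝ) + 1)) = ∑ s ∈ range M, ((M : ℝ) + 1) * Λ := by
    rw [Finset.sum_const, Finset.card_range, nsmul_eq_mul]
    ring
  rw [e6]
  refine Finset.sum_le_sum fun s hs => ?_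
  have hs' := Finset.mem_range.1 hs
  have hsM : (s : ℝ) ≤ M := by exact_mod_cast hs'.le
  have hs0 : (0 : ℝ) ≤ s := Nat.cast_nonneg s
  refine (abs_add_le _ _).trans ?_
  rw [abs_mul, abs_mul, abs_of_nonneg (by linarith : (0 : ℝ) ≤ (s : ℝ) + 1),
    abs_of_nonneg (by linarith : (0 : ℝ) ≤ (M : ℝ) - s)]
  have g1 := mul_le_mul_of_nonneg_left (h2 s hs') (by linarith : (0 : ℝ) ≤ (s : ℝ) + 1)
  have g2 := mul_le_mul_of_nonneg_left (h1 s hs') (by linarith : (0 : ℝ) ≤ (M : ℝ) - s)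
  nlinarith

private theorem avc_eq (M : ℕ) (hM : 1 ≤ M) (A B : ℕ → ℝ) (Λ : ℝ)
    (h1 : ∀ s < M, |A s - B s| ≤ Λ) :
    |(∑ s ∈ range M, A s) / (M : ℝ) - (∑ s ∈ range M, B s) / (M : ℝ)| ≤ Λ := by
  have hM0 : (0 : ℝ) < M := by exact_mod_cast hM
  rw [← sub_div, ← Finset.sum_sub_distrib, abs_div, abs_of_pos hM0, div_le_iff₀ hM0]
  refine (Finset.abs_sum_le_sum_abs _ _).trans ?_
  have e6 : Λ * (M : ℝ) = ∑ s ∈ range M, Λ := by
    rw [Finset.sum_const, Finset.card_range, nsmul_eq_mul]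
    ring
  rw [e6]
  exact Finset.sum_le_sum fun s hs => h1 s (Finset.mem_range.1 hs)

private theorem avc_av (l r : ℕ) (h : l ≤ r) (F : ℕ → ℝ) :
    av (Icc l r) F = (∑ s ∈ range (r + 1 - l), F (l + s)) / ((r + 1 - l : ℕ) : ℝ) := by
  have h1 : Icc l r = Ico l (r + 1) := by
    ext x
    simp only [Finset.mem_Icc, Finset.mem_Ico]
    omega
  unfold av
  rw [h1, Finset.sum_Ico_eq_sum_range, Nat.card_Ico]

theorem avc (l r l' r' : ℕ) (F H : ℕ → ℝ) (Λ : ℝ) (h : l ≤ r) (h' : l' ≤ r')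
    (hl : l' + 1 = l ∨ l' = l) (hr : r' + 1 = r ∨ r' = r) (hΛ : 0 ≤ Λ)
    (h1 : ∀ t ∈ Icc l r, t ∈ Icc l' r' → |F t - H t| ≤ Λ)
    (h2 : ∀ t ∈ Icc l' r', t + 1 ∈ Icc l r → |F (t + 1) - H t| ≤ Λ) :
    |av (Icc l r) F - av (Icc l' r') H| ≤ Λ := by
  rw [avc_av l r h, avc_av l' r' h']
  have i1 : ∀ t, l ≤ t → t ≤ r → l' ≤ t → t ≤ r' → |F t - H t| ≤ Λ := fun t g1 g2 g3 g4 =>
    h1 t (Finset.mem_Icc.2 ⟨g1, g2⟩) (Finset.mem_Icc.2 ⟨g3, g4⟩)
  have i2 : ∀ t, l' ≤ t → t ≤ r' → l ≤ t + 1 → t + 1 ≤ r → |F (t + 1) - H t| ≤ Λ :=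
    fun t g1 g2 g3 g4 => h2 t (Finset.mem_Icc.2 ⟨g1, g2⟩) (Finset.mem_Icc.2 ⟨g3, g4⟩)
  rcases hl with rfl | rfl
  · rcases hr with rfl | rfl
    · have e1 : r' + 1 + 1 - (l' + 1) = r' + 1 - l' := by omega
      rw [e1]
      refine avc_eq _ (by omega) _ _ Λ fun s hs => ?_
      have e2 : l' + 1 + s = (l' + s) + 1 := by omega
      rw [e2]
      exact i2 (l' + s) (by omega) (by omega) (by omega) (by omega)
    · have e1 : r' + 1 - l' = (r' + 1 - (l' + 1)) + 1 := by omega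
      rw [e1]
      push_cast
      refine avc_rng _ (by omega) _ _ Λ (fun s hs => ?_) (fun s hs => ?_)
      · have e2 : l' + 1 + s = (l' + s) + 1 := by omega
        rw [e2]
        exact i2 (l' + s) (by omega) (by omega) (by omega) (by omega)
      · have e2 : l' + 1 + s = l' + (s + 1) := by omega
        rw [e2]
        exact i1 (l' + (s + 1)) (by omega) (by omega) (by omega) (by omega)
  · rcases hr with rfl | rfl
    · have e1 : r' + 1 + 1 - l' = (r' + 1 - l') + 1 := by omega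
      rw [e1]
      push_cast
      rw [abs_sub_comm]
      refine avc_rng _ (by omega) _ _ Λ (fun s hs => ?_) (fun s hs => ?_)
      · rw [abs_sub_comm]
        exact i1 (l' + s) (by omega) (by omega) (by omega) (by omega)
      · rw [abs_sub_comm]
        exact i2 (l' + s) (by omega) (by omega) (by omega) (by omega)
    · refine avc_eq _ (by omega) _ _ Λ fun s hs => ?_
      exact i1 (l' + s) (by omega) (by omega) (by omega) (by omega)

end Pool.Agent.FLP
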