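import Pool.Agent.FLP.Bas

/-!
The sets Bx (one group) and XX (the groups are the gaps). isgs_Bx: trivial with mem_Bx and sum_mv (the
group of any j is everything). isgs_XX: le: mem_XX, mem_Gam, x (i,b) <= gm x i <= 2n. cl: moving a unit
between cells (i, b), (j, b') with gi S i = gi S j changes gm x by the move from i to j (or not at all if
i = j), and the initial sums at the marks do not change since no mark k has i <= k < j or j <= k < i
(pr_mv, pr_mv', gi). sum: the sum over the group of the slot j is pr γ (b) - pr γ (a) where a, b are the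
ends of the gap: for two elements with the same initial sums at all marks and the same total the sums
over all gaps are equal (e.g. show: for every m the sum over the slots with gi S i <= m, equivalently
the initial up to the m-th mark, is the same).
-/

open Finset

namespace Pool.Agent.FLP

variable {n : ℕ}

theorem isgs_Bx {ι : Type*} [Fintype ι] [DecidableEq ι] (c : ι → ℕ) (m : ℕ) :
    IsGS (Bx c m) c (fun _ => ()) := by
  refine ⟨?_, ?_, ?_⟩
  · intro x hx i
    exact ((mem_Bx c m x).1 hx).1 i
  · intro x hx i j hij _ h1 h2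
    rw [mem_Bx] at hx ⊢
    refine ⟨?_, ?_⟩
    · intro l
      have h3 := hx.1 l
      by_cases e1 : l = i
      · subst e1
        rw [mv_self hij]
        omega
      · by_cases e2 : l = j
        · subst e2
          rw [mv_tgt hij]
          omega
        · rw [mv_of_ne e1 e2]
          exact h3
    · rw [sum_mv h1]
      exact hx.2
  · intro x hx y hy j
    rw [mem_Bx] at hx hy
    simp only [filter_true]
    rw [hx.2, hy.2]

theorem gm_mv {p q : Fin (n + 1) × Bool} (hpq : p ≠ q) {x : Fin (n + 1) × Bool → ℕ}
    (hx : 1 ≤ x p) : gm (mv p q x) = if p.1 = q.1 then gm x else mv p.1 q.1 (gm x) := by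
  obtain ⟨i, b⟩ := p
  obtain ⟨j, b'⟩ := q
  funext l
  by_cases hij : i = j
  · subst hij
    have hb : b ≠ b' := fun h => hpq (by rw [h])
    rw [if_pos rfl]
    by_cases hl : l = i
    · subst hl
      cases b <;> cases b'
      · exact absurd rfl hb
      · simp [gm, mv]
        omega
      · simp [gm, mv]
        omega
      · exact absurd rfl hb
    · simp [gm, mv, hl]
  · rw [if_neg hij]
    by_cases hl : l = i
    · subst hl
      cases b <;> simp [gm, mv, hij] <;> omega
    · by_cases hl' : l = j
      · subst hl'
        cases b' <;> simp [gm, mv, hl] <;> omega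
      · simp [gm, mv, hl, hl']

private theorem bxg_gi_mono (S : Finset (Fin n)) {i j : Fin (n + 1)} (h : i.val ≤ j.val) :
    gi S i ≤ gi S j := by
  unfold gi
  apply card_le_card
  intro k
  simp only [mem_filter]
  rintro ⟨h1, h2⟩
  exact ⟨h1, by omega⟩

private theorem bxg_gi_lt (S : Finset (Fin n)) {i j : Fin (n + 1)} {k : Fin n} (hk : k ∈ S)
    (h1 : i.val ≤ k.val) (h2 : k.val < j.val) : gi S i < gi S j := by
  unfold gi
  apply card_lt_card
  rw [Finset.ssubset_iff_subset_ne]
  refine ⟨?_, ?_⟩
  · intro k'
    simp only [mem_filter]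
    rintro ⟨h3, h4⟩
    exact ⟨h3, by omega⟩
  · intro he
    have h3 : k ∈ S.filter fun k => k.val < j.val := mem_filter.2 ⟨hk, h2⟩
    rw [← he, mem_filter] at h3
    omega

private theorem bxg_sum_lt (S : Finset (Fin n)) {g g' : Fin (n + 1) → ℕ} (hg : g ∈ Gam n S)
    (hg' : g' ∈ Gam n S) (m : ℕ) :
    ∑ i with gi S i < m, g i = ∑ i with gi S i < m, g' i := by
  rw [mem_Gam] at hg hg'
  by_cases hall : ∀ i : Fin (n + 1), gi S i < m
  · have : (univ.filter fun i : Fin (n + 1) => gi S i < m) = univ := by
      ext i
      simp [hall i]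
    rw [this, hg.1, hg'.1]
  · push Not at hall
    have hex : ∃ v : ℕ, ∃ h : v < n + 1, m ≤ gi S ⟨v, h⟩ := by
      obtain ⟨i, hi⟩ := hall
      exact ⟨i.val, i.isLt, hi⟩
    obtain ⟨v, hv, hv', hmin⟩ : ∃ v : ℕ, ∃ h : v < n + 1, m ≤ gi S ⟨v, h⟩ ∧
        ∀ u, u < v → ∀ h : u < n + 1, gi S ⟨u, h⟩ < m := by
      classical
      obtain ⟨hv, hv'⟩ := Nat.find_spec hex
      refine ⟨Nat.find hex, hv, hv', ?_⟩
      intro u hu h
      by_contra hc
      exact Nat.find_min hex hu ⟨h, by omega⟩
    have hset : (univ.filter fun i : Fin (n + 1) => gi S i < m) =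
        univ.filter fun i : Fin (n + 1) => i.val < v := by
      ext i
      simp only [mem_filter, mem_univ, true_and]
      constructor
      · intro h
        by_contra hc
        have := bxg_gi_mono S (i := ⟨v, hv⟩) (j := i) (by simpa using hc)
        omega
      · intro h
        exact hmin i.val h i.isLt
    rw [hset]
    change pr g v = pr g' v
    rcases Nat.eq_zero_or_pos v with h0 | h0
    · rw [h0, pr_zero, pr_zero]
    · have hk : v - 1 < n := by omega
      have hmem : (⟨v - 1, hk⟩ : Fin n) ∈ S := by
        by_contra hc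
        have h1 := hmin (v - 1) (by omega) (by omega)
        have h2 : gi S ⟨v - 1, by omega⟩ = gi S ⟨v, hv⟩ := by
          unfold gi
          congr 1
          ext k
          simp only [mem_filter]
          constructor
          · rintro ⟨h3, h4⟩
            exact ⟨h3, by omega⟩
          · rintro ⟨h3, h4⟩
            refine ⟨h3, ?_⟩
            have h5 : k.val ≠ v - 1 := fun h6 => hc ((Fin.ext h6 : k = ⟨v - 1, hk⟩) ▸ h3)
            omega
        omega
      have h1 := hg.2 _ hmem
      have h2 := hg'.2 _ hmem
      simp only at h1 h2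
      rw [show v - 1 + 1 = v by omega] at h1 h2
      rw [h1, h2]

private theorem bxg_sum_cells (S : Finset (Fin n)) (x : Fin (n + 1) × Bool → ℕ) (m : ℕ) :
    ∑ p with gi S p.1 = m, x p = ∑ i with gi S i = m, gm x i := by
  rw [sum_filter, Fintype.sum_prod_type, sum_filter]
  apply sum_congr rfl
  intro i _
  by_cases h : gi S i = m
  · simp [h, gm, add_comm]
  · simp [h]

theorem isgs_XX (S : Finset (Fin n)) :
    IsGS (XX n S) (fun _ => 2 * n) (fun p => gi S p.1) := by
  refine ⟨?_, ?_, ?_⟩
  · intro x hx p
    rw [mem_XX, mem_Gam] at hx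
    have h1 := single_le_sum (f := gm x) (fun j _ => Nat.zero_le _) (mem_univ p.1)
    have h2 : x p ≤ gm x p.1 := by
      obtain ⟨i, b⟩ := p
      unfold gm
      cases b <;> simp
    omega
  · intro x hx p q hpq hgi h1 _
    rw [mem_XX] at hx ⊢
    rw [gm_mv hpq h1]
    by_cases he : p.1 = q.1
    · rw [if_pos he]
      exact hx
    · rw [if_neg he]
      rw [mem_Gam] at hx ⊢
      have h2 : x p ≤ gm x p.1 := by
        obtain ⟨i, b⟩ := p
        unfold gm
        cases b <;> simp
      have h3 : 1 ≤ gm x p.1 := h1.trans h2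
      refine ⟨by rw [sum_mv h3]; exact hx.1, ?_⟩
      intro k hk
      rcases lt_or_gt_of_ne he with hlt | hlt
      · rw [pr_mv hlt h3, if_neg ?_]
        · exact hx.2 k hk
        · rintro ⟨h4, h5⟩
          have := bxg_gi_lt S hk (i := p.1) (j := q.1) (by omega) (by omega)
          change gi S p.1 = gi S q.1 at hgi
          omega
      · rw [pr_mv' hlt h3, if_neg ?_]
        · exact hx.2 k hk
        · rintro ⟨h4, h5⟩
          have := bxg_gi_lt S hk (i := q.1) (j := p.1) (by omega) (by omega)
          change gi S p.1 = gi S q.1 at hgi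
          omega
  · intro x hx y hy p
    rw [mem_XX] at hx hy
    rw [bxg_sum_cells S x (gi S p.1), bxg_sum_cells S y (gi S p.1)]
    have h1 := bxg_sum_lt S hx hy (gi S p.1)
    have h2 := bxg_sum_lt S hx hy (gi S p.1 + 1)
    have key : ∀ g : Fin (n + 1) → ℕ, ∑ i with gi S i < gi S p.1 + 1, g i =
        ∑ i with gi S i < gi S p.1, g i + ∑ i with gi S i = gi S p.1, g i := by
      intro g
      rw [← sum_union]
      · apply sum_congr ?_ (fun _ _ => rfl)
        ext i
        simp only [mem_filter, mem_univ, true_and, mem_union]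
        omega
      · rw [disjoint_left]
        intro i
        simp only [mem_filter, mem_univ, true_and]
        omega
    rw [key, key] at h2
    omega

end Pool.Agent.FLP
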