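import Pool.Agent.FLP.Defs

/-! Basic properties of the definitions -/

open Finset

namespace Pool.Agent.FLP

variable {n : ℕ}

theorem pr_zero (g : Fin (n + 1) → ℕ) : pr g 0 = 0 := by simp [pr]

theorem pr_succ (g : Fin (n + 1) → ℕ) (k : Fin (n + 1)) :
    pr g (k.val + 1) = pr g k.val + g k := by
  unfold pr
  have h : (univ.filter fun i : Fin (n + 1) => i.val < k.val + 1) =
      insert k (univ.filter fun i : Fin (n + 1) => i.val < k.val) := by
    ext i
    simp only [mem_filter, mem_univ, true_and, mem_insert, Fin.ext_iff]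
    omega
  rw [h, sum_insert (by simp)]
  omega

theorem pr_succ' (g : Fin (n + 1) → ℕ) {k : ℕ} (hk : k < n + 1) :
    pr g (k + 1) = pr g k + g ⟨k, hk⟩ := pr_succ g ⟨k, hk⟩

theorem pr_top (g : Fin (n + 1) → ℕ) {k : ℕ} (hk : n + 1 ≤ k) : pr g k = ∑ i, g i := by
  unfold pr
  congr 1
  ext i
  simp only [mem_filter, mem_univ, true_and, iff_true]
  omega

theorem pr_mono (g : Fin (n + 1) → ℕ) {a b : ℕ} (h : a ≤ b) : pr g a ≤ pr g b := by
  unfold pr
  apply sum_le_sum_of_subset
  intro i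
  simp only [mem_filter, mem_univ, true_and]
  omega

theorem pr_le (g : Fin (n + 1) → ℕ) (k : ℕ) : pr g k ≤ ∑ i, g i := by
  unfold pr
  exact sum_le_sum_of_subset (filter_subset _ _)

theorem pr_add (a b : Fin (n + 1) → ℕ) (k : ℕ) :
    pr (fun i => a i + b i) k = pr a k + pr b k := by
  unfold pr
  exact sum_add_distrib

theorem mem_Om (x : Cf n) : x ∈ Om n ↔ ∑ i, x.1 i = n ∧ ∑ i, x.2.1 i = n ∧
    ∀ k ∈ x.2.2, pr x.1 (k.val + 1) + pr x.2.1 (k.val + 1) = 2 * k.val + 1 := by
  unfold Om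
  simp only [mem_filter, mem_product, Fintype.mem_piFinset, mem_range, mem_univ, and_true,
    pr_add]
  constructor
  · rintro ⟨-, ⟨h1, h2⟩, h3⟩
    exact ⟨h1, h2, h3⟩
  · rintro ⟨h1, h2, h3⟩
    refine ⟨⟨fun i => ?_, fun i => ?_⟩, ⟨h1, h2⟩, h3⟩
    · have := single_le_sum (f := x.1) (fun j _ => Nat.zero_le _) (mem_univ i)
      omega
    · have := single_le_sum (f := x.2.1) (fun j _ => Nat.zero_le _) (mem_univ i)
      omega

theorem mem_Gam (S : Finset (Fin n)) (g : Fin (n + 1) → ℕ) : g ∈ Gam n S ↔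
    ∑ i, g i = 2 * n ∧ ∀ k ∈ S, pr g (k.val + 1) = 2 * k.val + 1 := by
  unfold Gam
  simp only [mem_filter, Fintype.mem_piFinset, mem_range]
  constructor
  · rintro ⟨-, h⟩
    exact h
  · rintro ⟨h1, h3⟩
    refine ⟨fun i => ?_, h1, h3⟩
    have := single_le_sum (f := g) (fun j _ => Nat.zero_le _) (mem_univ i)
    omega

theorem mem_Bx {ι : Type*} [Fintype ι] [DecidableEq ι] (c : ι → ℕ) (m : ℕ) (x : ι → ℕ) :
    x ∈ Bx c m ↔ (∀ i, x i ≤ c i) ∧ ∑ i, x i = m := by
  unfold Bx
  simp only [mem_filter, Fintype.mem_piFinset, mem_range, Nat.lt_succ_iff]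

theorem mem_XS (S : Finset (Fin n)) (p : (Fin (n + 1) → ℕ) × (Fin (n + 1) → ℕ)) :
    p ∈ XS n S ↔ (p.1, p.2, S) ∈ Om n := by
  unfold XS
  rw [mem_filter, and_iff_right_iff_imp]
  intro h
  unfold Om at h
  simp only [mem_filter, mem_product] at h
  simp only [mem_product]
  exact ⟨h.1.1, h.1.2.1⟩

theorem mem_XX (S : Finset (Fin n)) (x : Fin (n + 1) × Bool → ℕ) :
    x ∈ XX n S ↔ gm x ∈ Gam n S := by
  unfold XX
  rw [mem_filter, and_iff_right_iff_imp]
  intro h
  rw [mem_Gam] at h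
  rw [Fintype.mem_piFinset]
  rintro ⟨i, b⟩
  have h1 := single_le_sum (f := gm x) (fun j _ => Nat.zero_le _) (mem_univ i)
  have h2 : x (i, b) ≤ gm x i := by
    unfold gm
    cases b <;> simp
  rw [mem_range]
  omega

section mv

variable {ι : Type*} [DecidableEq ι]

theorem mv_self {i j : ι} (h : i ≠ j) (x : ι → ℕ) : mv i j x i = x i - 1 := by
  simp [mv, h]

theorem mv_tgt {i j : ι} (h : i ≠ j) (x : ι → ℕ) : mv i j x j = x j + 1 := by
  simp [mv, h.symm]

theorem mv_of_ne {i j l : ι} (h1 : l ≠ i) (h2 : l ≠ j) (x : ι → ℕ) : mv i j x l = x l := by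
  simp [mv, h1, h2]

theorem mv_mv {i j : ι} (h : i ≠ j) {x : ι → ℕ} (hx : 1 ≤ x i) : mv j i (mv i j x) = x := by
  funext l
  by_cases h1 : l = i
  · subst h1
    rw [mv_tgt h.symm, mv_self h]
    omega
  · by_cases h2 : l = j
    · subst h2
      rw [mv_self h.symm, mv_tgt h]
      omega
    · rw [mv_of_ne h2 h1, mv_of_ne h1 h2]

theorem mv_inj {i j : ι} (h : i ≠ j) {x y : ι → ℕ} (hx : 1 ≤ x i) (hy : 1 ≤ y i)
    (hxy : mv i j x = mv i j y) : x = y := by
  rw [← mv_mv h hx, hxy, mv_mv h hy]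

theorem mv_mv' {i j k : ι} (hij : i ≠ j) (hik : i ≠ k) (hjk : j ≠ k) (x : ι → ℕ) :
    mv j k (mv i j x) = mv i k x := by
  funext l
  by_cases h1 : l = i
  · subst h1
    rw [mv_of_ne hij hik, mv_self hij, mv_self hik]
  · by_cases h2 : l = j
    · subst h2
      rw [mv_self hjk, mv_tgt hij, mv_of_ne h1 hjk]
      omega
    · by_cases h3 : l = k
      · subst h3
        rw [mv_tgt hjk, mv_of_ne h1 h2, mv_tgt hik]
      · rw [mv_of_ne h2 h3, mv_of_ne h1 h2, mv_of_ne h1 h3]

theorem sum_mv [Fintype ι] {i j : ι} {x : ι → ℕ} (hx : 1 ≤ x i) : ∑ l, mv i j x l = ∑ l, x l := by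
  have h1 : ∑ l, mv i j x l = ∑ l, (x l - if l = i then 1 else 0) + ∑ l, if l = j then 1 else 0 := by
    unfold mv
    exact sum_add_distrib
  have h2 : ∑ l, (x l - if l = i then 1 else 0) + ∑ l, (if l = i then 1 else 0) = ∑ l, x l := by
    rw [← sum_add_distrib]
    apply sum_congr rfl
    intro l _
    by_cases h : l = i
    · subst h
      simp only [if_true]
      omega
    · simp [h]
  rw [h1]
  simp only [sum_ite_eq', mem_univ, if_true] at h2 ⊢
  exact h2

end mv

/-- Initial sums after moving a unit to the right. -/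
theorem pr_mv {c d : Fin (n + 1)} (h : c < d) {g : Fin (n + 1) → ℕ} (hg : 1 ≤ g c) (k : ℕ) :
    pr (mv c d g) k = if c.val < k ∧ k ≤ d.val then pr g k - 1 else pr g k := by
  have hcd : c ≠ d := h.ne
  induction k with
  | zero => simp [pr_zero]
  | succ k ih =>
    by_cases hk : k < n + 1
    · rw [pr_succ' _ hk, pr_succ' _ hk, ih]
      have hlt : c.val < d.val := h
      by_cases h1 : (⟨k, hk⟩ : Fin (n + 1)) = c
      · have h1' : k = c.val := congrArg Fin.val h1
        rw [h1, mv_self hcd]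
        rw [if_neg (by omega), if_pos (by omega)]
        omega
      · have h1' : k ≠ c.val := fun h' => h1 (Fin.ext h')
        by_cases h2 : (⟨k, hk⟩ : Fin (n + 1)) = d
        · have h2' : k = d.val := congrArg Fin.val h2
          rw [h2, mv_tgt hcd]
          rw [if_pos (by omega), if_neg (by omega)]
          have h3 : 1 ≤ pr g k := by
            have h4 : pr g (c.val + 1) ≤ pr g k := pr_mono g (by omega)
            rw [pr_succ] at h4
            omega
          omega
        · have h2' : k ≠ d.val := fun h' => h2 (Fin.ext h')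
          rw [mv_of_ne h1 h2]
          by_cases h5 : c.val < k ∧ k ≤ d.val
          · rw [if_pos h5, if_pos (by omega)]
            have h3 : 1 ≤ pr g k := by
              have h4 : pr g (c.val + 1) ≤ pr g k := pr_mono g (by omega)
              rw [pr_succ] at h4
              omega
            omega
          · rw [if_neg h5, if_neg (by omega)]
    · have hd : d.val < n + 1 := d.isLt
      rw [pr_top _ (by omega), pr_top _ (by omega), if_neg (by omega), sum_mv hg]

/-- Initial sums after moving a unit to the left. -/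
theorem pr_mv' {c d : Fin (n + 1)} (h : c < d) {g : Fin (n + 1) → ℕ} (hg : 1 ≤ g d) (k : ℕ) :
    pr (mv d c g) k = if c.val < k ∧ k ≤ d.val then pr g k + 1 else pr g k := by
  have h1 : 1 ≤ mv d c g c := by
    rw [mv_tgt h.ne']
    omega
  have h2 := pr_mv h h1 k
  rw [mv_mv h.ne' hg] at h2
  by_cases h3 : c.val < k ∧ k ≤ d.val
  · rw [if_pos h3] at h2 ⊢
    have h4 : pr (mv d c g) (c.val + 1) ≤ pr (mv d c g) k := pr_mono _ (by omega)
    rw [pr_succ] at h4
    omega
  · rw [if_neg h3] at h2 ⊢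
    exact h2.symm

/-- Positivity of initial sums. -/
theorem pr_pos {g : Fin (n + 1) → ℕ} {c : Fin (n + 1)} (hg : 1 ≤ g c) {k : ℕ} (hk : c.val < k) :
    1 ≤ pr g k := by
  have h4 : pr g (c.val + 1) ≤ pr g k := pr_mono g (by omega)
  rw [pr_succ] at h4
  omega

end Pool.Agent.FLP
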