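import Pool.Agent.FLP.HUL

/-!
L - L and L - U. L - L: common points have i + (k - i) t = i' + (k' - i') t, 0 <= t <= 1, i.e. the affine
function d(t) = (1 - t)(i - i') + t (k - k') vanishes; if i = i' then t = 0 (k ≠ k') and the point is the
common endpoint; if k = k' then t = 1; if (i - i')(k - k') > 0 there is no zero; if (i - i')(k - k') < 0
there is a zero 0 < t < 1, which is not an endpoint. L - U: z.1 = 1, z.2 = k = k'.
-/

open Finset

namespace Pool.Agent.FLP

theorem cll_mk {e f : Finset (ℤ × ℤ)} {z : ℝ × ℝ} (p : ℤ × ℤ) (he : p ∈ e) (hf : p ∈ f)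
    (h1 : z.1 = (p.1 : ℝ)) (h2 : z.2 = (p.2 : ℝ)) :
    z ∈ toR '' ((e ∩ f : Finset (ℤ × ℤ)) : Set (ℤ × ℤ)) :=
  ⟨p, by simp [he, hf], Prod.ext h1.symm h2.symm⟩

theorem cll_el {e f : Finset (ℤ × ℤ)} {z : ℝ × ℝ}
    (h : z ∈ toR '' ((e ∩ f : Finset (ℤ × ℤ)) : Set (ℤ × ℤ))) :
    ∃ p ∈ e, p ∈ f ∧ z.1 = (p.1 : ℝ) ∧ z.2 = (p.2 : ℝ) := by
  obtain ⟨p, hp, rfl⟩ := h
  rw [Finset.mem_coe, Finset.mem_inter] at hp
  exact ⟨p, hp.1, hp.2, rfl, rfl⟩

theorem cll_ne {A B t : ℝ} (h0 : 0 ≤ t) (h1 : t ≤ 1) (h : (0 < A ∧ 0 < B) ∨ (A < 0 ∧ B < 0)) :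
    (1 - t) * A + t * B ≠ 0 := by
  intro hz
  rcases h with ⟨hA, hB⟩ | ⟨hA, hB⟩
  · rcases h0.eq_or_lt with h2 | h2
    · rw [← h2] at hz; linarith
    · nlinarith [mul_pos h2 hB, mul_nonneg (sub_nonneg.2 h1) hA.le]
  · rcases h0.eq_or_lt with h2 | h2
    · rw [← h2] at hz; linarith
    · nlinarith [mul_pos h2 (neg_pos.2 hB), mul_nonneg (sub_nonneg.2 h1) (neg_pos.2 hA).le]

theorem cll_zero {A B : ℝ} (h : (A < 0 ∧ 0 < B) ∨ (0 < A ∧ B < 0)) :
    ∃ t : ℝ, 0 < t ∧ t < 1 ∧ (1 - t) * A + t * B = 0 := by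
  rcases h with ⟨hA, hB⟩ | ⟨hA, hB⟩
  · have hAB : 0 < B - A := by linarith
    refine ⟨-A / (B - A), div_pos (by linarith) hAB, (div_lt_one hAB).2 (by linarith), ?_⟩
    field_simp
    ring
  · have hAB : 0 < A - B := by linarith
    refine ⟨A / (A - B), div_pos hA hAB, (div_lt_one hAB).2 (by linarith), ?_⟩
    field_simp
    ring

theorem cll {i k i' k' : ℕ} (h : Ed.L i k ≠ Ed.L i' k') :
    cpt (Ed.L i k).toF (Ed.L i' k').toF ↔ ¬ (i < i' ∧ k' < k) ∧ ¬ (i' < i ∧ k < k') := by
  constructor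
  · intro hc
    by_contra hcon
    have hs : ((i : ℝ) - i' < 0 ∧ 0 < (k : ℝ) - k') ∨ (0 < (i : ℝ) - i' ∧ (k : ℝ) - k' < 0) := by
      rw [not_and_or, not_not, not_not] at hcon
      rcases hcon with ⟨h1, h2⟩ | ⟨h1, h2⟩
      · left
        have h1' : (i : ℝ) < i' := by exact_mod_cast h1
        have h2' : (k' : ℝ) < k := by exact_mod_cast h2
        constructor <;> linarith
      · right
        have h1' : (i' : ℝ) < i := by exact_mod_cast h1
        have h2' : (k : ℝ) < k' := by exact_mod_cast h2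
        constructor <;> linarith
    obtain ⟨t, h0, h1, hz⟩ := cll_zero hs
    have h2 := hc (t, (i : ℝ) + ((k : ℝ) - i) * t) ⟨(hl_L i k _).2 ⟨h0.le, h1.le, rfl⟩,
      (hl_L i' k' _).2 ⟨h0.le, h1.le, by simp only; linarith⟩⟩
    obtain ⟨p, hp, -, h3, -⟩ := cll_el h2
    simp only [Ed.toF, mem_insert, mem_singleton] at hp
    simp only at h3
    rcases hp with rfl | rfl
    · simp only [Int.cast_zero] at h3; linarith
    · simp only [Int.cast_one] at h3; linarith
  · rintro ⟨h1, h2⟩ z ⟨hz1, hz2⟩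
    rw [hl_L] at hz1 hz2
    obtain ⟨a1, a2, a3⟩ := hz1
    obtain ⟨-, -, b3⟩ := hz2
    have hz : (1 - z.1) * ((i : ℝ) - i') + z.1 * ((k : ℝ) - k') = 0 := by linarith
    by_cases hi : i = i'
    · subst hi
      have hk : k ≠ k' := fun hk => h (by rw [hk])
      have hk' : (k : ℝ) - k' ≠ 0 := by
        intro h3; apply hk; have : (k : ℝ) = k' := by linarith
        exact_mod_cast this
      have ht : z.1 = 0 := by
        have : z.1 * ((k : ℝ) - k') = 0 := by linarith
        rcases mul_eq_zero.1 this with h3 | h3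
        · exact h3
        · exact absurd h3 hk'
      exact cll_mk (0, (i : ℤ)) (by simp [Ed.toF]) (by simp [Ed.toF]) (by simp [ht])
        (by simp [a3, ht])
    · by_cases hk : k = k'
      · subst hk
        have hi' : (i : ℝ) - i' ≠ 0 := by
          intro h3; apply hi; have : (i : ℝ) = i' := by linarith
          exact_mod_cast this
        have ht : z.1 = 1 := by
          have : (1 - z.1) * ((i : ℝ) - i') = 0 := by linarith
          rcases mul_eq_zero.1 this with h3 | h3
          · linarith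
          · exact absurd h3 hi'
        exact cll_mk (1, (k : ℤ)) (by simp [Ed.toF]) (by simp [Ed.toF]) (by simp [ht])
          (by simp [a3, ht])
      · exfalso
        refine cll_ne a1 a2 ?_ hz
        rcases lt_or_gt_of_ne hi with h3 | h3
        · right
          have h4 : k < k' := by
            by_contra h5
            exact h1 ⟨h3, by omega⟩
          have h3' : (i : ℝ) < i' := by exact_mod_cast h3
          have h4' : (k : ℝ) < k' := by exact_mod_cast h4
          constructor <;> linarith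
        · left
          have h4 : k' < k := by
            by_contra h5
            exact h2 ⟨h3, by omega⟩
          have h3' : (i' : ℝ) < i := by exact_mod_cast h3
          have h4' : (k' : ℝ) < k := by exact_mod_cast h4
          constructor <;> linarith

theorem clu (i k k' j : ℕ) : cpt (Ed.L i k).toF (Ed.U k' j).toF := by
  rintro z ⟨hz1, hz2⟩
  rw [hl_L] at hz1
  rw [hl_U] at hz2
  obtain ⟨a1, a2, a3⟩ := hz1
  obtain ⟨b1, b2, b3⟩ := hz2
  have ht : z.1 = 1 := le_antisymm a2 b1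
  rw [ht] at a3 b3
  have hk : k = k' := by
    have : (k : ℝ) = k' := by linarith
    exact_mod_cast this
  subst hk
  exact cll_mk (1, (k : ℤ)) (by simp [Ed.toF]) (by simp [Ed.toF]) (by simp [ht])
    (by simp; linarith)

end Pool.Agent.FLP
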