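import Pool.Agent.FLP.HUL
import Pool.Agent.FLP.CLL

/-!
L - G. Common points: 0 <= t <= 1, 2 i + 2 (k - i) t = 2 i' + (j' - i') t, i.e. the affine function
d(t) = (1 - t) 2 (i - i') + t (2 k - i' - j') vanishes; d(1) ≠ 0 (odd). If i = i': only t = 0, common
endpoint. If d(0) d(1) > 0 no zero. If d(0) d(1) < 0: a zero with 0 < t < 1, not an endpoint.
-/

open Finset

namespace Pool.Agent.FLP

theorem clg {i k i' j' : ℕ} (h : (i' + j') % 2 = 1) :
    cpt (Ed.L i k).toF (Ed.G i' j').toF ↔
      ¬ (i < i' ∧ i' + j' < 2 * k) ∧ ¬ (i' < i ∧ 2 * k < i' + j') := by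
  constructor
  · intro hc
    by_contra hcon
    have hs : (2 * ((i : ℝ) - i') < 0 ∧ 0 < 2 * (k : ℝ) - i' - j') ∨
        (0 < 2 * ((i : ℝ) - i') ∧ 2 * (k : ℝ) - i' - j' < 0) := by
      rw [not_and_or, not_not, not_not] at hcon
      rcases hcon with ⟨h1, h2⟩ | ⟨h1, h2⟩
      · left
        have h1' : (i : ℝ) < i' := by exact_mod_cast h1
        have h2' : (i' : ℝ) + j' < 2 * k := by exact_mod_cast h2
        constructor <;> linarith
      · right
        have h1' : (i' : ℝ) < i := by exact_mod_cast h1
        have h2' : 2 * (k : ℝ) < i' + j' := by exact_mod_cast h2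
        constructor <;> linarith
    obtain ⟨t, h0, h1, hz⟩ := cll_zero hs
    have h2 := hc (t, (i : ℝ) + ((k : ℝ) - i) * t)
      ⟨(hl_L i k _).2 ⟨h0.le, h1.le, rfl⟩,
      (hl_G i' j' _).2 ⟨h0.le, by simp only; linarith, by simp only; linarith⟩⟩
    obtain ⟨p, hp, -, h3, -⟩ := cll_el h2
    simp only [Ed.toF, mem_insert, mem_singleton] at hp
    simp only at h3
    rcases hp with rfl | rfl
    · simp only [Int.cast_zero] at h3; linarith
    · simp only [Int.cast_one] at h3; linarith
  · rintro ⟨h1, h2⟩ z ⟨hz1, hz2⟩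
    rw [hl_L] at hz1
    rw [hl_G] at hz2
    obtain ⟨a1, a2, a3⟩ := hz1
    obtain ⟨-, -, b3⟩ := hz2
    have hz : (1 - z.1) * (2 * ((i : ℝ) - i')) + z.1 * (2 * (k : ℝ) - i' - j') = 0 := by
      linarith
    by_cases hi : i = i'
    · subst hi
      have hk' : 2 * (k : ℝ) - i - j' ≠ 0 := by
        intro h3
        have h4 : 2 * (k : ℝ) = i + j' := by linarith
        have h5 : 2 * k = i + j' := by exact_mod_cast h4
        omega
      have ht : z.1 = 0 := by
        have : z.1 * (2 * (k : ℝ) - i - j') = 0 := by linarith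
        rcases mul_eq_zero.1 this with h3 | h3
        · exact h3
        · exact absurd h3 hk'
      exact cll_mk (0, (i : ℤ)) (by simp [Ed.toF]) (by simp [Ed.toF]) (by simp [ht])
        (by simp [a3, ht])
    · exfalso
      refine cll_ne a1 a2 ?_ hz
      rcases lt_or_gt_of_ne hi with h3 | h3
      · right
        have h4 : 2 * k < i' + j' := by
          by_contra h5
          exact h1 ⟨h3, by omega⟩
        have h3' : (i : ℝ) < i' := by exact_mod_cast h3
        have h4' : 2 * (k : ℝ) < i' + j' := by exact_mod_cast h4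
        constructor <;> linarith
      · left
        have h4 : i' + j' < 2 * k := by
          by_contra h5
          exact h2 ⟨h3, by omega⟩
        have h3' : (i' : ℝ) < i := by exact_mod_cast h3
        have h4' : (i' : ℝ) + j' < 2 * k := by exact_mod_cast h4
        constructor <;> linarith

end Pool.Agent.FLP
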