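import Pool.Agent.FLP.HUL
import Pool.Agent.FLP.CLL

/-!
U - G, as L - G (see CLG) with 1 <= z.1 <= 2; endpoint at z.1 = 2.
-/

open Finset

namespace Pool.Agent.FLP

theorem cug {k j i' j' : ℕ} (h : (i' + j') % 2 = 1) :
    cpt (Ed.U k j).toF (Ed.G i' j').toF ↔
      ¬ (j < j' ∧ i' + j' < 2 * k) ∧ ¬ (j' < j ∧ 2 * k < i' + j') := by
  constructor
  · intro hc
    by_contra hcon
    have hs : (2 * (k : ℝ) - i' - j' < 0 ∧ 0 < 2 * ((j : ℝ) - j')) ∨
        (0 < 2 * (k : ℝ) - i' - j' ∧ 2 * ((j : ℝ) - j') < 0) := by
      rw [not_and_or, not_not, not_not] at hcon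
      rcases hcon with ⟨h1, h2⟩ | ⟨h1, h2⟩
      · right
        have h1' : (j : ℝ) < j' := by exact_mod_cast h1
        have h2' : (i' : ℝ) + j' < 2 * k := by exact_mod_cast h2
        constructor <;> linarith
      · left
        have h1' : (j' : ℝ) < j := by exact_mod_cast h1
        have h2' : 2 * (k : ℝ) < i' + j' := by exact_mod_cast h2
        constructor <;> linarith
    obtain ⟨t, h0, h1, hz⟩ := cll_zero hs
    have h2 := hc (t + 1, (k : ℝ) + ((j : ℝ) - k) * t)
      ⟨(hl_U k j _).2 ⟨by simp only; linarith, by simp only; linarith, by simp only; ring⟩,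
      (hl_G i' j' _).2 ⟨by simp only; linarith, by simp only; linarith, by simp only; linarith⟩⟩
    obtain ⟨p, hp, -, h3, -⟩ := cll_el h2
    simp only [Ed.toF, mem_insert, mem_singleton] at hp
    simp only at h3
    rcases hp with rfl | rfl
    · simp only [Int.cast_one] at h3; linarith
    · simp only [Int.cast_ofNat] at h3; linarith
  · rintro ⟨h1, h2⟩ z ⟨hz1, hz2⟩
    rw [hl_U] at hz1
    rw [hl_G] at hz2
    obtain ⟨a1, a2, a3⟩ := hz1
    obtain ⟨-, -, b3⟩ := hz2
    have hz : (1 - (z.1 - 1)) * (2 * (k : ℝ) - i' - j') + (z.1 - 1) * (2 * ((j : ℝ) - j')) = 0 := by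
      linarith
    by_cases hj : j = j'
    · subst hj
      have hk' : 2 * (k : ℝ) - i' - j ≠ 0 := by
        intro h3
        have h4 : 2 * (k : ℝ) = i' + j := by linarith
        have h5 : 2 * k = i' + j := by exact_mod_cast h4
        omega
      have ht : z.1 = 2 := by
        have : (2 - z.1) * (2 * (k : ℝ) - i' - j) = 0 := by linarith
        rcases mul_eq_zero.1 this with h3 | h3
        · linarith
        · exact absurd h3 hk'
      exact cll_mk (2, (j : ℤ)) (by simp [Ed.toF]) (by simp [Ed.toF]) (by simp [ht])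
        (by rw [a3, ht]; push_cast; ring)
    · exfalso
      refine cll_ne (t := z.1 - 1) (by linarith) (by linarith) ?_ hz
      rcases lt_or_gt_of_ne hj with h3 | h3
      · right
        have h4 : 2 * k < i' + j' := by
          by_contra h5
          exact h1 ⟨h3, by omega⟩
        have h3' : (j : ℝ) < j' := by exact_mod_cast h3
        have h4' : 2 * (k : ℝ) < i' + j' := by exact_mod_cast h4
        constructor <;> linarith
      · left
        have h4 : i' + j' < 2 * k := by
          by_contra h5
          exact h2 ⟨h3, by omega⟩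
        have h3' : (j' : ℝ) < j := by exact_mod_cast h3
        have h4' : (i' : ℝ) + j' < 2 * k := by exact_mod_cast h4
        constructor <;> linarith

end Pool.Agent.FLP
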