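import Pool.Agent.FLP.HUL
import Pool.Agent.FLP.CLL

/-!
U - U, as L - L (see CLL) with t = z.1 - 1.
-/

open Finset

namespace Pool.Agent.FLP

theorem cuu {k j k' j' : ℕ} (h : Ed.U k j ≠ Ed.U k' j') :
    cpt (Ed.U k j).toF (Ed.U k' j').toF ↔ ¬ (k < k' ∧ j' < j) ∧ ¬ (k' < k ∧ j < j') := by
  constructor
  · intro hc
    by_contra hcon
    have hs : ((k : ℝ) - k' < 0 ∧ 0 < (j : ℝ) - j') ∨ (0 < (k : ℝ) - k' ∧ (j : ℝ) - j' < 0) := by
      rw [not_and_or, not_not, not_not] at hcon
      rcases hcon with ⟨h1, h2⟩ | ⟨h1, h2⟩
      · left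
        have h1' : (k : ℝ) < k' := by exact_mod_cast h1
        have h2' : (j' : ℝ) < j := by exact_mod_cast h2
        constructor <;> linarith
      · right
        have h1' : (k' : ℝ) < k := by exact_mod_cast h1
        have h2' : (j : ℝ) < j' := by exact_mod_cast h2
        constructor <;> linarith
    obtain ⟨t, h0, h1, hz⟩ := cll_zero hs
    have h2 := hc (t + 1, (k : ℝ) + ((j : ℝ) - k) * t)
      ⟨(hl_U k j _).2 ⟨by simp only; linarith, by simp only; linarith, by simp only; ring⟩,
      (hl_U k' j' _).2 ⟨by simp only; linarith, by simp only; linarith, by simp only; linarith⟩⟩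
    obtain ⟨p, hp, -, h3, -⟩ := cll_el h2
    simp only [Ed.toF, mem_insert, mem_singleton] at hp
    simp only at h3
    rcases hp with rfl | rfl
    · simp only [Int.cast_one] at h3; linarith
    · simp only [Int.cast_ofNat] at h3; linarith
  · rintro ⟨h1, h2⟩ z ⟨hz1, hz2⟩
    rw [hl_U] at hz1 hz2
    obtain ⟨a1, a2, a3⟩ := hz1
    obtain ⟨-, -, b3⟩ := hz2
    have hz : (1 - (z.1 - 1)) * ((k : ℝ) - k') + (z.1 - 1) * ((j : ℝ) - j') = 0 := by linarith
    by_cases hi : k = k'
    · subst hi
      have hk : j ≠ j' := fun hk => h (by rw [hk])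
      have hk' : (j : ℝ) - j' ≠ 0 := by
        intro h3; apply hk; have : (j : ℝ) = j' := by linarith
        exact_mod_cast this
      have ht : z.1 = 1 := by
        have : (z.1 - 1) * ((j : ℝ) - j') = 0 := by linarith
        rcases mul_eq_zero.1 this with h3 | h3
        · linarith
        · exact absurd h3 hk'
      exact cll_mk (1, (k : ℤ)) (by simp [Ed.toF]) (by simp [Ed.toF]) (by simp [ht])
        (by simp [a3, ht])
    · by_cases hk : j = j'
      · subst hk
        have hi' : (k : ℝ) - k' ≠ 0 := by
          intro h3; apply hi; have : (k : ℝ) = k' := by linarith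
          exact_mod_cast this
        have ht : z.1 = 2 := by
          have : (1 - (z.1 - 1)) * ((k : ℝ) - k') = 0 := by linarith
          rcases mul_eq_zero.1 this with h3 | h3
          · linarith
          · exact absurd h3 hi'
        exact cll_mk (2, (j : ℤ)) (by simp [Ed.toF]) (by simp [Ed.toF]) (by simp [ht])
          (by rw [a3, ht]; push_cast; ring)
      · exfalso
        refine cll_ne (t := z.1 - 1) (by linarith) (by linarith) ?_ hz
        rcases lt_or_gt_of_ne hi with h3 | h3
        · right
          have h4 : j < j' := by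
            by_contra h5
            exact h1 ⟨h3, by omega⟩
          have h3' : (k : ℝ) < k' := by exact_mod_cast h3
          have h4' : (j : ℝ) < j' := by exact_mod_cast h4
          constructor <;> linarith
        · left
          have h4 : j' < j := by
            by_contra h5
            exact h2 ⟨h3, by omega⟩
          have h3' : (k' : ℝ) < k := by exact_mod_cast h3
          have h4' : (j' : ℝ) < j := by exact_mod_cast h4
          constructor <;> linarith

end Pool.Agent.FLP
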