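import Pool.Agent.FLP.HUL
import Pool.Agent.FLP.CLL

/-!
V - G. A common point has z.1 = x in {0,1,2} and 2 z.2 = 2 i + (i' - i) x; x = 0: z.2 = i, x = 2: z.2 = i', both
common endpoints; x = 1: z.2 = (i + i')/2 is in [j, j+1] iff i + i' = 2 j + 1 (odd), and it is not an
endpoint.
-/

open Finset

namespace Pool.Agent.FLP

/-- An integer point of a unit segment is an endpoint. -/
theorem cvg_int {i j : ℕ} (h1 : (j : ℝ) ≤ i) (h2 : (i : ℝ) ≤ (j : ℝ) + 1) : i = j ∨ i = j + 1 := by
  have h1' : j ≤ i := by exact_mod_cast h1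
  have h2' : i ≤ j + 1 := by exact_mod_cast h2
  omega

theorem cvg_V (x i j : ℕ) (h1 : (j : ℝ) ≤ i) (h2 : (i : ℝ) ≤ (j : ℝ) + 1) :
    ((x : ℤ), (i : ℤ)) ∈ (Ed.V x j).toF := by
  rcases cvg_int h1 h2 with rfl | rfl
  · simp [Ed.toF]
  · simp [Ed.toF]

theorem cvg {x j i i' : ℕ} (hx : x ≤ 2) (h : (i + i') % 2 = 1) :
    cpt (Ed.V x j).toF (Ed.G i i').toF ↔ (x = 1 → i + i' ≠ 2 * j + 1) := by
  constructor
  · rintro hc rfl h1
    have h1' : (i : ℝ) + i' = 2 * j + 1 := by exact_mod_cast h1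
    have h2 := hc (1, (j : ℝ) + 1 / 2)
      ⟨(hl_V 1 j _).2 ⟨by simp, by simp only; linarith, by simp only; linarith⟩,
      (hl_G i i' _).2 ⟨by simp, by simp only; norm_num, by simp only; linarith⟩⟩
    obtain ⟨p, hp, -, -, h3⟩ := cll_el h2
    simp only [Ed.toF, mem_insert, mem_singleton] at hp
    simp only at h3
    rcases hp with rfl | rfl
    · simp only [Int.cast_natCast] at h3; linarith
    · push_cast at h3; linarith
  · rintro h1 z ⟨hz1, hz2⟩
    rw [hl_V] at hz1
    rw [hl_G] at hz2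
    obtain ⟨a1, a2, a3⟩ := hz1
    obtain ⟨-, -, b3⟩ := hz2
    rw [a1] at b3
    interval_cases x
    · have hz : z.2 = i := by push_cast at b3; linarith
      rw [hz] at a2 a3
      exact cll_mk (0, (i : ℤ)) (by simpa using cvg_V 0 i j a2 a3) (by simp [Ed.toF])
        (by simp [a1]) (by simp [hz])
    · exfalso
      have h2 := h1 rfl
      have e1 : (2 : ℝ) * j ≤ i + i' := by push_cast at b3; linarith
      have e2 : (i : ℝ) + i' ≤ 2 * j + 2 := by push_cast at b3; linarith
      have e1' : 2 * j ≤ i + i' := by exact_mod_cast e1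
      have e2' : i + i' ≤ 2 * j + 2 := by exact_mod_cast e2
      omega
    · have hz : z.2 = i' := by push_cast at b3; linarith
      rw [hz] at a2 a3
      exact cll_mk (2, (i' : ℤ)) (by simpa using cvg_V 2 i' j a2 a3) (by simp [Ed.toF])
        (by simp [a1]) (by simp [hz])

end Pool.Agent.FLP
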