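import Pool.Agent.FLP.CVX
import Pool.Agent.FLP.CVG
import Pool.Agent.FLP.CLL
import Pool.Agent.FLP.CUU
import Pool.Agent.FLP.CLG
import Pool.Agent.FLP.CUG
import Pool.Agent.FLP.CGG

/-!
Assembly of the crossing criteria: cpt is symmetric (inter_comm), cmp is symmetric (cases), 16 cases.
-/

open Finset

namespace Pool.Agent.FLP

theorem cmp_symm {c c' : Ed} (h : c.cmp c') : c'.cmp c := by
  cases c <;> cases c' <;> simp only [Ed.cmp] at h ⊢ <;> first | exact h | exact ⟨h.2, h.1⟩

theorem CMA_cpt_symm {e f : Finset (ℤ × ℤ)} (h : cpt e f) : cpt f e := by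
  intro x hx
  rw [Finset.inter_comm]
  exact h x ⟨hx.2, hx.1⟩

theorem CMA_comm {e f : Finset (ℤ × ℤ)} : cpt e f ↔ cpt f e :=
  ⟨CMA_cpt_symm, CMA_cpt_symm⟩

theorem cma {n : ℕ} {c c' : Ed} (h : c.ok n) (h' : c'.ok n) (hne : c ≠ c') :
    cpt c.toF c'.toF ↔ c.cmp c' := by
  cases c with
  | V x j =>
    cases c' with
    | V x' j' => exact iff_of_true (cvv hne) trivial
    | L i k => exact iff_of_true (cvl x j i k) trivial
    | U k i => exact iff_of_true (cvu x j k i) trivial
    | G i i' => exact cvg h.1 h'.2.2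
  | L i k =>
    cases c' with
    | V x j => exact iff_of_true (CMA_cpt_symm (cvl x j i k)) trivial
    | L i' k' => exact cll hne
    | U k' j => exact iff_of_true (clu i k k' j) trivial
    | G i' j' => exact clg h'.2.2
  | U k j =>
    cases c' with
    | V x i => exact iff_of_true (CMA_cpt_symm (cvu x i k j)) trivial
    | L i' k' => exact iff_of_true (CMA_cpt_symm (clu i' k' k j)) trivial
    | U k' j' => exact cuu hne
    | G i' j' => exact cug h'.2.2
  | G i j =>
    cases c' with
    | V x j' => exact CMA_comm.trans (cvg h'.1 h.2.2)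
    | L i' k' => exact CMA_comm.trans (clg h.2.2)
    | U k' j' => exact CMA_comm.trans (cug h.2.2)
    | G i' j' => exact cgg hne

end Pool.Agent.FLP
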