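import Pool.Agent.FLP.Bas

/-!
Counting on a segment of slots: the γ which vanish outside l..r and have the sum m, weighted with
prod (γ i + 1). Induction on r - l: sum over the value g of γ r: sum_{g=0}^m (g+1) C(2t + m - g - 1, m - g)
= C(2t + 2 + m - 1, m) (apply the hockey stick identity Nat.sum_range_multichoose or
Nat.sum_Icc_choose twice), base: one slot, m + 1 = C(m + 1, m). Alternative: Finset.Nat.antidiagonal and
Nat.multichoose. The sum over γ with γ r = g: bijection with the γ vanishing at r (Function.update).
-/

open Finset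

namespace Pool.Agent.FLP

variable {n : ℕ}

/-- Occupation numbers on the slots `l, …, r` with the sum `m`. -/
def Sg (n l r m : ℕ) : Finset (Fin (n + 1) → ℕ) :=
  (Fintype.piFinset fun _ => range (m + 1)).filter
    fun g => (∀ i, i.val < l ∨ r < i.val → g i = 0) ∧ ∑ i, g i = m

theorem mem_Sg (l r m : ℕ) (g : Fin (n + 1) → ℕ) :
    g ∈ Sg n l r m ↔ (∀ i, i.val < l ∨ r < i.val → g i = 0) ∧ ∑ i, g i = m := by
  unfold Sg
  simp only [mem_filter, Fintype.mem_piFinset, mem_range, and_iff_right_iff_imp]
  rintro ⟨-, h⟩ i
  have := single_le_sum (f := g) (fun j _ => Nat.zero_le _) (mem_univ i)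
  omega

private theorem cna_hs (T m : ℕ) : ∑ k ∈ range (m + 1), (T + k).choose k = (T + 1 + m).choose m := by
  induction m with
  | zero => simp
  | succ m ih =>
    rw [sum_range_succ, ih, show T + 1 + (m + 1) = (T + 1 + m) + 1 by omega,
      Nat.choose_succ_succ', show T + (m + 1) = T + 1 + m by omega]

private theorem cna_hs2 (T m : ℕ) :
    ∑ k ∈ range (m + 1), (m - k + 1) * (T + k).choose k = (T + 2 + m).choose m := by
  induction m with
  | zero => simp
  | succ m ih =>
    have h1 : ∑ k ∈ range (m + 1), (m + 1 - k + 1) * (T + k).choose k =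
        ∑ k ∈ range (m + 1), ((m - k + 1) * (T + k).choose k + (T + k).choose k) := by
      apply sum_congr rfl
      intro k hk
      rw [mem_range] at hk
      rw [show m + 1 - k + 1 = (m - k + 1) + 1 by omega]
      ring
    rw [sum_range_succ, h1, sum_add_distrib, ih, cna_hs]
    have h2 : (T + 2 + (m + 1)).choose (m + 1) =
        (T + 2 + m).choose m + (T + 2 + m).choose (m + 1) := by
      rw [show T + 2 + (m + 1) = (T + 2 + m) + 1 by omega, Nat.choose_succ_succ']
    have h3 : (T + 2 + m).choose (m + 1) =
        (T + 1 + m).choose m + (T + 1 + m).choose (m + 1) := by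
      rw [show T + 2 + m = (T + 1 + m) + 1 by omega, Nat.choose_succ_succ']
    rw [h2, h3, show T + (m + 1) = T + 1 + m by omega]
    simp
    ring

private theorem cna_hs3 (T m : ℕ) :
    ∑ j ∈ range (m + 1), (j + 1) * (T + (m - j)).choose (m - j) = (T + 2 + m).choose m := by
  rw [← cna_hs2, ← sum_flip]
  apply sum_congr rfl
  intro k hk
  rw [mem_range] at hk
  rw [show m - (m - k) = k by omega]

private theorem cna_base {l m : ℕ} (hl : l ≤ n) :
    ∑ g ∈ Sg n l l m, ∏ i, (g i + 1) = m + 1 := by
  have hl' : l < n + 1 := by omega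
  have h1 : Sg n l l m = {Pi.single (⟨l, hl'⟩ : Fin (n + 1)) m} := by
    ext g
    rw [mem_Sg, mem_singleton]
    constructor
    · rintro ⟨h2, h3⟩
      have h4 : ∀ i : Fin (n + 1), i ≠ ⟨l, hl'⟩ → g i = 0 := by
        intro i hi
        apply h2
        have : i.val ≠ l := fun h => hi (Fin.ext h)
        omega
      have h5 : ∑ i, g i = g ⟨l, hl'⟩ := by
        rw [Finset.sum_eq_single (⟨l, hl'⟩ : Fin (n + 1))]
        · intro b _ hb
          exact h4 b hb
        · intro h
          exact absurd (mem_univ _) h
      funext i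
      by_cases hi : i = ⟨l, hl'⟩
      · subst hi
        rw [Pi.single_eq_same]
        omega
      · rw [Pi.single_eq_of_ne hi, h4 i hi]
    · rintro rfl
      refine ⟨?_, ?_⟩
      · intro i hi
        apply Pi.single_eq_of_ne
        intro h
        rw [h] at hi
        simp at hi
      · rw [Finset.sum_pi_single']
        simp
  rw [h1, sum_singleton, Finset.prod_eq_single (⟨l, hl'⟩ : Fin (n + 1))]
  · rw [Pi.single_eq_same]
  · intro b _ hb
    rw [Pi.single_eq_of_ne hb, zero_add]
  · intro h
    exact absurd (mem_univ _) h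

private theorem cna_step {l r m : ℕ} (hlr : l ≤ r) (hr : r + 1 ≤ n) :
    ∑ g ∈ Sg n l (r + 1) m, ∏ i, (g i + 1) =
      ∑ j ∈ range (m + 1), (j + 1) * ∑ g ∈ Sg n l r (m - j), ∏ i, (g i + 1) := by
  set c : Fin (n + 1) := ⟨r + 1, by omega⟩ with hc
  have hmaps : ∀ g ∈ Sg n l (r + 1) m, g c ∈ range (m + 1) := by
    intro g hg
    rw [mem_Sg] at hg
    have := single_le_sum (f := g) (fun j _ => Nat.zero_le _) (mem_univ c)
    rw [mem_range]
    omega
  rw [← sum_fiberwise_of_maps_to hmaps]
  apply sum_congr rfl
  intro j hj
  rw [mem_range] at hj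
  rw [mul_sum]
  apply sum_nbij' (fun g => Function.update g c 0) (fun g => Function.update g c j)
  · intro g hg
    rw [mem_filter, mem_Sg] at hg
    obtain ⟨⟨h1, h2⟩, h3⟩ := hg
    rw [mem_Sg]
    refine ⟨?_, ?_⟩
    · intro i hi
      by_cases hic : i = c
      · rw [hic, Function.update_self]
      · rw [Function.update_of_ne hic]
        apply h1
        have : i.val ≠ r + 1 := fun h => hic (Fin.ext h)
        omega
    · have h4 := add_sum_erase univ g (mem_univ c)
      have h5 := add_sum_erase univ (Function.update g c 0) (mem_univ c)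
      have h6 : ∑ x ∈ univ.erase c, Function.update g c 0 x = ∑ x ∈ univ.erase c, g x := by
        apply sum_congr rfl
        intro x hx
        rw [Function.update_of_ne (ne_of_mem_erase hx)]
      rw [Function.update_self, h6] at h5
      omega
  · intro g hg
    rw [mem_Sg] at hg
    obtain ⟨h1, h2⟩ := hg
    have hgc : g c = 0 := h1 c (Or.inr (by simp [hc]))
    rw [mem_filter, mem_Sg]
    refine ⟨⟨?_, ?_⟩, ?_⟩
    · intro i hi
      by_cases hic : i = c
      · rw [hic, hc] at hi
        simp at hi
        omega
      · rw [Function.update_of_ne hic]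
        apply h1
        omega
    · have h4 := add_sum_erase univ g (mem_univ c)
      have h5 := add_sum_erase univ (Function.update g c j) (mem_univ c)
      have h6 : ∑ x ∈ univ.erase c, Function.update g c j x = ∑ x ∈ univ.erase c, g x := by
        apply sum_congr rfl
        intro x hx
        rw [Function.update_of_ne (ne_of_mem_erase hx)]
      rw [Function.update_self, h6] at h5
      omega
    · rw [Function.update_self]
  · intro g hg
    rw [mem_filter] at hg
    rw [Function.update_idem, ← hg.2, Function.update_eq_self]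
  · intro g hg
    rw [mem_Sg] at hg
    have hgc : g c = 0 := hg.1 c (Or.inr (by simp [hc]))
    rw [Function.update_idem]
    have h7 := Function.update_eq_self c g
    rw [hgc] at h7
    exact h7
  · intro g hg
    rw [mem_filter] at hg
    rw [← mul_prod_erase univ (fun i => g i + 1) (mem_univ c),
      ← mul_prod_erase univ (fun i => Function.update g c 0 i + 1) (mem_univ c)]
    rw [Function.update_self, hg.2]
    have h6 : ∏ x ∈ univ.erase c, (Function.update g c 0 x + 1) =
        ∏ x ∈ univ.erase c, (g x + 1) := by
      apply prod_congr rfl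
      intro x hx
      rw [Function.update_of_ne (ne_of_mem_erase hx)]
    rw [h6]
    ring

theorem cna {l r m : ℕ} (hlr : l ≤ r) (hr : r ≤ n) :
    ∑ g ∈ Sg n l r m, ∏ i, (g i + 1) = (2 * (r - l + 1) + m - 1).choose m := by
  induction r, hlr using Nat.le_induction generalizing m with
  | base =>
    rw [cna_base hr, show 2 * (l - l + 1) + m - 1 = m + 1 by omega, Nat.choose_succ_self_right]
  | succ r hlr ih =>
    rw [cna_step hlr hr]
    have h1 : ∀ j ∈ range (m + 1), (j + 1) * ∑ g ∈ Sg n l r (m - j), ∏ i, (g i + 1) =
        (j + 1) * ((2 * (r - l) + 1) + (m - j)).choose (m - j) := by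
      intro j _
      rw [ih (by omega), show 2 * (r - l + 1) + (m - j) - 1 = (2 * (r - l) + 1) + (m - j) by omega]
    rw [sum_congr rfl h1, cna_hs3, show 2 * (r + 1 - l + 1) + m - 1 = 2 * (r - l) + 1 + 2 + m by omega]

end Pool.Agent.FLP
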