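import Pool.Agent.FLP.CNA

/-!
Splitting at the first mark. Gq n S l: occupation numbers of the slots from l on, when the initial sum
before the slot l is pv l. cnb_last: Gq n S l = Sg n l n (2n - pv l), cna; en n n = 2n. cnb: bijection
γ ↦ (γ restricted to l..r, γ restricted to r+1..n) from Gq n S l to Sg n l r (2r+1 - pv l) ×
Gq n S (r+1): the condition at r fixes the sum of the first part, pv (r+1) = 2r+1; for the other marks k >=
l one has k > r and pv l + pr γ (k+1) = (2r+1) + pr γ2 (k+1). prod (γ i + 1) is the product of the two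
products. en n r = 2r+1 since r < n.
-/

open Finset

namespace Pool.Agent.FLP

variable {n : ℕ}

/-- Occupation numbers from the slot `l` on. -/
def Gq (n : ℕ) (S : Finset (Fin n)) (l : ℕ) : Finset (Fin (n + 1) → ℕ) :=
  (Fintype.piFinset fun _ => range (2 * n + 1)).filter
    fun g => (∀ i, i.val < l → g i = 0) ∧ pv l + ∑ i, g i = 2 * n ∧
      ∀ k ∈ S, l ≤ k.val → pv l + pr g (k.val + 1) = 2 * k.val + 1

theorem mem_Gq (S : Finset (Fin n)) (l : ℕ) (g : Fin (n + 1) → ℕ) :
    g ∈ Gq n S l ↔ (∀ i, i.val < l → g i = 0) ∧ pv l + ∑ i, g i = 2 * n ∧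
      ∀ k ∈ S, l ≤ k.val → pv l + pr g (k.val + 1) = 2 * k.val + 1 := by
  unfold Gq
  simp only [mem_filter, Fintype.mem_piFinset, mem_range, and_iff_right_iff_imp]
  rintro ⟨-, h, -⟩ i
  have := single_le_sum (f := g) (fun j _ => Nat.zero_le _) (mem_univ i)
  omega

theorem Gam_eq (S : Finset (Fin n)) : Gam n S = Gq n S 0 := by
  ext g
  rw [mem_Gam, mem_Gq]
  simp [pv]

theorem cnb_last {S : Finset (Fin n)} {l : ℕ} (hl : l ≤ n) (h : ∀ k ∈ S, k.val < l) :
    ∑ g ∈ Gq n S l, ∏ i, (g i + 1) = Gw n l n := by
  have hpv : pv l ≤ 2 * n := by unfold pv; omega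
  have hen : en n n = 2 * n := by unfold en; omega
  have h1 : Gq n S l = Sg n l n (2 * n - pv l) := by
    ext g
    rw [mem_Gq, mem_Sg]
    constructor
    · rintro ⟨h1, h2, -⟩
      refine ⟨?_, by omega⟩
      intro i hi
      have := i.isLt
      exact h1 i (by omega)
    · rintro ⟨h1, h2⟩
      refine ⟨fun i hi => h1 i (Or.inl hi), by omega, ?_⟩
      intro k hk hlk
      have := h k hk
      omega
  rw [h1, cna hl (le_refl n)]
  unfold Gw
  rw [hen]

private theorem cnb_prL {r : Fin n} (g : Fin (n + 1) → ℕ) (k : ℕ) :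
    pr (fun i => if i.val ≤ r.val then g i else 0) k =
      if k ≤ r.val + 1 then pr g k else pr g (r.val + 1) := by
  induction k with
  | zero => simp [pr_zero]
  | succ k ih =>
    by_cases hk : k < n + 1
    · rw [pr_succ' _ hk, ih]
      simp only
      by_cases h1 : k ≤ r.val
      · rw [if_pos (by omega), if_pos h1, if_pos (by omega), pr_succ' _ hk]
      · rw [if_neg h1, add_zero, if_neg (by omega : ¬ (k + 1 ≤ r.val + 1))]
        by_cases h2 : k = r.val + 1
        · rw [if_pos (by omega), h2]
        · rw [if_neg (by omega)]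
    · have hr := r.isLt
      rw [pr_top _ (by omega)]
      rw [pr_top _ (by omega)] at ih
      rw [ih, if_neg (by omega), if_neg (by omega)]

private theorem cnb_prR {r : Fin n} (g : Fin (n + 1) → ℕ) (k : ℕ) :
    pr (fun i => if i.val ≤ r.val then 0 else g i) k +
      (if k ≤ r.val + 1 then pr g k else pr g (r.val + 1)) = pr g k := by
  rw [← cnb_prL, ← pr_add]
  congr 1
  funext i
  by_cases h : i.val ≤ r.val <;> simp [h]

theorem cnb {S : Finset (Fin n)} {l : ℕ} {r : Fin n} (hr : r ∈ S) (hl : l ≤ r.val)
    (h : ∀ k ∈ S, l ≤ k.val → r.val ≤ k.val) :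
    ∑ g ∈ Gq n S l, ∏ i, (g i + 1) = Gw n l r.val * ∑ g ∈ Gq n S (r.val + 1), ∏ i, (g i + 1) := by
  have hrn := r.isLt
  have hpv : pv l ≤ 2 * r.val + 1 := by unfold pv; omega
  have hpr : pv (r.val + 1) = 2 * r.val + 1 := by unfold pv; omega
  have hen : en n r.val = 2 * r.val + 1 := by unfold en; omega
  have hG : Gw n l r.val = ∑ g ∈ Sg n l r.val (2 * r.val + 1 - pv l), ∏ i, (g i + 1) := by
    rw [cna hl (by omega)]
    unfold Gw
    rw [hen]
  rw [hG, sum_mul_sum, ← sum_product']
  apply sum_nbij' (fun g => ((fun i => if i.val ≤ r.val then g i else 0),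
      (fun i => if i.val ≤ r.val then 0 else g i)))
    (fun p => fun i => p.1 i + p.2 i)
  · intro g hg
    rw [mem_Gq] at hg
    obtain ⟨h1, h2, h3⟩ := hg
    rw [mem_product, mem_Sg, mem_Gq]
    have hL := cnb_prL (r := r) g
    have hR := cnb_prR (r := r) g
    have h4 := h3 r hr hl
    refine ⟨⟨?_, ?_⟩, ?_, ?_, ?_⟩
    · intro i hi
      simp only
      by_cases hi2 : i.val ≤ r.val
      · rw [if_pos hi2]
        exact h1 i (by omega)
      · rw [if_neg hi2]
    · have h5 := hL (n + 1)
      rw [pr_top _ (le_refl _), if_neg (by omega)] at h5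
      simp only
      rw [h5]
      omega
    · intro i hi
      simp only
      rw [if_pos (by omega)]
    · have h5 := hR (n + 1)
      rw [pr_top _ (le_refl _), if_neg (by omega), pr_top _ (le_refl _)] at h5
      simp only
      rw [hpr]
      omega
    · intro k hk hrk
      have h5 := hR (k.val + 1)
      rw [if_neg (by omega)] at h5
      have h6 := h3 k hk (by omega)
      simp only
      rw [hpr]
      omega
  · rintro ⟨a, b⟩ hab
    rw [mem_product, mem_Sg, mem_Gq] at hab
    obtain ⟨⟨h1, h2⟩, h3, h4, h5⟩ := hab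
    simp only at h1 h2 h3 h4 h5
    rw [mem_Gq]
    have ha : ∀ k, r.val + 1 ≤ k → pr a k = ∑ i, a i := by
      intro k hk
      unfold pr
      apply sum_subset (subset_univ _)
      intro i _ hi
      apply h1
      simp only [mem_filter, mem_univ, true_and] at hi
      omega
    refine ⟨?_, ?_, ?_⟩
    · intro i hi
      simp only
      rw [h1 i (Or.inl hi), h3 i (by omega)]
    · simp only
      rw [sum_add_distrib]
      omega
    · intro k hk hlk
      simp only
      have h6 := h k hk hlk
      rw [pr_add, ha _ (by omega)]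
      by_cases h7 : k = r
      · subst h7
        have h8 : pr b (k.val + 1) = 0 := by
          unfold pr
          apply sum_eq_zero
          intro i hi
          simp only [mem_filter, mem_univ, true_and] at hi
          exact h3 i hi
        omega
      · have h8 : k.val ≠ r.val := fun h' => h7 (Fin.ext h')
        have h9 := h5 k hk (by omega)
        omega
  · intro g _
    funext i
    simp only
    by_cases hi : i.val ≤ r.val <;> simp [hi]
  · rintro ⟨a, b⟩ hab
    rw [mem_product, mem_Sg, mem_Gq] at hab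
    obtain ⟨⟨h1, h2⟩, h3, h4, h5⟩ := hab
    simp only at h1 h2 h3 h4 h5
    refine Prod.ext ?_ ?_
    · funext i
      simp only
      by_cases hi : i.val ≤ r.val
      · rw [if_pos hi, h3 i (by omega), add_zero]
      · rw [if_neg hi, h1 i (by omega)]
    · funext i
      simp only
      by_cases hi : i.val ≤ r.val
      · rw [if_pos hi, h3 i (by omega)]
      · rw [if_neg hi, h1 i (by omega), zero_add]
  · intro g _
    simp only
    rw [← prod_mul_distrib]
    apply prod_congr rfl
    intro i _
    by_cases hi : i.val ≤ r.val <;> simp [hi]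

end Pool.Agent.FLP
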