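import Pool.Agent.FLP.Bas

/-!
Connectedness. Induct on sum_i |x i - y i| (or sum_i (x i - y i) in the natural numbers). If x and y are
different there is i with x i > y i (else x <= y pointwise, and by H.sum for all groups x = y), and by
H.sum for the group of i there is j with g j = g i and x j < y j <= c j. Then mv i j x is in s and is
closer to y.
-/

open Finset

namespace Pool.Agent.FLP

variable {ι κ : Type*} [DecidableEq ι] [Fintype ι] [DecidableEq κ]

private theorem cnn_step {s : Finset (ι → ℕ)} {c : ι → ℕ} {g : ι → κ} (H : IsGS s c g)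
    {x y : ι → ℕ} (hx : x ∈ s) (hy : y ∈ s) (hne : x ≠ y) :
    ∃ i j : ι, g i = g j ∧ y i < x i ∧ x j < y j := by
  by_cases h : ∃ i, y i < x i
  · obtain ⟨i, hi⟩ := h
    by_contra hcon
    push Not at hcon
    have h1 : ∀ j, g i = g j → y j ≤ x j := fun j hj => by
      by_contra h2
      exact absurd (hcon i j hj hi) (by omega)
    have h2 := H.sum x hx y hy i
    have h3 : ∑ j with g j = g i, y j < ∑ j with g j = g i, x j := by
      apply sum_lt_sum
      · intro j hj
        rw [mem_filter] at hj
        exact h1 j hj.2.symm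
      · exact ⟨i, by simp, hi⟩
    omega
  · push Not at h
    exfalso
    apply hne
    funext i
    by_contra h1
    have h2 := H.sum x hx y hy i
    have h3 : ∑ j with g j = g i, x j < ∑ j with g j = g i, y j := by
      apply sum_lt_sum
      · intro j _
        exact h j
      · exact ⟨i, by simp, lt_of_le_of_ne (h i) h1⟩
    omega

private theorem cnn_dist {i j : ι} {x y : ι → ℕ} (hij : i ≠ j) (hi : y i < x i) (hj : x j < y j) :
    ∑ l, (mv i j x l - y l) < ∑ l, (x l - y l) := by
  apply sum_lt_sum
  · intro l _
    by_cases h1 : l = i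
    · subst h1
      rw [mv_self hij]
      omega
    · by_cases h2 : l = j
      · subst h2
        rw [mv_tgt hij]
        omega
      · rw [mv_of_ne h1 h2]
  · refine ⟨i, mem_univ _, ?_⟩
    rw [mv_self hij]
    omega

theorem cnn {s : Finset (ι → ℕ)} {c : ι → ℕ} {g : ι → κ} (H : IsGS s c g) {f : (ι → ℕ) → ℝ}
    (hf : ∀ x ∈ s, ∀ u v, u ≠ v → g u = g v → 1 ≤ x u → x v < c v → f x = f (mv u v x))
    {x y : ι → ℕ} (hx : x ∈ s) (hy : y ∈ s) : f x = f y := by
  generalize hN : ∑ l, (x l - y l) = N
  induction N using Nat.strong_induction_on generalizing x with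
  | _ N ih =>
    by_cases hne : x = y
    · rw [hne]
    · obtain ⟨i, j, hg, hi, hj⟩ := cnn_step H hx hy hne
      have hij : i ≠ j := by
        intro h
        subst h
        omega
      have hc : x j < c j := lt_of_lt_of_le hj (H.le y hy j)
      have h1 : 1 ≤ x i := by omega
      rw [hf x hx i j hij hg h1 hc]
      exact ih _ (hN ▸ cnn_dist hij hi hj) (H.cl x hx i j hij hg h1 hc) rfl

end Pool.Agent.FLP
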