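import Pool.Agent.FLP.CNB

/-!
The product formula. Claim, by induction on d: for d <= n, l <= n - d and no marks k of S with
l <= k < n - d, sum over Gq n S l = Rw n S l d. d = 0: cnb_last. d + 1: with k = n - (d+1): if k is a mark it
is the first mark >= l, cnb and the claim for d and l = k + 1 = n - d; otherwise the claim for d. Then
l = 0, d = n, Gam_eq.
-/

open Finset

namespace Pool.Agent.FLP

variable {n : ℕ}

private theorem cnt_aux (S : Finset (Fin n)) (d : ℕ) : d ≤ n → ∀ l, l ≤ n - d →
    (∀ k ∈ S, l ≤ k.val → n - d ≤ k.val) →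
    ∑ γ ∈ Gq n S l, ∏ i, (γ i + 1) = Rw n S l d := by
  induction d with
  | zero =>
    intro _ l hl h
    rw [cnb_last (by omega)]
    · rfl
    · intro k hk
      have := k.isLt
      by_contra hc
      have := h k hk (by omega)
      omega
  | succ d ih =>
    intro hd l hl h
    unfold Rw
    by_cases hm : ∃ k ∈ S, k.val = n - (d + 1)
    · rw [if_pos hm]
      obtain ⟨k, hk, hk2⟩ := hm
      rw [cnb hk (by omega)]
      · rw [hk2, ih (by omega) _ (by omega)]
        intro j _ hj
        omega
      · intro j hj hlj
        have := h j hj hlj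
        omega
    · rw [if_neg hm]
      apply ih (by omega) l (by omega)
      intro k hk hlk
      have h1 := h k hk hlk
      have h2 : k.val ≠ n - (d + 1) := fun h' => hm ⟨k, hk, h'⟩
      omega

theorem cnt (S : Finset (Fin n)) : ∑ γ ∈ Gam n S, ∏ i, (γ i + 1) = Rw n S 0 n := by
  rw [Gam_eq]
  apply cnt_aux S n (le_refl n) 0 (by omega)
  intro k _ _
  omega

end Pool.Agent.FLP
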