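import Pool.Agent.FLP.HUL
import Pool.Agent.FLP.CVG

/-!
Unit vertical segments never cross other edges of the types V, L, U. With hl_V, hl_L, hl_U: a common
point z has z.1 = x integral; V - V: x = x' and z.2 in [j, j+1] and [j', j'+1], j ≠ j': z.2 is the
common endpoint; V - L: z.1 = x is 0 or 1 (x = 2 impossible), z.2 = i or k is an integer in [j, j+1];
V - U: the same. Show that the integral point is in the intersection of the two sets (toR_mem).
-/

open Finset

namespace Pool.Agent.FLP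

theorem cvv {x j x' j' : ℕ} (h : Ed.V x j ≠ Ed.V x' j') : cpt (Ed.V x j).toF (Ed.V x' j').toF := by
  rintro z ⟨hz1, hz2⟩
  rw [hl_V] at hz1 hz2
  obtain ⟨a1, a2, a3⟩ := hz1
  obtain ⟨b1, b2, b3⟩ := hz2
  have hx : x = x' := by
    have : (x : ℝ) = x' := by rw [← a1, b1]
    exact_mod_cast this
  subst hx
  have hj : j ≠ j' := fun hj => h (by rw [hj])
  have e1 : (j : ℝ) ≤ (j' : ℝ) + 1 := by linarith
  have e2 : (j' : ℝ) ≤ (j : ℝ) + 1 := by linarith
  have e1' : j ≤ j' + 1 := by exact_mod_cast e1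
  have e2' : j' ≤ j + 1 := by exact_mod_cast e2
  rcases lt_or_gt_of_ne hj with h3 | h3
  · have : j' = j + 1 := by omega
    subst this
    have hz : z.2 = (j : ℝ) + 1 := by push_cast at b2; linarith
    exact cll_mk ((x : ℤ), (j : ℤ) + 1) (by simp [Ed.toF]) (by simp [Ed.toF]) (by simp [a1])
      (by simp [hz])
  · have : j = j' + 1 := by omega
    subst this
    have hz : z.2 = (j' : ℝ) + 1 := by push_cast at a2; linarith
    exact cll_mk ((x : ℤ), (j' : ℤ) + 1) (by simp [Ed.toF]) (by simp [Ed.toF]) (by simp [a1])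
      (by simp [hz])

theorem cvl (x j i k : ℕ) : cpt (Ed.V x j).toF (Ed.L i k).toF := by
  rintro z ⟨hz1, hz2⟩
  rw [hl_V] at hz1
  rw [hl_L] at hz2
  obtain ⟨a1, a2, a3⟩ := hz1
  obtain ⟨-, b2, b3⟩ := hz2
  rw [a1] at b2 b3
  have hx : x ≤ 1 := by exact_mod_cast b2
  interval_cases x
  · have hz : z.2 = i := by push_cast at b3; linarith
    rw [hz] at a2 a3
    exact cll_mk (0, (i : ℤ)) (by simpa using cvg_V 0 i j a2 a3) (by simp [Ed.toF])
      (by simp [a1]) (by simp [hz])
  · have hz : z.2 = k := by push_cast at b3; linarith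
    rw [hz] at a2 a3
    exact cll_mk (1, (k : ℤ)) (by simpa using cvg_V 1 k j a2 a3) (by simp [Ed.toF])
      (by simp [a1]) (by simp [hz])

theorem cvu (x j k i : ℕ) : cpt (Ed.V x j).toF (Ed.U k i).toF := by
  rintro z ⟨hz1, hz2⟩
  rw [hl_V] at hz1
  rw [hl_U] at hz2
  obtain ⟨a1, a2, a3⟩ := hz1
  obtain ⟨b1, b2, b3⟩ := hz2
  rw [a1] at b1 b2 b3
  have hx1 : 1 ≤ x := by exact_mod_cast b1
  have hx : x ≤ 2 := by exact_mod_cast b2
  interval_cases x
  · have hz : z.2 = k := by push_cast at b3; linarith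
    rw [hz] at a2 a3
    exact cll_mk (1, (k : ℤ)) (by simpa using cvg_V 1 k j a2 a3) (by simp [Ed.toF])
      (by simp [a1]) (by simp [hz])
  · have hz : z.2 = i := by push_cast at b3; linarith
    rw [hz] at a2 a3
    exact cll_mk (2, (i : ℤ)) (by simpa using cvg_V 2 i j a2 a3) (by simp [Ed.toF])
      (by simp [a1]) (by simp [hz])

end Pool.Agent.FLP
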