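import Pool.Agent.FLP.DGA

/-!
Number of neighbours. By dga every neighbour y of x (y ≠ x) belongs to one of 5 n classes: k and one of:
pr y.1 (k+1) = pr x.1 (k+1) + 1; = ... - 1; the same for y.2.1; marks differ exactly at k. Each class has at most one
element (pr determines y.1: pr_succ), so there are at most 5 n neighbours.
-/

open Finset

namespace Pool.Agent.FLP

variable {n : ℕ}

/-- The classes. -/
def degR (x : Cf n) (p : Fin n × Fin 5) (y : Cf n) : Prop :=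
  match p.2 with
  | 0 => x.2 = y.2 ∧ pr y.1 (p.1.val + 1) = pr x.1 (p.1.val + 1) + 1 ∧
      ∀ j, j ≠ p.1.val + 1 → pr y.1 j = pr x.1 j
  | 1 => x.2 = y.2 ∧ pr y.1 (p.1.val + 1) + 1 = pr x.1 (p.1.val + 1) ∧
      ∀ j, j ≠ p.1.val + 1 → pr y.1 j = pr x.1 j
  | 2 => x.1 = y.1 ∧ x.2.2 = y.2.2 ∧ pr y.2.1 (p.1.val + 1) = pr x.2.1 (p.1.val + 1) + 1 ∧
      ∀ j, j ≠ p.1.val + 1 → pr y.2.1 j = pr x.2.1 j
  | 3 => x.1 = y.1 ∧ x.2.2 = y.2.2 ∧ pr y.2.1 (p.1.val + 1) + 1 = pr x.2.1 (p.1.val + 1) ∧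
      ∀ j, j ≠ p.1.val + 1 → pr y.2.1 j = pr x.2.1 j
  | 4 => x.1 = y.1 ∧ x.2.1 = y.2.1 ∧ (∀ j, j ≠ p.1 → (j ∈ x.2.2 ↔ j ∈ y.2.2)) ∧
      (p.1 ∈ y.2.2 ↔ p.1 ∉ x.2.2)

theorem deg_pr_inj {f g : Fin (n + 1) → ℕ} (h : ∀ k, pr f k = pr g k) : f = g := by
  funext i
  have h1 := pr_succ f i
  have h2 := pr_succ g i
  have h3 := h i.val
  have h4 := h (i.val + 1)
  omega

theorem degR_inj {x y z : Cf n} {p : Fin n × Fin 5} (h1 : degR x p y) (h2 : degR x p z) :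
    y = z := by
  obtain ⟨k, c⟩ := p
  have key : ∀ f g f' : Fin (n + 1) → ℕ, (∀ j, j ≠ k.val + 1 → pr f j = pr g j) →
      (∀ j, j ≠ k.val + 1 → pr f' j = pr g j) → pr f (k.val + 1) = pr f' (k.val + 1) → f = f' := by
    intro f g f' h1 h2 h3
    refine deg_pr_inj fun j => ?_
    by_cases hj : j = k.val + 1
    · rw [hj, h3]
    · rw [h1 j hj, h2 j hj]
  fin_cases c
  · obtain ⟨a1, a2, a3⟩ : x.2 = y.2 ∧ pr y.1 (k.val + 1) = pr x.1 (k.val + 1) + 1 ∧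
      ∀ j, j ≠ k.val + 1 → pr y.1 j = pr x.1 j := h1
    obtain ⟨b1, b2, b3⟩ : x.2 = z.2 ∧ pr z.1 (k.val + 1) = pr x.1 (k.val + 1) + 1 ∧
      ∀ j, j ≠ k.val + 1 → pr z.1 j = pr x.1 j := h2
    exact Prod.ext (key _ _ _ a3 b3 (by omega)) (a1.symm.trans b1)
  · obtain ⟨a1, a2, a3⟩ : x.2 = y.2 ∧ pr y.1 (k.val + 1) + 1 = pr x.1 (k.val + 1) ∧
      ∀ j, j ≠ k.val + 1 → pr y.1 j = pr x.1 j := h1
    obtain ⟨b1, b2, b3⟩ : x.2 = z.2 ∧ pr z.1 (k.val + 1) + 1 = pr x.1 (k.val + 1) ∧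
      ∀ j, j ≠ k.val + 1 → pr z.1 j = pr x.1 j := h2
    exact Prod.ext (key _ _ _ a3 b3 (by omega)) (a1.symm.trans b1)
  · obtain ⟨a0, a1, a2, a3⟩ : x.1 = y.1 ∧ x.2.2 = y.2.2 ∧
      pr y.2.1 (k.val + 1) = pr x.2.1 (k.val + 1) + 1 ∧
      ∀ j, j ≠ k.val + 1 → pr y.2.1 j = pr x.2.1 j := h1
    obtain ⟨b0, b1, b2, b3⟩ : x.1 = z.1 ∧ x.2.2 = z.2.2 ∧
      pr z.2.1 (k.val + 1) = pr x.2.1 (k.val + 1) + 1 ∧
      ∀ j, j ≠ k.val + 1 → pr z.2.1 j = pr x.2.1 j := h2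
    exact Prod.ext (a0.symm.trans b0) (Prod.ext (key _ _ _ a3 b3 (by omega)) (a1.symm.trans b1))
  · obtain ⟨a0, a1, a2, a3⟩ : x.1 = y.1 ∧ x.2.2 = y.2.2 ∧
      pr y.2.1 (k.val + 1) + 1 = pr x.2.1 (k.val + 1) ∧
      ∀ j, j ≠ k.val + 1 → pr y.2.1 j = pr x.2.1 j := h1
    obtain ⟨b0, b1, b2, b3⟩ : x.1 = z.1 ∧ x.2.2 = z.2.2 ∧
      pr z.2.1 (k.val + 1) + 1 = pr x.2.1 (k.val + 1) ∧
      ∀ j, j ≠ k.val + 1 → pr z.2.1 j = pr x.2.1 j := h2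
    exact Prod.ext (a0.symm.trans b0) (Prod.ext (key _ _ _ a3 b3 (by omega)) (a1.symm.trans b1))
  · obtain ⟨a0, a1, a2, a3⟩ : x.1 = y.1 ∧ x.2.1 = y.2.1 ∧
      (∀ j, j ≠ k → (j ∈ x.2.2 ↔ j ∈ y.2.2)) ∧ (k ∈ y.2.2 ↔ k ∉ x.2.2) := h1
    obtain ⟨b0, b1, b2, b3⟩ : x.1 = z.1 ∧ x.2.1 = z.2.1 ∧
      (∀ j, j ≠ k → (j ∈ x.2.2 ↔ j ∈ z.2.2)) ∧ (k ∈ z.2.2 ↔ k ∉ x.2.2) := h2
    refine Prod.ext (a0.symm.trans b0) (Prod.ext (a1.symm.trans b1) ?_)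
    ext j
    by_cases hj : j = k
    · rw [hj, a3, b3]
    · rw [← a2 j hj, ← b2 j hj]

theorem deg {x : Cf n} (hx : x ∈ Om n) : ((Om n).filter fun y => adj x y).card ≤ 5 * n := by
  classical
  have hex : ∀ y ∈ (Om n).filter fun y => adj x y, ∃ p : Fin n × Fin 5, degR x p y := by
    intro y hy
    rw [mem_filter] at hy
    obtain ⟨k, h⟩ := dga hx hy.1 hy.2
    rcases h with ⟨h1, h2 | h2, h3⟩ | ⟨h0, h1, h2 | h2, h3⟩ | ⟨h0, h1, h2⟩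
    · exact ⟨(k, 0), h1, h2, h3⟩
    · exact ⟨(k, 1), h1, h2, h3⟩
    · exact ⟨(k, 2), h0, h1, h2, h3⟩
    · exact ⟨(k, 3), h0, h1, h2, h3⟩
    · refine ⟨(k, 4), h0, h1, h2, ?_⟩
      change k ∈ y.2.2 ↔ k ∉ x.2.2
      by_contra hno
      have hk : k ∈ x.2.2 ↔ k ∈ y.2.2 := by tauto
      have hxy : x = y := by
        refine Prod.ext h0 (Prod.ext h1 ?_)
        ext j
        by_cases hj : j = k
        · rw [hj, hk]
        · exact h2 j hj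
      have := hy.2.1
      rw [hxy] at this
      simp at this
  rcases Nat.eq_zero_or_pos n with hn0 | hn0
  · have he : ((Om n).filter fun y => adj x y) = ∅ := by
      rw [Finset.eq_empty_iff_forall_notMem]
      intro y hy
      obtain ⟨p, -⟩ := hex y hy
      have := p.1.isLt
      omega
    rw [he]
    simp
  have : Nonempty (Fin n × Fin 5) := ⟨(⟨0, hn0⟩, 0)⟩
  choose! p hp using hex
  have hc := card_le_card_of_injOn (s := (Om n).filter fun y => adj x y)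
    (t := (univ : Finset (Fin n × Fin 5))) p (fun y _ => mem_univ _) (by
      intro y hy z hz hyz
      have h1 := hp y hy
      have h2 := hp z hz
      rw [← hyz] at h2
      exact degR_inj h1 h2)
  refine hc.trans (le_of_eq ?_)
  simp [mul_comm]

end Pool.Agent.FLP
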