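import Pool.Agent.FLP.Bas
import Pool.Agent.FLP.Defs2

/-!
Neighbours. Write a k = pr x.1 (k+1), a' k = pr y.1 (k+1) (k < n), b, b' for x.2.1, y.2.1. If a k > a' k then L (a k) k
is in Tm x and not in Tm y; if moreover a k >= a' k + 2 then the element of the staircase of x before (a k, k),
namely (a k - 1, k) or (a k, k - 1), is not in Tm y either: two elements of Tm x \ Tm y, contradiction. By
symmetry |a k - a' k| <= 1. If a k ≠ a' k, a l ≠ a' l, k < l: the elements L (a k) k or L (a k) (k+1) (if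
a k < a' k) and L (a l) l or L (a l) (l+1) of Tm x \ Tm y are different (if they were equal then l = k + 1,
a k < a' k, a l > a' l, a k = a l >= a' l + 1 >= a' k + 1 > a k). So at most one k with a k ≠ a' k. The same for
b. If a and b both differ: an L edge and a U edge in the difference. If a (or b) differs then the marks
are the same: a mark k of x only gives the G edge of k in Tm x, not in Tm y (since V 1 k in Tm y), a mark of y
only gives V 1 k. If a = a', b = b' then the marks differ in exactly one k. Since x.1 is determined by pr x.1: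
in terms of the values of pr.
-/

open Finset

namespace Pool.Agent.FLP

variable {n : ℕ}

/-- The staircase of `A`. -/
def dgaSt (n : ℕ) (A : ℕ → ℕ) (i k : ℕ) : Prop := i ≤ n ∧ k ≤ n ∧ A k ≤ i ∧ i ≤ A (k + 1)

theorem dga_ext {f g : Fin (n + 1) → ℕ} (h : ∀ k < n, pr f (k + 1) = pr g (k + 1))
    (hs : ∑ i, f i = ∑ i, g i) : f = g := by
  have h' : ∀ k ≤ n + 1, pr f k = pr g k := by
    intro k hk
    rcases Nat.eq_zero_or_pos k with rfl | hp
    · rw [pr_zero, pr_zero]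
    · obtain ⟨m, rfl⟩ : ∃ m, k = m + 1 := ⟨k - 1, by omega⟩
      rcases Nat.lt_or_ge m n with hm | hm
      · exact h m hm
      · rw [pr_top _ (by omega), pr_top _ (by omega), hs]
  funext i
  have h1 := pr_succ f i
  have h2 := pr_succ g i
  have h3 := h' i.val (by omega)
  have h4 := h' (i.val + 1) (by omega)
  omega

theorem dga_ex {A A' : ℕ → ℕ} (hm : ∀ a b, a ≤ b → A a ≤ A b) (hn : ∀ k, A k ≤ n) {k : ℕ}
    (hk : k < n) (h : A (k + 1) ≠ A' (k + 1)) :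
    ∃ r, ((r = k ∧ A' (k + 1) < A (k + 1)) ∨ (r = k + 1 ∧ A (k + 1) < A' (k + 1))) ∧
      dgaSt n A (A (k + 1)) r ∧ ¬ dgaSt n A' (A (k + 1)) r := by
  rcases Nat.lt_or_gt_of_ne h with h1 | h1
  · refine ⟨k + 1, Or.inr ⟨rfl, h1⟩, ⟨hn _, by omega, le_rfl, hm _ _ (by omega)⟩, ?_⟩
    rintro ⟨-, -, h2, -⟩
    omega
  · refine ⟨k, Or.inl ⟨rfl, h1⟩, ⟨hn _, by omega, hm _ _ (by omega), le_rfl⟩, ?_⟩
    rintro ⟨-, -, -, h2⟩
    omega

theorem dga_le {A A' : ℕ → ℕ} (hm : ∀ a b, a ≤ b → A a ≤ A b)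
    (hm' : ∀ a b, a ≤ b → A' a ≤ A' b) (h0 : A 0 = 0) (hn : ∀ k, A k ≤ n)
    (hu : ∀ i k i' k', dgaSt n A i k → ¬ dgaSt n A' i k → dgaSt n A i' k' →
      ¬ dgaSt n A' i' k' → i = i' ∧ k = k') {k : ℕ} (hk : k < n) :
    A (k + 1) ≤ A' (k + 1) + 1 := by
  by_contra hlt
  push Not at hlt
  have h1 : dgaSt n A (A (k + 1)) k := ⟨hn _, by omega, hm _ _ (by omega), le_rfl⟩
  have h2 : ¬ dgaSt n A' (A (k + 1)) k := by
    rintro ⟨-, -, -, h2⟩
    omega
  by_cases h3 : A k ≤ A (k + 1) - 1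
  · have h4 : dgaSt n A (A (k + 1) - 1) k := ⟨by have := hn (k + 1); omega, by omega, h3, by omega⟩
    have h5 : ¬ dgaSt n A' (A (k + 1) - 1) k := by
      rintro ⟨-, -, -, h2⟩
      omega
    have := (hu _ _ _ _ h1 h2 h4 h5).1
    omega
  · have hk1 : 1 ≤ k := by
      by_contra h
      have : k = 0 := by omega
      subst this
      omega
    have h6 := hm k (k + 1) (by omega)
    have h7 : A k = A (k + 1) := by omega
    have h4 : dgaSt n A (A (k + 1)) (k - 1) := by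
      refine ⟨hn _, by omega, hm _ _ (by omega), ?_⟩
      have h8 : k - 1 + 1 = k := by omega
      rw [h8, h7]
    have h5 : ¬ dgaSt n A' (A (k + 1)) (k - 1) := by
      rintro ⟨-, -, -, h2⟩
      have h8 : k - 1 + 1 = k := by omega
      rw [h8] at h2
      have := hm' k (k + 1) (by omega)
      omega
    have := (hu _ _ _ _ h1 h2 h4 h5).2
    omega

theorem dga_one {A A' : ℕ → ℕ} (hm : ∀ a b, a ≤ b → A a ≤ A b)
    (hm' : ∀ a b, a ≤ b → A' a ≤ A' b) (hn : ∀ k, A k ≤ n)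
    (hu : ∀ i k i' k', dgaSt n A i k → ¬ dgaSt n A' i k → dgaSt n A i' k' →
      ¬ dgaSt n A' i' k' → i = i' ∧ k = k') {k l : ℕ} (hk : k < n) (hl : l < n)
    (h1 : A (k + 1) ≠ A' (k + 1)) (h2 : A (l + 1) ≠ A' (l + 1)) : k = l := by
  by_contra hne
  have key : ∀ k l : ℕ, k < n → l < n → k < l → A (k + 1) ≠ A' (k + 1) →
      A (l + 1) ≠ A' (l + 1) → False := by
    intro k l hk hl hkl h1 h2
    obtain ⟨r, hr, h3, h4⟩ := dga_ex hm hn hk h1
    obtain ⟨s, hs, h5, h6⟩ := dga_ex hm hn hl h2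
    obtain ⟨h7, h8⟩ := hu _ _ _ _ h3 h4 h5 h6
    have := hm' (k + 1) (l + 1) (by omega)
    omega
  rcases Nat.lt_or_gt_of_ne hne with h | h
  · exact key k l hk hl h h1 h2
  · exact key l k hl hk h h2 h1

/-- The five possible kinds of neighbours. -/
theorem dga {x y : Cf n} (hx : x ∈ Om n) (hy : y ∈ Om n) (h : adj x y) : ∃ k : Fin n,
    (x.2 = y.2 ∧ (pr y.1 (k.val + 1) = pr x.1 (k.val + 1) + 1 ∨
        pr y.1 (k.val + 1) + 1 = pr x.1 (k.val + 1)) ∧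
      ∀ j, j ≠ k.val + 1 → pr y.1 j = pr x.1 j) ∨
    (x.1 = y.1 ∧ x.2.2 = y.2.2 ∧ (pr y.2.1 (k.val + 1) = pr x.2.1 (k.val + 1) + 1 ∨
        pr y.2.1 (k.val + 1) + 1 = pr x.2.1 (k.val + 1)) ∧
      ∀ j, j ≠ k.val + 1 → pr y.2.1 j = pr x.2.1 j) ∨
    (x.1 = y.1 ∧ x.2.1 = y.2.1 ∧ ∀ j, j ≠ k → (j ∈ x.2.2 ↔ j ∈ y.2.2)) := by
  obtain ⟨hs1, hs2, hm⟩ := (mem_Om x).1 hx
  obtain ⟨ht1, ht2, hm'⟩ := (mem_Om y).1 hy
  obtain ⟨hd1, hd2⟩ := h
  have u1 : ∀ e f, e ∈ Tm x → e ∉ Tm y → f ∈ Tm x → f ∉ Tm y → e = f := by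
    intro e f h1 h2 h3 h4
    obtain ⟨a, ha⟩ := card_eq_one.1 hd1
    have h5 : e ∈ Tm x \ Tm y := mem_sdiff.2 ⟨h1, h2⟩
    have h6 : f ∈ Tm x \ Tm y := mem_sdiff.2 ⟨h3, h4⟩
    rw [ha, mem_singleton] at h5 h6
    rw [h5, h6]
  have u2 : ∀ e f, e ∈ Tm y → e ∉ Tm x → f ∈ Tm y → f ∉ Tm x → e = f := by
    intro e f h1 h2 h3 h4
    obtain ⟨a, ha⟩ := card_eq_one.1 hd2
    have h5 : e ∈ Tm y \ Tm x := mem_sdiff.2 ⟨h1, h2⟩
    have h6 : f ∈ Tm y \ Tm x := mem_sdiff.2 ⟨h3, h4⟩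
    rw [ha, mem_singleton] at h5 h6
    rw [h5, h6]
  have hL : ∀ (z : Cf n) i k, Ed.L i k ∈ Tm z ↔ dgaSt n (pr z.1) i k := fun z i k => L_mem_Tm z i k
  have hU : ∀ (z : Cf n) i k, Ed.U k i ∈ Tm z ↔ dgaSt n (pr z.2.1) i k := by
    intro z i k
    rw [U_mem_Tm]
    unfold dgaSt
    tauto
  have hV : ∀ (z : Cf n) (k : Fin n), Ed.V 1 k.val ∈ Tm z ↔ k ∉ z.2.2 := by
    intro z k
    rw [V_mem_Tm]
    constructor
    · rintro (⟨h1, -⟩ | ⟨h1, -⟩ | ⟨-, _, h1⟩)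
      · omega
      · omega
      · exact h1
    · intro hk
      exact Or.inr (Or.inr ⟨rfl, k.isLt, hk⟩)
  have uL1 : ∀ i k i' k', dgaSt n (pr x.1) i k → ¬ dgaSt n (pr y.1) i k →
      dgaSt n (pr x.1) i' k' → ¬ dgaSt n (pr y.1) i' k' → i = i' ∧ k = k' := by
    intro i k i' k' h1 h2 h3 h4
    rw [← hL] at h1 h2 h3 h4
    simpa using u1 _ _ h1 h2 h3 h4
  have uL2 : ∀ i k i' k', dgaSt n (pr y.1) i k → ¬ dgaSt n (pr x.1) i k →
      dgaSt n (pr y.1) i' k' → ¬ dgaSt n (pr x.1) i' k' → i = i' ∧ k = k' := by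
    intro i k i' k' h1 h2 h3 h4
    rw [← hL] at h1 h2 h3 h4
    simpa using u2 _ _ h1 h2 h3 h4
  have uU1 : ∀ i k i' k', dgaSt n (pr x.2.1) i k → ¬ dgaSt n (pr y.2.1) i k →
      dgaSt n (pr x.2.1) i' k' → ¬ dgaSt n (pr y.2.1) i' k' → i = i' ∧ k = k' := by
    intro i k i' k' h1 h2 h3 h4
    rw [← hU] at h1 h2 h3 h4
    have := u1 _ _ h1 h2 h3 h4
    simp only [Ed.U.injEq] at this
    exact ⟨this.2, this.1⟩
  have uU2 : ∀ i k i' k', dgaSt n (pr y.2.1) i k → ¬ dgaSt n (pr x.2.1) i k →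
      dgaSt n (pr y.2.1) i' k' → ¬ dgaSt n (pr x.2.1) i' k' → i = i' ∧ k = k' := by
    intro i k i' k' h1 h2 h3 h4
    rw [← hU] at h1 h2 h3 h4
    have := u2 _ _ h1 h2 h3 h4
    simp only [Ed.U.injEq] at this
    exact ⟨this.2, this.1⟩
  have mo : ∀ (g : Fin (n + 1) → ℕ) a b, a ≤ b → pr g a ≤ pr g b := fun g a b h => pr_mono g h
  have bx1 : ∀ k, pr x.1 k ≤ n := fun k => (pr_le _ k).trans hs1.le
  have bx2 : ∀ k, pr x.2.1 k ≤ n := fun k => (pr_le _ k).trans hs2.le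
  have by1 : ∀ k, pr y.1 k ≤ n := fun k => (pr_le _ k).trans ht1.le
  have by2 : ∀ k, pr y.2.1 k ≤ n := fun k => (pr_le _ k).trans ht2.le
  -- all values from the values at `k + 1`, `k < n`
  have ext1 : ∀ k : ℕ, (∀ l < n, l ≠ k → pr x.1 (l + 1) = pr y.1 (l + 1)) →
      ∀ j, j ≠ k + 1 → pr y.1 j = pr x.1 j := by
    intro k hl j hj
    rcases Nat.eq_zero_or_pos j with rfl | hp
    · rw [pr_zero, pr_zero]
    · rcases Nat.lt_or_ge n j with h1 | h1
      · rw [pr_top _ (by omega), pr_top _ (by omega), hs1, ht1]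
      · obtain ⟨m, rfl⟩ : ∃ m, j = m + 1 := ⟨j - 1, by omega⟩
        exact (hl m (by omega) (by omega)).symm
  have ext2 : ∀ k : ℕ, (∀ l < n, l ≠ k → pr x.2.1 (l + 1) = pr y.2.1 (l + 1)) →
      ∀ j, j ≠ k + 1 → pr y.2.1 j = pr x.2.1 j := by
    intro k hl j hj
    rcases Nat.eq_zero_or_pos j with rfl | hp
    · rw [pr_zero, pr_zero]
    · rcases Nat.lt_or_ge n j with h1 | h1
      · rw [pr_top _ (by omega), pr_top _ (by omega), hs2, ht2]
      · obtain ⟨m, rfl⟩ : ∃ m, j = m + 1 := ⟨j - 1, by omega⟩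
        exact (hl m (by omega) (by omega)).symm
  -- marks agree as soon as there is an edge which is not vertical in both differences
  have hmk : (∃ e, e ∈ Tm x ∧ e ∉ Tm y ∧ ∀ j, e ≠ Ed.V 1 j) →
      (∃ e, e ∈ Tm y ∧ e ∉ Tm x ∧ ∀ j, e ≠ Ed.V 1 j) → x.2.2 = y.2.2 := by
    rintro ⟨e, he1, he2, he3⟩ ⟨f, hf1, hf2, hf3⟩
    ext j
    by_contra hj
    by_cases hjx : j ∈ x.2.2
    · have hjy : j ∉ y.2.2 := fun h => hj ⟨fun _ => h, fun _ => hjx⟩
      refine hf3 j.val (u2 _ _ hf1 hf2 ((hV y j).2 hjy) ?_)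
      rw [hV]
      exact fun h => h hjx
    · have hjy : j ∈ y.2.2 := by
        by_contra h
        exact hj ⟨fun h1 => absurd h1 hjx, fun h1 => absurd h1 h⟩
      refine he3 j.val (u1 _ _ he1 he2 ((hV x j).2 hjx) ?_)
      rw [hV]
      exact fun h => h hjy
  by_cases hA : ∃ k, k < n ∧ pr x.1 (k + 1) ≠ pr y.1 (k + 1)
  · obtain ⟨k, hk, hne⟩ := hA
    obtain ⟨r, -, e1, e2⟩ := dga_ex (mo x.1) bx1 hk hne
    obtain ⟨r', -, f1, f2⟩ := dga_ex (mo y.1) by1 hk hne.symm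
    rw [← hL] at e1 e2 f1 f2
    have hB : x.2.1 = y.2.1 := by
      refine dga_ext (fun l hl => ?_) (by rw [hs2, ht2])
      by_contra hne'
      obtain ⟨s, -, g1, g2⟩ := dga_ex (mo x.2.1) bx2 hl hne'
      rw [← hU] at g1 g2
      have := u1 _ _ e1 e2 g1 g2
      simp at this
    refine ⟨⟨k, hk⟩, Or.inl ⟨Prod.ext hB (hmk ⟨_, e1, e2, by simp⟩ ⟨_, f1, f2, by simp⟩), ?_, ?_⟩⟩
    · have d1 := dga_le (mo x.1) (mo y.1) (pr_zero _) bx1 uL1 hk
      have d2 := dga_le (mo y.1) (mo x.1) (pr_zero _) by1 uL2 hk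
      change pr y.1 (k + 1) = pr x.1 (k + 1) + 1 ∨ pr y.1 (k + 1) + 1 = pr x.1 (k + 1)
      omega
    · refine ext1 k fun l hl hlk => ?_
      by_contra hne'
      exact hlk (dga_one (mo x.1) (mo y.1) bx1 uL1 hl hk hne' hne)
  · push Not at hA
    have hA' : x.1 = y.1 := dga_ext hA (by rw [hs1, ht1])
    by_cases hB : ∃ k, k < n ∧ pr x.2.1 (k + 1) ≠ pr y.2.1 (k + 1)
    · obtain ⟨k, hk, hne⟩ := hB
      obtain ⟨r, -, e1, e2⟩ := dga_ex (mo x.2.1) bx2 hk hne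
      obtain ⟨r', -, f1, f2⟩ := dga_ex (mo y.2.1) by2 hk hne.symm
      rw [← hU] at e1 e2 f1 f2
      refine ⟨⟨k, hk⟩, Or.inr (Or.inl ⟨hA', hmk ⟨_, e1, e2, by simp⟩ ⟨_, f1, f2, by simp⟩, ?_, ?_⟩)⟩
      · have d1 := dga_le (mo x.2.1) (mo y.2.1) (pr_zero _) bx2 uU1 hk
        have d2 := dga_le (mo y.2.1) (mo x.2.1) (pr_zero _) by2 uU2 hk
        change pr y.2.1 (k + 1) = pr x.2.1 (k + 1) + 1 ∨ pr y.2.1 (k + 1) + 1 = pr x.2.1 (k + 1)
        omega
      · refine ext2 k fun l hl hlk => ?_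
        by_contra hne'
        exact hlk (dga_one (mo x.2.1) (mo y.2.1) bx2 uU1 hl hk hne' hne)
    · push Not at hB
      have hB' : x.2.1 = y.2.1 := dga_ext hB (by rw [hs2, ht2])
      have hex : ∃ k : Fin n, ¬ (k ∈ x.2.2 ↔ k ∈ y.2.2) := by
        by_contra hno
        push Not at hno
        have hxy : x = y := Prod.ext hA' (Prod.ext hB' (Finset.ext hno))
        rw [hxy] at hd1
        simp at hd1
      obtain ⟨k, hk⟩ := hex
      refine ⟨k, Or.inr (Or.inr ⟨hA', hB', fun j hj => ?_⟩)⟩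
      by_contra hjd
      have hneV : (Ed.V 1 j.val) ≠ Ed.V 1 k.val := by
        simp only [ne_eq, Ed.V.injEq, true_and]
        exact fun h => hj (Fin.ext h)
      have hGx : ∀ l : Fin n, l ∈ x.2.2 → l ∉ y.2.2 →
          Ed.G (pr x.1 (l.val + 1)) (pr x.2.1 (l.val + 1)) ∈ Tm x ∧
            Ed.G (pr x.1 (l.val + 1)) (pr x.2.1 (l.val + 1)) ∉ Tm y := by
        intro l h1 h2
        constructor
        · rw [G_mem_Tm]
          exact ⟨l, h1, rfl, rfl⟩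
        · rw [G_mem_Tm]
          rintro ⟨m, h3, h4, h5⟩
          have h6 := hm l h1
          have h7 := hm' m h3
          have h8 : m = l := Fin.ext (by omega)
          rw [h8] at h3
          exact h2 h3
      by_cases hjx : j ∈ x.2.2
      · have hjy : j ∉ y.2.2 := fun h => hjd ⟨fun _ => h, fun _ => hjx⟩
        by_cases hkx : k ∈ x.2.2
        · have hky : k ∉ y.2.2 := fun h => hk ⟨fun _ => h, fun _ => hkx⟩
          exact hneV (u2 _ _ ((hV y j).2 hjy) (by rw [hV]; exact fun h => h hjx)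
            ((hV y k).2 hky) (by rw [hV]; exact fun h => h hkx))
        · have hky : k ∈ y.2.2 := by
            by_contra h
            exact hk ⟨fun h1 => absurd h1 hkx, fun h1 => absurd h1 h⟩
          obtain ⟨g1, g2⟩ := hGx j hjx hjy
          have := u1 _ _ g1 g2 ((hV x k).2 hkx) (by rw [hV]; exact fun h => h hky)
          simp at this
      · have hjy : j ∈ y.2.2 := by
          by_contra h
          exact hjd ⟨fun h1 => absurd h1 hjx, fun h1 => absurd h1 h⟩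
        by_cases hkx : k ∈ x.2.2
        · have hky : k ∉ y.2.2 := fun h => hk ⟨fun _ => h, fun _ => hkx⟩
          obtain ⟨g1, g2⟩ := hGx k hkx hky
          have := u1 _ _ g1 g2 ((hV x j).2 hjx) (by rw [hV]; exact fun h => h hjy)
          simp at this
        · have hky : k ∈ y.2.2 := by
            by_contra h
            exact hk ⟨fun h1 => absurd h1 hkx, fun h1 => absurd h1 h⟩
          exact hneV (u1 _ _ ((hV x j).2 hjx) (by rw [hV]; exact fun h => h hjy)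
            ((hV x k).2 hkx) (by rw [hV]; exact fun h => h hky))

end Pool.Agent.FLP
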