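import Mathlib

/-!
# The flip chain on the unimodular triangulations of the `2 × n` rectangle: definitions

A triangulation of the `2 × n` rectangle is encoded by a triple `(α, β, S)`: `α` and `β` are
functions on the `n + 1` slots `0, …, n`, the slot `k` has `α k + 1` edges from the column `0` to
the vertex `(1, k)` and `β k + 1` edges from this vertex to the column `2`; `S` is the set of the
`k` for which the unit segment from `(1, k)` to `(1, k + 1)` is replaced by a long edge.
-/

open Finset

namespace Pool.Agent.FLP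

/-! ### Averages and variances -/

/-- The average of `f` over `s`. -/
noncomputable def av {X : Type*} (s : Finset X) (f : X → ℝ) : ℝ := (∑ y ∈ s, f y) / (s.card : ℝ)

/-- The sum of the squares of the deviations of `f` from its average over `s`. -/
noncomputable def vr {X : Type*} (s : Finset X) (f : X → ℝ) : ℝ := ∑ x ∈ s, (f x - av s f) ^ 2

/-! ### Moving units between slots -/

section mv

variable {ι κ : Type*} [DecidableEq ι]

/-- Move one unit from the slot `i` to the slot `j`. -/
def mv (i j : ι) (x : ι → ℕ) : ι → ℕ :=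
  fun l => (x l - if l = i then 1 else 0) + if l = j then 1 else 0

/-- The energy of the moves from `i` to `j` inside `s`, with capacities `c`. -/
noncomputable def NN (s : Finset (ι → ℕ)) (c : ι → ℕ) (i j : ι) (f : (ι → ℕ) → ℝ) : ℝ :=
  ∑ x ∈ s.filter (fun x => 1 ≤ x i ∧ x j < c j), (f x - f (mv i j x)) ^ 2

/-- `s` is the set of all occupation numbers with capacities `c` and given sums over the groups of
slots (the fibres of `g`). -/
structure IsGS [Fintype ι] [DecidableEq κ] (s : Finset (ι → ℕ)) (c : ι → ℕ) (g : ι → κ) :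
    Prop where
  le : ∀ x ∈ s, ∀ i, x i ≤ c i
  cl : ∀ x ∈ s, ∀ i j, i ≠ j → g i = g j → 1 ≤ x i → x j < c j → mv i j x ∈ s
  sum : ∀ x ∈ s, ∀ y ∈ s, ∀ j, ∑ i with g i = g j, x i = ∑ i with g i = g j, y i

/-- The states of `s` which differ from `x` only at `i` and `j`. -/
def ln [Fintype ι] (s : Finset (ι → ℕ)) (i j : ι) (x : ι → ℕ) : Finset (ι → ℕ) :=
  s.filter fun y => ∀ k, k ≠ i → k ≠ j → y k = x k

/-- The state on the line through `x` with the value `t` at `i`. -/
def pt (i j : ι) (x : ι → ℕ) (t : ℕ) : ι → ℕ :=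
  fun l => if l = i then t else if l = j then x i + x j - t else x l

end mv

/-! ### Configurations -/

variable {n : ℕ}

/-- The sum of `g` over the first `k` slots. -/
def pr (g : Fin (n + 1) → ℕ) (k : ℕ) : ℕ := ∑ i : Fin (n + 1) with i.val < k, g i

/-- Triples `(α, β, S)`. -/
abbrev Cf (n : ℕ) := (Fin (n + 1) → ℕ) × (Fin (n + 1) → ℕ) × Finset (Fin n)

/-- The configurations: they encode the triangulations of the `2 × n` rectangle. -/
def Om (n : ℕ) : Finset (Cf n) :=
  ((Fintype.piFinset fun _ => range (n + 1)) ×ˢ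
    ((Fintype.piFinset fun _ => range (n + 1)) ×ˢ (univ : Finset (Finset (Fin n))))).filter
    fun x => (∑ i, x.1 i = n ∧ ∑ i, x.2.1 i = n) ∧
      ∀ k ∈ x.2.2, pr (fun i => x.1 i + x.2.1 i) (k.val + 1) = 2 * k.val + 1

/-- Move a unit of `α` from the slot `k` to the slot `k + 1`. -/
def shA (k : Fin n) (x : Cf n) : Cf n := (mv k.castSucc k.succ x.1, x.2.1, x.2.2)

/-- Move a unit of `β` from the slot `k` to the slot `k + 1`. -/
def shB (k : Fin n) (x : Cf n) : Cf n := (x.1, mv k.castSucc k.succ x.2.1, x.2.2)

/-- Remove the mark `k`. -/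
def unm (k : Fin n) (x : Cf n) : Cf n := (x.1, x.2.1, x.2.2.erase k)

/-- The Dirichlet form of the flips. -/
noncomputable def Dir (n : ℕ) (f : Cf n → ℝ) : ℝ :=
  ∑ x ∈ Om n, ∑ k : Fin n,
    ((if k ∉ x.2.2 ∧ 1 ≤ x.1 k.castSucc then (f x - f (shA k x)) ^ 2 else 0) +
      (if k ∉ x.2.2 ∧ 1 ≤ x.2.1 k.castSucc then (f x - f (shB k x)) ^ 2 else 0) +
      (if k ∈ x.2.2 then (f x - f (unm k x)) ^ 2 else 0))

/-- Exchange a unit of `α` at `i` with a unit of `β` at `j`. -/
def TT (i j : Fin (n + 1)) (x : Cf n) : Cf n := (mv i j x.1, mv j i x.2.1, x.2.2)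

/-- The number of marks between the slots `c` and `d`. -/
def mk (S : Finset (Fin n)) (c d : Fin (n + 1)) : ℕ :=
  (S.filter fun k => c.val ≤ k.val ∧ k.val < d.val).card

/-- The occupation numbers `γ = α + β` which are compatible with the marks `S`. -/
def Gam (n : ℕ) (S : Finset (Fin n)) : Finset (Fin (n + 1) → ℕ) :=
  (Fintype.piFinset fun _ => range (2 * n + 1)).filter
    fun g => ∑ i, g i = 2 * n ∧ ∀ k ∈ S, pr g (k.val + 1) = 2 * k.val + 1

/-- The occupation numbers with capacities `c` and the sum `m`. -/
def Bx {ι : Type*} [Fintype ι] [DecidableEq ι] (c : ι → ℕ) (m : ℕ) : Finset (ι → ℕ) :=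
  (Fintype.piFinset fun i => range (c i + 1)).filter fun x => ∑ i, x i = m

/-- The configurations with the marks `S`. -/
def XS (n : ℕ) (S : Finset (Fin n)) : Finset ((Fin (n + 1) → ℕ) × (Fin (n + 1) → ℕ)) :=
  ((Fintype.piFinset fun _ => range (n + 1)) ×ˢ (Fintype.piFinset fun _ => range (n + 1))).filter
    fun p => (p.1, p.2, S) ∈ Om n

/-- `γ` as a sum of two functions: the function on the cells `(i, b)`. -/
def gm (x : Fin (n + 1) × Bool → ℕ) : Fin (n + 1) → ℕ := fun i => x (i, false) + x (i, true)

/-- The occupation numbers of the cells which are compatible with the marks `S`. -/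
def XX (n : ℕ) (S : Finset (Fin n)) : Finset (Fin (n + 1) × Bool → ℕ) :=
  (Fintype.piFinset fun _ => range (2 * n + 1)).filter fun x => gm x ∈ Gam n S

/-- The index of the gap (between consecutive marks) of the slot `i`. -/
def gi (S : Finset (Fin n)) (i : Fin (n + 1)) : ℕ := (S.filter fun k => k.val < i.val).card

/-! ### The weights of the gaps -/

/-- The initial sum at the beginning of the gap which starts at the slot `l`. -/
def pv (l : ℕ) : ℕ := 2 * l - 1

/-- The initial sum at the end of the gap which ends at the slot `r`. -/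
def en (n r : ℕ) : ℕ := min (2 * r + 1) (2 * n)

/-- The number of occupation numbers of the cells of the slots `l, …, r` with the right sum. -/
def Gw (n l r : ℕ) : ℕ :=
  (2 * (r - l + 1) + (en n r - pv l) - 1).choose (en n r - pv l)

/-- The product of the weights of the gaps from the boundary `k` on, `l` is the first slot of the
gap of `k`; the first argument is `n - k`. -/
def Rw (n : ℕ) (S : Finset (Fin n)) (l : ℕ) : ℕ → ℕ
  | 0 => Gw n l n
  | d + 1 => if ∃ k ∈ S, k.val = n - (d + 1) then
      Gw n l (n - (d + 1)) * Rw n S (n - (d + 1) + 1) d else Rw n S l d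

/-- The marks of `S'` before `k` and the marks of `S` from `k` on. -/
def Zk (S S' : Finset (Fin n)) (k : ℕ) : Finset (Fin n) :=
  (S'.filter fun j => j.val < k) ∪ (S.filter fun j => k ≤ j.val)

end Pool.Agent.FLP
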