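import Pool.Agent.FLP.MVA

/-!
Elementary exchanges. Split the sum into the x with mk = 0 and, for each boundary k with c <= k < d, the x
for which k is the only mark between c and d.
mk = 0: f x - f (TT c d x) = [f x - f x'] + [f x' - f x''], x' = (mv c d α, β, S), x'' = TT c d x =
(mv c d α, mv d c β, S). Sum over x: mva for the first, mvb for the second (the pair (x'', x') is of the
form (y, (y.1, mv c d y.2.1, S)) with y = x'': mv_mv). Together <= 4 (n+1) Dir.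
Only mark k: f x - f (TT c d x) = [f x - f (unm k x)] + [f x0 - f x0'] + [f x0' - f x0''] +
[f x0'' - f (TT c d x)] with x0 = unm k x and x0'' = unm k (TT c d x). The maps x ↦ x0 etc. are injective
on the set of the x with k in S. First and last: the third part of Dir. Middle: mva, mvb. Together
<= 4 (Dir + (n+1) Dir + (n+1) Dir + Dir) <= 16 (n+1) Dir; at most n values of k.
-/

open Finset

namespace Pool.Agent.FLP

variable {n : ℕ}

private theorem elt_sum_le {X Y : Type*} [DecidableEq Y] (A : Finset X) (B : Finset Y) (φ : X → Y)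
    (hφ : ∀ x ∈ A, φ x ∈ B) (hi : ∀ x ∈ A, ∀ y ∈ A, φ x = φ y → x = y) (F : Y → ℝ)
    (hF : ∀ y ∈ B, 0 ≤ F y) : ∑ x ∈ A, F (φ x) ≤ ∑ y ∈ B, F y := by
  rw [← sum_image (f := F) (g := φ) (fun x hx y hy h => hi x hx y hy h)]
  exact sum_le_sum_of_subset_of_nonneg (fun y hy => by
    obtain ⟨x, hx, rfl⟩ := mem_image.1 hy
    exact hφ x hx) (fun y hy _ => hF y hy)

private theorem elt_Dir_nonneg (f : Cf n → ℝ) : 0 ≤ Dir n f := by
  unfold Dir
  refine sum_nonneg fun x _ => sum_nonneg fun k _ => ?_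
  refine add_nonneg (add_nonneg ?_ ?_) ?_ <;>
  · split_ifs
    · exact sq_nonneg _
    · exact le_rfl

private theorem elt_unm (f : Cf n → ℝ) (k : Fin n) :
    ∑ x ∈ (Om n).filter (fun x => k ∈ x.2.2), (f x - f (unm k x)) ^ 2 ≤ Dir n f := by
  unfold Dir
  rw [sum_filter]
  refine sum_le_sum fun x _ => ?_
  have h1 : (if k ∈ x.2.2 then (f x - f (unm k x)) ^ 2 else 0) ≤
      ((if k ∉ x.2.2 ∧ 1 ≤ x.1 k.castSucc then (f x - f (shA k x)) ^ 2 else 0) +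
      (if k ∉ x.2.2 ∧ 1 ≤ x.2.1 k.castSucc then (f x - f (shB k x)) ^ 2 else 0) +
      (if k ∈ x.2.2 then (f x - f (unm k x)) ^ 2 else 0)) := by
    have h2 : 0 ≤ (if k ∉ x.2.2 ∧ 1 ≤ x.1 k.castSucc then (f x - f (shA k x)) ^ 2 else 0) := by
      split_ifs
      · exact sq_nonneg _
      · exact le_rfl
    have h3 : 0 ≤ (if k ∉ x.2.2 ∧ 1 ≤ x.2.1 k.castSucc then (f x - f (shB k x)) ^ 2 else 0) := by
      split_ifs
      · exact sq_nonneg _
      · exact le_rfl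
    linarith
  refine h1.trans ?_
  refine single_le_sum (f := fun k : Fin n =>
    ((if k ∉ x.2.2 ∧ 1 ≤ x.1 k.castSucc then (f x - f (shA k x)) ^ 2 else 0) +
      (if k ∉ x.2.2 ∧ 1 ≤ x.2.1 k.castSucc then (f x - f (shB k x)) ^ 2 else 0) +
      (if k ∈ x.2.2 then (f x - f (unm k x)) ^ 2 else 0))) (fun k _ => ?_) (mem_univ k)
  refine add_nonneg (add_nonneg ?_ ?_) ?_ <;>
  · split_ifs
    · exact sq_nonneg _
    · exact le_rfl

/-- The index set without marks. -/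
private def I0 (n : ℕ) (c d : Fin (n + 1)) : Finset (Cf n) :=
  (Om n).filter (fun x => (1 ≤ x.1 c ∧ 1 ≤ x.2.1 d) ∧ mk x.2.2 c d = 0)

private theorem elt_A1 {c d : Fin (n + 1)} (hcd : c < d) (f : Cf n → ℝ) :
    ∑ x ∈ I0 n c d, (f x - f (mv c d x.1, x.2.1, x.2.2)) ^ 2 ≤ ((n : ℝ) + 1) * Dir n f := by
  refine le_trans ?_ (mva hcd f)
  refine sum_le_sum_of_subset_of_nonneg ?_ (fun _ _ _ => sq_nonneg _)
  intro x hx
  obtain ⟨hx, ⟨h1, h2⟩, h3⟩ := mem_filter.1 hx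
  exact mem_filter.2 ⟨hx, h1, h3⟩

private theorem TT_inj {c d : Fin (n + 1)} (hcd : c < d) {x y : Cf n} (hx1 : 1 ≤ x.1 c)
    (hx2 : 1 ≤ x.2.1 d) (hy1 : 1 ≤ y.1 c) (hy2 : 1 ≤ y.2.1 d) (h : TT c d x = TT c d y) :
    x = y := by
  unfold TT at h
  simp only [Prod.mk.injEq] at h
  obtain ⟨e1, e2, e3⟩ := h
  exact Prod.ext (mv_inj hcd.ne hx1 hy1 e1) (Prod.ext (mv_inj hcd.ne' hx2 hy2 e2) e3)

private theorem elt_A2 {c d : Fin (n + 1)} (hcd : c < d) (f : Cf n → ℝ) :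
    ∑ x ∈ I0 n c d, (f (mv c d x.1, x.2.1, x.2.2) - f (TT c d x)) ^ 2 ≤
      ((n : ℝ) + 1) * Dir n f := by
  refine le_trans ?_ (mvb hcd f)
  have h1 : ∀ x ∈ I0 n c d, (f (mv c d x.1, x.2.1, x.2.2) - f (TT c d x)) ^ 2 =
      (fun y : Cf n => (f y - f (y.1, mv c d y.2.1, y.2.2)) ^ 2) (TT c d x) := by
    intro x hx
    obtain ⟨hx, ⟨h1, h2⟩, h3⟩ := mem_filter.1 hx
    show _ = (f (TT c d x) - f ((TT c d x).1, mv c d (mv d c x.2.1), x.2.2)) ^ 2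
    rw [mv_mv hcd.ne' h2]
    show (f (mv c d x.1, x.2.1, x.2.2) - f (TT c d x)) ^ 2 =
      (f (TT c d x) - f (mv c d x.1, x.2.1, x.2.2)) ^ 2
    ring
  rw [sum_congr rfl h1]
  refine elt_sum_le _ _ (fun x => TT c d x) ?_ ?_
    (fun y : Cf n => (f y - f (y.1, mv c d y.2.1, y.2.2)) ^ 2) (fun _ _ => sq_nonneg _)
  · intro x hx
    obtain ⟨hx, ⟨h1, h2⟩, h3⟩ := mem_filter.1 hx
    refine mem_filter.2 ⟨TT_mem hx hcd h1 h2, ?_, h3⟩
    show 1 ≤ mv d c x.2.1 c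
    rw [mv_tgt hcd.ne']
    omega
  · intro x hx y hy h
    obtain ⟨-, ⟨h1, h2⟩, -⟩ := mem_filter.1 hx
    obtain ⟨-, ⟨h1', h2'⟩, -⟩ := mem_filter.1 hy
    exact TT_inj hcd h1 h2 h1' h2' h

private theorem elt_zero {c d : Fin (n + 1)} (hcd : c < d) (f : Cf n → ℝ) :
    ∑ x ∈ I0 n c d, (f x - f (TT c d x)) ^ 2 ≤ 4 * (((n : ℝ) + 1) * Dir n f) := by
  have h : ∑ x ∈ I0 n c d, (f x - f (TT c d x)) ^ 2 ≤
      2 * ∑ x ∈ I0 n c d, (f x - f (mv c d x.1, x.2.1, x.2.2)) ^ 2 +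
      2 * ∑ x ∈ I0 n c d, (f (mv c d x.1, x.2.1, x.2.2) - f (TT c d x)) ^ 2 := by
    rw [mul_sum, mul_sum, ← sum_add_distrib]
    refine sum_le_sum fun x _ => ?_
    nlinarith [sq_nonneg ((f x - f (mv c d x.1, x.2.1, x.2.2)) -
      (f (mv c d x.1, x.2.1, x.2.2) - f (TT c d x)))]
  linarith [elt_A1 hcd f, elt_A2 hcd f]

/-- The index set in which `k` is the only mark. -/
private def Ik (n : ℕ) (c d : Fin (n + 1)) (k : Fin n) : Finset (Cf n) :=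
  (Om n).filter (fun x => (1 ≤ x.1 c ∧ 1 ≤ x.2.1 d) ∧ k ∈ x.2.2 ∧ mk (x.2.2.erase k) c d = 0)

private theorem unm_inj {k : Fin n} {x y : Cf n} (hx : k ∈ x.2.2) (hy : k ∈ y.2.2)
    (h : unm k x = unm k y) : x = y := by
  unfold unm at h
  simp only [Prod.mk.injEq] at h
  obtain ⟨e1, e2, e3⟩ := h
  refine Prod.ext e1 (Prod.ext e2 ?_)
  rw [← insert_erase hx, e3, insert_erase hy]

private theorem elt_one {c d : Fin (n + 1)} (hcd : c < d) (f : Cf n → ℝ) (k : Fin n) :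
    ∑ x ∈ Ik n c d k, (f x - f (TT c d x)) ^ 2 ≤
      8 * Dir n f + 8 * (((n : ℝ) + 1) * Dir n f) := by
  have hI : ∀ x ∈ Ik n c d k, unm k x ∈ I0 n c d := by
    intro x hx
    obtain ⟨hx, ⟨h1, h2⟩, h3, h4⟩ := mem_filter.1 hx
    exact mem_filter.2 ⟨unm_mem hx k, ⟨h1, h2⟩, h4⟩
  have hinj : ∀ x ∈ Ik n c d k, ∀ y ∈ Ik n c d k, unm k x = unm k y → x = y := by
    intro x hx y hy h
    exact unm_inj (mem_filter.1 hx).2.2.1 (mem_filter.1 hy).2.2.1 h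
  have e1 : ∑ x ∈ Ik n c d k, (f x - f (unm k x)) ^ 2 ≤ Dir n f := by
    refine le_trans ?_ (elt_unm f k)
    refine sum_le_sum_of_subset_of_nonneg ?_ (fun _ _ _ => sq_nonneg _)
    intro x hx
    obtain ⟨hx, ⟨h1, h2⟩, h3, h4⟩ := mem_filter.1 hx
    exact mem_filter.2 ⟨hx, h3⟩
  have e2 : ∑ x ∈ Ik n c d k, (f (unm k x) - f (mv c d x.1, x.2.1, x.2.2.erase k)) ^ 2 ≤
      ((n : ℝ) + 1) * Dir n f := by
    refine le_trans ?_ (elt_A1 hcd f)
    exact elt_sum_le (Ik n c d k) (I0 n c d) (fun x => unm k x) hI hinj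
      (fun y => (f y - f (mv c d y.1, y.2.1, y.2.2)) ^ 2) (fun _ _ => sq_nonneg _)
  have e3 : ∑ x ∈ Ik n c d k, (f (mv c d x.1, x.2.1, x.2.2.erase k) -
      f (TT c d (unm k x))) ^ 2 ≤ ((n : ℝ) + 1) * Dir n f := by
    refine le_trans ?_ (elt_A2 hcd f)
    exact elt_sum_le (Ik n c d k) (I0 n c d) (fun x => unm k x) hI hinj
      (fun y => (f (mv c d y.1, y.2.1, y.2.2) - f (TT c d y)) ^ 2) (fun _ _ => sq_nonneg _)
  have e4 : ∑ x ∈ Ik n c d k, (f (TT c d x) - f (unm k (TT c d x))) ^ 2 ≤ Dir n f := by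
    refine le_trans ?_ (elt_unm f k)
    refine elt_sum_le (Ik n c d k) _ (fun x => TT c d x) ?_ ?_
      (fun y => (f y - f (unm k y)) ^ 2) (fun _ _ => sq_nonneg _)
    · intro x hx
      obtain ⟨hx, ⟨h1, h2⟩, h3, h4⟩ := mem_filter.1 hx
      exact mem_filter.2 ⟨TT_mem hx hcd h1 h2, h3⟩
    · intro x hx y hy h
      obtain ⟨-, ⟨h1, h2⟩, -⟩ := mem_filter.1 hx
      obtain ⟨-, ⟨h1', h2'⟩, -⟩ := mem_filter.1 hy
      exact TT_inj hcd h1 h2 h1' h2' h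
  have h : ∑ x ∈ Ik n c d k, (f x - f (TT c d x)) ^ 2 ≤
      4 * ∑ x ∈ Ik n c d k, (f x - f (unm k x)) ^ 2 +
      4 * ∑ x ∈ Ik n c d k, (f (unm k x) - f (mv c d x.1, x.2.1, x.2.2.erase k)) ^ 2 +
      4 * ∑ x ∈ Ik n c d k, (f (mv c d x.1, x.2.1, x.2.2.erase k) -
        f (TT c d (unm k x))) ^ 2 +
      4 * ∑ x ∈ Ik n c d k, (f (TT c d x) - f (unm k (TT c d x))) ^ 2 := by
    rw [mul_sum, mul_sum, mul_sum, mul_sum, ← sum_add_distrib, ← sum_add_distrib,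
      ← sum_add_distrib]
    refine sum_le_sum fun x _ => ?_
    have hc : TT c d (unm k x) = unm k (TT c d x) := rfl
    rw [hc]
    generalize f x = a
    generalize f (unm k x) = b
    generalize f (mv c d x.1, x.2.1, x.2.2.erase k) = u
    generalize f (unm k (TT c d x)) = v
    generalize f (TT c d x) = w
    nlinarith [sq_nonneg ((a - b) - (b - u)), sq_nonneg ((a - b) - (u - v)),
      sq_nonneg ((a - b) + (w - v)), sq_nonneg ((b - u) - (u - v)),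
      sq_nonneg ((b - u) + (w - v)), sq_nonneg ((u - v) + (w - v))]
  linarith

theorem elt {c d : Fin (n + 1)} (hcd : c < d) (f : Cf n → ℝ) :
    ∑ x ∈ (Om n).filter (fun x => (1 ≤ x.1 c ∧ 1 ≤ x.2.1 d) ∧ mk x.2.2 c d ≤ 1),
      (f x - f (TT c d x)) ^ 2 ≤ 16 * ((n : ℝ) + 1) ^ 2 * Dir n f := by
  classical
  have hsub : (Om n).filter (fun x => (1 ≤ x.1 c ∧ 1 ≤ x.2.1 d) ∧ mk x.2.2 c d ≤ 1) ⊆
      I0 n c d ∪ univ.biUnion (fun k : Fin n => Ik n c d k) := by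
    intro x hx
    obtain ⟨hx, h1, h2⟩ := mem_filter.1 hx
    rw [mem_union, mem_biUnion]
    rcases Nat.le_one_iff_eq_zero_or_eq_one.1 h2 with h3 | h3
    · exact Or.inl (mem_filter.2 ⟨hx, h1, h3⟩)
    · right
      obtain ⟨k, hk⟩ := card_eq_one.1 h3
      have hkS : k ∈ x.2.2 := (mem_filter.1 (hk ▸ mem_singleton_self k)).1
      refine ⟨k, mem_univ _, mem_filter.2 ⟨hx, h1, hkS, ?_⟩⟩
      rw [mk_eq_zero]
      intro l hl hcl
      by_contra hld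
      obtain ⟨hl1, hl2⟩ := mem_erase.1 hl
      have hl3 : l ∈ x.2.2.filter (fun k => c.val ≤ k.val ∧ k.val < d.val) :=
        mem_filter.2 ⟨hl2, hcl, not_le.1 hld⟩
      rw [hk, mem_singleton] at hl3
      exact hl1 hl3
  have h1 : ∑ x ∈ (Om n).filter (fun x => (1 ≤ x.1 c ∧ 1 ≤ x.2.1 d) ∧ mk x.2.2 c d ≤ 1),
      (f x - f (TT c d x)) ^ 2 ≤ ∑ x ∈ I0 n c d, (f x - f (TT c d x)) ^ 2 +
        ∑ k : Fin n, ∑ x ∈ Ik n c d k, (f x - f (TT c d x)) ^ 2 := by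
    refine (sum_le_sum_of_subset_of_nonneg hsub (fun _ _ _ => sq_nonneg _)).trans ?_
    have h2 : ∑ x ∈ I0 n c d ∪ univ.biUnion (fun k : Fin n => Ik n c d k),
        (f x - f (TT c d x)) ^ 2 ≤ ∑ x ∈ I0 n c d, (f x - f (TT c d x)) ^ 2 +
          ∑ x ∈ univ.biUnion (fun k : Fin n => Ik n c d k), (f x - f (TT c d x)) ^ 2 := by
      rw [← sum_union_inter]
      have : 0 ≤ ∑ x ∈ I0 n c d ∩ univ.biUnion (fun k : Fin n => Ik n c d k),
        (f x - f (TT c d x)) ^ 2 := sum_nonneg fun _ _ => sq_nonneg _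
      linarith
    have h3 : ∀ s : Finset (Fin n), ∑ x ∈ s.biUnion (fun k : Fin n => Ik n c d k),
        (f x - f (TT c d x)) ^ 2 ≤ ∑ k ∈ s, ∑ x ∈ Ik n c d k, (f x - f (TT c d x)) ^ 2 := by
      intro s
      induction s using Finset.induction_on with
      | empty => simp
      | insert k s hk ih =>
        rw [biUnion_insert, sum_insert hk]
        have h4 := sum_union_inter (s₁ := Ik n c d k)
          (s₂ := s.biUnion (fun k : Fin n => Ik n c d k))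
          (f := fun x => (f x - f (TT c d x)) ^ 2)
        have : 0 ≤ ∑ x ∈ Ik n c d k ∩ s.biUnion (fun k : Fin n => Ik n c d k),
          (f x - f (TT c d x)) ^ 2 := sum_nonneg fun _ _ => sq_nonneg _
        linarith
    exact h2.trans (add_le_add le_rfl (h3 univ))
  have h2 : ∑ k : Fin n, ∑ x ∈ Ik n c d k, (f x - f (TT c d x)) ^ 2 ≤
      (n : ℝ) * (8 * Dir n f + 8 * (((n : ℝ) + 1) * Dir n f)) := by
    refine (sum_le_sum fun k _ => elt_one hcd f k).trans ?_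
    rw [sum_const, card_univ, Fintype.card_fin, nsmul_eq_mul]
  have h3 := elt_zero hcd f
  have h4 := elt_Dir_nonneg f
  have h5 : (0 : ℝ) ≤ n := Nat.cast_nonneg n
  have h6 : 4 * (((n : ℝ) + 1) * Dir n f) + (n : ℝ) * (8 * Dir n f +
      8 * (((n : ℝ) + 1) * Dir n f)) ≤ 16 * ((n : ℝ) + 1) ^ 2 * Dir n f := by
    have : 4 * ((n : ℝ) + 1) + n * (8 + 8 * ((n : ℝ) + 1)) ≤ 16 * ((n : ℝ) + 1) ^ 2 := by
      nlinarith
    calc _ = (4 * ((n : ℝ) + 1) + n * (8 + 8 * ((n : ℝ) + 1))) * Dir n f := by ring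
      _ ≤ _ := mul_le_mul_of_nonneg_right this h4
  linarith

end Pool.Agent.FLP
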