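import Pool.Agent.FLP.ADJ

/-!
Dir is bounded by the sum over the neighbours: for each of the 3 n kinds of terms (x, k) of Dir n f the second
configuration y (shA k x, shB k x, unm k x) is in Om n (OMM) and adj x y (ADJ), so for every x the inner sum is
at most 3 n * sum over the neighbours y of x.
-/

open Finset

namespace Pool.Agent.FLP

variable {n : ℕ}

theorem fdr (n : ℕ) (f : Cf n → ℝ) :
    Dir n f ≤ 3 * (n : ℝ) * ∑ x ∈ Om n, ∑ y ∈ (Om n).filter (fun y => adj x y), (f x - f y) ^ 2 := by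
  unfold Dir
  rw [Finset.mul_sum]
  apply Finset.sum_le_sum
  intro x hx
  have key : ∀ y ∈ Om n, adj x y → (f x - f y) ^ 2 ≤
      ∑ y ∈ (Om n).filter (fun y => adj x y), (f x - f y) ^ 2 := by
    intro y hy hxy
    exact Finset.single_le_sum (f := fun y => (f x - f y) ^ 2) (fun _ _ => sq_nonneg _)
      (Finset.mem_filter.2 ⟨hy, hxy⟩)
  have h0 : 0 ≤ ∑ y ∈ (Om n).filter (fun y => adj x y), (f x - f y) ^ 2 :=
    Finset.sum_nonneg (fun _ _ => sq_nonneg _)
  have hk : ∀ k ∈ (Finset.univ : Finset (Fin n)),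
      ((if k ∉ x.2.2 ∧ 1 ≤ x.1 k.castSucc then (f x - f (shA k x)) ^ 2 else 0) +
      (if k ∉ x.2.2 ∧ 1 ≤ x.2.1 k.castSucc then (f x - f (shB k x)) ^ 2 else 0) +
      (if k ∈ x.2.2 then (f x - f (unm k x)) ^ 2 else 0)) ≤
      3 * ∑ y ∈ (Om n).filter (fun y => adj x y), (f x - f y) ^ 2 := by
    intro k _
    have hA : (if k ∉ x.2.2 ∧ 1 ≤ x.1 k.castSucc then (f x - f (shA k x)) ^ 2 else 0) ≤
        ∑ y ∈ (Om n).filter (fun y => adj x y), (f x - f y) ^ 2 := by
      split_ifs with h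
      · exact key _ (shA_mem hx h.1 h.2) (adjA hx h.1 h.2)
      · exact h0
    have hB : (if k ∉ x.2.2 ∧ 1 ≤ x.2.1 k.castSucc then (f x - f (shB k x)) ^ 2 else 0) ≤
        ∑ y ∈ (Om n).filter (fun y => adj x y), (f x - f y) ^ 2 := by
      split_ifs with h
      · exact key _ (shB_mem hx h.1 h.2) (adjB hx h.1 h.2)
      · exact h0
    have hU : (if k ∈ x.2.2 then (f x - f (unm k x)) ^ 2 else 0) ≤
        ∑ y ∈ (Om n).filter (fun y => adj x y), (f x - f y) ^ 2 := by
      split_ifs with h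
      · exact key _ (unm_mem hx k) (adjU hx h)
      · exact h0
    linarith
  refine (Finset.sum_le_sum hk).trans ?_
  rw [Finset.sum_const, Finset.card_univ, Fintype.card_fin, nsmul_eq_mul]
  linarith

end Pool.Agent.FLP
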