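import Pool.Agent.FLP.Bas
import Pool.Agent.FLP.Defs2

/-!
The sets Tm x are maximal. ok: pr_le, pr_top; for G: pr x.1 (k+1) + pr x.2.1 (k+1) = 2k+1 (mem_Om). cmp: L - L:
if k < k' then i <= pr x.1 (k+1) <= pr x.1 k' <= i' (pr_mono). L i y - G of the mark k (i' = pr x.1 (k+1),
i' + j' = 2k+1): y <= k gives i <= pr (y+1) <= i', y >= k + 1 gives i >= pr y >= i'. G - G: pr_mono. V 1 k - G:
k is not a mark. Others by symmetry. max: let e be ok and compatible with all others. L i y not in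
Tm x: if i > pr x.1 (y+1) then y < n (pr_top) and L (pr x.1 (y+1)) (y+1) is in Tm x and crosses e; if
i < pr x.1 y then y >= 1 and L (pr x.1 y) (y-1) is in Tm x and crosses e. U: the same. V 0, V 2: in Tm x.
V 1 k: if k is a mark then e crosses the G edge of k. G u v, u + v = 2k+1, k < n: compatible with
L a k and L a (k+1) in Tm x, a = pr x.1 (k+1), gives u = a; with U k b, U (k+1) b, b = pr x.2.1 (k+1), gives
v = b. If k is a mark then e is in Tm x, otherwise V 1 k in Tm x crosses e.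
-/

open Finset

namespace Pool.Agent.FLP

theorem mxa {n : ℕ} {x : Cf n} (hx : x ∈ Om n) : MaxC n (Tm x) := by
  obtain ⟨hs1, hs2, hm⟩ := (mem_Om x).1 hx
  have hA0 : pr x.1 0 = 0 := pr_zero _
  have hB0 : pr x.2.1 0 = 0 := pr_zero _
  have hAm : ∀ {a b : ℕ}, a ≤ b → pr x.1 a ≤ pr x.1 b := fun h => pr_mono _ h
  have hBm : ∀ {a b : ℕ}, a ≤ b → pr x.2.1 a ≤ pr x.2.1 b := fun h => pr_mono _ h
  have hAn : ∀ k, pr x.1 k ≤ n := fun k => (pr_le x.1 k).trans hs1.le
  have hBn : ∀ k, pr x.2.1 k ≤ n := fun k => (pr_le x.2.1 k).trans hs2.le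
  have hAt : pr x.1 (n + 1) = n := by rw [pr_top _ le_rfl, hs1]
  have hBt : pr x.2.1 (n + 1) = n := by rw [pr_top _ le_rfl, hs2]
  refine ⟨?_, ?_, ?_⟩
  · intro e he
    cases e with
    | V a j =>
      rw [V_mem_Tm] at he
      change a ≤ 2 ∧ j < n
      rcases he with ⟨rfl, h⟩ | ⟨rfl, h⟩ | ⟨rfl, h, -⟩ <;> exact ⟨by omega, h⟩
    | L i k =>
      rw [L_mem_Tm] at he
      exact ⟨he.1, he.2.1⟩
    | U k j =>
      rw [U_mem_Tm] at he
      exact ⟨he.1, he.2.1⟩
    | G i j =>
      rw [G_mem_Tm] at he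
      obtain ⟨k, hk, rfl, rfl⟩ := he
      refine ⟨hAn _, hBn _, ?_⟩
      rw [hm k hk]
      omega
  · intro e he f hf hne
    -- facts on pairs
    have hVG : ∀ a j i i', Ed.V a j ∈ Tm x → Ed.G i i' ∈ Tm x → a = 1 → i + i' ≠ 2 * j + 1 := by
      intro a j i i' h1 h2 ha hs
      rw [V_mem_Tm] at h1
      rw [G_mem_Tm] at h2
      obtain ⟨k, hk, rfl, rfl⟩ := h2
      rw [hm k hk] at hs
      rcases h1 with ⟨h, -⟩ | ⟨h, -⟩ | ⟨-, h, h3⟩
      · omega
      · omega
      · apply h3
        have : (⟨j, h⟩ : Fin n) = k := Fin.ext (by change j = k.val; omega)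
        rw [this]
        exact hk
    have hLL : ∀ i k i' k', Ed.L i k ∈ Tm x → Ed.L i' k' ∈ Tm x → ¬ (i < i' ∧ k' < k) := by
      rintro i k i' k' h1 h2 ⟨h3, h4⟩
      rw [L_mem_Tm] at h1 h2
      have := hAm (show k' + 1 ≤ k by omega)
      omega
    have hUU : ∀ k j k' j', Ed.U k j ∈ Tm x → Ed.U k' j' ∈ Tm x → ¬ (k < k' ∧ j' < j) := by
      rintro k j k' j' h1 h2 ⟨h3, h4⟩
      rw [U_mem_Tm] at h1 h2
      have := hBm (show k + 1 ≤ k' by omega)
      omega
    have hLG : ∀ i k i' j', Ed.L i k ∈ Tm x → Ed.G i' j' ∈ Tm x →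
        ¬ (i < i' ∧ i' + j' < 2 * k) ∧ ¬ (i' < i ∧ 2 * k < i' + j') := by
      intro i k i' j' h1 h2
      rw [L_mem_Tm] at h1
      rw [G_mem_Tm] at h2
      obtain ⟨m, hmk, rfl, rfl⟩ := h2
      rw [hm m hmk]
      refine ⟨fun h => ?_, fun h => ?_⟩
      · have := hAm (show m.val + 1 ≤ k by omega)
        omega
      · have := hAm (show k + 1 ≤ m.val + 1 by omega)
        omega
    have hUG : ∀ k j i' j', Ed.U k j ∈ Tm x → Ed.G i' j' ∈ Tm x →
        ¬ (j < j' ∧ i' + j' < 2 * k) ∧ ¬ (j' < j ∧ 2 * k < i' + j') := by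
      intro k j i' j' h1 h2
      rw [U_mem_Tm] at h1
      rw [G_mem_Tm] at h2
      obtain ⟨m, hmk, rfl, rfl⟩ := h2
      rw [hm m hmk]
      refine ⟨fun h => ?_, fun h => ?_⟩
      · have := hBm (show m.val + 1 ≤ k by omega)
        omega
      · have := hBm (show k + 1 ≤ m.val + 1 by omega)
        omega
    have hGG : ∀ i j i' j', Ed.G i j ∈ Tm x → Ed.G i' j' ∈ Tm x → ¬ (i < i' ∧ j' < j) := by
      rintro i j i' j' h1 h2 ⟨h3, h4⟩
      rw [G_mem_Tm] at h1 h2
      obtain ⟨m, hmk, rfl, rfl⟩ := h1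
      obtain ⟨m', hmk', rfl, rfl⟩ := h2
      rcases le_or_gt m.val m'.val with h | h
      · have := hBm (show m.val + 1 ≤ m'.val + 1 by omega)
        omega
      · have := hAm (show m'.val + 1 ≤ m.val + 1 by omega)
        omega
    cases e with
    | V a j =>
      cases f with
      | V a' j' => trivial
      | L i k => trivial
      | U k j => trivial
      | G i i' => exact hVG _ _ _ _ he hf
    | L i k =>
      cases f with
      | V a' j' => trivial
      | L i' k' => exact ⟨hLL _ _ _ _ he hf, hLL _ _ _ _ hf he⟩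
      | U k j => trivial
      | G i' j' => exact hLG _ _ _ _ he hf
    | U k j =>
      cases f with
      | V a' j' => trivial
      | L i' k' => trivial
      | U k' j' => exact ⟨hUU _ _ _ _ he hf, hUU _ _ _ _ hf he⟩
      | G i' j' => exact hUG _ _ _ _ he hf
    | G i i' =>
      cases f with
      | V a' j' => exact hVG _ _ _ _ hf he
      | L i' k' => exact hLG _ _ _ _ hf he
      | U k' j' => exact hUG _ _ _ _ hf he
      | G i' j' => exact ⟨hGG _ _ _ _ he hf, hGG _ _ _ _ hf he⟩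
  · intro e hok hc
    cases e with
    | V a j =>
      obtain ⟨ha, hj⟩ : a ≤ 2 ∧ j < n := hok
      rw [V_mem_Tm]
      by_cases h0 : a = 0
      · exact Or.inl ⟨h0, hj⟩
      by_cases h2 : a = 2
      · exact Or.inr (Or.inl ⟨h2, hj⟩)
      have h1 : a = 1 := by omega
      refine Or.inr (Or.inr ⟨h1, hj, fun hk => ?_⟩)
      have h3 : Ed.G (pr x.1 (j + 1)) (pr x.2.1 (j + 1)) ∈ Tm x := by
        rw [G_mem_Tm]
        exact ⟨⟨j, hj⟩, hk, rfl, rfl⟩
      exact hc _ h3 (by simp) h1 (hm ⟨j, hj⟩ hk)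
    | L i k =>
      obtain ⟨hi, hk⟩ : i ≤ n ∧ k ≤ n := hok
      rw [L_mem_Tm]
      refine ⟨hi, hk, ?_, ?_⟩
      · by_contra hlt
        push Not at hlt
        have hk1 : 1 ≤ k := by
          by_contra h
          have : k = 0 := by omega
          subst this
          omega
        have h3 : Ed.L (pr x.1 k) (k - 1) ∈ Tm x := by
          rw [L_mem_Tm]
          refine ⟨hAn _, by omega, hAm (by omega), hAm (by omega)⟩
        have h4 := hc _ h3 (by simp only [ne_eq, Ed.L.injEq]; omega)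
        exact h4.1 ⟨hlt, by omega⟩
      · by_contra hlt
        push Not at hlt
        have hk1 : k < n := by
          by_contra h
          have : k = n := by omega
          subst this
          omega
        have h3 : Ed.L (pr x.1 (k + 1)) (k + 1) ∈ Tm x := by
          rw [L_mem_Tm]
          refine ⟨hAn _, by omega, le_rfl, hAm (by omega)⟩
        have h4 := hc _ h3 (by simp only [ne_eq, Ed.L.injEq]; omega)
        exact h4.2 ⟨hlt, by omega⟩
    | U k j =>
      obtain ⟨hk, hj⟩ : k ≤ n ∧ j ≤ n := hok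
      rw [U_mem_Tm]
      refine ⟨hk, hj, ?_, ?_⟩
      · by_contra hlt
        push Not at hlt
        have hk1 : 1 ≤ k := by
          by_contra h
          have : k = 0 := by omega
          subst this
          omega
        have h3 : Ed.U (k - 1) (pr x.2.1 k) ∈ Tm x := by
          rw [U_mem_Tm]
          refine ⟨by omega, hBn _, hBm (by omega), hBm (by omega)⟩
        have h4 := hc _ h3 (by simp only [ne_eq, Ed.U.injEq]; omega)
        exact h4.2 ⟨by omega, hlt⟩
      · by_contra hlt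
        push Not at hlt
        have hk1 : k < n := by
          by_contra h
          have : k = n := by omega
          subst this
          omega
        have h3 : Ed.U (k + 1) (pr x.2.1 (k + 1)) ∈ Tm x := by
          rw [U_mem_Tm]
          refine ⟨by omega, hBn _, le_rfl, hBm (by omega)⟩
        have h4 := hc _ h3 (by simp only [ne_eq, Ed.U.injEq]; omega)
        exact h4.1 ⟨by omega, hlt⟩
    | G u v =>
      obtain ⟨hu, hv, hp⟩ : u ≤ n ∧ v ≤ n ∧ (u + v) % 2 = 1 := hok
      obtain ⟨k, hk⟩ : ∃ k, u + v = 2 * k + 1 := ⟨(u + v) / 2, by omega⟩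
      have hkn : k < n := by omega
      have l1 : Ed.L (pr x.1 (k + 1)) k ∈ Tm x := by
        rw [L_mem_Tm]
        exact ⟨hAn _, by omega, hAm (by omega), le_rfl⟩
      have l2 : Ed.L (pr x.1 (k + 1)) (k + 1) ∈ Tm x := by
        rw [L_mem_Tm]
        exact ⟨hAn _, by omega, le_rfl, hAm (by omega)⟩
      have u1 : Ed.U k (pr x.2.1 (k + 1)) ∈ Tm x := by
        rw [U_mem_Tm]
        exact ⟨by omega, hBn _, hBm (by omega), le_rfl⟩
      have u2 : Ed.U (k + 1) (pr x.2.1 (k + 1)) ∈ Tm x := by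
        rw [U_mem_Tm]
        exact ⟨by omega, hBn _, le_rfl, hBm (by omega)⟩
      have c1 := (hc _ l1 (by simp)).2
      have c2 := (hc _ l2 (by simp)).1
      have c3 := (hc _ u1 (by simp)).2
      have c4 := (hc _ u2 (by simp)).1
      have hu' : pr x.1 (k + 1) = u := by omega
      have hv' : pr x.2.1 (k + 1) = v := by omega
      by_cases hmk : (⟨k, hkn⟩ : Fin n) ∈ x.2.2
      · rw [G_mem_Tm]
        exact ⟨⟨k, hkn⟩, hmk, hu', hv'⟩
      · have h3 : Ed.V 1 k ∈ Tm x := by
          rw [V_mem_Tm]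
          exact Or.inr (Or.inr ⟨rfl, hkn, hmk⟩)
        exact absurd hk (hc _ h3 (by simp) rfl)

end Pool.Agent.FLP
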