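import Pool.Agent.FLP.Bas

/-!
Staircases. Let A k = the maximum of the i with (i, k) in W. Every row k <= n is not empty: start at (0,0)
and follow the steps (h1) until (n,n): the second coordinate changes by at most one. Row k consists of
all i with A (k-1) <= i <= A k (A (-1) = 0): from the last point (A k, k) of the row k the step must be
(A k, k+1) (k < n), so (A k, k+1) is in W, and by the chain condition all points of the row k + 1 have
i >= A k; by h1 the row k + 1 is an interval (from (A k, k+1) one can only leave the row at its maximum: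
if (i, k+1) in W and i < A (k+1) then (i+1, k+1) in W, since otherwise (i, k+2) in W contradicts the chain
condition with (A (k+1), k+1)). A n = n. Put α k = A k - A (k-1), pr α (k+1) = A k.
-/

open Finset

namespace Pool.Agent.FLP

theorem stc {n : ℕ} (W : ℕ → ℕ → Prop) (hb : ∀ i k, W i k → i ≤ n ∧ k ≤ n) (h0 : W 0 0)
    (hn : W n n) (hc : ∀ i k i' k', W i k → W i' k' → ¬ (i < i' ∧ k' < k))
    (h1 : ∀ i k, W i k → (i, k) ≠ (n, n) → W (i + 1) k ∨ W i (k + 1)) :
    ∃ α : Fin (n + 1) → ℕ, ∑ i, α i = n ∧
      ∀ i k, W i k ↔ i ≤ n ∧ k ≤ n ∧ pr α k ≤ i ∧ i ≤ pr α (k + 1) := by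
  classical
  set A : ℕ → ℕ := fun k => if k = 0 then 0 else Nat.findGreatest (fun i => W i (k - 1)) n with hA
  have hA0 : A 0 = 0 := by simp [hA]
  have hAs : ∀ k, A (k + 1) = Nat.findGreatest (fun i => W i k) n := by
    intro k
    simp [hA]
  have hmax : ∀ i k, W i k → i ≤ A (k + 1) := by
    intro i k h
    rw [hAs]
    exact Nat.le_findGreatest (P := fun i => W i k) (hb i k h).1 h
  have hmem : ∀ i k, W i k → W (A (k + 1)) k := by
    intro i k h
    rw [hAs]
    exact Nat.findGreatest_spec (P := fun i => W i k) (hb i k h).1 h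
  -- the main induction
  have main : ∀ k, k ≤ n → W (A k) k ∧ ∀ i, W i k → A k ≤ i := by
    intro k
    induction k with
    | zero =>
      intro _
      rw [hA0]
      exact ⟨h0, fun i _ => Nat.zero_le i⟩
    | succ k ih =>
      intro hk
      obtain ⟨ih1, ih2⟩ := ih (by omega)
      have hM := hmem _ _ ih1
      refine ⟨?_, ?_⟩
      · rcases h1 _ _ hM (by intro h; have := congrArg Prod.snd h; simp at this; omega) with h | h
        · have := hmax _ _ h
          omega
        · exact h
      · intro i hi
        by_contra hlt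
        exact hc _ _ _ _ hi hM ⟨by omega, by omega⟩
  have row : ∀ k, k ≤ n → ∀ d, A k + d ≤ A (k + 1) → W (A k + d) k := by
    intro k hk d
    induction d with
    | zero => intro _; exact (main k hk).1
    | succ d ih =>
      intro hd
      have h2 := ih (by omega)
      have hM := hmem _ _ h2
      have hMn := (hb _ _ hM).1
      rcases h1 _ _ h2 (by intro h; have := congrArg Prod.fst h; simp at this; omega) with h | h
      · exact h
      · exact absurd (⟨by omega, by omega⟩ : A k + d < A (k + 1) ∧ k < k + 1) (hc _ _ _ _ h hM)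
  have hmono : ∀ k, k ≤ n → A k ≤ A (k + 1) := fun k hk => hmax _ _ (main k hk).1
  have hAn : A (n + 1) = n := by
    have h2 := hmax n n hn
    have h3 := (hb _ _ (hmem n n hn)).1
    omega
  refine ⟨fun j => A (j.val + 1) - A j.val, ?_⟩
  have hpr : ∀ k, k ≤ n + 1 → pr (fun j : Fin (n + 1) => A (j.val + 1) - A j.val) k = A k := by
    intro k
    induction k with
    | zero => intro _; rw [pr_zero, hA0]
    | succ k ih =>
      intro hk
      rw [pr_succ' _ (by omega : k < n + 1), ih (by omega)]
      have := hmono k (by omega)
      simp only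
      omega
  refine ⟨?_, ?_⟩
  · rw [← pr_top _ (le_refl (n + 1)), hpr _ (le_refl _), hAn]
  · intro i k
    constructor
    · intro h
      obtain ⟨hi, hk⟩ := hb i k h
      refine ⟨hi, hk, ?_, ?_⟩
      · rw [hpr k (by omega)]
        exact (main k hk).2 i h
      · rw [hpr (k + 1) (by omega)]
        exact hmax i k h
    · rintro ⟨hi, hk, h2, h3⟩
      rw [hpr k (by omega)] at h2
      rw [hpr (k + 1) (by omega)] at h3
      have := row k hk (i - A k) (by omega)
      rwa [show A k + (i - A k) = i by omega] at this

end Pool.Agent.FLP
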