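import Pool.Agent.FLP.MXB
import Pool.Agent.FLP.STC

/-!
Every maximal set is a Tm x. α from stc for W i k = (L i k in T), β from stc for W j k = (U k j in T)
(l00, gapL, u00, gapU, MaxC.cmp). S = the k with V 1 k not in T. If k in S then by maximality some G u v in T
has u + v = 2k+1. If G u v in T with u + v = 2k+1 (then k < n) then V 1 k is not in T, and u = pr α (k+1):
L (pr α (k+1)) k and L (pr α (k+1)) (k+1) are in T and do not cross it; v = pr β (k+1) with the U edges. So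
x = (α, β, S) is in Om n (mem_Om) and Tm x = T (V_mem_Tm, ..., V 0 j, V 2 j in T by maximality, every G in T has
odd sum 2k+1).
-/

open Finset

namespace Pool.Agent.FLP

theorem mxc {n : ℕ} {T : Finset Ed} (H : MaxC n T) : ∃ x ∈ Om n, Tm x = T := by
  classical
  obtain ⟨α, hα, hW⟩ := stc (n := n) (fun i k => Ed.L i k ∈ T) (fun i k h => H.ok _ h)
    (l00 H).1 (l00 H).2
    (fun i k i' k' h1 h2 h3 => (H.cmp _ h1 _ h2 (by simp only [ne_eq, Ed.L.injEq]; omega)).1 h3)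
    (fun i k h hne => gapL H h hne)
  obtain ⟨β, hβ, hU⟩ := stc (n := n) (fun i k => Ed.U k i ∈ T)
    (fun i k h => ⟨(H.ok _ h).2, (H.ok _ h).1⟩) (u00 H).1 (u00 H).2
    (fun i k i' k' h1 h2 h3 =>
      (H.cmp _ h1 _ h2 (by simp only [ne_eq, Ed.U.injEq]; omega)).2 ⟨h3.2, h3.1⟩)
    (fun i k h hne => gapU H h hne)
  have hW' : ∀ i k, Ed.L i k ∈ T ↔ i ≤ n ∧ k ≤ n ∧ pr α k ≤ i ∧ i ≤ pr α (k + 1) := hW
  have hU' : ∀ i k, Ed.U k i ∈ T ↔ i ≤ n ∧ k ≤ n ∧ pr β k ≤ i ∧ i ≤ pr β (k + 1) := hU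
  have hAn : ∀ k, pr α k ≤ n := fun k => (pr_le α k).trans hα.le
  have hBn : ∀ k, pr β k ≤ n := fun k => (pr_le β k).trans hβ.le
  -- the G edges
  have hG : ∀ u v k, Ed.G u v ∈ T → u + v = 2 * k + 1 →
      pr α (k + 1) = u ∧ pr β (k + 1) = v ∧ k < n ∧ Ed.V 1 k ∉ T := by
    intro u v k h hs
    obtain ⟨hu, hv, -⟩ : u ≤ n ∧ v ≤ n ∧ (u + v) % 2 = 1 := H.ok _ h
    have hkn : k < n := by omega
    have l1 : Ed.L (pr α (k + 1)) k ∈ T :=
      (hW' _ _).2 ⟨hAn _, by omega, pr_mono _ (by omega), le_rfl⟩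
    have l2 : Ed.L (pr α (k + 1)) (k + 1) ∈ T :=
      (hW' _ _).2 ⟨hAn _, by omega, le_rfl, pr_mono _ (by omega)⟩
    have u1 : Ed.U k (pr β (k + 1)) ∈ T :=
      (hU' _ _).2 ⟨hBn _, by omega, pr_mono _ (by omega), le_rfl⟩
    have u2 : Ed.U (k + 1) (pr β (k + 1)) ∈ T :=
      (hU' _ _).2 ⟨hBn _, by omega, le_rfl, pr_mono _ (by omega)⟩
    have c1 := (H.cmp _ h _ l1 (by simp)).2
    have c2 := (H.cmp _ h _ l2 (by simp)).1
    have c3 := (H.cmp _ h _ u1 (by simp)).2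
    have c4 := (H.cmp _ h _ u2 (by simp)).1
    refine ⟨by omega, by omega, hkn, fun hV => ?_⟩
    exact (H.cmp _ h _ hV (by simp)) rfl hs
  -- the marks
  let S : Finset (Fin n) := univ.filter fun k => Ed.V 1 k.val ∉ T
  have hS : ∀ k : Fin n, k ∈ S ↔ Ed.V 1 k.val ∉ T := fun k => by simp [S]
  have hSG : ∀ k : Fin n, k ∈ S → Ed.G (pr α (k.val + 1)) (pr β (k.val + 1)) ∈ T ∧
      pr α (k.val + 1) + pr β (k.val + 1) = 2 * k.val + 1 := by
    intro k hk
    rw [hS] at hk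
    have hex : ∃ u v, Ed.G u v ∈ T ∧ u + v = 2 * k.val + 1 := by
      by_contra hno
      push Not at hno
      apply hk
      refine H.max _ ⟨by omega, k.isLt⟩ fun f hf hne => ?_
      cases f with
      | V a j => trivial
      | L a b => trivial
      | U b a => trivial
      | G u v => exact fun _ => hno u v hf
    obtain ⟨u, v, huv, hs⟩ := hex
    obtain ⟨h1, h2, -, -⟩ := hG u v k.val huv hs
    rw [h1, h2]
    exact ⟨huv, hs⟩
  refine ⟨(α, β, S), (mem_Om _).2 ⟨hα, hβ, fun k hk => (hSG k hk).2⟩, ?_⟩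
  ext e
  cases e with
  | V a j =>
    rw [V_mem_Tm]
    constructor
    · rintro (⟨rfl, hj⟩ | ⟨rfl, hj⟩ | ⟨rfl, hj, hk⟩)
      · refine H.max _ ⟨by omega, hj⟩ fun f hf hne => ?_
        cases f with
        | V a j => trivial
        | L a b => trivial
        | U b a => trivial
        | G u v => exact fun h => absurd h (by omega)
      · refine H.max _ ⟨by omega, hj⟩ fun f hf hne => ?_
        cases f with
        | V a j => trivial
        | L a b => trivial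
        | U b a => trivial
        | G u v => exact fun h => absurd h (by omega)
      · by_contra hno
        exact hk ((hS ⟨j, hj⟩).2 hno)
    · intro h
      obtain ⟨ha, hj⟩ : a ≤ 2 ∧ j < n := H.ok _ h
      by_cases h0 : a = 0
      · exact Or.inl ⟨h0, hj⟩
      by_cases h2 : a = 2
      · exact Or.inr (Or.inl ⟨h2, hj⟩)
      have h1 : a = 1 := by omega
      subst h1
      exact Or.inr (Or.inr ⟨rfl, hj, fun hk => (hS ⟨j, hj⟩).1 hk h⟩)
  | L i k => rw [L_mem_Tm, hW']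
  | U k j =>
    rw [U_mem_Tm, hU']
    constructor
    · rintro ⟨h1, h2, h3, h4⟩
      exact ⟨h2, h1, h3, h4⟩
    · rintro ⟨h1, h2, h3, h4⟩
      exact ⟨h2, h1, h3, h4⟩
  | G u v =>
    rw [G_mem_Tm]
    constructor
    · rintro ⟨k, hk, rfl, rfl⟩
      exact (hSG k hk).1
    · intro h
      obtain ⟨hu, hv, hp⟩ : u ≤ n ∧ v ≤ n ∧ (u + v) % 2 = 1 := H.ok _ h
      obtain ⟨h1, h2, h3, h4⟩ := hG u v ((u + v) / 2) h (by omega)
      exact ⟨⟨(u + v) / 2, h3⟩, (hS _).2 h4, h1, h2⟩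

end Pool.Agent.FLP
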