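import Pool.Agent.FLP.Bas
import Pool.Agent.FLP.Defs2

/-!
Tm is injective on Om n. For x in Om n and k <= n: i ≤ pr x.1 (k+1) is the largest i with L i k in Tm x (L (pr x.1
(k+1)) k is in Tm x), so Tm x = Tm y gives pr x.1 = pr y.1 and x.1 = y.1 (pr_succ); the same for x.2.1; the marks are the
k with V 1 k not in Tm x.
-/

open Finset

namespace Pool.Agent.FLP

theorem tin_ext {n : ℕ} {f g : Fin (n + 1) → ℕ} (h : ∀ k ≤ n, pr f (k + 1) = pr g (k + 1)) :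
    f = g := by
  have h' : ∀ k ≤ n + 1, pr f k = pr g k := by
    intro k hk
    rcases Nat.eq_zero_or_pos k with rfl | hp
    · rw [pr_zero, pr_zero]
    · obtain ⟨m, rfl⟩ : ∃ m, k = m + 1 := ⟨k - 1, by omega⟩
      exact h m (by omega)
  funext i
  have h1 := pr_succ f i
  have h2 := pr_succ g i
  have h3 := h' i.val (by omega)
  have h4 := h' (i.val + 1) (by omega)
  omega

theorem tin {n : ℕ} {x y : Cf n} (hx : x ∈ Om n) (hy : y ∈ Om n) (h : Tm x = Tm y) : x = y := by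
  obtain ⟨hs1, hs2, hm⟩ := (mem_Om x).1 hx
  obtain ⟨ht1, ht2, hm'⟩ := (mem_Om y).1 hy
  have key1 : ∀ z w : Cf n, ∑ i, z.1 i = n → Tm z = Tm w → ∀ k ≤ n,
      pr z.1 (k + 1) ≤ pr w.1 (k + 1) := by
    intro z w hz hzw k hk
    have h1 : Ed.L (pr z.1 (k + 1)) k ∈ Tm w := by
      rw [← hzw, L_mem_Tm]
      exact ⟨(pr_le z.1 _).trans hz.le, hk, pr_mono _ (by omega), le_rfl⟩
    rw [L_mem_Tm] at h1
    exact h1.2.2.2
  have key2 : ∀ z w : Cf n, ∑ i, z.2.1 i = n → Tm z = Tm w → ∀ k ≤ n,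
      pr z.2.1 (k + 1) ≤ pr w.2.1 (k + 1) := by
    intro z w hz hzw k hk
    have h1 : Ed.U k (pr z.2.1 (k + 1)) ∈ Tm w := by
      rw [← hzw, U_mem_Tm]
      exact ⟨hk, (pr_le z.2.1 _).trans hz.le, pr_mono _ (by omega), le_rfl⟩
    rw [U_mem_Tm] at h1
    exact h1.2.2.2
  have e1 : x.1 = y.1 :=
    tin_ext fun k hk => le_antisymm (key1 x y hs1 h k hk) (key1 y x ht1 h.symm k hk)
  have e2 : x.2.1 = y.2.1 :=
    tin_ext fun k hk => le_antisymm (key2 x y hs2 h k hk) (key2 y x ht2 h.symm k hk)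
  have hV : ∀ z : Cf n, ∀ k : Fin n, k ∉ z.2.2 ↔ Ed.V 1 k.val ∈ Tm z := by
    intro z k
    rw [V_mem_Tm]
    constructor
    · intro hk
      exact Or.inr (Or.inr ⟨rfl, k.isLt, hk⟩)
    · rintro (⟨h1, -⟩ | ⟨h1, -⟩ | ⟨-, _, h1⟩)
      · omega
      · omega
      · exact h1
  have e3 : x.2.2 = y.2.2 := by
    ext k
    have h1 := hV x k
    have h2 := hV y k
    rw [h] at h1
    tauto
  exact Prod.ext e1 (Prod.ext e2 e3)

end Pool.Agent.FLP
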