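import Pool.Agent.FLP.HUL

/-!
Every combinatorial edge is a valid edge. card = 2: the two points are different. Coordinates: cases.
Lattice points on the segment (hl_V, hl_L, hl_U, hl_G with z integral): V: z.2 = j or j + 1; L: z.1 = 0
or 1, then z.2 = i or k; U: the same; G: z.1 = 0, 1, 2; z.1 = 1 would give 2 z.2 = i + j, odd.
-/

open Finset

namespace Pool.Agent.FLP

private theorem VAA_V {n x j : ℕ} (hx : x ≤ 2) (hj : j < n) : vld n (Ed.V x j).toF := by
  refine ⟨?_, ?_, ?_⟩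
  · rw [Ed.toF]
    apply Finset.card_pair
    intro h
    rw [Prod.mk.injEq] at h
    omega
  · intro p hp
    rw [Ed.toF, Finset.mem_insert, Finset.mem_singleton] at hp
    rcases hp with rfl | rfl
    · refine ⟨?_, ?_, ?_, ?_⟩ <;> simp <;> omega
    · refine ⟨?_, ?_, ?_, ?_⟩ <;> simp <;> omega
  · rintro ⟨a, b⟩ hz
    rw [hl_V] at hz
    obtain ⟨h1, h2, h3⟩ := hz
    simp only [toR] at h1 h2 h3
    have e1 : a = (x : ℤ) := by exact_mod_cast h1
    have e2 : (j : ℤ) ≤ b := by exact_mod_cast h2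
    have e3 : b ≤ (j : ℤ) + 1 := by exact_mod_cast h3
    rw [Ed.toF, Finset.mem_insert, Finset.mem_singleton, Prod.mk.injEq, Prod.mk.injEq]
    omega

private theorem VAA_L {n i k : ℕ} (hi : i ≤ n) (hk : k ≤ n) : vld n (Ed.L i k).toF := by
  refine ⟨?_, ?_, ?_⟩
  · rw [Ed.toF]
    apply Finset.card_pair
    intro h
    rw [Prod.mk.injEq] at h
    omega
  · intro p hp
    rw [Ed.toF, Finset.mem_insert, Finset.mem_singleton] at hp
    rcases hp with rfl | rfl
    · refine ⟨?_, ?_, ?_, ?_⟩ <;> simp <;> omega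
    · refine ⟨?_, ?_, ?_, ?_⟩ <;> simp <;> omega
  · rintro ⟨a, b⟩ hz
    rw [hl_L] at hz
    obtain ⟨h1, h2, h3⟩ := hz
    simp only [toR] at h1 h2 h3
    have e1 : 0 ≤ a := by exact_mod_cast h1
    have e2 : a ≤ 1 := by exact_mod_cast h2
    have e3 : b = (i : ℤ) + ((k : ℤ) - i) * a := by exact_mod_cast h3
    rw [Ed.toF, Finset.mem_insert, Finset.mem_singleton, Prod.mk.injEq, Prod.mk.injEq]
    have e4 : a = 0 ∨ a = 1 := by omega
    rcases e4 with rfl | rfl
    · left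
      exact ⟨rfl, by rw [e3]; ring⟩
    · right
      exact ⟨rfl, by rw [e3]; ring⟩

private theorem VAA_U {n k j : ℕ} (hk : k ≤ n) (hj : j ≤ n) : vld n (Ed.U k j).toF := by
  refine ⟨?_, ?_, ?_⟩
  · rw [Ed.toF]
    apply Finset.card_pair
    intro h
    rw [Prod.mk.injEq] at h
    omega
  · intro p hp
    rw [Ed.toF, Finset.mem_insert, Finset.mem_singleton] at hp
    rcases hp with rfl | rfl
    · refine ⟨?_, ?_, ?_, ?_⟩ <;> simp <;> omega
    · refine ⟨?_, ?_, ?_, ?_⟩ <;> simp <;> omega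
  · rintro ⟨a, b⟩ hz
    rw [hl_U] at hz
    obtain ⟨h1, h2, h3⟩ := hz
    simp only [toR] at h1 h2 h3
    have e1 : 1 ≤ a := by exact_mod_cast h1
    have e2 : a ≤ 2 := by exact_mod_cast h2
    have e3 : b = (k : ℤ) + ((j : ℤ) - k) * (a - 1) := by exact_mod_cast h3
    rw [Ed.toF, Finset.mem_insert, Finset.mem_singleton, Prod.mk.injEq, Prod.mk.injEq]
    have e4 : a = 1 ∨ a = 2 := by omega
    rcases e4 with rfl | rfl
    · left
      exact ⟨rfl, by rw [e3]; ring⟩
    · right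
      exact ⟨rfl, by rw [e3]; ring⟩

private theorem VAA_G {n i j : ℕ} (hi : i ≤ n) (hj : j ≤ n) (ho : (i + j) % 2 = 1) :
    vld n (Ed.G i j).toF := by
  refine ⟨?_, ?_, ?_⟩
  · rw [Ed.toF]
    apply Finset.card_pair
    intro h
    rw [Prod.mk.injEq] at h
    omega
  · intro p hp
    rw [Ed.toF, Finset.mem_insert, Finset.mem_singleton] at hp
    rcases hp with rfl | rfl
    · refine ⟨?_, ?_, ?_, ?_⟩ <;> simp <;> omega
    · refine ⟨?_, ?_, ?_, ?_⟩ <;> simp <;> omega
  · rintro ⟨a, b⟩ hz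
    rw [hl_G] at hz
    obtain ⟨h1, h2, h3⟩ := hz
    simp only [toR] at h1 h2 h3
    have e1 : 0 ≤ a := by exact_mod_cast h1
    have e2 : a ≤ 2 := by exact_mod_cast h2
    have e3 : 2 * b = 2 * (i : ℤ) + ((j : ℤ) - i) * a := by exact_mod_cast h3
    rw [Ed.toF, Finset.mem_insert, Finset.mem_singleton, Prod.mk.injEq, Prod.mk.injEq]
    have e4 : a = 0 ∨ a = 1 ∨ a = 2 := by omega
    rcases e4 with rfl | rfl | rfl
    · left
      exact ⟨rfl, by linarith⟩
    · exfalso
      omega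
    · right
      exact ⟨rfl, by linarith⟩

theorem ok_vld {n : ℕ} {c : Ed} (h : c.ok n) : vld n c.toF := by
  cases c with
  | V x j => exact VAA_V h.1 h.2
  | L i k => exact VAA_L h.1 h.2
  | U k j => exact VAA_U h.1 h.2
  | G i j => exact VAA_G h.1 h.2.1 h.2.2

end Pool.Agent.FLP
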