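import Pool.Agent.FLP.HUL

/-!
Every valid edge is a combinatorial edge. e = {p, q} with p ≠ q (Finset.card_eq_two); p, q in
{0,1,2} x {0..n}; by symmetry p.1 <= q.1. If p.1 = q.1 =: x: with j = min p.2 q.2 the point (x, j + 1) is on
the segment, so it is p or q: e = V x j. If (p.1, q.1) = (0,1): L, (1,2): U. If (0,2): if p.2 + q.2 were
even the midpoint (1, (p.2 + q.2)/2) would be a lattice point on the segment: G. (Nonnegative integers
are natural numbers: lift p.2 to ℕ using ..; for the first case use the segment directly, convexHull of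
the pair contains the convex combinations.)
-/

open Finset

namespace Pool.Agent.FLP

private theorem VAB_mem (p q z : ℤ × ℤ) (t : ℝ) (h0 : 0 ≤ t) (h1 : t ≤ 1)
    (h2 : (z.1 : ℝ) = (p.1 : ℝ) + t * ((q.1 : ℝ) - p.1))
    (h3 : (z.2 : ℝ) = (p.2 : ℝ) + t * ((q.2 : ℝ) - p.2)) : toR z ∈ hl {p, q} := by
  unfold hl
  rw [Finset.coe_insert, Finset.coe_singleton, Set.image_insert_eq, Set.image_singleton,
    convexHull_pair, segment_eq_image]
  refine ⟨t, ⟨h0, h1⟩, ?_⟩
  apply Prod.ext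
  · simp only [toR, Prod.smul_mk, Prod.mk_add_mk, smul_eq_mul]
    rw [h2]
    ring
  · simp only [toR, Prod.smul_mk, Prod.mk_add_mk, smul_eq_mul]
    rw [h3]
    ring

private theorem VAB_key {n : ℕ} (a b c d : ℤ) (ha : 0 ≤ a) (hb : 0 ≤ b) (hd : 0 ≤ d) (hc : c ≤ 2)
    (hbn : b ≤ n) (hdn : d ≤ n) (hlt : a < c ∨ (a = c ∧ b < d))
    (H : ∀ z : ℤ × ℤ, toR z ∈ hl {(a, b), (c, d)} → z ∈ ({(a, b), (c, d)} : Finset (ℤ × ℤ))) :
    ∃ e : Ed, e.ok n ∧ e.toF = {(a, b), (c, d)} := by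
  lift a to ℕ using ha
  lift b to ℕ using hb
  lift d to ℕ using hd
  rcases hlt with hlt | ⟨rfl, hlt⟩
  · have h3 : ((a : ℤ) = 0 ∧ c = 1) ∨ ((a : ℤ) = 1 ∧ c = 2) ∨ ((a : ℤ) = 0 ∧ c = 2) := by omega
    rcases h3 with ⟨h4, rfl⟩ | ⟨h4, rfl⟩ | ⟨h4, rfl⟩
    · refine ⟨Ed.L b d, ⟨by omega, by omega⟩, ?_⟩
      rw [h4]
      rfl
    · refine ⟨Ed.U b d, ⟨by omega, by omega⟩, ?_⟩
      rw [h4]
      rfl
    · refine ⟨Ed.G b d, ⟨by omega, by omega, ?_⟩, ?_⟩
      · by_contra hne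
        obtain ⟨m, hm⟩ : ∃ m : ℤ, 2 * m = (b : ℤ) + d := ⟨((b : ℤ) + d) / 2, by omega⟩
        have h5 := H (1, m) (VAB_mem _ _ _ (1 / 2) (by norm_num) (by norm_num) (by
          rw [h4]
          norm_num) (by
          have : (2 : ℝ) * (m : ℝ) = (b : ℝ) + d := by exact_mod_cast hm
          push_cast
          linarith))
        rw [Finset.mem_insert, Finset.mem_singleton, Prod.mk.injEq, Prod.mk.injEq] at h5
        omega
      · rw [h4]
        rfl
  · have h6 : (d : ℤ) = b + 1 := by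
      by_contra hne
      have h7 : (b : ℤ) + 1 < d := by omega
      have h8 : (1 : ℝ) < (d : ℝ) - b := by
        have : ((b : ℤ) : ℝ) + 1 < ((d : ℤ) : ℝ) := by exact_mod_cast h7
        push_cast at this
        linarith
      have h5 := H ((a : ℤ), (b : ℤ) + 1) (VAB_mem _ _ _ (1 / ((d : ℝ) - b))
        (by positivity) (by
          rw [div_le_one (by linarith)]
          linarith) (by
          push_cast
          ring) (by
          push_cast
          rw [div_mul_cancel₀]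
          linarith))
      rw [Finset.mem_insert, Finset.mem_singleton, Prod.mk.injEq, Prod.mk.injEq] at h5
      omega
    refine ⟨Ed.V a b, ⟨by omega, by omega⟩, ?_⟩
    rw [h6]
    rfl

theorem vld_ok {n : ℕ} {e : Finset (ℤ × ℤ)} (h : vld n e) : ∃ c : Ed, c.ok n ∧ c.toF = e := by
  obtain ⟨hc, hb, H⟩ := h
  obtain ⟨⟨a, b⟩, ⟨c, d⟩, hpq, rfl⟩ := Finset.card_eq_two.mp hc
  have h1 := hb (a, b) (by simp)
  have h2 := hb (c, d) (by simp)
  simp only at h1 h2
  have h3 : ¬ (a = c ∧ b = d) := fun h => hpq (by rw [h.1, h.2])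
  by_cases hlt : a < c ∨ (a = c ∧ b < d)
  · exact VAB_key a b c d h1.1 h1.2.2.1 h2.2.2.1 h2.2.1 h1.2.2.2 h2.2.2.2 hlt H
  · rw [Finset.pair_comm]
    rw [Finset.pair_comm] at H
    exact VAB_key c d a b h2.1 h2.2.2.1 h1.2.2.1 h1.2.1 h2.2.2.2 h1.2.2.2 (by omega) H

theorem toF_inj : Function.Injective Ed.toF := by
  intro c d h
  cases c <;> cases d <;>
  · simp only [Ed.toF] at h
    have h1 := h ▸ Finset.mem_insert_self _ _
    have h2 := h ▸ Finset.mem_insert_of_mem (Finset.mem_singleton_self _)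
    simp only [Finset.mem_insert, Finset.mem_singleton, Prod.mk.injEq] at h1 h2
    simp only [Ed.V.injEq, Ed.L.injEq, Ed.U.injEq, Ed.G.injEq, reduceCtorEq]
    omega

end Pool.Agent.FLP
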