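import Pool.Agent.FLP.CMA
import Pool.Agent.FLP.VAA
import Pool.Agent.FLP.VAB
import Pool.Agent.FLP.MXA
import Pool.Agent.FLP.MXC
import Pool.Agent.FLP.TIN

/-!
The triangulations in the sense of the frozen statement are the images of the Tm x. Let T be a set of
valid edges which is maximal. T0 = the combinatorial edges c (ok) with c.toF in T (take the preimage under
the injective toF; it is a Finset: Finset.preimage); it is MaxC (cma, ok_vld, vld_ok), so T0 = Tm x, and
T = image of T0. Conversely mxa.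
-/

open Finset

namespace Pool.Agent.FLP

/-- The image of the triangulation of `x`. -/
def Fn {n : ℕ} (x : Cf n) : Finset (Finset (ℤ × ℤ)) := (Tm x).image Ed.toF

theorem fn_inj {n : ℕ} : Set.InjOn (Fn (n := n)) (Om n) := by
  intro x hx y hy h
  exact tin (by exact_mod_cast hx) (by exact_mod_cast hy) (image_injective toF_inj h)

theorem fn_sdiff {n : ℕ} (x y : Cf n) : (Fn x \ Fn y).card = (Tm x \ Tm y).card := by
  unfold Fn
  rw [← image_sdiff _ _ toF_inj, card_image_of_injective _ toF_inj]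

theorem geo {n : ℕ} (T : Finset (Finset (ℤ × ℤ))) :
    T ∈ (Om n).image Fn ↔ ((∀ e ∈ T, vld n e) ∧ (∀ e ∈ T, ∀ f ∈ T, e ≠ f → cpt e f) ∧
      (∀ e, vld n e → (∀ f ∈ T, f ≠ e → cpt e f) → e ∈ T)) := by
  constructor
  · rw [mem_image]
    rintro ⟨x, hx, rfl⟩
    have H := mxa hx
    refine ⟨?_, ?_, ?_⟩
    · intro e he
      obtain ⟨c, hc, rfl⟩ := mem_image.mp he
      exact ok_vld (H.ok c hc)
    · intro e he f hf hef
      obtain ⟨c, hc, rfl⟩ := mem_image.mp he
      obtain ⟨d, hd, rfl⟩ := mem_image.mp hf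
      have hcd : c ≠ d := fun h => hef (by rw [h])
      exact (cma (H.ok c hc) (H.ok d hd) hcd).mpr (H.cmp c hc d hd hcd)
    · intro e he h
      obtain ⟨c, hc, rfl⟩ := vld_ok he
      apply mem_image_of_mem
      apply H.max c hc
      intro d hd hdc
      exact (cma hc (H.ok d hd) hdc.symm).mp
        (h d.toF (mem_image_of_mem _ hd) fun h' => hdc (toF_inj h'))
  · rintro ⟨h1, h2, h3⟩
    set T0 : Finset Ed := T.preimage Ed.toF toF_inj.injOn with hT0
    have hm : ∀ c, c ∈ T0 ↔ c.toF ∈ T := fun c => by rw [hT0, mem_preimage]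
    have hok : ∀ c ∈ T0, c.ok n := by
      intro c hc
      obtain ⟨d, hd, hdc⟩ := vld_ok (h1 _ ((hm c).mp hc))
      rw [← toF_inj hdc]
      exact hd
    have H : MaxC n T0 := by
      refine ⟨hok, ?_, ?_⟩
      · intro c hc d hd hcd
        exact (cma (hok c hc) (hok d hd) hcd).mp
          (h2 _ ((hm c).mp hc) _ ((hm d).mp hd) fun h => hcd (toF_inj h))
      · intro c hc h
        rw [hm]
        apply h3 _ (ok_vld hc)
        intro f hf hfc
        obtain ⟨d, hd, rfl⟩ := vld_ok (h1 f hf)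
        have hdc : d ≠ c := fun h' => hfc (by rw [h'])
        exact (cma hc hd hdc.symm).mpr (h d ((hm d).mpr hf) hdc)
    obtain ⟨x, hx, hxT⟩ := mxc H
    rw [mem_image]
    refine ⟨x, hx, ?_⟩
    unfold Fn
    rw [hxT]
    ext e
    rw [mem_image]
    constructor
    · rintro ⟨c, hc, rfl⟩
      exact (hm c).mp hc
    · intro he
      obtain ⟨c, _, rfl⟩ := vld_ok (h1 e he)
      exact ⟨c, (hm c).mpr he, rfl⟩

end Pool.Agent.FLP
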