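import Pool.Agent.FLP.MDB

/-!
The box {a | a <= γ} has prod (γ i + 1) elements (Fintype.card_piFinset) and is the disjoint union of the
Bx γ j, j = 0..2n; mdb.
-/

open Finset

namespace Pool.Agent.FLP

variable {n : ℕ}

theorem bx_le {γ : Fin (n + 1) → ℕ} : (Bx γ n).card ≤ ∏ i, (γ i + 1) := by
  unfold Bx
  refine (card_filter_le _ _).trans ?_
  rw [Fintype.card_piFinset]
  simp

theorem le_bx {γ : Fin (n + 1) → ℕ} (h : ∑ i, γ i = 2 * n) :
    ∏ i, (γ i + 1) ≤ (2 * n + 1) * (Bx γ n).card := by
  have h1 : ∏ i, (γ i + 1) = (Fintype.piFinset fun i => range (γ i + 1)).card := by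
    rw [Fintype.card_piFinset]
    simp
  have h2 : ∀ x ∈ (Fintype.piFinset fun i => range (γ i + 1)), (∑ i, x i) ∈ range (2 * n + 1) := by
    intro x hx
    rw [Fintype.mem_piFinset] at hx
    rw [mem_range, Nat.lt_succ_iff, ← h]
    apply sum_le_sum
    intro i _
    have := hx i
    rw [mem_range] at this
    omega
  rw [h1, card_eq_sum_card_fiberwise h2]
  have h3 : ∀ j ∈ range (2 * n + 1),
      ((Fintype.piFinset fun i => range (γ i + 1)).filter fun x => ∑ i, x i = j).card ≤
        (Bx γ n).card := by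
    intro j _
    exact mdb γ n h j
  refine (sum_le_card_nsmul _ _ _ h3).trans ?_
  rw [card_range, smul_eq_mul]

end Pool.Agent.FLP
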