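import Pool.Agent.FLP.Bas

/-!
Moves with a stop at the slot k.
nns: x ↦ mv i j x is a bijection of the two index sets, with inverse mv j i (mv_mv). pot: let x be in the
index set of NN i j. If x k < c k then f x - f (mv i j x) = [f x - f (mv i k x)] + [f x' - f (mv k j x')]
with x' = mv i k x. If x k = c k then f x - f (mv i j x) = [f x - f (mv k j x)] + [f x' - f (mv i k x')]
with x' = mv k j x (both composites are mv i j x: mv_mv' or funext). (a+b)^2 <= 2a^2 + 2b^2; all the maps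
x ↦ x, x ↦ x' are injective into the index sets of NN i k and NN k j; each of the two is used
twice.
-/

open Finset

namespace Pool.Agent.FLP

variable {ι κ : Type*} [DecidableEq ι] [Fintype ι] [DecidableEq κ]

omit [Fintype ι] [DecidableEq κ] in
private theorem pot_sum_le {X Y : Type*} [DecidableEq Y] (A : Finset X) (B : Finset Y) (φ : X → Y)
    (hφ : ∀ x ∈ A, φ x ∈ B) (hi : ∀ x ∈ A, ∀ y ∈ A, φ x = φ y → x = y) (F : Y → ℝ)
    (hF : ∀ y, 0 ≤ F y) : ∑ x ∈ A, F (φ x) ≤ ∑ y ∈ B, F y := by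
  rw [← sum_image (f := F) (g := φ) (fun x hx y hy h => hi x hx y hy h)]
  exact sum_le_sum_of_subset_of_nonneg (fun y hy => by
    obtain ⟨x, hx, rfl⟩ := mem_image.1 hy
    exact hφ x hx) (fun y _ _ => hF y)

theorem nns {s : Finset (ι → ℕ)} {c : ι → ℕ} {g : ι → κ} (H : IsGS s c g) {i j : ι} (hij : i ≠ j)
    (hg : g i = g j) (f : (ι → ℕ) → ℝ) : NN s c i j f = NN s c j i f := by
  unfold NN
  refine sum_bij' (fun x _ => mv i j x) (fun x _ => mv j i x) ?_ ?_ ?_ ?_ ?_
  · intro x hx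
    obtain ⟨hx, h1, h2⟩ := mem_filter.1 hx
    refine mem_filter.2 ⟨H.cl x hx i j hij hg h1 h2, ?_, ?_⟩
    · rw [mv_tgt hij]; omega
    · rw [mv_self hij]
      have := H.le x hx i
      omega
  · intro x hx
    obtain ⟨hx, h1, h2⟩ := mem_filter.1 hx
    refine mem_filter.2 ⟨H.cl x hx j i hij.symm hg.symm h1 h2, ?_, ?_⟩
    · rw [mv_tgt hij.symm]; omega
    · rw [mv_self hij.symm]
      have := H.le x hx j
      omega
  · intro x hx
    obtain ⟨hx, h1, h2⟩ := mem_filter.1 hx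
    exact mv_mv hij h1
  · intro x hx
    obtain ⟨hx, h1, h2⟩ := mem_filter.1 hx
    exact mv_mv hij.symm h1
  · intro x hx
    obtain ⟨hx, h1, h2⟩ := mem_filter.1 hx
    show (f x - f (mv i j x)) ^ 2 = (f (mv i j x) - f (mv j i (mv i j x))) ^ 2
    rw [mv_mv hij h1]
    ring

private theorem pot_mv {i j k : ι} (hij : i ≠ j) (hik : i ≠ k) (hjk : j ≠ k) {x : ι → ℕ}
    (hk : 1 ≤ x k) : mv i k (mv k j x) = mv i j x := by
  funext l
  by_cases h1 : l = i
  · subst h1
    rw [mv_self hik, mv_of_ne hik hij, mv_self hij]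
  · by_cases h2 : l = k
    · subst h2
      rw [mv_tgt hik, mv_self hjk.symm, mv_of_ne h1 hjk.symm]
      omega
    · by_cases h3 : l = j
      · subst h3
        rw [mv_of_ne h1 h2, mv_tgt (Ne.symm h2), mv_tgt hij]
      · rw [mv_of_ne h1 h2, mv_of_ne h2 h3, mv_of_ne h1 h3]

theorem pot {s : Finset (ι → ℕ)} {c : ι → ℕ} {g : ι → κ} (H : IsGS s c g) {i j k : ι}
    (hij : i ≠ j) (hik : i ≠ k) (hjk : j ≠ k) (hg : g i = g j) (hg' : g i = g k) (hk : 1 ≤ c k)
    (f : (ι → ℕ) → ℝ) : NN s c i j f ≤ 4 * (NN s c i k f + NN s c k j f) := by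
  classical
  have hkj : k ≠ j := hjk.symm
  have hgkj : g k = g j := hg'.symm.trans hg
  set A := s.filter (fun x => 1 ≤ x i ∧ x j < c j) with hA
  have hsplit : NN s c i j f =
      ∑ x ∈ A.filter (fun x => x k < c k), (f x - f (mv i j x)) ^ 2 +
        ∑ x ∈ A.filter (fun x => ¬ x k < c k), (f x - f (mv i j x)) ^ 2 := by
    rw [sum_filter_add_sum_filter_not]
    rfl
  have e1 : ∑ x ∈ A.filter (fun x => x k < c k), (f x - f (mv i k x)) ^ 2 ≤ NN s c i k f := by
    unfold NN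
    refine sum_le_sum_of_subset_of_nonneg ?_ (fun _ _ _ => sq_nonneg _)
    intro x hx
    obtain ⟨hx, h3⟩ := mem_filter.1 hx
    obtain ⟨hx, h1, h2⟩ := mem_filter.1 hx
    exact mem_filter.2 ⟨hx, h1, h3⟩
  have e2 : ∑ x ∈ A.filter (fun x => x k < c k),
      (f (mv i k x) - f (mv k j (mv i k x))) ^ 2 ≤ NN s c k j f := by
    unfold NN
    refine pot_sum_le (A.filter (fun x => x k < c k)) _ (fun x => mv i k x) ?_ ?_
      (fun y => (f y - f (mv k j y)) ^ 2) (fun _ => sq_nonneg _)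
    · intro x hx
      obtain ⟨hx, h3⟩ := mem_filter.1 hx
      obtain ⟨hx, h1, h2⟩ := mem_filter.1 hx
      refine mem_filter.2 ⟨H.cl x hx i k hik hg' h1 h3, ?_, ?_⟩
      · rw [mv_tgt hik]; omega
      · rw [mv_of_ne hij.symm hjk]; exact h2
    · intro x hx y hy h
      obtain ⟨hx, _⟩ := mem_filter.1 hx
      obtain ⟨_, h1, _⟩ := mem_filter.1 hx
      obtain ⟨hy, _⟩ := mem_filter.1 hy
      obtain ⟨_, h1', _⟩ := mem_filter.1 hy
      exact mv_inj hik h1 h1' h
  have e3 : ∑ x ∈ A.filter (fun x => ¬ x k < c k), (f x - f (mv k j x)) ^ 2 ≤ NN s c k j f := by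
    unfold NN
    refine sum_le_sum_of_subset_of_nonneg ?_ (fun _ _ _ => sq_nonneg _)
    intro x hx
    obtain ⟨hx, h3⟩ := mem_filter.1 hx
    obtain ⟨hx, h1, h2⟩ := mem_filter.1 hx
    exact mem_filter.2 ⟨hx, by omega, h2⟩
  have e4 : ∑ x ∈ A.filter (fun x => ¬ x k < c k),
      (f (mv k j x) - f (mv i k (mv k j x))) ^ 2 ≤ NN s c i k f := by
    unfold NN
    refine pot_sum_le (A.filter (fun x => ¬ x k < c k)) _ (fun x => mv k j x) ?_ ?_
      (fun y => (f y - f (mv i k y)) ^ 2) (fun _ => sq_nonneg _)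
    · intro x hx
      obtain ⟨hx, h3⟩ := mem_filter.1 hx
      obtain ⟨hx, h1, h2⟩ := mem_filter.1 hx
      refine mem_filter.2 ⟨H.cl x hx k j hkj hgkj (by omega) h2, ?_, ?_⟩
      · rw [mv_of_ne hik hij]; exact h1
      · rw [mv_self hkj]
        have := H.le x hx k
        omega
    · intro x hx y hy h
      obtain ⟨hx, h3⟩ := mem_filter.1 hx
      obtain ⟨hy, h3'⟩ := mem_filter.1 hy
      exact mv_inj hkj (by omega) (by omega) h
  have f1 : ∑ x ∈ A.filter (fun x => x k < c k), (f x - f (mv i j x)) ^ 2 ≤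
      2 * ∑ x ∈ A.filter (fun x => x k < c k), (f x - f (mv i k x)) ^ 2 +
        2 * ∑ x ∈ A.filter (fun x => x k < c k),
          (f (mv i k x) - f (mv k j (mv i k x))) ^ 2 := by
    rw [mul_sum, mul_sum, ← sum_add_distrib]
    refine sum_le_sum fun x _ => ?_
    rw [mv_mv' hik hij hkj]
    nlinarith [sq_nonneg ((f x - f (mv i k x)) - (f (mv i k x) - f (mv i j x)))]
  have f2 : ∑ x ∈ A.filter (fun x => ¬ x k < c k), (f x - f (mv i j x)) ^ 2 ≤
      2 * ∑ x ∈ A.filter (fun x => ¬ x k < c k), (f x - f (mv k j x)) ^ 2 +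
        2 * ∑ x ∈ A.filter (fun x => ¬ x k < c k),
          (f (mv k j x) - f (mv i k (mv k j x))) ^ 2 := by
    rw [mul_sum, mul_sum, ← sum_add_distrib]
    refine sum_le_sum fun x hx => ?_
    obtain ⟨hx, h3⟩ := mem_filter.1 hx
    rw [pot_mv hij hik hjk (by omega)]
    nlinarith [sq_nonneg ((f x - f (mv k j x)) - (f (mv k j x) - f (mv i j x)))]
  rw [hsplit]
  linarith

end Pool.Agent.FLP
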