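import Pool.Agent.FLP.BXG
import Pool.Agent.FLP.POT

/-!
Travelling unit. Write p = (i, b), q = (j, b'). If i = j then gm (mv p q x) = gm x (gm_mv) and the left
side is 0. By nns (isgs_XX) one may assume i < j. gi S i = gi S j: no mark k has i <= k < j. For x in the
index set and t = i..j put x_i = x, x_t = mv p (t, false) x for t > i; then x_t is in XX n S (isgs_XX.cl;
x (t, false) < 2n because x p >= 1 and the total is 2n), gm x_t = mv i t (gm x), x ↦ x_t is injective, and
gm x_{t+1} = mv t (t+1) (gm x_t) (mv_mv'), 1 <= gm x_t t. Now telescope: (F (gm x_i) - F (gm x_j))^2 <=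
(j - i) sum_{t=i}^{j-1} (F (gm x_t) - F (gm x_{t+1}))^2, and sum over x (the term t is at most the term
k = t of the right side).
-/

open Finset

namespace Pool.Agent.FLP

variable {n : ℕ}

theorem TRV_tel (G : ℕ → ℝ) {a b : ℕ} (h : a ≤ b) :
    G a - G b = ∑ t ∈ Ico a b, (G t - G (t + 1)) := by
  induction b, h using Nat.le_induction with
  | base => simp
  | succ b hb ih => rw [Finset.sum_Ico_succ_top hb, ← ih]; ring

theorem TRV_gi_mono (S : Finset (Fin n)) {a b : Fin (n + 1)} (h : a.val ≤ b.val) :
    gi S a ≤ gi S b := by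
  unfold gi
  apply card_le_card
  intro k hk
  rw [mem_filter] at hk ⊢
  exact ⟨hk.1, by omega⟩

theorem TRV_gi_lt (S : Finset (Fin n)) {a b : Fin (n + 1)} {k : Fin n} (hk : k ∈ S)
    (h1 : a.val ≤ k.val) (h2 : k.val < b.val) : gi S a < gi S b := by
  unfold gi
  apply card_lt_card
  rw [Finset.ssubset_iff_of_subset]
  · refine ⟨k, mem_filter.2 ⟨hk, h2⟩, fun h => ?_⟩
    have := (mem_filter.1 h).2
    omega
  · intro l hl
    rw [mem_filter] at hl ⊢
    exact ⟨hl.1, by omega⟩

theorem TRV_total (S : Finset (Fin n)) {x : Fin (n + 1) × Bool → ℕ} (hx : x ∈ XX n S)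
    {p r : Fin (n + 1) × Bool} (hpr : p ≠ r) : x p + x r ≤ 2 * n := by
  have h1 := ((mem_Gam S (gm x)).1 ((mem_XX S x).1 hx)).1
  have h2 : ∑ c, x c = ∑ i, gm x i := by
    rw [Fintype.sum_prod_type]
    apply sum_congr rfl
    intro i _
    rw [Fintype.sum_bool, gm, add_comm]
  have h3 : x p + x r ≤ ∑ c, x c := by
    rw [← Finset.sum_pair hpr]
    exact sum_le_sum_of_subset (subset_univ _)
  omega

/-- the intermediate occupation numbers -/
def TRV_G (i : Fin (n + 1)) (g : Fin (n + 1) → ℕ) (t : ℕ) : Fin (n + 1) → ℕ :=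
  if h : i.val < t ∧ t < n + 1 then mv i ⟨t, h.2⟩ g else g

/-- the intermediate occupation numbers of the cells -/
def TRV_X (p : Fin (n + 1) × Bool) (x : Fin (n + 1) × Bool → ℕ) (t : ℕ) :
    Fin (n + 1) × Bool → ℕ :=
  if h : p.1.val < t ∧ t < n + 1 then mv p (⟨t, h.2⟩, false) x else x

theorem trv_lt (S : Finset (Fin n)) (F : (Fin (n + 1) → ℕ) → ℝ) {p q : Fin (n + 1) × Bool}
    (hpq : p ≠ q) (hg : gi S p.1 = gi S q.1) (hlt : p.1 < q.1) :
    NN (XX n S) (fun _ => 2 * n) p q (fun x => F (gm x)) ≤ ((n : ℝ) + 1) *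
      ∑ k : Fin n, if k ∉ S then ∑ x ∈ (XX n S).filter (fun x => 1 ≤ gm x k.castSucc),
        (F (gm x) - F (mv k.castSucc k.succ (gm x))) ^ 2 else 0 := by
  classical
  set i := p.1 with hi
  set j := q.1 with hj
  have hij : i.val < j.val := hlt
  have hjn : j.val < n + 1 := j.isLt
  have hne : i ≠ j := hlt.ne
  set I := (XX n S).filter (fun x => 1 ≤ x p ∧ x q < 2 * n) with hI
  let R : Fin n → ℝ := fun k => if k ∉ S then
    ∑ x ∈ (XX n S).filter (fun x => 1 ≤ gm x k.castSucc),
        (F (gm x) - F (mv k.castSucc k.succ (gm x))) ^ 2 else 0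
  have hR : ∀ k, 0 ≤ R k := by
    intro k
    simp only [R]
    split_ifs
    · exact le_rfl
    · exact sum_nonneg fun x _ => sq_nonneg _
  -- one term
  have hterm : ∀ x ∈ I, (F (gm x) - F (gm (mv p q x))) ^ 2 ≤ ((n : ℝ) + 1) *
      ∑ t ∈ Ico i.val j.val, (F (TRV_G i (gm x) t) - F (TRV_G i (gm x) (t + 1))) ^ 2 := by
    intro x hx
    have hx' := (mem_filter.1 hx).2
    rw [gm_mv hpq hx'.1, if_neg hne]
    have e1 : TRV_G i (gm x) i.val = gm x := by
      unfold TRV_G
      rw [dif_neg (by omega)]
    have e2 : TRV_G i (gm x) j.val = mv i j (gm x) := by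
      unfold TRV_G
      rw [dif_pos ⟨hij, hjn⟩]
    have h1 := TRV_tel (fun t => F (TRV_G i (gm x) t)) hij.le
    simp only [e1, e2] at h1
    rw [h1]
    refine (sq_sum_le_card_mul_sum_sq).trans ?_
    apply mul_le_mul_of_nonneg_right _ (sum_nonneg fun t _ => sq_nonneg _)
    rw [Nat.card_Ico]
    have : ((j.val - i.val : ℕ) : ℝ) ≤ ((n + 1 : ℕ) : ℝ) := by exact_mod_cast (by omega)
    push_cast at this
    exact this
  -- one step
  have hstep : ∀ t ∈ Ico i.val j.val, ∑ x ∈ I,
      (F (TRV_G i (gm x) t) - F (TRV_G i (gm x) (t + 1))) ^ 2 ≤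
      if h : t < n then R ⟨t, h⟩ else 0 := by
    intro t ht
    rw [mem_Ico] at ht
    have htn : t < n := by omega
    rw [dif_pos htn]
    have hkS : (⟨t, htn⟩ : Fin n) ∉ S := by
      intro hk
      have := TRV_gi_lt S (a := i) (b := j) hk ht.1 ht.2
      omega
    simp only [R]
    rw [if_pos hkS]
    -- the injection
    have hXG : ∀ x ∈ I, gm (TRV_X p x t) = TRV_G i (gm x) t := by
      intro x hx
      have hx' := (mem_filter.1 hx).2
      unfold TRV_X TRV_G
      by_cases h : i.val < t ∧ t < n + 1
      · rw [dif_pos h, dif_pos h]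
        have hne' : p.1 ≠ (⟨t, h.2⟩ : Fin (n + 1)) := by
          intro h'
          have := congrArg Fin.val h'
          simp only at this
          omega
        rw [gm_mv (fun h' => hne' (congrArg Prod.fst h')) hx'.1, if_neg hne']
      · rw [dif_neg h, dif_neg h]
    have hmem : ∀ x ∈ I, TRV_X p x t ∈
        (XX n S).filter (fun x => 1 ≤ gm x (⟨t, htn⟩ : Fin n).castSucc) := by
      intro x hx
      have hx' := (mem_filter.1 hx).2
      have hxX := (mem_filter.1 hx).1
      rw [mem_filter]
      constructor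
      · unfold TRV_X
        by_cases h : i.val < t ∧ t < n + 1
        · rw [dif_pos h]
          have hne' : p ≠ ((⟨t, h.2⟩ : Fin (n + 1)), false) := by
            intro h'
            have h'' := congrArg Fin.val (congrArg Prod.fst h')
            simp only at h''
            omega
          apply (isgs_XX S).cl x hxX _ _ hne' _ hx'.1
          · have := TRV_total S hxX hne'
            omega
          · have h3 := TRV_gi_mono S (a := i) (b := ⟨t, h.2⟩) h.1.le
            have h4 := TRV_gi_mono S (a := ⟨t, h.2⟩) (b := j) ht.2.le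
            show gi S p.1 = gi S ⟨t, h.2⟩
            rw [← hi]
            omega
        · rw [dif_neg h]
          exact hxX
      · rw [hXG x hx]
        unfold TRV_G
        by_cases h : i.val < t ∧ t < n + 1
        · rw [dif_pos h]
          have hne' : i ≠ (⟨t, h.2⟩ : Fin (n + 1)) := by
            intro h'
            have := congrArg Fin.val h'
            simp only at this
            omega
          have : (⟨t, htn⟩ : Fin n).castSucc = (⟨t, h.2⟩ : Fin (n + 1)) := rfl
          rw [this, mv_tgt hne']
          omega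
        · rw [dif_neg h]
          have hti : (⟨t, htn⟩ : Fin n).castSucc = i := by
            apply Fin.ext
            show t = i.val
            omega
          rw [hti]
          have h5 : x p ≤ gm x i := by
            rw [hi]
            unfold gm
            obtain ⟨p1, pb⟩ := p
            cases pb <;> simp
          omega
    have hinj : Set.InjOn (fun x => TRV_X p x t) (I : Set (Fin (n + 1) × Bool → ℕ)) := by
      intro x hx y hy hxy
      have hx' := (mem_filter.1 (mem_coe.1 hx)).2
      have hy' := (mem_filter.1 (mem_coe.1 hy)).2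
      simp only [TRV_X] at hxy
      by_cases h : i.val < t ∧ t < n + 1
      · rw [dif_pos h, dif_pos h] at hxy
        have hne' : p ≠ ((⟨t, h.2⟩ : Fin (n + 1)), false) := by
          intro h'
          have h'' := congrArg Fin.val (congrArg Prod.fst h')
          simp only at h''
          omega
        exact mv_inj hne' hx'.1 hy'.1 hxy
      · rw [dif_neg h, dif_neg h] at hxy
        exact hxy
    have hval : ∀ x ∈ I, (F (TRV_G i (gm x) t) - F (TRV_G i (gm x) (t + 1))) ^ 2 =
        (fun y => (F (gm y) - F (mv (⟨t, htn⟩ : Fin n).castSucc (⟨t, htn⟩ : Fin n).succ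
          (gm y))) ^ 2) (TRV_X p x t) := by
      intro x hx
      have hx' := (mem_filter.1 hx).2
      simp only
      rw [hXG x hx]
      have e : TRV_G i (gm x) (t + 1) = mv (⟨t, htn⟩ : Fin n).castSucc (⟨t, htn⟩ : Fin n).succ
          (TRV_G i (gm x) t) := by
        have hsucc : (⟨t, htn⟩ : Fin n).succ = (⟨t + 1, by omega⟩ : Fin (n + 1)) := rfl
        unfold TRV_G
        rw [dif_pos (show i.val < t + 1 ∧ t + 1 < n + 1 by omega)]
        by_cases h : i.val < t ∧ t < n + 1
        · rw [dif_pos h, hsucc]
          have hcs : (⟨t, htn⟩ : Fin n).castSucc = (⟨t, h.2⟩ : Fin (n + 1)) := rfl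
          rw [hcs, mv_mv']
          · intro h'
            have := congrArg Fin.val h'
            simp only at this
            omega
          · intro h'
            have := congrArg Fin.val h'
            simp only at this
            omega
          · intro h'
            have := congrArg Fin.val h'
            simp only at this
            omega
        · rw [dif_neg h, hsucc]
          have hti : (⟨t, htn⟩ : Fin n).castSucc = i := by
            apply Fin.ext
            show t = i.val
            omega
          rw [hti]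
      rw [e]
    rw [Finset.sum_congr rfl hval]
    rw [← Finset.sum_image (g := fun x => TRV_X p x t) (f := fun y => (F (gm y) -
      F (mv (⟨t, htn⟩ : Fin n).castSucc (⟨t, htn⟩ : Fin n).succ (gm y))) ^ 2)
      (fun x hx y hy h => hinj (mem_coe.2 hx) (mem_coe.2 hy) h)]
    apply sum_le_sum_of_subset_of_nonneg
    · intro y hy
      obtain ⟨x, hx, rfl⟩ := mem_image.1 hy
      exact hmem x hx
    · intro y _ _
      exact sq_nonneg _
  -- assembly
  have hn0 : (0 : ℝ) ≤ (n : ℝ) + 1 := by positivity
  calc NN (XX n S) (fun _ => 2 * n) p q (fun x => F (gm x))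
      = ∑ x ∈ I, (F (gm x) - F (gm (mv p q x))) ^ 2 := rfl
    _ ≤ ∑ x ∈ I, ((n : ℝ) + 1) *
      ∑ t ∈ Ico i.val j.val, (F (TRV_G i (gm x) t) - F (TRV_G i (gm x) (t + 1))) ^ 2 :=
        sum_le_sum hterm
    _ = ((n : ℝ) + 1) * ∑ t ∈ Ico i.val j.val, ∑ x ∈ I,
      (F (TRV_G i (gm x) t) - F (TRV_G i (gm x) (t + 1))) ^ 2 := by
        rw [← mul_sum, sum_comm]
    _ ≤ ((n : ℝ) + 1) * ∑ t ∈ Ico i.val j.val, (if h : t < n then R ⟨t, h⟩ else 0) :=
        mul_le_mul_of_nonneg_left (sum_le_sum hstep) hn0
    _ ≤ ((n : ℝ) + 1) * ∑ t ∈ range n, (if h : t < n then R ⟨t, h⟩ else 0) := by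
        apply mul_le_mul_of_nonneg_left _ hn0
        apply sum_le_sum_of_subset_of_nonneg
        · intro t ht
          rw [mem_Ico] at ht
          rw [mem_range]
          omega
        · intro t _ _
          split_ifs
          · exact hR _
          · exact le_rfl
    _ = ((n : ℝ) + 1) * ∑ k : Fin n, R k := by
        congr 1
        rw [Finset.sum_range]
        apply sum_congr rfl
        intro k _
        rw [dif_pos k.isLt]

theorem trv (S : Finset (Fin n)) (F : (Fin (n + 1) → ℕ) → ℝ) {p q : Fin (n + 1) × Bool}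
    (hpq : p ≠ q) (hg : gi S p.1 = gi S q.1) :
    NN (XX n S) (fun _ => 2 * n) p q (fun x => F (gm x)) ≤ ((n : ℝ) + 1) *
      ∑ k : Fin n, if k ∉ S then ∑ x ∈ (XX n S).filter (fun x => 1 ≤ gm x k.castSucc),
        (F (gm x) - F (mv k.castSucc k.succ (gm x))) ^ 2 else 0 := by
  rcases lt_trichotomy p.1 q.1 with h | h | h
  · exact trv_lt S F hpq hg h
  · have h0 : NN (XX n S) (fun _ => 2 * n) p q (fun x => F (gm x)) = 0 := by
      unfold NN
      apply sum_eq_zero
      intro x hx
      have hx' := (mem_filter.1 hx).2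
      simp only
      rw [gm_mv hpq hx'.1, if_pos h, sub_self]
      norm_num
    rw [h0]
    apply mul_nonneg (by positivity)
    apply sum_nonneg
    intro k _
    split_ifs
    · exact le_rfl
    · exact sum_nonneg fun x _ => sq_nonneg _
  · rw [nns (isgs_XX S) hpq hg]
    exact trv_lt S F hpq.symm hg.symm h

end Pool.Agent.FLP
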