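import Pool.Agent.FLP.Bas

/-!
Fibres of gm: sum_fiberwise over gm x (mem_XX); the x with gm x = γ correspond to the functions
a = x (., false) with a <= γ (then x (i, true) = γ i - a i), so there are prod (γ i + 1) of them.
-/

open Finset

namespace Pool.Agent.FLP

variable {n : ℕ}

private theorem xgm_card {S : Finset (Fin n)} {γ : Fin (n + 1) → ℕ} (h : γ ∈ Gam n S) :
    ((XX n S).filter (fun x => gm x = γ)).card = ∏ i, (γ i + 1) := by
  have h1 : (Fintype.piFinset fun i => range (γ i + 1)).card = ∏ i, (γ i + 1) := by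
    rw [Fintype.card_piFinset]
    simp only [card_range]
  rw [← h1]
  apply card_nbij' (fun (x : Fin (n + 1) × Bool → ℕ) (i : Fin (n + 1)) => x (i, false))
    (fun (a : Fin (n + 1) → ℕ) (p : Fin (n + 1) × Bool) =>
      if p.2 = true then γ p.1 - a p.1 else a p.1)
  · intro x hx
    rw [Finset.mem_coe, mem_filter] at hx
    rw [Finset.mem_coe, Fintype.mem_piFinset]
    intro i
    rw [mem_range, ← hx.2]
    show x (i, false) < x (i, false) + x (i, true) + 1
    omega
  · intro a ha
    rw [Finset.mem_coe, Fintype.mem_piFinset] at ha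
    rw [Finset.mem_coe, mem_filter]
    have h2 : gm (fun p : Fin (n + 1) × Bool => if p.2 = true then γ p.1 - a p.1 else a p.1) = γ := by
      funext i
      have h3 := ha i
      rw [mem_range] at h3
      unfold gm
      simp only [Bool.false_eq_true, if_false, if_true]
      omega
    rw [mem_XX, h2]
    exact ⟨h, rfl⟩
  · intro x hx
    rw [Finset.mem_coe, mem_filter] at hx
    funext p
    obtain ⟨i, b⟩ := p
    cases b
    · simp
    · simp only [if_true]
      rw [← hx.2]
      unfold gm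
      omega
  · intro a _
    funext i
    simp

theorem xgm (S : Finset (Fin n)) (Φ : (Fin (n + 1) → ℕ) → ℝ) :
    ∑ x ∈ XX n S, Φ (gm x) = ∑ γ ∈ Gam n S, ((∏ i, (γ i + 1) : ℕ) : ℝ) * Φ γ := by
  rw [← sum_fiberwise_of_maps_to (s := XX n S) (t := Gam n S) (g := gm)
    (fun x hx => (mem_XX S x).1 hx)]
  apply sum_congr rfl
  intro γ hγ
  rw [← xgm_card hγ, ← nsmul_eq_mul, ← sum_const]
  apply sum_congr rfl
  intro x hx
  rw [(mem_filter.1 hx).2]

theorem xgm_filter (S : Finset (Fin n)) (c : Fin (n + 1)) (Φ : (Fin (n + 1) → ℕ) → ℝ) :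
    ∑ x ∈ (XX n S).filter (fun x => 1 ≤ gm x c), Φ (gm x) =
      ∑ γ ∈ (Gam n S).filter (fun γ => 1 ≤ γ c), ((∏ i, (γ i + 1) : ℕ) : ℝ) * Φ γ := by
  rw [sum_filter, sum_filter]
  rw [xgm S (fun γ => if 1 ≤ γ c then Φ γ else 0)]
  apply sum_congr rfl
  intro γ _
  split_ifs
  · rfl
  · rw [mul_zero]

end Pool.Agent.FLP
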