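import Pool.Agent.FLP.LG
import Pool.Agent.FLP.TRV
import Pool.Agent.FLP.XGM
import Pool.Agent.FLP.MGB

/-!
Poincare inequality for γ. lg for XX n S (isgs_XX, L = 2n + 1) and the function x ↦ F (gm x), then trv for
the at most (2n+2)^2 pairs, then xgm_filter and le_bx (sum γ = 2n by mem_Gam), total constant
(2n+1)^2 (2n+2)^2 (n+1) (2n+1) <= 32 (n+1)^6. Take c = av (XX n S) (F (gm x)): by xgm vr (XX n S) = sum of
prod (γ i + 1) (F γ - c)^2 >= sum of #(Bx γ n) (F γ - c)^2 (bx_le).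
-/

open Finset

namespace Pool.Agent.FLP

variable {n : ℕ}

private theorem gmp_arith {N T D E : ℝ} (hN : 0 ≤ N) (hE : 0 ≤ E)
    (h3 : T ≤ (2 * (N + 1)) * ((2 * (N + 1)) * ((N + 1) * D))) (h8 : D ≤ (2 * N + 1) * E) :
    (2 * N + 1) ^ 2 * T ≤ 32 * (N + 1) ^ 6 * E := by
  calc (2 * N + 1) ^ 2 * T
      ≤ (2 * N + 1) ^ 2 * ((2 * (N + 1)) * ((2 * (N + 1)) * ((N + 1) * D))) :=
        mul_le_mul_of_nonneg_left h3 (by positivity)
    _ ≤ (2 * N + 1) ^ 2 *
        ((2 * (N + 1)) * ((2 * (N + 1)) * ((N + 1) * ((2 * N + 1) * E)))) := by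
        gcongr
    _ = (4 * (N + 1) ^ 3 * (2 * N + 1) ^ 3) * E := by ring
    _ ≤ (4 * (N + 1) ^ 3 * (2 * (N + 1)) ^ 3) * E := by
        gcongr
        linarith
    _ = 32 * (N + 1) ^ 6 * E := by ring

theorem gmp (S : Finset (Fin n)) (F : (Fin (n + 1) → ℕ) → ℝ) :
    ∃ c : ℝ, ∑ γ ∈ Gam n S, ((Bx γ n).card : ℝ) * (F γ - c) ^ 2 ≤ 32 * ((n : ℝ) + 1) ^ 6 *
      ∑ k : Fin n, if k ∉ S then ∑ γ ∈ (Gam n S).filter (fun γ => 1 ≤ γ k.castSucc),
        ((Bx γ n).card : ℝ) * (F γ - F (mv k.castSucc k.succ γ)) ^ 2 else 0 := by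
  set D : ℝ := ∑ k : Fin n, if k ∉ S then ∑ x ∈ (XX n S).filter (fun x => 1 ≤ gm x k.castSucc),
        (F (gm x) - F (mv k.castSucc k.succ (gm x))) ^ 2 else 0 with hD
  set E : ℝ := ∑ k : Fin n, if k ∉ S then ∑ γ ∈ (Gam n S).filter (fun γ => 1 ≤ γ k.castSucc),
        ((Bx γ n).card : ℝ) * (F γ - F (mv k.castSucc k.succ γ)) ^ 2 else 0 with hE
  have hD0 : 0 ≤ D := by
    rw [hD]
    apply sum_nonneg
    intro k _
    split_ifs
    · exact le_rfl
    · exact sum_nonneg fun x _ => sq_nonneg _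
  have hE0 : 0 ≤ E := by
    rw [hE]
    apply sum_nonneg
    intro k _
    split_ifs
    · exact le_rfl
    · exact sum_nonneg fun x _ => mul_nonneg (Nat.cast_nonneg _) (sq_nonneg _)
  refine ⟨av (XX n S) (fun x => F (gm x)), ?_⟩
  have h1 : ∑ γ ∈ Gam n S, ((Bx γ n).card : ℝ) * (F γ - av (XX n S) (fun x => F (gm x))) ^ 2 ≤
      vr (XX n S) (fun x => F (gm x)) := by
    unfold vr
    rw [xgm S (fun γ => (F γ - av (XX n S) (fun x => F (gm x))) ^ 2)]
    apply sum_le_sum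
    intro γ _
    exact mul_le_mul_of_nonneg_right (Nat.cast_le.2 bx_le) (sq_nonneg _)
  have h2 := lg (isgs_XX S) (L := 2 * n + 1) (fun _ => by omega) (fun x => F (gm x))
  have h3 : (∑ p : Fin (n + 1) × Bool, ∑ q : Fin (n + 1) × Bool,
      if p ≠ q ∧ gi S p.1 = gi S q.1 then NN (XX n S) (fun _ => 2 * n) p q (fun x => F (gm x))
      else 0) ≤ (2 * ((n : ℝ) + 1)) * ((2 * ((n : ℝ) + 1)) * (((n : ℝ) + 1) * D)) := by
    have hc : ((univ : Finset (Fin (n + 1) × Bool)).card : ℝ) = 2 * ((n : ℝ) + 1) := by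
      rw [card_univ, Fintype.card_prod, Fintype.card_fin, Fintype.card_bool]
      push_cast
      ring
    have h4 : ∀ p q : Fin (n + 1) × Bool, (if p ≠ q ∧ gi S p.1 = gi S q.1 then
        NN (XX n S) (fun _ => 2 * n) p q (fun x => F (gm x)) else 0) ≤ ((n : ℝ) + 1) * D := by
      intro p q
      split_ifs with h
      · exact trv S F h.1 h.2
      · positivity
    have h5 : ∀ p : Fin (n + 1) × Bool, (∑ q : Fin (n + 1) × Bool,
        if p ≠ q ∧ gi S p.1 = gi S q.1 then NN (XX n S) (fun _ => 2 * n) p q (fun x => F (gm x))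
        else 0) ≤ (2 * ((n : ℝ) + 1)) * (((n : ℝ) + 1) * D) := by
      intro p
      have h6 := sum_le_card_nsmul (univ : Finset (Fin (n + 1) × Bool)) _ _ (fun q _ => h4 p q)
      rw [nsmul_eq_mul, hc] at h6
      exact h6
    have h7 := sum_le_card_nsmul (univ : Finset (Fin (n + 1) × Bool)) _ _ (fun p _ => h5 p)
    rw [nsmul_eq_mul, hc] at h7
    exact h7
  have h8 : D ≤ (2 * (n : ℝ) + 1) * E := by
    rw [hD, hE, mul_sum]
    apply sum_le_sum
    intro k _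
    by_cases hk : k ∉ S
    · rw [if_pos hk, if_pos hk,
        xgm_filter S k.castSucc (fun γ => (F γ - F (mv k.castSucc k.succ γ)) ^ 2), mul_sum]
      apply sum_le_sum
      intro γ hγ
      rw [mem_filter, mem_Gam] at hγ
      have h9 : ((∏ i, (γ i + 1) : ℕ) : ℝ) ≤ (2 * (n : ℝ) + 1) * ((Bx γ n).card : ℝ) := by
        have h10 := le_bx hγ.1.1
        exact_mod_cast h10
      calc ((∏ i, (γ i + 1) : ℕ) : ℝ) * (F γ - F (mv k.castSucc k.succ γ)) ^ 2
          ≤ ((2 * (n : ℝ) + 1) * ((Bx γ n).card : ℝ)) * (F γ - F (mv k.castSucc k.succ γ)) ^ 2 :=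
            mul_le_mul_of_nonneg_right h9 (sq_nonneg _)
        _ = (2 * (n : ℝ) + 1) * (((Bx γ n).card : ℝ) * (F γ - F (mv k.castSucc k.succ γ)) ^ 2) := by
            ring
    · rw [if_neg hk, if_neg hk, mul_zero]
  refine h1.trans (h2.trans ?_)
  have h11 : (((2 * n + 1 : ℕ) : ℝ)) = 2 * (n : ℝ) + 1 := by push_cast; ring
  rw [h11]
  exact gmp_arith (Nat.cast_nonneg n) hE0 h3 h8

end Pool.Agent.FLP
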