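import Pool.Agent.FLP.VRB

/-!
Spectral gap from contraction.
-/

open Finset

namespace Pool.Agent.FLP

private theorem GSP_sym {m : Type*} [Fintype m] [DecidableEq m] (M : m → m → ℝ)
    (hs : ∀ x y, M x y = M y x) (l0 : ℝ)
    (h : ∀ (f : m → ℝ) (μ : ℝ), f ≠ 0 → (∀ x, ∑ y, M x y * f y = μ * f x) → μ ≤ l0)
    (f : m → ℝ) : ∑ x, ∑ y, f x * (M x y * f y) ≤ l0 * ∑ x, f x ^ 2 := by
  by_cases hf : f = 0
  · subst hf
    simp
  set T : EuclideanSpace ℝ m →ₗ[ℝ] EuclideanSpace ℝ m := Matrix.toEuclideanLin (Matrix.of M)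
    with hT
  have hsym : T.IsSymmetric := by
    rw [hT, Matrix.isSymmetric_toEuclideanLin_iff]
    ext x y
    simp [Matrix.conjTranspose_apply, hs x y]
  have hTx : ∀ (v : EuclideanSpace ℝ m) (x : m), (T v) x = ∑ y, M x y * v y := by
    intro v x
    rw [hT]
    simp [Matrix.mulVec, dotProduct]
  set v : EuclideanSpace ℝ m := WithLp.toLp 2 f with hv
  have hv0 : v ≠ 0 := by
    intro h0
    apply hf
    have : WithLp.ofLp v = 0 := by rw [h0]; rfl
    exact this
  have : Nontrivial (EuclideanSpace ℝ m) := ⟨⟨v, 0, hv0⟩⟩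
  have hev := hsym.hasEigenvalue_iSup_of_finiteDimensional
  set S : ℝ := ⨆ x : { x : EuclideanSpace ℝ m // x ≠ 0 },
    RCLike.re (inner ℝ (T x) x) / ‖(x : EuclideanSpace ℝ m)‖ ^ 2 with hS
  obtain ⟨w, hw⟩ := hev.exists_hasEigenvector
  have hS0 : S ≤ l0 := by
    apply h (WithLp.ofLp w) S
    · intro h0
      apply hw.2
      apply (WithLp.ofLp_injective 2)
      rw [h0]
      rfl
    · intro x
      have h1 := hw.apply_eq_smul
      have h2 := hTx w x
      rw [h1] at h2
      rw [← h2]
      simp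
  have hbdd : BddAbove (Set.range fun x : { x : EuclideanSpace ℝ m // x ≠ 0 } =>
      RCLike.re (inner ℝ (T x) (x : EuclideanSpace ℝ m)) / ‖(x : EuclideanSpace ℝ m)‖ ^ 2) := by
    refine ⟨‖LinearMap.toContinuousLinearMap T‖, ?_⟩
    rintro _ ⟨x, rfl⟩
    have hx : 0 < ‖(x : EuclideanSpace ℝ m)‖ := norm_pos_iff.mpr x.2
    show RCLike.re (inner ℝ (T x) (x : EuclideanSpace ℝ m)) / ‖(x : EuclideanSpace ℝ m)‖ ^ 2 ≤ _
    rw [div_le_iff₀ (by positivity)]
    have h1 : RCLike.re (inner ℝ (T x) (x : EuclideanSpace ℝ m)) ≤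
        ‖T x‖ * ‖(x : EuclideanSpace ℝ m)‖ := by
      rw [RCLike.re_to_real]
      exact (le_abs_self _).trans (abs_real_inner_le_norm _ _)
    have h2 : ‖T x‖ ≤ ‖LinearMap.toContinuousLinearMap T‖ * ‖(x : EuclideanSpace ℝ m)‖ :=
      (LinearMap.toContinuousLinearMap T).le_opNorm x
    nlinarith [norm_nonneg (T x)]
  have hle := le_ciSup hbdd ⟨v, hv0⟩
  rw [← hS] at hle
  have hvn : 0 < ‖v‖ := norm_pos_iff.mpr hv0
  have h3 : RCLike.re (inner ℝ (T v) v) / ‖v‖ ^ 2 ≤ l0 := hle.trans hS0
  rw [div_le_iff₀ (by positivity)] at h3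
  have h4 : ‖v‖ ^ 2 = ∑ x, f x ^ 2 := by
    rw [EuclideanSpace.norm_sq_eq]
    simp [hv]
  have h5 : RCLike.re (inner ℝ (T v) v) = ∑ x, ∑ y, f x * (M x y * f y) := by
    rw [PiLp.inner_apply]
    simp only [RCLike.inner_apply, conj_trivial, RCLike.re_to_real]
    apply sum_congr rfl
    intro x _
    rw [hTx v x]
    rw [← mul_sum]
  rw [h4, h5] at h3
  exact h3

theorem gsp {X E : Type*} [DecidableEq X] (s : Finset X) (es : Finset E) (Q : E → X → Finset X)
    (R : X → X → Prop) (hmem : ∀ e ∈ es, ∀ x ∈ s, x ∈ Q e x) (hsub : ∀ e ∈ es, ∀ x ∈ s, Q e x ⊆ s)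
    (heq : ∀ e ∈ es, ∀ x ∈ s, ∀ y ∈ Q e x, Q e y = Q e x)
    (conn : ∀ f : X → ℝ, (∀ x ∈ s, ∀ y ∈ s, R x y → f x = f y) → ∀ x ∈ s, ∀ y ∈ s, f x = f y)
    (contr : ∀ (f : X → ℝ) (Λ : ℝ), (∀ x ∈ s, ∀ y ∈ s, R x y → |f x - f y| ≤ Λ) →
      ∀ e ∈ es, ∀ x ∈ s, ∀ y ∈ s, R x y → |av (Q e x) f - av (Q e y) f| ≤ Λ)
    (coal : ∀ x ∈ s, ∀ y ∈ s, R x y → ∃ e ∈ es, Q e x = Q e y) (f : X → ℝ) :
    vr s f ≤ ∑ e ∈ es, ∑ x ∈ s, (f x - av (Q e x) f) ^ 2 := by
  classical
  have hRHS : 0 ≤ ∑ e ∈ es, ∑ x ∈ s, (f x - av (Q e x) f) ^ 2 :=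
    sum_nonneg fun _ _ => sum_nonneg fun _ _ => sq_nonneg _
  rcases s.eq_empty_or_nonempty with rfl | hne
  · simpa [vr] using hRHS
  rcases es.eq_empty_or_nonempty with rfl | hene
  · -- everything is constant
    have hc : ∀ x ∈ s, ∀ y ∈ s, f x = f y := conn f (fun x hx y hy hxy => by
      obtain ⟨e, he, _⟩ := coal x hx y hy hxy
      simp at he)
    obtain ⟨x₀, hx₀⟩ := hne
    refine (vr_le s f (f x₀)).trans ?_
    rw [sum_eq_zero (fun x hx => by rw [hc x hx x₀ hx₀]; ring)]
    exact hRHS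
  set N : ℝ := (s.card : ℝ) with hN
  set k : ℝ := (es.card : ℝ) with hk
  have hN0 : 0 < N := by rw [hN]; exact_mod_cast hne.card_pos
  have hk1 : 1 ≤ k := by rw [hk]; exact_mod_cast hene.card_pos
  have hk0 : 0 < k := by linarith
  -- the averaging operators in terms of matrices
  set a : E → X → X → ℝ := fun e x y => if y ∈ Q e x then 1 / ((Q e x).card : ℝ) else 0 with ha
  have hav : ∀ e ∈ es, ∀ x ∈ s, ∀ g : X → ℝ, av (Q e x) g = ∑ y ∈ s, a e x y * g y := by
    intro e he x hx g
    unfold av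
    rw [sum_div, ha]
    simp only [ite_mul, zero_mul]
    rw [← sum_filter]
    have h1 : s.filter (fun y => y ∈ Q e x) = Q e x := by
      ext y
      rw [mem_filter]
      exact ⟨fun h => h.2, fun h => ⟨hsub e he x hx h, h⟩⟩
    rw [h1]
    exact sum_congr rfl fun y _ => by ring
  have hasym : ∀ e ∈ es, ∀ x ∈ s, ∀ y ∈ s, a e x y = a e y x := by
    intro e he x hx y hy
    rw [ha]
    simp only
    by_cases h : y ∈ Q e x
    · have h2 := heq e he x hx y h
      have h3 : x ∈ Q e y := by rw [h2]; exact hmem e he x hx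
      rw [if_pos h, if_pos h3, h2]
    · have h3 : x ∉ Q e y := by
        intro h3
        have h2 := heq e he y hy x h3
        exact h (by rw [h2]; exact hmem e he y hy)
      rw [if_neg h, if_neg h3]
  have hone : ∀ e ∈ es, ∀ x ∈ s, ∑ y ∈ s, a e x y = 1 := by
    intro e he x hx
    have h1 := hav e he x hx (fun _ => 1)
    simp only [mul_one] at h1
    rw [← h1]
    unfold av
    have h2 : ((Q e x).card : ℝ) ≠ 0 := by
      have := card_pos.mpr ⟨x, hmem e he x hx⟩
      exact_mod_cast this.ne'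
    rw [sum_const, nsmul_eq_mul, mul_one, div_self h2]
  -- the operator
  set M : s → s → ℝ := fun x y => (1 / k) * ∑ e ∈ es, a e x y - 1 / N with hM
  have hMs : ∀ x y, M x y = M y x := by
    intro x y
    rw [hM]
    simp only
    congr 2
    exact sum_congr rfl fun e he => hasym e he x x.2 y y.2
  -- action on functions
  have hMf : ∀ (g : s → ℝ) (x : s), ∑ y, M x y * g y =
      (1 / k) * ∑ e ∈ es, ∑ y : s, a e x y * g y - (1 / N) * ∑ y, g y := by
    intro g x
    rw [hM]
    simp only [sub_mul]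
    rw [sum_sub_distrib, ← mul_sum]
    congr 1
    simp only [mul_sum, sum_mul]
    rw [sum_comm]
    exact sum_congr rfl fun e _ => sum_congr rfl fun y _ => by ring
  have hcol : ∀ (g : s → ℝ), ∑ x : s, ∑ y, M x y * g y = 0 := by
    intro g
    rw [sum_comm]
    apply sum_eq_zero
    intro y _
    rw [← sum_mul]
    have h1 : ∑ x : s, M x y = 0 := by
      rw [hM]
      simp only
      rw [sum_sub_distrib, ← mul_sum, sum_comm]
      have h2 : ∀ e ∈ es, ∑ x : s, a e x y = 1 := by
        intro e he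
        rw [← hone e he y y.2, ← sum_coe_sort s (fun x => a e y x)]
        exact sum_congr rfl fun x _ => hasym e he x x.2 y y.2
      rw [sum_congr rfl h2]
      simp only [sum_const, nsmul_eq_mul, mul_one, card_univ, Fintype.card_coe]
      rw [← hk, ← hN]
      field_simp
      ring
    rw [h1, zero_mul]
  have heig : ∀ (g : s → ℝ) (μ : ℝ), g ≠ 0 → (∀ x, ∑ y, M x y * g y = μ * g x) →
      μ ≤ 1 - 1 / k := by
    intro g μ hg hgμ
    have h0 : μ * ∑ x, g x = 0 := by
      rw [mul_sum, ← hcol g]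
      exact sum_congr rfl fun x _ => (hgμ x).symm
    have hk' : 0 ≤ 1 - 1 / k := by
      rw [sub_nonneg, div_le_one hk0]
      exact hk1
    rcases mul_eq_zero.mp h0 with h1 | h1
    · rw [h1]; exact hk'
    -- sum zero
    by_contra hcon
    push Not at hcon
    have hμ0 : 0 < μ := hk'.trans_lt hcon
    -- extension of g
    set G : X → ℝ := fun x => if h : x ∈ s then g ⟨x, h⟩ else 0 with hG
    have hGx : ∀ x : s, G x = g x := by
      intro x
      rw [hG]
      simp [x.2]
    have hK : ∀ x ∈ s, (1 / k) * ∑ e ∈ es, av (Q e x) G = μ * G x := by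
      intro x hx
      have h2 := hgμ ⟨x, hx⟩
      rw [hMf, h1, mul_zero, sub_zero] at h2
      rw [← hGx ⟨x, hx⟩] at h2
      rw [← h2]
      congr 1
      apply sum_congr rfl
      intro e he
      rw [hav e he x hx, ← sum_coe_sort s (fun y => a e x y * G y)]
      exact sum_congr rfl fun y _ => by rw [hGx]
    -- maximal difference along R
    set PR : Finset (X × X) := (s ×ˢ s).filter fun p => R p.1 p.2 with hPR
    by_cases hPRe : PR.Nonempty
    · obtain ⟨p, hp, hmax⟩ := exists_max_image PR (fun p => |G p.1 - G p.2|) hPRe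
      set L := |G p.1 - G p.2| with hL
      have hp' : (p.1 ∈ s ∧ p.2 ∈ s) ∧ R p.1 p.2 := by
        rw [hPR, mem_filter, mem_product] at hp
        exact hp
      have hLip : ∀ x ∈ s, ∀ y ∈ s, R x y → |G x - G y| ≤ L := by
        intro x hx y hy hxy
        exact hmax (x, y) (by rw [hPR, mem_filter, mem_product]; exact ⟨⟨hx, hy⟩, hxy⟩)
      have hL0 : 0 < L := by
        rcases (abs_nonneg (G p.1 - G p.2)).eq_or_lt with h3 | h3
        · exfalso
          have h4 : ∀ x ∈ s, ∀ y ∈ s, G x = G y := by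
            apply conn G
            intro x hx y hy hxy
            have h5 := hLip x hx y hy hxy
            rw [hL, ← h3] at h5
            have h6 := abs_nonneg (G x - G y)
            have h7 : |G x - G y| = 0 := le_antisymm h5 h6
            linarith [abs_eq_zero.mp h7]
          apply hg
          funext x
          have h5 : ∀ y : s, g y = g x := fun y => by
            rw [← hGx, ← hGx]
            exact h4 y y.2 x x.2
          rw [sum_congr rfl (fun y _ => h5 y), sum_const, nsmul_eq_mul, card_univ,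
            Fintype.card_coe] at h1
          rcases mul_eq_zero.mp h1 with h6 | h6
          · rw [← hN] at h6
            exact absurd h6 hN0.ne'
          · exact h6
        · exact h3
      obtain ⟨e₀, he₀, hQ⟩ := coal p.1 hp'.1.1 p.2 hp'.1.2 hp'.2
      have h5 : μ * L ≤ (1 - 1 / k) * L := by
        have h6 : μ * (G p.1 - G p.2) =
            (1 / k) * ∑ e ∈ es, (av (Q e p.1) G - av (Q e p.2) G) := by
          rw [mul_sub, ← hK p.1 hp'.1.1, ← hK p.2 hp'.1.2, sum_sub_distrib]
          ring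
        have h7 : μ * L = |μ * (G p.1 - G p.2)| := by
          rw [abs_mul, abs_of_pos hμ0]
        rw [h7, h6, abs_mul, abs_of_pos (one_div_pos.mpr hk0)]
        have h8 : |∑ e ∈ es, (av (Q e p.1) G - av (Q e p.2) G)| ≤ (k - 1) * L := by
          refine (abs_sum_le_sum_abs _ _).trans ?_
          rw [← add_sum_erase es _ he₀, hQ, sub_self, abs_zero, zero_add]
          refine (sum_le_card_nsmul _ _ L ?_).trans ?_
          · intro e he
            exact contr G L hLip e (mem_of_mem_erase he) p.1 hp'.1.1 p.2 hp'.1.2 hp'.2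
          · rw [nsmul_eq_mul, card_erase_of_mem he₀, Nat.cast_sub hene.card_pos, Nat.cast_one,
              ← hk]
        calc 1 / k * |∑ e ∈ es, (av (Q e p.1) G - av (Q e p.2) G)| ≤ 1 / k * ((k - 1) * L) :=
              mul_le_mul_of_nonneg_left h8 (one_div_pos.mpr hk0).le
          _ = (1 - 1 / k) * L := by
            field_simp
      exact absurd (le_of_mul_le_mul_right h5 hL0) (not_le.mpr hcon)
    · -- no pairs
      exfalso
      have h4 : ∀ x ∈ s, ∀ y ∈ s, G x = G y := by
        apply conn G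
        intro x hx y hy hxy
        exact absurd ⟨(x, y), by rw [hPR, mem_filter, mem_product]; exact ⟨⟨hx, hy⟩, hxy⟩⟩ hPRe
      apply hg
      funext x
      have h5 : ∀ y : s, g y = g x := fun y => by
        rw [← hGx, ← hGx]
        exact h4 y y.2 x x.2
      rw [sum_congr rfl (fun y _ => h5 y), sum_const, nsmul_eq_mul, card_univ,
        Fintype.card_coe] at h1
      rcases mul_eq_zero.mp h1 with h6 | h6
      · rw [← hN] at h6
        exact absurd h6 hN0.ne'
      · exact h6
  -- apply to the centred function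
  have hmain := GSP_sym M hMs (1 - 1 / k) heig (fun x : s => f x - av s f)
  set F : X → ℝ := fun x => f x - av s f with hF
  have hFsum : ∑ x : s, F x = 0 := by
    rw [sum_coe_sort s F, hF, sum_sub_distrib, sum_const, nsmul_eq_mul]
    unfold av
    rw [← hN]
    field_simp
    ring
  have hvr : ∑ x : s, F x ^ 2 = vr s f := by
    rw [sum_coe_sort s (fun x => F x ^ 2)]
    rfl
  have h1 : ∑ x : s, ∑ y : s, F x * (M x y * F y) =
      (1 / k) * ∑ e ∈ es, ∑ x ∈ s, F x * av (Q e x) F := by
    have h2 : ∀ x : s, ∑ y : s, F x * (M x y * F y) =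
        (1 / k) * ∑ e ∈ es, F x * av (Q e x) F := by
      intro x
      rw [← mul_sum, hMf (fun y => F y) x, hFsum, mul_zero, sub_zero, ← mul_sum]
      rw [show ∑ e ∈ es, ∑ y : s, a e x y * F y = ∑ e ∈ es, av (Q e x) F from
        sum_congr rfl fun e he => by
          rw [hav e he x x.2, ← sum_coe_sort s (fun y => a e x y * F y)]]
      ring
    rw [sum_congr rfl (fun x _ => h2 x), ← mul_sum, sum_comm]
    congr 1
    apply sum_congr rfl
    intro e _
    rw [← sum_coe_sort s (fun x => F x * av (Q e x) F)]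
  -- projections
  have h3 : ∀ e ∈ es, ∑ x ∈ s, (f x - av (Q e x) f) ^ 2 =
      ∑ x ∈ s, F x ^ 2 - ∑ x ∈ s, F x * av (Q e x) F := by
    intro e he
    have h4 : ∀ x ∈ s, av (Q e x) F = av (Q e x) f - av s f := by
      intro x hx
      have h5 : ((Q e x).card : ℝ) ≠ 0 := by
        have := card_pos.mpr ⟨x, hmem e he x hx⟩
        exact_mod_cast this.ne'
      unfold av
      rw [hF, sum_sub_distrib, sum_const, nsmul_eq_mul]
      unfold av
      field_simp
    have h6 : ∑ x ∈ s, av (Q e x) F * av (Q e x) F = ∑ x ∈ s, F x * av (Q e x) F := by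
      have h7 : ∀ x ∈ s, av (Q e x) F * av (Q e x) F =
          ∑ y ∈ s, a e x y * (F y * av (Q e y) F) := by
        intro x hx
        nth_rewrite 1 [hav e he x hx F]
        rw [sum_mul]
        apply sum_congr rfl
        intro y hy
        rw [ha]
        simp only
        by_cases h8 : y ∈ Q e x
        · rw [heq e he x hx y h8]
          ring
        · rw [if_neg h8]
          ring
      rw [sum_congr rfl h7, sum_comm]
      apply sum_congr rfl
      intro y hy
      rw [← sum_mul]
      have h9 : ∑ x ∈ s, a e x y = 1 := by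
        rw [← hone e he y hy]
        exact sum_congr rfl fun x hx => hasym e he x hx y hy
      rw [h9, one_mul]
    have h10 : ∀ x ∈ s, (f x - av (Q e x) f) ^ 2 =
        F x ^ 2 - 2 * (F x * av (Q e x) F) + av (Q e x) F * av (Q e x) F := by
      intro x hx
      rw [h4 x hx, hF]
      ring
    rw [sum_congr rfl h10, sum_add_distrib, sum_sub_distrib, h6, ← mul_sum]
    ring
  rw [sum_congr rfl h3, sum_sub_distrib, sum_const, nsmul_eq_mul, ← hk]
  rw [h1, hvr] at hmain
  have h11 : ∑ x ∈ s, F x ^ 2 = vr s f := rfl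
  rw [h11]
  set Z := ∑ e ∈ es, ∑ x ∈ s, F x * av (Q e x) F with hZ
  have h12 : Z ≤ (k - 1) * vr s f := by
    have h13 := mul_le_mul_of_nonneg_left hmain hk0.le
    have h14 : k * (1 / k * Z) = Z := by field_simp
    have h15 : k * ((1 - 1 / k) * vr s f) = (k - 1) * vr s f := by
      field_simp
    rw [h14, h15] at h13
    exact h13
  linarith

end Pool.Agent.FLP
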