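import Pool.Agent.FLP.Bas

/-!
Central binomial coefficients. With m = en n r - pv l and N = 2 (r-l+1) + m - 1 one has N <= 4n + 1 and
|2m - N| <= 1 (cases l = 0 or not, r = n or not: pv 0 = 0, pv l = 2l - 1; en n r = 2r+1 for r < n,
en n n = 2n), so C(N, m) is the middle binomial coefficient (Nat.choose_le_middle) and 2^N <=
(N + 1) C(N, m) (sum over the row). Upper bound: Nat.choose_le_two_pow or the sum of the row.
-/

open Finset

namespace Pool.Agent.FLP

variable {n : ℕ}

/-- The exponent. -/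
def ex (n l r : ℕ) : ℕ := 2 * (r - l + 1) + (en n r - pv l) - 1

theorem gwb_en (r : ℕ) (hr : r ≤ n) : en n r = if r = n then 2 * n else 2 * r + 1 := by
  unfold en
  split_ifs with h
  · subst h; omega
  · omega

theorem gwb_pv (l : ℕ) : pv l = 2 * l - 1 := rfl

theorem gw_le (l r : ℕ) : Gw n l r ≤ 2 ^ ex n l r := by
  unfold Gw ex
  exact Nat.choose_le_two_pow _ _

theorem gwb_choose {N m : ℕ} (h1 : 2 * m ≤ N + 1) (h2 : N ≤ 2 * m + 1) :
    2 ^ N ≤ (N + 1) * N.choose m := by
  have hmid : N.choose m = N.choose (N / 2) := by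
    rcases Nat.lt_or_ge N (2 * m) with h | h
    · -- N = 2 m - 1
      have hN : N = 2 * m - 1 := by omega
      have e : N / 2 = N - m := by omega
      rw [e, Nat.choose_symm (by omega)]
    · have e : N / 2 = m := by omega
      rw [e]
  rw [hmid, ← Nat.sum_range_choose]
  calc ∑ i ∈ range (N + 1), N.choose i ≤ ∑ _i ∈ range (N + 1), N.choose (N / 2) :=
        sum_le_sum fun i _ => Nat.choose_le_middle i N
    _ = (N + 1) * N.choose (N / 2) := by simp

theorem le_gw {l r : ℕ} (hlr : l ≤ r) (hr : r ≤ n) : 2 ^ ex n l r ≤ (4 * n + 2) * Gw n l r := by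
  have e1 := gwb_en (n := n) r hr
  have e2 := gwb_pv l
  have hN : ex n l r ≤ 4 * n + 1 ∧ 2 * (en n r - pv l) ≤ ex n l r + 1 ∧
      ex n l r ≤ 2 * (en n r - pv l) + 1 := by
    unfold ex
    rw [e1, e2]
    split_ifs <;> omega
  obtain ⟨h0, h1, h2⟩ := hN
  calc 2 ^ ex n l r ≤ (ex n l r + 1) * (ex n l r).choose (en n r - pv l) := gwb_choose h1 h2
    _ ≤ (4 * n + 2) * Gw n l r := by
        apply Nat.mul_le_mul (by omega)
        exact le_rfl

theorem ex_exch {l l' r r' : ℕ} (h1 : l ≤ r) (h2 : l ≤ r') (h3 : l' ≤ r) (h4 : l' ≤ r')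
    (hr : r ≤ n) (hr' : r' ≤ n) : ex n l r + ex n l' r' = ex n l' r + ex n l r' := by
  have e1 := gwb_en (n := n) r hr
  have e1' := gwb_en (n := n) r' hr'
  have e2 := gwb_pv l
  have e2' := gwb_pv l'
  unfold ex
  rw [e1, e1', e2, e2']
  split_ifs <;> omega

theorem ex_split {l k r : ℕ} (h1 : l ≤ k) (h2 : k < r) (hr : r ≤ n) :
    ex n l r = ex n l k + ex n (k + 1) r + 1 := by
  have e1 := gwb_en (n := n) r hr
  have e1' := gwb_en (n := n) k (by omega)
  have e2 := gwb_pv l
  have e2' := gwb_pv (k + 1)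
  unfold ex
  rw [e1, e1', e2, e2']
  split_ifs <;> omega

end Pool.Agent.FLP
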