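import Pool.Agent.FLP.GWB

/-!
From gw_le, le_gw, ex_exch, ex_split.
-/

open Finset

namespace Pool.Agent.FLP

variable {n : ℕ}

theorem gwx {l l' r r' : ℕ} (h1 : l ≤ r) (h2 : l ≤ r') (h3 : l' ≤ r) (h4 : l' ≤ r')
    (hr : r ≤ n) (hr' : r' ≤ n) :
    Gw n l r * Gw n l' r' ≤ (4 * n + 2) ^ 2 * (Gw n l' r * Gw n l r') := by
  calc Gw n l r * Gw n l' r' ≤ 2 ^ ex n l r * 2 ^ ex n l' r' :=
        Nat.mul_le_mul (gw_le l r) (gw_le l' r')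
    _ = 2 ^ ex n l' r * 2 ^ ex n l r' := by
        rw [← pow_add, ← pow_add, ex_exch h1 h2 h3 h4 hr hr']
    _ ≤ ((4 * n + 2) * Gw n l' r) * ((4 * n + 2) * Gw n l r') :=
        Nat.mul_le_mul (le_gw h3 hr) (le_gw h2 hr')
    _ = (4 * n + 2) ^ 2 * (Gw n l' r * Gw n l r') := by ring

theorem gws {l k r : ℕ} (h1 : l ≤ k) (h2 : k < r) (hr : r ≤ n) :
    Gw n l r ≤ 2 * (4 * n + 2) ^ 2 * (Gw n l k * Gw n (k + 1) r) := by
  calc Gw n l r ≤ 2 ^ ex n l r := gw_le l r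
    _ = 2 * (2 ^ ex n l k * 2 ^ ex n (k + 1) r) := by
        rw [ex_split h1 h2 hr, pow_succ, pow_add]
        ring
    _ ≤ 2 * (((4 * n + 2) * Gw n l k) * ((4 * n + 2) * Gw n (k + 1) r)) :=
        Nat.mul_le_mul le_rfl (Nat.mul_le_mul (le_gw h1 (by omega)) (le_gw h2 hr))
    _ = 2 * (4 * n + 2) ^ 2 * (Gw n l k * Gw n (k + 1) r) := by ring

end Pool.Agent.FLP
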