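import Pool.Agent.FLP.Defs2

/-!
The segments. convexHull of the image of a pair is the segment (Finset.coe_insert, image_insert_eq,
convexHull_pair), a point of the segment is (1 - t) toR p + t toR q (segment_eq_image); for a segment
which is not vertical t is determined by the first coordinate.
-/

open Finset

namespace Pool.Agent.FLP

theorem toR_inj : Function.Injective toR := by
  rintro ⟨a, b⟩ ⟨c, d⟩ h
  simp only [toR, Prod.mk.injEq, Int.cast_inj] at h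
  exact Prod.ext h.1 h.2

theorem toR_mem {A : Set (ℤ × ℤ)} {z : ℤ × ℤ} : toR z ∈ toR '' A ↔ z ∈ A :=
  toR_inj.mem_set_image

private theorem HUL_pair (p q : ℤ × ℤ) : hl {p, q} = segment ℝ (toR p) (toR q) := by
  unfold hl
  rw [Finset.coe_insert, Finset.coe_singleton, Set.image_insert_eq, Set.image_singleton,
    convexHull_pair]

private theorem HUL_mem (p q : ℤ × ℤ) (z : ℝ × ℝ) : z ∈ hl {p, q} ↔ ∃ t : ℝ, 0 ≤ t ∧ t ≤ 1 ∧
    z.1 = (p.1 : ℝ) + t * ((q.1 : ℝ) - p.1) ∧ z.2 = (p.2 : ℝ) + t * ((q.2 : ℝ) - p.2) := by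
  rw [HUL_pair, segment_eq_image]
  constructor
  · rintro ⟨t, ⟨h0, h1⟩, rfl⟩
    refine ⟨t, h0, h1, ?_, ?_⟩
    · simp only [toR, Prod.smul_mk, Prod.mk_add_mk, smul_eq_mul]
      ring
    · simp only [toR, Prod.smul_mk, Prod.mk_add_mk, smul_eq_mul]
      ring
  · rintro ⟨t, h0, h1, h2, h3⟩
    refine ⟨t, ⟨h0, h1⟩, ?_⟩
    apply Prod.ext
    · rw [h2]
      simp only [toR, Prod.smul_mk, Prod.mk_add_mk, smul_eq_mul]
      ring
    · rw [h3]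
      simp only [toR, Prod.smul_mk, Prod.mk_add_mk, smul_eq_mul]
      ring

theorem hl_V (x j : ℕ) (z : ℝ × ℝ) :
    z ∈ hl (Ed.V x j).toF ↔ z.1 = (x : ℝ) ∧ (j : ℝ) ≤ z.2 ∧ z.2 ≤ (j : ℝ) + 1 := by
  rw [Ed.toF, HUL_mem]
  push_cast
  constructor
  · rintro ⟨t, h0, h1, h2, h3⟩
    refine ⟨by rw [h2]; ring, ?_, ?_⟩
    · rw [h3]; linarith
    · rw [h3]; linarith
  · rintro ⟨h1, h2, h3⟩
    refine ⟨z.2 - j, by linarith, by linarith, ?_, ?_⟩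
    · rw [h1]; ring
    · ring

theorem hl_L (i k : ℕ) (z : ℝ × ℝ) :
    z ∈ hl (Ed.L i k).toF ↔ 0 ≤ z.1 ∧ z.1 ≤ 1 ∧ z.2 = (i : ℝ) + ((k : ℝ) - i) * z.1 := by
  rw [Ed.toF, HUL_mem]
  push_cast
  constructor
  · rintro ⟨t, h0, h1, h2, h3⟩
    have h4 : z.1 = t := by rw [h2]; ring
    refine ⟨by linarith, by linarith, ?_⟩
    rw [h3, h4]
    ring
  · rintro ⟨h1, h2, h3⟩
    refine ⟨z.1, h1, h2, by ring, ?_⟩
    rw [h3]
    ring

theorem hl_U (k j : ℕ) (z : ℝ × ℝ) :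
    z ∈ hl (Ed.U k j).toF ↔ 1 ≤ z.1 ∧ z.1 ≤ 2 ∧ z.2 = (k : ℝ) + ((j : ℝ) - k) * (z.1 - 1) := by
  rw [Ed.toF, HUL_mem]
  push_cast
  constructor
  · rintro ⟨t, h0, h1, h2, h3⟩
    have h4 : z.1 = 1 + t := by rw [h2]; ring
    refine ⟨by linarith, by linarith, ?_⟩
    rw [h3, h4]
    ring
  · rintro ⟨h1, h2, h3⟩
    refine ⟨z.1 - 1, by linarith, by linarith, by ring, ?_⟩
    rw [h3]
    ring

theorem hl_G (i j : ℕ) (z : ℝ × ℝ) :
    z ∈ hl (Ed.G i j).toF ↔ 0 ≤ z.1 ∧ z.1 ≤ 2 ∧ 2 * z.2 = 2 * (i : ℝ) + ((j : ℝ) - i) * z.1 := by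
  rw [Ed.toF, HUL_mem]
  push_cast
  constructor
  · rintro ⟨t, h0, h1, h2, h3⟩
    have h4 : z.1 = 2 * t := by rw [h2]; ring
    refine ⟨by linarith, by linarith, ?_⟩
    rw [h3, h4]
    ring
  · rintro ⟨h1, h2, h3⟩
    refine ⟨z.1 / 2, by linarith, by linarith, by ring, ?_⟩
    linarith

end Pool.Agent.FLP
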