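import Pool.Agent.FLP.Bas
import Pool.Agent.FLP.Defs2

/-!
Number of inner edges. L edges: sum over k = 0..n of (pr x.1 (k+1) - pr x.1 k + 1) = n + n + 1 (telescoping), the two
boundary edges L 0 0 and L n n are among them and different (n >= 1): 2n - 1 inner ones; U edges: the same; V 1
edges and G edges: n - #S and #S (G edges of different marks have different sums). Total 5n - 2.
-/

open Finset

namespace Pool.Agent.FLP

/-- The pairs (slot, value in the slot). -/
def kctS {n : ℕ} (g : Fin (n + 1) → ℕ) : Finset (ℕ × ℕ) :=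
  (range (n + 1) ×ˢ range (n + 1)).filter fun p => pr g p.1 ≤ p.2 ∧ p.2 ≤ pr g (p.1 + 1)

theorem kctS_card {n : ℕ} (g : Fin (n + 1) → ℕ) (hg : ∑ i, g i = n) : (kctS g).card = 2 * n + 1 := by
  classical
  have h1 : (kctS g).card = ∑ k ∈ range (n + 1), ((kctS g).filter fun p => p.1 = k).card := by
    refine card_eq_sum_card_fiberwise ?_
    intro p hp
    have hp' : p ∈ kctS g := hp
    rw [kctS, mem_filter, mem_product] at hp'
    exact hp'.1.1
  have h2 : ∀ k ∈ range (n + 1), ((kctS g).filter fun p => p.1 = k).card =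
      pr g (k + 1) + 1 - pr g k := by
    intro k hk
    have : ((kctS g).filter fun p => p.1 = k) =
        (Icc (pr g k) (pr g (k + 1))).image (fun j => (k, j)) := by
      ext ⟨a, b⟩
      simp only [kctS, mem_filter, mem_product, mem_image, mem_Icc, Prod.mk.injEq, mem_range]
      have hle : pr g (k + 1) ≤ n := by
        have := pr_le g (k + 1)
        omega
      constructor
      · rintro ⟨⟨⟨h1, h2⟩, h3, h4⟩, rfl⟩
        exact ⟨b, ⟨h3, h4⟩, rfl, rfl⟩
      · rintro ⟨j, ⟨h3, h4⟩, rfl, rfl⟩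
        refine ⟨⟨⟨mem_range.mp hk, ?_⟩, h3, h4⟩, rfl⟩
        omega
    rw [this, card_image_of_injective _ (fun a b h => (Prod.mk.inj h).2), Nat.card_Icc]
  rw [h1, sum_congr rfl h2]
  have h3 : ∀ m : ℕ, ∑ k ∈ range m, (pr g (k + 1) + 1 - pr g k) = pr g m + m := by
    intro m
    induction m with
    | zero => simp [pr_zero]
    | succ m ih =>
      rw [sum_range_succ, ih]
      have := pr_mono g (Nat.le_succ m)
      rw [Nat.succ_eq_add_one] at this
      omega
  rw [h3, pr_top g le_rfl, hg]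
  omega

/-- The inner pairs. -/
def kctI {n : ℕ} (g : Fin (n + 1) → ℕ) : Finset (ℕ × ℕ) := ((kctS g).erase (0, 0)).erase (n, n)

theorem kctI_card {n : ℕ} (hn : 1 ≤ n) (g : Fin (n + 1) → ℕ) (hg : ∑ i, g i = n) :
    (kctI g).card = 2 * n - 1 := by
  have h0 : (0, 0) ∈ kctS g := by
    rw [kctS, mem_filter, mem_product, mem_range]
    refine ⟨⟨Nat.succ_pos _, Nat.succ_pos _⟩, ?_, Nat.zero_le _⟩
    simp [pr_zero]
  have h1 : (n, n) ∈ (kctS g).erase (0, 0) := by
    rw [mem_erase, kctS, mem_filter, mem_product, mem_range]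
    refine ⟨?_, ⟨Nat.lt_succ_self _, Nat.lt_succ_self _⟩, ?_, ?_⟩
    · intro h
      have := (Prod.mk.inj h).1
      omega
    · change pr g n ≤ n
      have := pr_le g n
      omega
    · change n ≤ pr g (n + 1)
      rw [pr_top g le_rfl, hg]
  rw [kctI, card_erase_of_mem h1, card_erase_of_mem h0, kctS_card g hg]
  omega

theorem mem_kctI {n : ℕ} (g : Fin (n + 1) → ℕ) (a b : ℕ) : (a, b) ∈ kctI g ↔
    (a ≤ n ∧ b ≤ n ∧ pr g a ≤ b ∧ b ≤ pr g (a + 1)) ∧ ¬ ((b = 0 ∧ a = 0) ∨ (b = n ∧ a = n)) := by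
  rw [kctI, mem_erase, mem_erase, kctS, mem_filter, mem_product, mem_range, mem_range]
  simp only [ne_eq, Prod.mk.injEq, Nat.lt_succ_iff]
  constructor
  · rintro ⟨h1, h2, ⟨h3, h4⟩, h5, h6⟩
    refine ⟨⟨h3, h4, h5, h6⟩, ?_⟩
    rintro (⟨rfl, rfl⟩ | ⟨rfl, rfl⟩)
    · exact h2 ⟨rfl, rfl⟩
    · exact h1 ⟨rfl, rfl⟩
  · rintro ⟨⟨h3, h4, h5, h6⟩, h7⟩
    refine ⟨?_, ?_, ⟨h3, h4⟩, h5, h6⟩
    · rintro ⟨rfl, rfl⟩
      exact h7 (Or.inr ⟨rfl, rfl⟩)
    · rintro ⟨rfl, rfl⟩
      exact h7 (Or.inl ⟨rfl, rfl⟩)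

open Classical in
theorem kct {n : ℕ} (hn : 1 ≤ n) {x : Cf n} (hx : x ∈ Om n) :
    ((Tm x).filter fun e => ¬ e.bd n).card = 5 * n - 2 := by
  rw [mem_Om] at hx
  obtain ⟨hx1, hx2, hx3⟩ := hx
  have he : ((Tm x).filter fun e => ¬ e.bd n) =
      ((univ.filter fun k => k ∉ x.2.2).image (fun k : Fin n => Ed.V 1 k.val) ∪
      x.2.2.image (fun k => Ed.G (pr x.1 (k.val + 1)) (pr x.2.1 (k.val + 1)))) ∪
      ((kctI x.1).image (fun p => Ed.L p.2 p.1) ∪ (kctI x.2.1).image (fun p => Ed.U p.1 p.2)) := by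
    ext e
    rw [mem_filter]
    cases e with
    | V a j =>
      rw [V_mem_Tm]
      simp only [Ed.bd, mem_union, mem_image, mem_filter, mem_univ, true_and, Ed.V.injEq,
        reduceCtorEq, and_false, exists_false, or_false]
      constructor
      · rintro ⟨h1, h2⟩
        rcases h1 with h1 | h1 | h1
        · exact absurd (Or.inl h1.1) h2
        · exact absurd (Or.inr h1.1) h2
        · obtain ⟨rfl, h3, h4⟩ := h1
          exact ⟨⟨j, h3⟩, h4, rfl, rfl⟩
      · rintro ⟨k, hk, rfl, rfl⟩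
        exact ⟨Or.inr (Or.inr ⟨rfl, k.isLt, hk⟩), by omega⟩
    | L i k =>
      rw [L_mem_Tm]
      simp only [Ed.bd, mem_union, mem_image, Ed.L.injEq, reduceCtorEq, and_false, exists_false,
        or_false, false_or]
      constructor
      · rintro ⟨⟨h1, h2, h3, h4⟩, h5⟩
        exact ⟨(k, i), (mem_kctI _ _ _).mpr ⟨⟨h2, h1, h3, h4⟩, h5⟩, rfl, rfl⟩
      · rintro ⟨⟨a, b⟩, h, rfl, rfl⟩
        obtain ⟨⟨h1, h2, h3, h4⟩, h5⟩ := (mem_kctI _ _ _).mp h
        exact ⟨⟨h2, h1, h3, h4⟩, h5⟩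
    | U k j =>
      rw [U_mem_Tm]
      simp only [Ed.bd, mem_union, mem_image, Ed.U.injEq, reduceCtorEq, and_false, exists_false,
        false_or]
      constructor
      · rintro ⟨⟨h1, h2, h3, h4⟩, h5⟩
        refine ⟨(k, j), (mem_kctI _ _ _).mpr ⟨⟨h1, h2, h3, h4⟩, ?_⟩, rfl, rfl⟩
        tauto
      · rintro ⟨⟨a, b⟩, h, rfl, rfl⟩
        obtain ⟨⟨h1, h2, h3, h4⟩, h5⟩ := (mem_kctI _ _ _).mp h
        refine ⟨⟨h1, h2, h3, h4⟩, ?_⟩
        tauto
    | G i j =>
      rw [G_mem_Tm]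
      simp only [Ed.bd, mem_union, mem_image, Ed.G.injEq, reduceCtorEq, and_false, exists_false,
        or_false, false_or, not_false_eq_true, and_true]
  rw [he, card_union_of_disjoint, card_union_of_disjoint, card_union_of_disjoint,
    card_image_of_injective, card_image_of_injOn, card_image_of_injective, card_image_of_injective,
    kctI_card hn _ hx1, kctI_card hn _ hx2]
  · have h1 : (univ.filter fun k => k ∉ x.2.2).card + x.2.2.card = n := by
      have := card_filter_add_card_filter_not (s := (univ : Finset (Fin n))) (fun k => k ∈ x.2.2)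
      rw [card_univ, Fintype.card_fin] at this
      have h2 : (univ.filter fun k => k ∈ x.2.2) = x.2.2 := by simp
      rw [h2] at this
      omega
    omega
  · rintro ⟨a, b⟩ ⟨c, d⟩ h
    simp only [Ed.U.injEq] at h
    rw [h.1, h.2]
  · rintro ⟨a, b⟩ ⟨c, d⟩ h
    simp only [Ed.L.injEq] at h
    rw [h.1, h.2]
  · intro k hk l hl h
    simp only [Ed.G.injEq] at h
    have h1 := hx3 k hk
    have h2 := hx3 l hl
    rw [h.1, h.2] at h1
    apply Fin.ext
    omega
  · intro k l h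
    simp only [Ed.V.injEq, true_and] at h
    exact Fin.ext h
  · rw [disjoint_left]
    intro e h1 h2
    rw [mem_image] at h1 h2
    obtain ⟨a, -, rfl⟩ := h1
    obtain ⟨b, -, hb⟩ := h2
    exact Ed.noConfusion hb
  · rw [disjoint_left]
    intro e h1 h2
    rw [mem_image] at h1 h2
    obtain ⟨a, -, rfl⟩ := h1
    obtain ⟨b, -, hb⟩ := h2
    exact Ed.noConfusion hb
  · rw [disjoint_left]
    intro e h1 h2
    rw [mem_union, mem_image, mem_image] at h1 h2
    obtain ⟨a, -, rfl⟩ | ⟨a, -, rfl⟩ := h1 <;> obtain ⟨b, -, hb⟩ | ⟨b, -, hb⟩ := h2 <;>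
    exact Ed.noConfusion hb

theorem bdf {n : ℕ} {c : Ed} (h : c.ok n) :
    ((∀ p ∈ c.toF, p.1 = 0) ∨ (∀ p ∈ c.toF, p.1 = 2) ∨ (∀ p ∈ c.toF, p.2 = 0) ∨
      (∀ p ∈ c.toF, p.2 = (n : ℤ))) ↔ c.bd n := by
  cases c with
  | V x j =>
    simp only [Ed.ok] at h
    simp only [Ed.toF, mem_insert, mem_singleton, forall_eq_or_imp, forall_eq, Ed.bd]
    omega
  | L i k =>
    simp only [Ed.ok] at h
    simp only [Ed.toF, mem_insert, mem_singleton, forall_eq_or_imp, forall_eq, Ed.bd]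
    omega
  | U k j =>
    simp only [Ed.ok] at h
    simp only [Ed.toF, mem_insert, mem_singleton, forall_eq_or_imp, forall_eq, Ed.bd]
    omega
  | G i j =>
    simp only [Ed.ok] at h
    simp only [Ed.toF, mem_insert, mem_singleton, forall_eq_or_imp, forall_eq, Ed.bd, iff_false]
    obtain ⟨h1, h2, h3⟩ := h
    rintro (⟨h4, h5⟩ | ⟨h4, h5⟩ | ⟨h4, h5⟩ | ⟨h4, h5⟩)
    · omega
    · omega
    · have h6 : i = 0 := by exact_mod_cast h4
      have h7 : j = 0 := by exact_mod_cast h5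
      omega
    · have h6 : i = n := by exact_mod_cast h4
      have h7 : j = n := by exact_mod_cast h5
      omega

end Pool.Agent.FLP
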