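import Pool.Agent.FLP.Defs

/-!
Variances.
vr_eq: expand (f x - c) = (f x - av) + (av - c), the cross term vanishes. vr_fib: Sum over s of
(f x - c)^2, fibre by fibre with vr_eq. vr_image: sums over the image. vr_double: expand.
-/

open Finset

namespace Pool.Agent.FLP

variable {X Y : Type*}

theorem vr_nonneg (s : Finset X) (f : X → ℝ) : 0 ≤ vr s f :=
  sum_nonneg fun _ _ => sq_nonneg _

private theorem VRB_sum (s : Finset X) (f : X → ℝ) : (s.card : ℝ) * av s f = ∑ x ∈ s, f x := by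
  unfold av
  rcases s.eq_empty_or_nonempty with rfl | h
  · simp
  · have : (s.card : ℝ) ≠ 0 := by exact_mod_cast h.card_pos.ne'
    field_simp

theorem vr_eq (s : Finset X) (f : X → ℝ) (c : ℝ) :
    ∑ x ∈ s, (f x - c) ^ 2 = vr s f + (s.card : ℝ) * (av s f - c) ^ 2 := by
  have h1 : ∀ x ∈ s, (f x - c) ^ 2 = (f x - av s f) ^ 2 + (av s f - c) ^ 2 +
      2 * (av s f - c) * (f x - av s f) := fun x _ => by ring
  rw [sum_congr rfl h1, sum_add_distrib, sum_add_distrib, ← mul_sum, sum_sub_distrib, sum_const,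
    sum_const, nsmul_eq_mul, nsmul_eq_mul, VRB_sum, sub_self, mul_zero, add_zero]
  rfl

theorem vr_le (s : Finset X) (f : X → ℝ) (c : ℝ) : vr s f ≤ ∑ x ∈ s, (f x - c) ^ 2 := by
  rw [vr_eq]
  have : 0 ≤ (s.card : ℝ) * (av s f - c) ^ 2 := by positivity
  linarith

/-- The variance in terms of the fibres of a map. -/
theorem vr_fib [DecidableEq Y] (s : Finset X) (φ : X → Y) (t : Finset Y) (h : ∀ x ∈ s, φ x ∈ t)
    (f : X → ℝ) (c : ℝ) :
    vr s f ≤ ∑ y ∈ t, vr (s.filter fun x => φ x = y) f +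
      ∑ y ∈ t, ((s.filter fun x => φ x = y).card : ℝ) *
        (av (s.filter fun x => φ x = y) f - c) ^ 2 := by
  refine (vr_le s f c).trans (le_of_eq ?_)
  rw [← sum_add_distrib, ← sum_fiberwise_of_maps_to h]
  exact sum_congr rfl fun y _ => vr_eq _ _ _

theorem av_image [DecidableEq Y] (s : Finset X) (φ : X → Y) (h : Set.InjOn φ s) (f : Y → ℝ) :
    av (s.image φ) f = av s fun x => f (φ x) := by
  unfold av
  rw [card_image_of_injOn h, sum_image h]

theorem vr_image [DecidableEq Y] (s : Finset X) (φ : X → Y) (h : Set.InjOn φ s) (f : Y → ℝ) :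
    vr (s.image φ) f = vr s fun x => f (φ x) := by
  unfold vr
  rw [sum_image h, av_image s φ h]

private theorem VRB_double (s : Finset X) (w : X → ℝ) (f : X → ℝ) (m : ℝ)
    (hm : (∑ x ∈ s, w x) * m = ∑ x ∈ s, w x * f x) :
    ∑ x ∈ s, ∑ y ∈ s, w x * w y * (f x - f y) ^ 2 =
      2 * (∑ x ∈ s, w x) * ∑ x ∈ s, w x * (f x - m) ^ 2 := by
  have h1 : ∀ x ∈ s, ∑ y ∈ s, w x * w y * (f x - f y) ^ 2 =
      w x * (f x - m) ^ 2 * (∑ y ∈ s, w y) + w x * (∑ y ∈ s, w y * (f y - m) ^ 2) -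
        2 * (w x * (f x - m)) * (∑ y ∈ s, w y * (f y - m)) := by
    intro x _
    rw [mul_sum, mul_sum, mul_sum, ← sum_add_distrib, ← sum_sub_distrib]
    exact sum_congr rfl fun y _ => by ring
  have h2 : ∑ y ∈ s, w y * (f y - m) = 0 := by
    simp only [mul_sub]
    rw [sum_sub_distrib, ← sum_mul, hm, sub_self]
  rw [sum_congr rfl h1]
  simp only [h2, mul_zero, sub_zero]
  rw [sum_add_distrib, ← sum_mul, ← sum_mul]
  ring

theorem vr_double (s : Finset X) (f : X → ℝ) :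
    ∑ x ∈ s, ∑ y ∈ s, (f x - f y) ^ 2 = 2 * (s.card : ℝ) * vr s f := by
  have h := VRB_double s (fun _ => 1) f (av s f) (by
    simp only [sum_const, nsmul_eq_mul, mul_one, one_mul]
    exact VRB_sum s f)
  simp only [one_mul, sum_const, nsmul_eq_mul, mul_one] at h
  exact h

/-- The weighted version, for a suitable constant `c` (the weighted average). -/
theorem vr_weight (s : Finset X) (w : X → ℝ) (hw : ∀ x ∈ s, 0 ≤ w x) (F : X → ℝ) (B : ℝ)
    (h : ∑ x ∈ s, ∑ y ∈ s, w x * w y * (F x - F y) ^ 2 ≤ 2 * (∑ x ∈ s, w x) * B) (hB : 0 ≤ B) :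
    ∃ c : ℝ, ∑ x ∈ s, w x * (F x - c) ^ 2 ≤ B := by
  rcases (sum_nonneg hw).eq_or_lt with h0 | h0
  · refine ⟨0, ?_⟩
    have h1 := (sum_eq_zero_iff_of_nonneg hw).mp h0.symm
    rw [sum_eq_zero (fun x hx => by rw [h1 x hx, zero_mul])]
    exact hB
  · refine ⟨(∑ x ∈ s, w x * F x) / ∑ x ∈ s, w x, ?_⟩
    rw [VRB_double s w F ((∑ x ∈ s, w x * F x) / ∑ x ∈ s, w x)
      (mul_div_cancel₀ _ h0.ne')] at h
    exact le_of_mul_le_mul_left h (by linarith)

end Pool.Agent.FLP
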