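import Pool.Agent.FLP.LNE
import Pool.Agent.FLP.AVC
import Pool.Agent.FLP.VRB

/-!
Contraction, one common slot: y = mv i v x with v different from i and j. With q = x i + x j one has
y i + y j = q - 1 and y v = x v + 1. By ln_eq the line of x is parametrised by [q - c j, min (c i) q], the
line of y by [q - 1 - c j, min (c i) (q - 1)] (truncated subtraction): the endpoints are equal or
smaller by one. pt i j y t = mv j v (pt i j x t) and pt i j y t = mv i v (pt i j x (t + 1)), so `avc` applies
(use av_image and pt_inj).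
-/

open Finset

namespace Pool.Agent.FLP

variable {ι κ : Type*} [DecidableEq ι] [Fintype ι] [DecidableEq κ]

theorem lips {s : Finset (ι → ℕ)} {c : ι → ℕ} {g : ι → κ} (H : IsGS s c g) {Λ : ℝ}
    {f : (ι → ℕ) → ℝ} (hf : ∀ x ∈ s, ∀ u v, u ≠ v → g u = g v → 1 ≤ x u → x v < c v →
      |f x - f (mv u v x)| ≤ Λ) {x : ι → ℕ} (hx : x ∈ s) {i j v : ι} (hij : i ≠ j)
    (hg : g i = g j) (hv : g i = g v) (hvi : v ≠ i) (hvj : v ≠ j)
    (h1 : 1 ≤ x i) (h2 : x v < c v) :
    |av (ln s i j x) f - av (ln s i j (mv i v x)) f| ≤ Λ := by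
  have hΛ : 0 ≤ Λ := (abs_nonneg _).trans (hf x hx i v hvi.symm hv h1 h2)
  set y := mv i v x with hy
  have hys : y ∈ s := H.cl x hx i v hvi.symm hv h1 h2
  have hyi : y i = x i - 1 := mv_self hvi.symm x
  have hyj : y j = x j := mv_of_ne hij.symm hvj.symm x
  have hyv : y v = x v + 1 := mv_tgt hvi.symm x
  have hyo : ∀ l, l ≠ i → l ≠ v → y l = x l := fun l ha hb => mv_of_ne ha hb x
  have hin : ∀ t ∈ Icc (x i + x j - c j) (min (c i) (x i + x j)), pt i j x t ∈ s := by
    intro t ht
    have h3 : pt i j x t ∈ ln s i j x := by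
      rw [ln_eq H hij hg hx]
      exact mem_image_of_mem _ ht
    exact ((mem_ln s i j x _).mp h3).1
  rw [ln_eq H hij hg hx, ln_eq H hij hg hys, av_image _ _ (pt_inj x).injOn,
    av_image _ _ (pt_inj y).injOn]
  have e1 := ln_ne (i := i) (j := j) H hx
  have e2 := ln_ne (i := i) (j := j) H hys
  refine avc _ _ _ _ _ _ Λ e1 e2 ?_ ?_ hΛ ?_ ?_
  · rw [hyi, hyj]
    omega
  · rw [hyi, hyj]
    omega
  · intro t ht ht'
    have h3 : pt i j y t = mv j v (pt i j x t) := by
      funext l
      by_cases hl1 : l = i
      · subst hl1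
        rw [mv_of_ne hij hvi.symm]
        simp [pt]
      · by_cases hl2 : l = j
        · subst hl2
          rw [mv_self hvj.symm]
          simp only [pt, if_neg hl1, if_true, hyi, hyj]
          omega
        · by_cases hl3 : l = v
          · subst hl3
            rw [mv_tgt hvj.symm]
            simp [pt, hl1, hl2, hyv]
          · rw [mv_of_ne hl2 hl3]
            simp [pt, hl1, hl2, hyo l hl1 hl3]
    rw [h3]
    apply hf _ (hin t ht) j v hvj.symm (hg.symm.trans hv)
    · simp only [pt, if_neg hij.symm, if_true]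
      rw [mem_Icc, hyi, hyj] at ht'
      omega
    · simp only [pt, if_neg hvi, if_neg hvj]
      exact h2
  · intro t ht ht'
    have h3 : pt i j y t = mv i v (pt i j x (t + 1)) := by
      funext l
      by_cases hl1 : l = i
      · subst hl1
        rw [mv_self hvi.symm]
        simp [pt]
      · by_cases hl2 : l = j
        · subst hl2
          rw [mv_of_ne hl1 hvj.symm]
          simp only [pt, if_neg hl1, if_true, hyi, hyj]
          omega
        · by_cases hl3 : l = v
          · subst hl3
            rw [mv_tgt hvi.symm]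
            simp [pt, hl1, hl2, hyv]
          · rw [mv_of_ne hl1 hl3]
            simp [pt, hl1, hl2, hyo l hl1 hl3]
    rw [h3]
    apply hf _ (hin (t + 1) ht') i v hvi.symm hv
    · simp only [pt, if_true]
      omega
    · simp only [pt, if_neg hvi, if_neg hvj]
      exact h2

end Pool.Agent.FLP
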