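import Pool.Agent.FLP.LIPD
import Pool.Agent.FLP.LIPS

/-!
Contraction, all cases: {u,v} = {i,j}: the lines are equal (ln_congr) and 0 <= Lam since hf x u v gives
0 <= |..| <= Lam. {u,v} and {i,j} disjoint: lipd. u = i: lips; u = j: ln_swap and lips. v = i or v = j: apply
the previous case to y = mv u v x and x = mv v u y (mv_mv), after abs_sub_comm; y v >= 1, y u < c u.
-/

open Finset

namespace Pool.Agent.FLP

variable {ι κ : Type*} [DecidableEq ι] [Fintype ι] [DecidableEq κ]

theorem lip {s : Finset (ι → ℕ)} {c : ι → ℕ} {g : ι → κ} (H : IsGS s c g) {Λ : ℝ}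
    {f : (ι → ℕ) → ℝ} (hf : ∀ x ∈ s, ∀ u v, u ≠ v → g u = g v → 1 ≤ x u → x v < c v →
      |f x - f (mv u v x)| ≤ Λ) {x : ι → ℕ} (hx : x ∈ s) {u v : ι} (huv : u ≠ v) (hg : g u = g v)
    (h1 : 1 ≤ x u) (h2 : x v < c v) {i j : ι} (hij : i ≠ j) (hg' : g i = g j) :
    |av (ln s i j x) f - av (ln s i j (mv u v x)) f| ≤ Λ := by
  have hΛ : 0 ≤ Λ := (abs_nonneg _).trans (hf x hx u v huv hg h1 h2)
  have hy : mv u v x ∈ s := H.cl x hx u v huv hg h1 h2
  have hyu : mv u v x u < c u := by
    have := H.le x hx u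
    rw [mv_self huv]
    omega
  have hyv : 1 ≤ mv u v x v := by
    rw [mv_tgt huv]
    omega
  -- the case of equal lines
  have key : mv u v x ∈ ln s i j x → |av (ln s i j x) f - av (ln s i j (mv u v x)) f| ≤ Λ := by
    intro h
    rw [ln_congr h, sub_self, abs_zero]
    exact hΛ
  by_cases hui : u = i
  · by_cases hvj : v = j
    · apply key
      rw [mem_ln]
      refine ⟨hy, fun k hk1 hk2 => ?_⟩
      exact mv_of_ne (by rw [hui]; exact hk1) (by rw [hvj]; exact hk2) x
    · subst hui
      exact lips H hf hx hij hg' hg (Ne.symm huv) hvj h1 h2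
  · by_cases huj : u = j
    · by_cases hvi : v = i
      · apply key
        rw [mem_ln]
        refine ⟨hy, fun k hk1 hk2 => ?_⟩
        exact mv_of_ne (by rw [huj]; exact hk2) (by rw [hvi]; exact hk1) x
      · subst huj
        rw [ln_swap s i u x, ln_swap s i u (mv u v x)]
        exact lips H hf hx hij.symm hg'.symm hg (Ne.symm huv) hvi h1 h2
    · by_cases hvi : v = i
      · subst hvi
        have h := lips H hf hy hij hg' hg.symm (v := u) huv huj hyv hyu
        rw [mv_mv huv h1] at h
        rw [abs_sub_comm]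
        exact h
      · by_cases hvj : v = j
        · subst hvj
          have h := lips H hf hy hij.symm hg'.symm hg.symm (v := u) huv hui hyv hyu
          rw [mv_mv huv h1] at h
          rw [abs_sub_comm, ln_swap s i v x, ln_swap s i v (mv u v x)]
          exact h
        · exact lipd H hf hx huv hg h1 h2 hij hg' hui huj hvi hvj

end Pool.Agent.FLP
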