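import Pool.Agent.FLP.LNE

/-!
Poincare inequality on the lines.
Fix x in s. (f x - av)^2 <= (max over y on the line of |f x - f y|)^2 <= (sum over the steps of the
line of |f y - f (mv i j y)|)^2 <= L * (sum over the steps of the squares): a line has at most c i + 1
<= L points (ln_eq), its steps are y in the line with 1 <= y i, y j < c j. Sum over x in s: every step
is counted for the points x of its line, at most L times.
-/

open Finset

namespace Pool.Agent.FLP

variable {ι κ : Type*} [DecidableEq ι] [Fintype ι] [DecidableEq κ]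

private theorem lpo_tele (a : ℕ → ℝ) (lo : ℕ) : ∀ (d : ℕ), ∀ t ∈ Icc lo (lo + d), ∀ t' ∈ Icc lo (lo + d),
    |a t - a t'| ≤ ∑ u ∈ Ico lo (lo + d), |a (u + 1) - a u| := by
  have key : ∀ t t' : ℕ, t' ≤ t → |a t - a t'| ≤ ∑ u ∈ Ico t' t, |a (u + 1) - a u| := by
    intro t t' h
    have h1 : a t - a t' = ∑ u ∈ Ico t' t, (a (u + 1) - a u) := (Finset.sum_Ico_sub a h).symm
    rw [h1]
    exact Finset.abs_sum_le_sum_abs _ _
  intro d t ht t' ht'
  rw [mem_Icc] at ht ht'
  have mono : ∀ p q : ℕ, lo ≤ p → q ≤ lo + d →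
      ∑ u ∈ Ico p q, |a (u + 1) - a u| ≤ ∑ u ∈ Ico lo (lo + d), |a (u + 1) - a u| := by
    intro p q hp hq
    apply sum_le_sum_of_subset_of_nonneg
    · exact Ico_subset_Ico hp hq
    · intro _ _ _
      exact abs_nonneg _
  rcases le_total t' t with h | h
  · exact (key t t' h).trans (mono _ _ ht'.1 ht.2)
  · rw [abs_sub_comm]
    exact (key t' t h).trans (mono _ _ ht.1 ht'.2)

private theorem lpo_av {X : Type*} {s : Finset X} (hs : s.Nonempty) (f : X → ℝ) (z V : ℝ)
    (h : ∀ y ∈ s, |z - f y| ≤ V) : |z - av s f| ≤ V := by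
  have hc : (0 : ℝ) < (s.card : ℝ) := by exact_mod_cast hs.card_pos
  have h1 : z - av s f = (∑ y ∈ s, (z - f y)) / (s.card : ℝ) := by
    unfold av
    rw [sum_sub_distrib, sum_const, nsmul_eq_mul]
    field_simp
  rw [h1, abs_div, abs_of_pos hc, div_le_iff₀ hc]
  calc |∑ y ∈ s, (z - f y)| ≤ ∑ y ∈ s, |z - f y| := abs_sum_le_sum_abs _ _
    _ ≤ ∑ _y ∈ s, V := sum_le_sum h
    _ = V * (s.card : ℝ) := by rw [sum_const, nsmul_eq_mul, mul_comm]

private theorem lpo_pt_self (i j : ι) (x : ι → ℕ) : pt i j x (x i) = x := by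
  funext l
  unfold pt
  by_cases h : l = i
  · simp [h]
  · by_cases h2 : l = j
    · subst h2
      simp only [if_neg h, if_true]
      omega
    · simp [h, h2]

private theorem lpo_mv_pt {i j : ι} (hij : i ≠ j) (x : ι → ℕ) {u : ℕ} (hu : u + 1 ≤ x i + x j) :
    mv i j (pt i j x (u + 1)) = pt i j x u := by
  funext l
  by_cases h : l = i
  · subst h
    rw [mv_self hij]
    simp [pt]
  · by_cases h2 : l = j
    · subst h2
      rw [mv_tgt hij]
      simp only [pt, if_neg h, if_true]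
      omega
    · rw [mv_of_ne h h2]
      simp [pt, h, h2]

private theorem lpo_step {s : Finset (ι → ℕ)} {c : ι → ℕ} {g : ι → κ} (H : IsGS s c g) {i j : ι}
    (hij : i ≠ j) (hg : g i = g j) {L : ℕ} (hL : ∀ i, c i < L) (f : (ι → ℕ) → ℝ) {x : ι → ℕ}
    (hx : x ∈ s) :
    (f x - av (ln s i j x) f) ^ 2 ≤ (L : ℝ) *
      ∑ y ∈ (ln s i j x).filter (fun y => 1 ≤ y i ∧ y j < c j), (f y - f (mv i j y)) ^ 2 := by
  set lo := x i + x j - c j with hlo
  set hi := min (c i) (x i + x j) with hhi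
  have hle : lo ≤ hi := ln_ne H hx
  obtain ⟨d, hd⟩ := Nat.exists_eq_add_of_le hle
  have hln : ln s i j x = (Icc lo hi).image (pt i j x) := ln_eq H hij hg hx
  set a : ℕ → ℝ := fun t => f (pt i j x t) with ha
  set V := ∑ u ∈ Ico lo hi, |a (u + 1) - a u| with hV
  have hxl := ln_self i j hx
  have hxi : x i ∈ Icc lo hi := by
    rw [hln, mem_image] at hxl
    obtain ⟨t, ht, hxt⟩ := hxl
    have : x i = t := by
      rw [← hxt]
      simp [pt]
    rw [this]
    exact ht
  have h1 : |f x - av (ln s i j x) f| ≤ V := by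
    apply lpo_av ⟨x, ln_self i j hx⟩
    intro y hy
    rw [hln, mem_image] at hy
    obtain ⟨t, ht, rfl⟩ := hy
    have hfx : f x = a (x i) := by
      rw [ha]
      simp only [lpo_pt_self]
    rw [hfx]
    have := lpo_tele a lo d (x i) (by rw [← hd]; exact hxi) t (by rw [← hd]; exact ht)
    rw [← hd] at this
    exact this
  have hV0 : 0 ≤ V := sum_nonneg fun _ _ => abs_nonneg _
  have h2 : (f x - av (ln s i j x) f) ^ 2 ≤ V ^ 2 := by
    rw [← sq_abs]
    exact pow_le_pow_left₀ (abs_nonneg _) h1 2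
  have h3 : V ^ 2 ≤ ((Ico lo hi).card : ℝ) * ∑ u ∈ Ico lo hi, (a (u + 1) - a u) ^ 2 := by
    have := sq_sum_le_card_mul_sum_sq (s := Ico lo hi) (f := fun u => |a (u + 1) - a u|)
    simpa only [sq_abs] using this
  have hcard : ((Ico lo hi).card : ℝ) ≤ (L : ℝ) := by
    rw [Nat.card_Ico]
    have h4 : hi ≤ c i := min_le_left _ _
    have h5 := hL i
    exact_mod_cast (show hi - lo ≤ L by omega)
  have h6 : ∑ u ∈ Ico lo hi, (a (u + 1) - a u) ^ 2 ≤
      ∑ y ∈ (ln s i j x).filter (fun y => 1 ≤ y i ∧ y j < c j), (f y - f (mv i j y)) ^ 2 := by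
    have h7 : ∑ u ∈ Ico lo hi, (a (u + 1) - a u) ^ 2 =
        ∑ y ∈ (Ico lo hi).image (fun u => pt i j x (u + 1)), (f y - f (mv i j y)) ^ 2 := by
      rw [sum_image]
      · apply sum_congr rfl
        intro u hu
        rw [mem_Ico] at hu
        have h8 : hi ≤ x i + x j := min_le_right _ _
        rw [lpo_mv_pt hij x (by omega)]
      · intro u _ u' _ h
        have := pt_inj x h
        omega
    rw [h7]
    apply sum_le_sum_of_subset_of_nonneg
    · intro y hy
      rw [mem_image] at hy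
      obtain ⟨u, hu, rfl⟩ := hy
      rw [mem_Ico] at hu
      have h8 : hi ≤ x i + x j := min_le_right _ _
      rw [mem_filter]
      refine ⟨?_, ?_, ?_⟩
      · rw [hln]
        apply mem_image_of_mem
        rw [mem_Icc]
        omega
      · simp [pt]
      · simp only [pt, if_neg hij.symm, if_true]
        omega
    · intro _ _ _
      exact sq_nonneg _
  calc (f x - av (ln s i j x) f) ^ 2 ≤ V ^ 2 := h2
    _ ≤ ((Ico lo hi).card : ℝ) * ∑ u ∈ Ico lo hi, (a (u + 1) - a u) ^ 2 := h3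
    _ ≤ (L : ℝ) * ∑ u ∈ Ico lo hi, (a (u + 1) - a u) ^ 2 :=
        mul_le_mul_of_nonneg_right hcard (sum_nonneg fun _ _ => sq_nonneg _)
    _ ≤ _ := mul_le_mul_of_nonneg_left h6 (Nat.cast_nonneg _)

theorem lpo {s : Finset (ι → ℕ)} {c : ι → ℕ} {g : ι → κ} (H : IsGS s c g) {i j : ι} (hij : i ≠ j)
    (hg : g i = g j) {L : ℕ} (hL : ∀ i, c i < L) (f : (ι → ℕ) → ℝ) :
    ∑ x ∈ s, (f x - av (ln s i j x) f) ^ 2 ≤ (L : ℝ) ^ 2 * NN s c i j f := by
  have h0 : ∀ x ∈ s, ∀ y ∈ s, (y ∈ ln s i j x ↔ x ∈ ln s i j y) := by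
    intro x hx y hy
    rw [mem_ln, mem_ln]
    constructor
    · rintro ⟨_, h⟩
      exact ⟨hx, fun k h1 h2 => (h k h1 h2).symm⟩
    · rintro ⟨_, h⟩
      exact ⟨hy, fun k h1 h2 => (h k h1 h2).symm⟩
  have hsub : ∀ x y, y ∈ ln s i j x → y ∈ s := fun x y h => ((mem_ln s i j x y).1 h).1
  have hcl : ∀ y ∈ s, ((ln s i j y).card : ℝ) ≤ (L : ℝ) := by
    intro y hy
    rw [ln_eq H hij hg hy]
    have h1 : ((Icc (y i + y j - c j) (min (c i) (y i + y j))).image (pt i j y)).card ≤
        (Icc (y i + y j - c j) (min (c i) (y i + y j))).card := card_image_le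
    have h2 : (Icc (y i + y j - c j) (min (c i) (y i + y j))).card ≤ L := by
      rw [Nat.card_Icc]
      have h4 : min (c i) (y i + y j) ≤ c i := min_le_left _ _
      have h5 := hL i
      omega
    exact_mod_cast h1.trans h2
  set G : (ι → ℕ) → ℝ := fun y => (f y - f (mv i j y)) ^ 2 with hG
  set P : Finset (ι → ℕ) := s.filter (fun y => 1 ≤ y i ∧ y j < c j) with hP
  have hGn : ∀ y, 0 ≤ G y := fun y => sq_nonneg _
  have h1 : ∀ x ∈ s, ∑ y ∈ (ln s i j x).filter (fun y => 1 ≤ y i ∧ y j < c j), G y =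
      ∑ y ∈ P, if y ∈ ln s i j x then G y else 0 := by
    intro x _
    rw [← sum_filter]
    apply sum_congr _ (fun _ _ => rfl)
    ext y
    rw [hP, mem_filter, mem_filter, mem_filter]
    constructor
    · rintro ⟨ha, hb⟩
      exact ⟨⟨hsub x y ha, hb⟩, ha⟩
    · rintro ⟨⟨_, hb⟩, ha⟩
      exact ⟨ha, hb⟩
  calc ∑ x ∈ s, (f x - av (ln s i j x) f) ^ 2
      ≤ ∑ x ∈ s, (L : ℝ) * ∑ y ∈ P, (if y ∈ ln s i j x then G y else 0) := by
        apply sum_le_sum
        intro x hx
        rw [← h1 x hx]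
        exact lpo_step H hij hg hL f hx
    _ = (L : ℝ) * ∑ y ∈ P, ∑ x ∈ s, (if y ∈ ln s i j x then G y else 0) := by
        rw [← mul_sum, sum_comm]
    _ ≤ (L : ℝ) * ∑ y ∈ P, (L : ℝ) * G y := by
        apply mul_le_mul_of_nonneg_left _ (Nat.cast_nonneg _)
        apply sum_le_sum
        intro y hy
        have hys : y ∈ s := (mem_filter.1 hy).1
        have h2 : ∑ x ∈ s, (if y ∈ ln s i j x then G y else 0) =
            ∑ x ∈ ln s i j y, G y := by
          rw [← sum_filter]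
          apply sum_congr _ (fun _ _ => rfl)
          ext x
          rw [mem_filter]
          constructor
          · rintro ⟨ha, hb⟩
            exact (h0 x ha y hys).1 hb
          · intro ha
            exact ⟨hsub y x ha, (h0 x (hsub y x ha) y hys).2 ha⟩
        rw [h2, sum_const, nsmul_eq_mul]
        exact mul_le_mul_of_nonneg_right (hcl y hys) (hGn y)
    _ = (L : ℝ) ^ 2 * NN s c i j f := by
        rw [← mul_sum]
        unfold NN
        ring

end Pool.Agent.FLP
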