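import Pool.Agent.FLP.GSP
import Pool.Agent.FLP.LPO
import Pool.Agent.FLP.LIP
import Pool.Agent.FLP.CNN

/-!
Mean field inequality. Apply gsp with es = the pairs (i, j) with i ≠ j and g i = g j, Q (i, j) x =
ln s i j x, R x y = exists u v, u ≠ v, g u = g v, 1 <= x u, x v < c v, y = mv u v x. hmem: ln_self; hsub: filter;
heq: ln_congr; conn: cnn; contr: lip; coal: e = (u, v), the line of mv u v x is the line of x. Then lpo.
-/

open Finset

namespace Pool.Agent.FLP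

variable {ι κ : Type*} [DecidableEq ι] [Fintype ι] [DecidableEq κ]

theorem lg {s : Finset (ι → ℕ)} {c : ι → ℕ} {g : ι → κ} (H : IsGS s c g) {L : ℕ}
    (hL : ∀ i, c i < L) (f : (ι → ℕ) → ℝ) :
    vr s f ≤ (L : ℝ) ^ 2 * ∑ i, ∑ j, if i ≠ j ∧ g i = g j then NN s c i j f else 0 := by
  have h1 : vr s f ≤ ∑ e ∈ (univ : Finset (ι × ι)).filter (fun e => e.1 ≠ e.2 ∧ g e.1 = g e.2),
      ∑ x ∈ s, (f x - av (ln s e.1 e.2 x) f) ^ 2 := by
    refine gsp s ((univ : Finset (ι × ι)).filter (fun e => e.1 ≠ e.2 ∧ g e.1 = g e.2))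
      (fun e x => ln s e.1 e.2 x)
      (fun x y => ∃ u v, u ≠ v ∧ g u = g v ∧ 1 ≤ x u ∧ x v < c v ∧ y = mv u v x)
      ?_ ?_ ?_ ?_ ?_ ?_ f
    · intro e _ x hx
      exact ln_self e.1 e.2 hx
    · intro e _ x _
      exact filter_subset _ _
    · intro e _ x _ y hy
      exact ln_congr hy
    · intro f' hf' x hx y hy
      refine cnn H ?_ hx hy
      intro z hz u v huv hg h1 h2
      exact hf' z hz _ (H.cl z hz u v huv hg h1 h2) ⟨u, v, huv, hg, h1, h2, rfl⟩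
    · rintro f' Λ hf' e he x hx y hy ⟨u, v, huv, hg, h1, h2, rfl⟩
      rw [mem_filter] at he
      refine lip H ?_ hx huv hg h1 h2 he.2.1 he.2.2
      intro z hz u' v' huv' hg' h1' h2'
      exact hf' z hz _ (H.cl z hz u' v' huv' hg' h1' h2') ⟨u', v', huv', hg', h1', h2', rfl⟩
    · rintro x hx y hy ⟨u, v, huv, hg, h1, h2, rfl⟩
      refine ⟨(u, v), ?_, ?_⟩
      · rw [mem_filter]
        exact ⟨mem_univ _, huv, hg⟩
      · have h3 : mv u v x ∈ ln s u v x := by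
          rw [mem_ln]
          exact ⟨hy, fun k hk1 hk2 => mv_of_ne hk1 hk2 x⟩
        exact (ln_congr h3).symm
  refine h1.trans ?_
  have h2 : ∑ e ∈ (univ : Finset (ι × ι)).filter (fun e => e.1 ≠ e.2 ∧ g e.1 = g e.2),
      ∑ x ∈ s, (f x - av (ln s e.1 e.2 x) f) ^ 2 ≤
      ∑ e ∈ (univ : Finset (ι × ι)).filter (fun e => e.1 ≠ e.2 ∧ g e.1 = g e.2),
        (L : ℝ) ^ 2 * NN s c e.1 e.2 f := by
    apply sum_le_sum
    intro e he
    rw [mem_filter] at he
    exact lpo H he.2.1 he.2.2 hL f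
  refine h2.trans (le_of_eq ?_)
  rw [← mul_sum, sum_filter, Fintype.sum_prod_type]

end Pool.Agent.FLP
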