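import Pool.Agent.FLP.LNE

/-!
Contraction, disjoint pairs: y = mv u v x, u and v different from i and j. By ln_eq both lines are
parametrised by the same interval, the points pt i j y t = mv u v (pt i j x t) are in s and the values
differ by at most Lam (hf for the point pt i j x t). av_image with pt_inj.
-/

open Finset

namespace Pool.Agent.FLP

variable {ι κ : Type*} [DecidableEq ι] [Fintype ι] [DecidableEq κ]

private theorem LIPD_av {X : Type*} [DecidableEq X] (I : Finset ℕ) (hI : I.Nonempty) (P Q : ℕ → X)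
    (hP : Function.Injective P) (hQ : Function.Injective Q) (f : X → ℝ) (Λ : ℝ)
    (h : ∀ t ∈ I, |f (P t) - f (Q t)| ≤ Λ) :
    |av (I.image P) f - av (I.image Q) f| ≤ Λ := by
  unfold av
  rw [Finset.card_image_of_injective _ hP, Finset.card_image_of_injective _ hQ,
    Finset.sum_image (fun a _ b _ hab => hP hab), Finset.sum_image (fun a _ b _ hab => hQ hab),
    ← sub_div, ← Finset.sum_sub_distrib, abs_div]
  have hc : (0 : ℝ) < (I.card : ℝ) := by exact_mod_cast Finset.card_pos.mpr hI
  rw [abs_of_pos hc, div_le_iff₀ hc]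
  calc |∑ t ∈ I, (f (P t) - f (Q t))| ≤ ∑ t ∈ I, |f (P t) - f (Q t)| :=
        Finset.abs_sum_le_sum_abs _ _
    _ ≤ ∑ _t ∈ I, Λ := Finset.sum_le_sum h
    _ = Λ * (I.card : ℝ) := by rw [Finset.sum_const, nsmul_eq_mul, mul_comm]

theorem lipd {s : Finset (ι → ℕ)} {c : ι → ℕ} {g : ι → κ} (H : IsGS s c g) {Λ : ℝ}
    {f : (ι → ℕ) → ℝ} (hf : ∀ x ∈ s, ∀ u v, u ≠ v → g u = g v → 1 ≤ x u → x v < c v →
      |f x - f (mv u v x)| ≤ Λ) {x : ι → ℕ} (hx : x ∈ s) {u v : ι} (huv : u ≠ v) (hg : g u = g v)
    (h1 : 1 ≤ x u) (h2 : x v < c v) {i j : ι} (hij : i ≠ j) (hg' : g i = g j) (hui : u ≠ i)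
    (huj : u ≠ j) (hvi : v ≠ i) (hvj : v ≠ j) :
    |av (ln s i j x) f - av (ln s i j (mv u v x)) f| ≤ Λ := by
  have hx' : mv u v x ∈ s := H.cl x hx u v huv hg h1 h2
  have hi : mv u v x i = x i := mv_of_ne hui.symm hvi.symm x
  have hj : mv u v x j = x j := mv_of_ne huj.symm hvj.symm x
  have hpt : ∀ t, pt i j (mv u v x) t = mv u v (pt i j x t) := by
    intro t
    funext l
    by_cases l1 : l = i
    · subst l1
      rw [mv_of_ne hui.symm hvi.symm]
      simp [pt]
    · by_cases l2 : l = j
      · subst l2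
        rw [mv_of_ne huj.symm hvj.symm]
        simp only [pt, if_neg l1, if_true, hi, hj]
      · by_cases l3 : l = u
        · subst l3
          rw [mv_self huv]
          simp only [pt, if_neg l1, if_neg l2]
          rw [mv_self huv]
        · by_cases l4 : l = v
          · subst l4
            rw [mv_tgt huv]
            simp only [pt, if_neg l1, if_neg l2]
            rw [mv_tgt huv]
          · rw [mv_of_ne l3 l4]
            simp only [pt, if_neg l1, if_neg l2]
            rw [mv_of_ne l3 l4]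
  have hlx := ln_eq H hij hg' hx
  have hly := ln_eq H hij hg' hx'
  rw [hi, hj] at hly
  have hne : (Icc (x i + x j - c j) (min (c i) (x i + x j))).Nonempty := by
    rw [Finset.nonempty_Icc]
    exact ln_ne H hx
  rw [hly, hlx]
  apply LIPD_av _ hne _ _ (pt_inj x) (pt_inj (mv u v x))
  intro t ht
  rw [hpt t]
  have hmem : pt i j x t ∈ ln s i j x := by
    rw [hlx]
    exact Finset.mem_image_of_mem _ ht
  rw [mem_ln] at hmem
  apply hf _ hmem.1 u v huv hg
  · rw [hmem.2 u hui huj]
    exact h1
  · rw [hmem.2 v hvi hvj]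
    exact h2

end Pool.Agent.FLP
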