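import Pool.Agent.FLP.Bas

/-!
The lines.
ln_eq: if y is on the line, then y i + y j = x i + x j by H.sum (all other slots are equal), y i <= c i
and y j <= c j, so y = pt i j x (y i). Conversely all pt i j x t with t in the interval are in s: induct
on the distance of t and x i, with H.cl (mv i j or mv j i; both have g i = g j).
-/

open Finset

namespace Pool.Agent.FLP

variable {ι κ : Type*} [DecidableEq ι] [Fintype ι] [DecidableEq κ]

theorem mem_ln (s : Finset (ι → ℕ)) (i j : ι) (x y : ι → ℕ) :
    y ∈ ln s i j x ↔ y ∈ s ∧ ∀ k, k ≠ i → k ≠ j → y k = x k := by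
  unfold ln
  rw [mem_filter]

theorem ln_self {s : Finset (ι → ℕ)} (i j : ι) {x : ι → ℕ} (hx : x ∈ s) : x ∈ ln s i j x := by
  rw [mem_ln]
  exact ⟨hx, fun _ _ _ => rfl⟩

theorem ln_congr {s : Finset (ι → ℕ)} {i j : ι} {x y : ι → ℕ} (h : y ∈ ln s i j x) :
    ln s i j y = ln s i j x := by
  rw [mem_ln] at h
  ext z
  rw [mem_ln, mem_ln]
  constructor
  · rintro ⟨h1, h2⟩
    exact ⟨h1, fun k hi hj => (h2 k hi hj).trans (h.2 k hi hj)⟩
  · rintro ⟨h1, h2⟩
    exact ⟨h1, fun k hi hj => (h2 k hi hj).trans (h.2 k hi hj).symm⟩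

theorem ln_swap (s : Finset (ι → ℕ)) (i j : ι) (x : ι → ℕ) : ln s i j x = ln s j i x := by
  ext z
  rw [mem_ln, mem_ln]
  constructor
  · rintro ⟨h1, h2⟩
    exact ⟨h1, fun k hi hj => h2 k hj hi⟩
  · rintro ⟨h1, h2⟩
    exact ⟨h1, fun k hi hj => h2 k hj hi⟩

theorem pt_inj {i j : ι} (x : ι → ℕ) : Function.Injective (pt i j x) := by
  intro a b h
  have := congrFun h i
  simpa [pt] using this

private theorem LNE_pt_self {i j : ι} (hij : i ≠ j) (x : ι → ℕ) : pt i j x (x i) = x := by
  funext l
  unfold pt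
  by_cases h1 : l = i
  · rw [if_pos h1, h1]
  · rw [if_neg h1]
    by_cases h2 : l = j
    · rw [if_pos h2, h2]
      omega
    · rw [if_neg h2]

private theorem LNE_up {i j : ι} (hij : i ≠ j) (x : ι → ℕ) (t : ℕ) :
    mv j i (pt i j x t) = pt i j x (t + 1) := by
  funext l
  by_cases h1 : l = i
  · subst h1
    rw [mv_tgt hij.symm]
    simp [pt]
  · by_cases h2 : l = j
    · subst h2
      rw [mv_self hij.symm]
      simp only [pt, if_neg h1, if_true]
      omega
    · rw [mv_of_ne h2 h1]
      simp [pt, h1, h2]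

private theorem LNE_down {i j : ι} (hij : i ≠ j) (x : ι → ℕ) (t : ℕ) (ht : t + 1 ≤ x i + x j) :
    mv i j (pt i j x (t + 1)) = pt i j x t := by
  funext l
  by_cases h1 : l = i
  · subst h1
    rw [mv_self hij]
    simp [pt]
  · by_cases h2 : l = j
    · subst h2
      rw [mv_tgt hij]
      simp only [pt, if_neg h1, if_true]
      omega
    · rw [mv_of_ne h1 h2]
      simp [pt, h1, h2]

private theorem LNE_mem_up {s : Finset (ι → ℕ)} {c : ι → ℕ} {g : ι → κ} (H : IsGS s c g) {i j : ι}
    (hij : i ≠ j) (hg : g i = g j) {x : ι → ℕ} (hx : x ∈ s) (d : ℕ)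
    (hd : x i + d ≤ min (c i) (x i + x j)) : pt i j x (x i + d) ∈ s := by
  induction d with
  | zero => rw [Nat.add_zero, LNE_pt_self hij]; exact hx
  | succ d ih =>
    have h1 := ih (by omega)
    have h2 := H.cl _ h1 j i hij.symm hg.symm
      (by simp only [pt, if_neg hij.symm, if_true]; omega)
      (by simp only [pt, if_true]; omega)
    rw [LNE_up hij] at h2
    exact h2

private theorem LNE_mem_down {s : Finset (ι → ℕ)} {c : ι → ℕ} {g : ι → κ} (H : IsGS s c g)
    {i j : ι} (hij : i ≠ j) (hg : g i = g j) {x : ι → ℕ} (hx : x ∈ s) (d : ℕ) (hdx : d ≤ x i)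
    (hd : x i + x j - c j ≤ x i - d) : pt i j x (x i - d) ∈ s := by
  induction d with
  | zero => rw [Nat.sub_zero, LNE_pt_self hij]; exact hx
  | succ d ih =>
    have h1 := ih (by omega) (by omega)
    have e : x i - d = (x i - (d + 1)) + 1 := by omega
    have h2 := H.cl _ h1 i j hij hg
      (by simp only [pt, if_true]; omega)
      (by simp only [pt, if_neg hij.symm, if_true]; omega)
    rw [e, LNE_down hij x _ (by omega)] at h2
    exact h2

/-- The line through `x` is an interval. -/
theorem ln_eq {s : Finset (ι → ℕ)} {c : ι → ℕ} {g : ι → κ} (H : IsGS s c g) {i j : ι} (hij : i ≠ j)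
    (hg : g i = g j) {x : ι → ℕ} (hx : x ∈ s) :
    ln s i j x = (Icc (x i + x j - c j) (min (c i) (x i + x j))).image (pt i j x) := by
  ext y
  rw [mem_ln, mem_image]
  constructor
  · rintro ⟨hy, h⟩
    have hsum := H.sum y hy x hx i
    have key : y i + y j = x i + x j := by
      have hi : i ∈ (univ.filter fun k => g k = g i) := by simp
      have hj : j ∈ (univ.filter fun k => g k = g i).erase i := by
        simp [hij.symm, hg]
      rw [← Finset.add_sum_erase (univ.filter fun k => g k = g i) y hi,
        ← Finset.add_sum_erase _ y hj,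
        ← Finset.add_sum_erase (univ.filter fun k => g k = g i) x hi,
        ← Finset.add_sum_erase _ x hj] at hsum
      have hrest : ∑ k ∈ ((univ.filter fun k => g k = g i).erase i).erase j, y k =
          ∑ k ∈ ((univ.filter fun k => g k = g i).erase i).erase j, x k := by
        apply Finset.sum_congr rfl
        intro k hk
        simp only [mem_erase] at hk
        exact h k hk.2.1 hk.1
      rw [hrest] at hsum
      omega
    have c1 := H.le y hy i
    have c2 := H.le y hy j
    refine ⟨y i, ?_, ?_⟩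
    · rw [mem_Icc]
      omega
    · funext l
      unfold pt
      by_cases h1 : l = i
      · rw [if_pos h1, h1]
      · rw [if_neg h1]
        by_cases h2 : l = j
        · rw [if_pos h2, h2]
          omega
        · rw [if_neg h2]
          exact (h l h1 h2).symm
  · rintro ⟨t, ht, rfl⟩
    rw [mem_Icc] at ht
    refine ⟨?_, ?_⟩
    · rcases le_total (x i) t with hle | hle
      · obtain ⟨d, rfl⟩ := Nat.exists_eq_add_of_le hle
        exact LNE_mem_up H hij hg hx d ht.2
      · have e : t = x i - (x i - t) := by omega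
        rw [e]
        exact LNE_mem_down H hij hg hx _ (by omega) (by omega)
    · intro k h1 h2
      simp [pt, h1, h2]

theorem ln_ne {s : Finset (ι → ℕ)} {c : ι → ℕ} {g : ι → κ} (H : IsGS s c g) {i j : ι}
    {x : ι → ℕ} (hx : x ∈ s) : x i + x j - c j ≤ min (c i) (x i + x j) := by
  have c1 := H.le x hx i
  have c2 := H.le x hx j
  omega

end Pool.Agent.FLP
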