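import Pool.Agent.FLP.Bas

/-!
A slot in the middle. Let P be the set of the marks k of S with i <= k < j, m = |P| >= 2, h = m / 2 (>= 1).
There are k1 < k2 in P, consecutive in P, with exactly h elements of P which are <= k1 (e.g.
Finset.orderEmbOfFin). Since pr γ (k2 + 1) - pr γ (k1 + 1) = 2 (k2 - k1) > 0 there is a slot c with
k1 < c <= k2 and γ c >= 1 (otherwise the initial sums would be equal, pr_succ'). The marks before c are
those <= k1: mk S i c = h, mk S c j = m - h <= (m + 1) / 2, and i <= k1 < c <= k2 < j.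
-/

open Finset

namespace Pool.Agent.FLP

variable {n : ℕ}

private theorem mds_step (S : Finset (Fin n)) (a t : ℕ) :
    (S.filter fun k => a ≤ k.val ∧ k.val < t + 1).card =
      (S.filter fun k => a ≤ k.val ∧ k.val < t).card ∨
    ((S.filter fun k => a ≤ k.val ∧ k.val < t + 1).card =
      (S.filter fun k => a ≤ k.val ∧ k.val < t).card + 1 ∧ ∃ k ∈ S, k.val = t ∧ a ≤ t) := by
  by_cases h : ∃ k ∈ S, k.val = t ∧ a ≤ t
  · right
    refine ⟨?_, h⟩
    obtain ⟨k, hk, rfl, ha⟩ := h
    have h1 : (S.filter fun l => a ≤ l.val ∧ l.val < k.val + 1) =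
        insert k (S.filter fun l => a ≤ l.val ∧ l.val < k.val) := by
      ext l
      simp only [mem_filter, mem_insert, Fin.ext_iff]
      constructor
      · rintro ⟨h1, h2, h3⟩
        by_cases h4 : l.val = k.val
        · exact Or.inl h4
        · exact Or.inr ⟨h1, h2, by omega⟩
      · rintro (h1 | ⟨h1, h2, h3⟩)
        · have : l = k := Fin.ext h1
          subst this
          exact ⟨hk, ha, by omega⟩
        · exact ⟨h1, h2, by omega⟩
    rw [h1, card_insert_of_notMem]
    simp
  · left
    congr 1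
    ext l
    simp only [mem_filter]
    constructor
    · rintro ⟨h1, h2, h3⟩
      refine ⟨h1, h2, ?_⟩
      by_contra h4
      exact h ⟨l, h1, by omega, by omega⟩
    · rintro ⟨h1, h2, h3⟩
      exact ⟨h1, h2, by omega⟩

private theorem mds_mono (S : Finset (Fin n)) (a : ℕ) {t t' : ℕ} (h : t ≤ t') :
    (S.filter fun k => a ≤ k.val ∧ k.val < t).card ≤
      (S.filter fun k => a ≤ k.val ∧ k.val < t').card := by
  apply card_le_card
  intro l
  simp only [mem_filter]
  rintro ⟨h1, h2, h3⟩
  exact ⟨h1, h2, by omega⟩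

/-- The first time at which the count is `m`. -/
private theorem mds_find (S : Finset (Fin n)) (a m T : ℕ) (hm : 1 ≤ m)
    (hT : m ≤ (S.filter fun k => a ≤ k.val ∧ k.val < T).card) :
    ∃ k ∈ S, a ≤ k.val ∧ k.val < T ∧
      (S.filter fun l => a ≤ l.val ∧ l.val < k.val + 1).card = m ∧
      ∀ t, t ≤ k.val → (S.filter fun l => a ≤ l.val ∧ l.val < t).card < m := by
  classical
  have hex : ∃ t, m ≤ (S.filter fun k => a ≤ k.val ∧ k.val < t).card := ⟨T, hT⟩
  have h1 := Nat.find_spec hex
  have h2 : ∀ t, t < Nat.find hex → (S.filter fun l => a ≤ l.val ∧ l.val < t).card < m :=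
    fun t ht => not_le.1 (Nat.find_min hex ht)
  have h3 : Nat.find hex ≤ T := Nat.find_min' hex hT
  generalize Nat.find hex = u at h1 h2 h3
  cases u with
  | zero => simp at h1; omega
  | succ u =>
    have h4 := h2 u (by omega)
    rcases mds_step S a u with h5 | ⟨h5, k, hk, rfl, ha⟩
    · omega
    · exact ⟨k, hk, ha, by omega, by omega, fun t ht => h2 t (by omega)⟩

theorem mds {S : Finset (Fin n)} {γ : Fin (n + 1) → ℕ} (hγ : γ ∈ Gam n S) {i j : Fin (n + 1)}
    (hij : i < j) (hm : 2 ≤ mk S i j) :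
    ∃ c, i < c ∧ c < j ∧ 1 ≤ γ c ∧ mk S i c ≤ (mk S i j + 1) / 2 ∧
      mk S c j ≤ (mk S i j + 1) / 2 := by
  rw [mem_Gam] at hγ
  obtain ⟨-, hγ⟩ := hγ
  have hij' : i.val < j.val := hij
  obtain ⟨k1, hk1, ha1, hT1, hc1, hl1⟩ := mds_find S i.val (mk S i j / 2) j.val (by omega)
    (by unfold mk; omega)
  obtain ⟨k2, hk2, ha2, hT2, hc2, hl2⟩ := mds_find S i.val (mk S i j / 2 + 1) j.val (by omega)
    (by unfold mk at hm ⊢; omega)
  have hk12 : k1.val < k2.val := by
    by_contra h
    have := mds_mono S i.val (show k2.val + 1 ≤ k1.val + 1 by omega)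
    omega
  have hex : ∃ c : Fin (n + 1), k1.val < c.val ∧ c.val ≤ k2.val ∧ 1 ≤ γ c := by
    by_contra hcon
    push Not at hcon
    have hall : ∀ t, k1.val + 1 ≤ t → t ≤ k2.val + 1 → pr γ t = pr γ (k1.val + 1) := by
      intro t ht
      induction t, ht using Nat.le_induction with
      | base => intro _; rfl
      | succ t ht ih =>
        intro ht2
        have hlt : t < n + 1 := by
          have := k2.isLt
          omega
        rw [pr_succ' γ hlt, ih (by omega)]
        have := hcon ⟨t, hlt⟩ (by simpa using ht) (by simpa using (by omega : t ≤ k2.val))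
        omega
    have h1 := hall (k2.val + 1) (by omega) le_rfl
    rw [hγ k1 hk1, hγ k2 hk2] at h1
    omega
  obtain ⟨c, hc1', hc2', hc3⟩ := hex
  have hcnt : (S.filter fun l => i.val ≤ l.val ∧ l.val < c.val).card = mk S i j / 2 := by
    have h1 := mds_mono S i.val (show k1.val + 1 ≤ c.val by omega)
    have h2 := hl2 c.val hc2'
    omega
  have hsum : (S.filter fun l => i.val ≤ l.val ∧ l.val < c.val).card +
      (S.filter fun l => c.val ≤ l.val ∧ l.val < j.val).card =
      (S.filter fun l => i.val ≤ l.val ∧ l.val < j.val).card := by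
    rw [← card_union_of_disjoint]
    · congr 1
      ext l
      simp only [mem_union, mem_filter]
      constructor
      · rintro (⟨h1, h2, h3⟩ | ⟨h1, h2, h3⟩)
        · exact ⟨h1, h2, by omega⟩
        · exact ⟨h1, by omega, h3⟩
      · rintro ⟨h1, h2, h3⟩
        by_cases h4 : l.val < c.val
        · exact Or.inl ⟨h1, h2, h4⟩
        · exact Or.inr ⟨h1, by omega, h3⟩
    · rw [disjoint_left]
      intro l h1 h2
      have h1 := (mem_filter.1 h1).2
      have h2 := (mem_filter.1 h2).2
      omega
  refine ⟨c, ?_, ?_, hc3, ?_, ?_⟩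
  · show i.val < c.val
    omega
  · show c.val < j.val
    omega
  · show (S.filter fun l => i.val ≤ l.val ∧ l.val < c.val).card ≤ _
    omega
  · show (S.filter fun l => c.val ≤ l.val ∧ l.val < j.val).card ≤ _
    have : mk S i j = (S.filter fun l => i.val ≤ l.val ∧ l.val < j.val).card := rfl
    omega

end Pool.Agent.FLP
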