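import Pool.Agent.FLP.POT
import Pool.Agent.FLP.MDS
import Pool.Agent.FLP.BXG

/-!
The balanced recursion. Let E be the double sum on the right (without the factor). Claim: for all p and
all i < j with mk S i j <= 2^p: NN (Bx γ n) γ i j f <= 8^p E. If mk S i j <= 1 then NN i j is one of the
(nonnegative) terms of E. Otherwise (so p >= 1) take c from mds: NN i j <= 4 (NN i c + NN c j) (pot,
isgs_Bx) <= 4 (8^(p-1) E + 8^(p-1) E) = 8^p E. Finally mk S i j <= n <= 2^p with p = Nat.clog 2 n and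
2^p <= 2 (n + 1), so 8^p <= 8 (n + 1)^3.
-/

open Finset

namespace Pool.Agent.FLP

variable {n : ℕ}

private theorem pol_aux {S : Finset (Fin n)} {γ : Fin (n + 1) → ℕ} (hγ : γ ∈ Gam n S)
    (f : (Fin (n + 1) → ℕ) → ℝ) (p : ℕ) : ∀ {i j : Fin (n + 1)}, i < j → mk S i j ≤ 2 ^ p →
    NN (Bx γ n) γ i j f ≤ 8 ^ p *
      ∑ c, ∑ d, if c < d ∧ mk S c d ≤ 1 then NN (Bx γ n) γ c d f else 0 := by
  have hNN : ∀ c d, 0 ≤ NN (Bx γ n) γ c d f := fun c d => sum_nonneg fun _ _ => sq_nonneg _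
  have hterm : ∀ c d : Fin (n + 1),
      0 ≤ (if c < d ∧ mk S c d ≤ 1 then NN (Bx γ n) γ c d f else 0) := by
    intro c d
    split_ifs
    · exact hNN c d
    · exact le_rfl
  have hE : 0 ≤ ∑ c, ∑ d, if c < d ∧ mk S c d ≤ 1 then NN (Bx γ n) γ c d f else 0 :=
    sum_nonneg fun c _ => sum_nonneg fun d _ => hterm c d
  have hone : ∀ i j : Fin (n + 1), i < j → mk S i j ≤ 1 → NN (Bx γ n) γ i j f ≤
      ∑ c, ∑ d, if c < d ∧ mk S c d ≤ 1 then NN (Bx γ n) γ c d f else 0 := by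
    intro i j hij h
    have h1 : NN (Bx γ n) γ i j f =
        (if i < j ∧ mk S i j ≤ 1 then NN (Bx γ n) γ i j f else 0) := by
      rw [if_pos ⟨hij, h⟩]
    rw [h1]
    refine (single_le_sum (f := fun d => if i < d ∧ mk S i d ≤ 1 then NN (Bx γ n) γ i d f else 0)
      (fun d _ => hterm i d) (mem_univ j)).trans ?_
    exact single_le_sum
      (f := fun c => ∑ d, if c < d ∧ mk S c d ≤ 1 then NN (Bx γ n) γ c d f else 0)
      (fun c _ => sum_nonneg fun d _ => hterm c d) (mem_univ i)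
  induction p with
  | zero =>
    intro i j hij h
    rw [pow_zero, one_mul]
    exact hone i j hij (by simpa using h)
  | succ p ih =>
    intro i j hij h
    by_cases h2 : 2 ≤ mk S i j
    · obtain ⟨c, hic, hcj, hc, h3, h4⟩ := mds hγ hij h2
      have h5 : (mk S i j + 1) / 2 ≤ 2 ^ p := by
        have : 2 ^ (p + 1) = 2 * 2 ^ p := by ring
        omega
      have h6 := pot (isgs_Bx γ n) (i := i) (j := j) (k := c) hij.ne hic.ne hcj.ne' rfl rfl hc f
      have h7 := ih hic (h3.trans h5)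
      have h8 := ih hcj (h4.trans h5)
      calc NN (Bx γ n) γ i j f ≤ 4 * (NN (Bx γ n) γ i c f + NN (Bx γ n) γ c j f) := h6
        _ ≤ _ := by
          rw [pow_succ]
          linarith
    · refine (hone i j hij (by omega)).trans ?_
      exact le_mul_of_one_le_left hE (one_le_pow₀ (by norm_num))

theorem pol {S : Finset (Fin n)} {γ : Fin (n + 1) → ℕ} (hγ : γ ∈ Gam n S) {i j : Fin (n + 1)}
    (hij : i < j) (f : (Fin (n + 1) → ℕ) → ℝ) :
    NN (Bx γ n) γ i j f ≤ 64 * ((n : ℝ) + 1) ^ 3 *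
      ∑ c, ∑ d, if c < d ∧ mk S c d ≤ 1 then NN (Bx γ n) γ c d f else 0 := by
  have hn : n ≠ 0 := by
    rintro rfl
    have h1 := i.isLt
    have h2 := j.isLt
    have h3 : i.val < j.val := hij
    omega
  have hmk : mk S i j ≤ n := by
    unfold mk
    exact (card_le_univ _).trans (by simp)
  have h1 : n < 2 ^ (Nat.log 2 n + 1) := Nat.lt_pow_succ_log_self (by norm_num) n
  have h2 : 2 ^ Nat.log 2 n ≤ n := Nat.pow_log_le_self 2 hn
  have h3 := pol_aux hγ f (Nat.log 2 n + 1) hij (by omega)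
  refine h3.trans ?_
  refine mul_le_mul_of_nonneg_right ?_ ?_
  · have h4 : (2 : ℝ) ^ (Nat.log 2 n + 1) ≤ 2 * n := by
      rw [pow_succ]
      have : ((2 : ℝ) ^ Nat.log 2 n) ≤ n := by exact_mod_cast h2
      linarith
    have h5 : (8 : ℝ) ^ (Nat.log 2 n + 1) = ((2 : ℝ) ^ (Nat.log 2 n + 1)) ^ 3 := by
      rw [← pow_mul, mul_comm, pow_mul]
      norm_num
    rw [h5]
    have h6 : ((2 : ℝ) ^ (Nat.log 2 n + 1)) ^ 3 ≤ (2 * (n : ℝ)) ^ 3 :=
      pow_le_pow_left₀ (by positivity) h4 3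
    refine h6.trans ?_
    have h7 : (0 : ℝ) ≤ n := Nat.cast_nonneg n
    have h8 : (n : ℝ) ^ 3 ≤ (n + 1) ^ 3 := pow_le_pow_left₀ h7 (by linarith) 3
    nlinarith [pow_nonneg h7 3, pow_nonneg (show (0:ℝ) ≤ n + 1 by linarith) 3]
  · refine sum_nonneg fun c _ => sum_nonneg fun d _ => ?_
    split_ifs
    · exact sum_nonneg fun _ _ => sq_nonneg _
    · exact le_rfl

end Pool.Agent.FLP
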