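import Pool.Agent.FLP.LG
import Pool.Agent.FLP.POL
import Pool.Agent.FLP.ELT

/-!
Level A. For fixed S and γ in Gam n S put g a = f (a, γ - a, S). lg (isgs_Bx, capacities γ, L = 2n + 1):
vr (Bx γ n) g <= (2n+1)^2 sum over i ≠ j of NN i j g; for i > j use nns; pol: NN i j g <= 64 (n+1)^3
sum_{c<d, mk <= 1} NN c d g. Since γ - mv c d a = mv d c (γ - a) (a c >= 1, a d < γ d), NN c d g =
sum over a of (f x - f (TT c d x))^2 with x = (a, γ - a, S), and (S, γ, a) ↦ x is injective into the index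
set of elt. So the total is <= (2n+1)^2 (n+1)^2 64 (n+1)^3 (n+1)^2 16 (n+1)^2 Dir <= 4096 (n+1)^11 Dir.
-/

open Finset

namespace Pool.Agent.FLP

variable {n : ℕ}

private theorem lva_sum_le {X Y : Type*} [DecidableEq Y] (A : Finset X) (B : Finset Y) (φ : X → Y)
    (hφ : ∀ x ∈ A, φ x ∈ B) (hi : ∀ x ∈ A, ∀ y ∈ A, φ x = φ y → x = y) (F : Y → ℝ)
    (hF : ∀ y ∈ B, 0 ≤ F y) : ∑ x ∈ A, F (φ x) ≤ ∑ y ∈ B, F y := by
  rw [← sum_image (f := F) (g := φ) (fun x hx y hy h => hi x hx y hy h)]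
  exact sum_le_sum_of_subset_of_nonneg (fun y hy => by
    obtain ⟨x, hx, rfl⟩ := mem_image.1 hy
    exact hφ x hx) (fun y hy _ => hF y hy)

private theorem lva_NN_nonneg {ι : Type*} [DecidableEq ι] (s : Finset (ι → ℕ)) (c : ι → ℕ)
    (i j : ι) (f : (ι → ℕ) → ℝ) : 0 ≤ NN s c i j f := sum_nonneg fun _ _ => sq_nonneg _

private theorem lva_sub {γ a : Fin (n + 1) → ℕ} (ha : ∀ i, a i ≤ γ i) {c d : Fin (n + 1)}
    (hcd : c ≠ d) (h1 : 1 ≤ a c) (h2 : a d < γ d) :
    (fun i => γ i - mv c d a i) = mv d c (fun i => γ i - a i) := by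
  funext l
  by_cases hl : l = c
  · subst hl
    rw [mv_self hcd, mv_tgt hcd.symm]
    have := ha l
    omega
  · by_cases hl2 : l = d
    · subst hl2
      rw [mv_tgt hcd, mv_self hcd.symm]
      omega
    · rw [mv_of_ne hl hl2, mv_of_ne hl2 hl]

/-- One pair of slots. -/
private theorem lva_pair {c d : Fin (n + 1)} (hcd : c < d) (f : Cf n → ℝ) :
    ∑ S : Finset (Fin n), ∑ γ ∈ Gam n S, (if mk S c d ≤ 1 then
      NN (Bx γ n) γ c d (fun a => f (a, fun i => γ i - a i, S)) else 0) ≤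
      16 * ((n : ℝ) + 1) ^ 2 * Dir n f := by
  classical
  refine le_trans ?_ (elt hcd f)
  set A : Finset (Fin n) → (Fin (n + 1) → ℕ) → Finset (Fin (n + 1) → ℕ) := fun S γ =>
    (Bx γ n).filter (fun a => (1 ≤ a c ∧ a d < γ d) ∧ mk S c d ≤ 1) with hA
  set φ : (Σ _ : Finset (Fin n), Σ _ : Fin (n + 1) → ℕ, (Fin (n + 1) → ℕ)) → Cf n := fun p =>
    (p.2.2, fun i => p.2.1 i - p.2.2 i, p.1) with hφ
  have h1 : ∑ S : Finset (Fin n), ∑ γ ∈ Gam n S, (if mk S c d ≤ 1 then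
      NN (Bx γ n) γ c d (fun a => f (a, fun i => γ i - a i, S)) else 0) =
      ∑ p ∈ (univ : Finset (Finset (Fin n))).sigma (fun S => (Gam n S).sigma (fun γ => A S γ)),
        (f (φ p) - f (TT c d (φ p))) ^ 2 := by
    rw [sum_sigma]
    refine sum_congr rfl fun S _ => ?_
    rw [sum_sigma]
    refine sum_congr rfl fun γ _ => ?_
    by_cases hm : mk S c d ≤ 1
    · rw [if_pos hm]
      unfold NN
      have hAe : A S γ = (Bx γ n).filter (fun a => 1 ≤ a c ∧ a d < γ d) := by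
        simp only [hA]
        refine filter_congr fun a _ => ?_
        constructor
        · rintro ⟨h, _⟩
          exact h
        · intro h
          exact ⟨h, hm⟩
      rw [hAe]
      refine sum_congr rfl fun a ha => ?_
      obtain ⟨ha, h1, h2⟩ := mem_filter.1 ha
      rw [mem_Bx] at ha
      show (f (a, fun i => γ i - a i, S) - f (mv c d a, fun i => γ i - mv c d a i, S)) ^ 2 =
        (f (a, fun i => γ i - a i, S) - f (mv c d a, mv d c (fun i => γ i - a i), S)) ^ 2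
      rw [lva_sub ha.1 hcd.ne h1 h2]
    · rw [if_neg hm]
      have hAe : A S γ = ∅ := by
        simp only [hA]
        exact filter_eq_empty_iff.2 fun a _ h => hm h.2
      rw [hAe, sum_empty]
  rw [h1]
  refine lva_sum_le _ _ φ ?_ ?_ (fun x => (f x - f (TT c d x)) ^ 2) (fun _ _ => sq_nonneg _)
  · rintro ⟨S, γ, a⟩ hp
    obtain ⟨-, hp⟩ := mem_sigma.1 hp
    obtain ⟨hγ, ha⟩ := mem_sigma.1 hp
    obtain ⟨ha, ⟨h1, h2⟩, h3⟩ := mem_filter.1 ha
    simp only at hγ ha h1 h2 h3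
    rw [mem_Bx] at ha
    obtain ⟨ha1, ha2⟩ := ha
    rw [mem_Gam] at hγ
    obtain ⟨hγ1, hγ2⟩ := hγ
    have hadd : (fun i => a i + (γ i - a i)) = γ := by
      funext i
      have := ha1 i
      omega
    refine mem_filter.2 ⟨?_, ⟨h1, ?_⟩, h3⟩
    · rw [mem_Om]
      refine ⟨ha2, ?_, ?_⟩
      · have h4 : ∑ i, (a i + (γ i - a i)) = ∑ i, γ i := by
          have := congrArg (fun g : Fin (n + 1) → ℕ => ∑ i, g i) hadd
          exact this
        rw [sum_add_distrib, ha2, hγ1] at h4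
        show ∑ i, (γ i - a i) = n
        omega
      · intro k hk
        show pr a (k.val + 1) + pr (fun i => γ i - a i) (k.val + 1) = 2 * k.val + 1
        rw [← pr_add, hadd]
        exact hγ2 k hk
    · show 1 ≤ γ d - a d
      omega
  · have hAle : ∀ p ∈ (univ : Finset (Finset (Fin n))).sigma
        (fun S => (Gam n S).sigma (fun γ => A S γ)), ∀ i, p.2.2 i ≤ p.2.1 i := by
      rintro ⟨S, γ, a⟩ hp
      obtain ⟨-, hp⟩ := mem_sigma.1 hp
      obtain ⟨-, ha⟩ := mem_sigma.1 hp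
      exact ((mem_Bx _ _ _).1 (mem_filter.1 ha).1).1
    rintro ⟨S, γ, a⟩ hp ⟨S', γ', a'⟩ hp' h
    have q1 : ∀ i, a i ≤ γ i := hAle _ hp
    have q2 : ∀ i, a' i ≤ γ' i := hAle _ hp'
    simp only [hφ, Prod.mk.injEq] at h
    obtain ⟨e1, e2, e3⟩ := h
    have e4 : γ = γ' := by
      funext i
      have h1 : γ i - a i = γ' i - a' i := congrFun e2 i
      have h2 := q1 i
      have h3 := q2 i
      have h4 := congrFun e1 i
      omega
    subst e1 e3 e4
    rfl

theorem lva (n : ℕ) (f : Cf n → ℝ) :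
    ∑ S : Finset (Fin n), ∑ γ ∈ Gam n S, vr (Bx γ n) (fun a => f (a, fun i => γ i - a i, S)) ≤
      4096 * ((n : ℝ) + 1) ^ 11 * Dir n f := by
  classical
  have hn0 : (0 : ℝ) ≤ n := Nat.cast_nonneg n
  -- one pair (S, γ)
  have h1 : ∀ S : Finset (Fin n), ∀ γ ∈ Gam n S,
      vr (Bx γ n) (fun a => f (a, fun i => γ i - a i, S)) ≤
      (2 * (n : ℝ) + 1) ^ 2 * (((n : ℝ) + 1) ^ 2 * (64 * ((n : ℝ) + 1) ^ 3 *
        ∑ c, ∑ d, if c < d ∧ mk S c d ≤ 1 then
          NN (Bx γ n) γ c d (fun a => f (a, fun i => γ i - a i, S)) else 0)) := by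
    intro S γ hγ
    set g : (Fin (n + 1) → ℕ) → ℝ := fun a => f (a, fun i => γ i - a i, S) with hg
    have hγ' := hγ
    rw [mem_Gam] at hγ'
    have hL : ∀ i, γ i < 2 * n + 1 := by
      intro i
      have := single_le_sum (f := γ) (fun j _ => Nat.zero_le _) (mem_univ i)
      omega
    have h2 := lg (isgs_Bx γ n) hL g
    refine h2.trans ?_
    have h3 : ((2 * n + 1 : ℕ) : ℝ) ^ 2 = (2 * (n : ℝ) + 1) ^ 2 := by push_cast; ring
    rw [h3]
    refine mul_le_mul_of_nonneg_left ?_ (by positivity)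
    set E := ∑ c, ∑ d, if c < d ∧ mk S c d ≤ 1 then NN (Bx γ n) γ c d g else 0 with hE
    have hE0 : 0 ≤ E := by
      refine sum_nonneg fun c _ => sum_nonneg fun d _ => ?_
      split_ifs
      · exact lva_NN_nonneg _ _ _ _ _
      · exact le_rfl
    have h4 : ∀ i j : Fin (n + 1), (if i ≠ j ∧ (() : Unit) = () then NN (Bx γ n) γ i j g else 0) ≤
        64 * ((n : ℝ) + 1) ^ 3 * E := by
      intro i j
      by_cases hij : i = j
      · rw [if_neg (by simp [hij])]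
        positivity
      · rw [if_pos ⟨hij, rfl⟩]
        rcases lt_or_gt_of_ne hij with h | h
        · exact pol hγ h g
        · rw [nns (isgs_Bx γ n) hij rfl g]
          exact pol hγ h g
    calc ∑ i, ∑ j, (if i ≠ j ∧ (() : Unit) = () then NN (Bx γ n) γ i j g else 0)
        ≤ ∑ _i : Fin (n + 1), ∑ _j : Fin (n + 1), 64 * ((n : ℝ) + 1) ^ 3 * E :=
          sum_le_sum fun i _ => sum_le_sum fun j _ => h4 i j
      _ = ((n : ℝ) + 1) ^ 2 * (64 * ((n : ℝ) + 1) ^ 3 * E) := by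
          rw [sum_const, sum_const, card_univ, Fintype.card_fin, nsmul_eq_mul, nsmul_eq_mul]
          push_cast
          ring
  refine (sum_le_sum fun S _ => sum_le_sum fun γ hγ => h1 S γ hγ).trans ?_
  -- exchange of the sums
  have h2 : ∑ S : Finset (Fin n), ∑ γ ∈ Gam n S, (2 * (n : ℝ) + 1) ^ 2 * (((n : ℝ) + 1) ^ 2 *
      (64 * ((n : ℝ) + 1) ^ 3 * ∑ c, ∑ d, if c < d ∧ mk S c d ≤ 1 then
          NN (Bx γ n) γ c d (fun a => f (a, fun i => γ i - a i, S)) else 0)) =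
      (2 * (n : ℝ) + 1) ^ 2 * (((n : ℝ) + 1) ^ 2 * (64 * ((n : ℝ) + 1) ^ 3 *
        ∑ c, ∑ d, ∑ S : Finset (Fin n), ∑ γ ∈ Gam n S, if c < d ∧ mk S c d ≤ 1 then
          NN (Bx γ n) γ c d (fun a => f (a, fun i => γ i - a i, S)) else 0)) := by
    have e1 : ∀ G : Finset (Fin n) → (Fin (n + 1) → ℕ) → Fin (n + 1) → Fin (n + 1) → ℝ,
        ∑ S : Finset (Fin n), ∑ γ ∈ Gam n S, ∑ c, ∑ d, G S γ c d =
        ∑ c, ∑ d, ∑ S : Finset (Fin n), ∑ γ ∈ Gam n S, G S γ c d := by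
      intro G
      calc ∑ S : Finset (Fin n), ∑ γ ∈ Gam n S, ∑ c, ∑ d, G S γ c d
          = ∑ S : Finset (Fin n), ∑ c, ∑ γ ∈ Gam n S, ∑ d, G S γ c d :=
            sum_congr rfl fun S _ => sum_comm
        _ = ∑ c, ∑ S : Finset (Fin n), ∑ γ ∈ Gam n S, ∑ d, G S γ c d := sum_comm
        _ = ∑ c, ∑ S : Finset (Fin n), ∑ d, ∑ γ ∈ Gam n S, G S γ c d :=
            sum_congr rfl fun c _ => sum_congr rfl fun S _ => sum_comm
        _ = ∑ c, ∑ d, ∑ S : Finset (Fin n), ∑ γ ∈ Gam n S, G S γ c d :=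
            sum_congr rfl fun c _ => sum_comm
    rw [← e1]
    simp only [← mul_sum]
  rw [h2]
  have h3 : ∑ c : Fin (n + 1), ∑ d : Fin (n + 1), ∑ S : Finset (Fin n), ∑ γ ∈ Gam n S,
      (if c < d ∧ mk S c d ≤ 1 then
        NN (Bx γ n) γ c d (fun a => f (a, fun i => γ i - a i, S)) else 0) ≤
      ((n : ℝ) + 1) ^ 2 * (16 * ((n : ℝ) + 1) ^ 2 * Dir n f) := by
    have hD : 0 ≤ 16 * ((n : ℝ) + 1) ^ 2 * Dir n f := by
      by_cases h : ∃ c d : Fin (n + 1), c < d
      · obtain ⟨c, d, hcd⟩ := h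
        exact (sum_nonneg fun _ _ => sq_nonneg _).trans (elt hcd f)
      · have hn : n = 0 := by
          by_contra hn
          exact h ⟨⟨0, by omega⟩, ⟨1, by omega⟩, by
            show (0 : ℕ) < 1
            norm_num⟩
        subst hn
        simp [Dir]
    calc _ ≤ ∑ _c : Fin (n + 1), ∑ _d : Fin (n + 1), 16 * ((n : ℝ) + 1) ^ 2 * Dir n f := by
          refine sum_le_sum fun c _ => sum_le_sum fun d _ => ?_
          by_cases hcd : c < d
          · have h4 := lva_pair hcd f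
            simp only [hcd, true_and]
            exact h4
          · simp only [hcd, false_and, if_false, sum_const_zero]
            exact hD
      _ = _ := by
          rw [sum_const, sum_const, card_univ, Fintype.card_fin, nsmul_eq_mul, nsmul_eq_mul]
          push_cast
          ring
  have hDir : 0 ≤ Dir n f := by
    unfold Dir
    refine sum_nonneg fun x _ => sum_nonneg fun k _ => ?_
    refine add_nonneg (add_nonneg ?_ ?_) ?_ <;>
    · split_ifs
      · exact sq_nonneg _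
      · exact le_rfl
  calc (2 * (n : ℝ) + 1) ^ 2 * (((n : ℝ) + 1) ^ 2 * (64 * ((n : ℝ) + 1) ^ 3 *
        ∑ c, ∑ d, ∑ S : Finset (Fin n), ∑ γ ∈ Gam n S, if c < d ∧ mk S c d ≤ 1 then
          NN (Bx γ n) γ c d (fun a => f (a, fun i => γ i - a i, S)) else 0))
      ≤ (2 * (n : ℝ) + 2) ^ 2 * (((n : ℝ) + 1) ^ 2 * (64 * ((n : ℝ) + 1) ^ 3 *
        (((n : ℝ) + 1) ^ 2 * (16 * ((n : ℝ) + 1) ^ 2 * Dir n f)))) := by
        have h5 : (2 * (n : ℝ) + 1) ^ 2 ≤ (2 * (n : ℝ) + 2) ^ 2 :=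
          pow_le_pow_left₀ (by linarith) (by linarith) 2
        have h6 : ((n : ℝ) + 1) ^ 2 * (64 * ((n : ℝ) + 1) ^ 3 *
          ∑ c, ∑ d, ∑ S : Finset (Fin n), ∑ γ ∈ Gam n S, if c < d ∧ mk S c d ≤ 1 then
            NN (Bx γ n) γ c d (fun a => f (a, fun i => γ i - a i, S)) else 0) ≤
          ((n : ℝ) + 1) ^ 2 * (64 * ((n : ℝ) + 1) ^ 3 *
            (((n : ℝ) + 1) ^ 2 * (16 * ((n : ℝ) + 1) ^ 2 * Dir n f))) :=
          mul_le_mul_of_nonneg_left (mul_le_mul_of_nonneg_left h3 (by positivity)) (by positivity)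
        exact mul_le_mul h5 h6 (by
          refine mul_nonneg (by positivity) (mul_nonneg (by positivity) ?_)
          refine sum_nonneg fun c _ => sum_nonneg fun d _ => sum_nonneg fun S _ =>
            sum_nonneg fun γ _ => ?_
          split_ifs
          · exact lva_NN_nonneg _ _ _ _ _
          · exact le_rfl) (by positivity)
    _ = 4096 * ((n : ℝ) + 1) ^ 11 * Dir n f := by ring

end Pool.Agent.FLP
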