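import Pool.Agent.FLP.TRP
import Pool.Agent.FLP.Bas

/-!
Transport for γ. Z = {a in Bx γ n | 1 <= a k}: the map a ↦ γ - a sends Bx γ n minus Z injectively into Z
(sum γ = 2n, and a k = 0 gives γ k - a k >= 1), so #(Bx γ n) <= 2 #Z. Apply trp with z = Z, u = id,
v a = mv k (k+1) a, which is in Bx (mv k (k+1) γ) n; (mv k (k+1) γ) - (mv k (k+1) a) = γ - a, so
f (v a, .., S) = f (shA k (a, γ - a, S)). (k stands for k.castSucc, k+1 for k.succ.)
-/

open Finset

namespace Pool.Agent.FLP

variable {n : ℕ}

theorem trg {S : Finset (Fin n)} (k : Fin n) {γ : Fin (n + 1) → ℕ} (hγ : γ ∈ Gam n S)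
    (h1 : 1 ≤ γ k.castSucc) (f : Cf n → ℝ) :
    ((Bx γ n).card : ℝ) * (av (Bx γ n) (fun a => f (a, fun i => γ i - a i, S)) -
      av (Bx (mv k.castSucc k.succ γ) n)
        (fun a => f (a, fun i => mv k.castSucc k.succ γ i - a i, S))) ^ 2 ≤
      6 * (vr (Bx γ n) (fun a => f (a, fun i => γ i - a i, S)) +
        vr (Bx (mv k.castSucc k.succ γ) n)
          (fun a => f (a, fun i => mv k.castSucc k.succ γ i - a i, S)) +
        ∑ a ∈ (Bx γ n).filter (fun a => 1 ≤ a k.castSucc),
          (f (a, fun i => γ i - a i, S) - f (shA k (a, fun i => γ i - a i, S))) ^ 2) := by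
  have hne : k.castSucc ≠ k.succ := Fin.castSucc_lt_succ.ne
  have hsum : ∑ i, γ i = 2 * n := ((mem_Gam S γ).1 hγ).1
  set Z := (Bx γ n).filter (fun a => 1 ≤ a k.castSucc) with hZ
  have hmvle : ∀ a ∈ Z, ∀ i, mv k.castSucc k.succ a i ≤ mv k.castSucc k.succ γ i ∧
      mv k.castSucc k.succ γ i - mv k.castSucc k.succ a i = γ i - a i := by
    intro a ha i
    rw [hZ, mem_filter, mem_Bx] at ha
    have h2 := ha.1.1 i
    have h3 := ha.2
    by_cases e1 : i = k.castSucc
    · subst e1
      rw [mv_self hne, mv_self hne]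
      omega
    · by_cases e2 : i = k.succ
      · subst e2
        rw [mv_tgt hne, mv_tgt hne]
        omega
      · rw [mv_of_ne e1 e2, mv_of_ne e1 e2]
        exact ⟨h2, rfl⟩
  have key := trp (Bx γ n) (Bx (mv k.castSucc k.succ γ) n) Z id
    (fun a => mv k.castSucc k.succ a) (fun a ha => (mem_filter.1 ha).1) Function.injective_id.injOn
    (by
      intro a ha
      rw [mem_Bx]
      refine ⟨fun i => (hmvle a ha i).1, ?_⟩
      rw [hZ, mem_filter, mem_Bx] at ha
      rw [sum_mv ha.2]
      exact ha.1.2)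
    (by
      intro a ha b hb hab
      rw [hZ, mem_coe, mem_filter] at ha hb
      exact mv_inj hne ha.2 hb.2 hab)
    (fun a => f (a, fun i => γ i - a i, S))
    (fun a => f (a, fun i => mv k.castSucc k.succ γ i - a i, S))
  have hS : ∑ a ∈ Z, ((fun a => f (a, fun i => γ i - a i, S)) (id a) -
      (fun a => f (a, fun i => mv k.castSucc k.succ γ i - a i, S)) (mv k.castSucc k.succ a)) ^ 2 =
      ∑ a ∈ Z, (f (a, fun i => γ i - a i, S) - f (shA k (a, fun i => γ i - a i, S))) ^ 2 := by
    apply sum_congr rfl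
    intro a ha
    have e : (fun i => mv k.castSucc k.succ γ i - mv k.castSucc k.succ a i) =
        fun i => γ i - a i := by
      funext i
      exact (hmvle a ha i).2
    simp only [id, shA, e]
  rw [hS] at key
  have hcard : (Bx γ n).card ≤ 2 * Z.card := by
    have h2 : ((Bx γ n).filter (fun a => ¬ 1 ≤ a k.castSucc)).card ≤ Z.card := by
      apply card_le_card_of_injOn (fun a => fun i => γ i - a i)
      · intro a ha
        rw [mem_coe, mem_filter, mem_Bx] at ha
        obtain ⟨⟨ha1, ha2⟩, ha3⟩ := ha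
        rw [hZ, mem_coe, mem_filter, mem_Bx]
        refine ⟨⟨fun i => Nat.sub_le _ _, ?_⟩, ?_⟩
        · have h3 : ∑ i, (γ i - a i) + ∑ i, a i = ∑ i, γ i := by
            rw [← sum_add_distrib]
            apply sum_congr rfl
            intro i _
            have := ha1 i
            omega
          have h4 : ∑ i, (γ i - a i) = n := by omega
          exact h4
        · show 1 ≤ γ k.castSucc - a k.castSucc
          omega
      · intro a ha b hb hab
        rw [mem_coe, mem_filter, mem_Bx] at ha hb
        funext i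
        have h3 := congrFun hab i
        have h4 := ha.1.1 i
        have h5 := hb.1.1 i
        simp only at h3
        omega
    have h3 := card_filter_add_card_filter_not (s := Bx γ n) (fun a => 1 ≤ a k.castSucc)
    rw [← hZ] at h3
    omega
  have hcard' : ((Bx γ n).card : ℝ) ≤ 2 * (Z.card : ℝ) := by exact_mod_cast hcard
  have hmul := mul_le_mul_of_nonneg_right hcard'
    (sq_nonneg (av (Bx γ n) (fun a => f (a, fun i => γ i - a i, S)) -
      av (Bx (mv k.castSucc k.succ γ) n)
        (fun a => f (a, fun i => mv k.castSucc k.succ γ i - a i, S))))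
  linarith

end Pool.Agent.FLP
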