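import Pool.Agent.FLP.LVA
import Pool.Agent.FLP.GMP
import Pool.Agent.FLP.TRG

/-!
Level B. For fixed S: vr_fib for XS n S with the map p ↦ p.1 + p.2 to t = Gam n S: the fibre over γ is the
image of Bx γ n under a ↦ (a, γ - a) (mem_XS, mem_Om, mem_Gam, mem_Bx, pr_add; vr_image, av_image,
card_image). With F γ = av (Bx γ n) (f (a, γ - a, S)) and c from gmp: vr (XS n S) <= sum_γ vr (Bx γ n) +
32 (n+1)^6 sum_{k not in S} sum_{γ, γ k >= 1} #(Bx γ n) (F γ - F γ')^2, γ' = mv k (k+1) γ, which is in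
Gam n S (pr_mv: only the initial sum at the unmarked k changes), γ ↦ γ' injective (mv_inj). Then trg.
Sum over S: the first variances give n times the left side of lva, the second too, and the third
parts are distinct terms of Dir n f ((S, γ, a) ↦ x = (a, γ - a, S), k not in S, 1 <= a k). With A = 4096 (n+1)^11: total
<= A + 192 (n+1)^6 (2 n A + 1), times Dir n f.
-/

open Finset

namespace Pool.Agent.FLP

variable {n : ℕ}

private theorem LVB_mem {S : Finset (Fin n)} {p : (Fin (n + 1) → ℕ) × (Fin (n + 1) → ℕ)}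
    (hp : p ∈ XS n S) : (fun i => p.1 i + p.2 i) ∈ Gam n S := by
  rw [mem_XS, mem_Om] at hp
  obtain ⟨h1, h2, h3⟩ := hp
  rw [mem_Gam]
  simp only at h1 h2 h3
  refine ⟨by rw [sum_add_distrib, h1, h2]; ring, fun k hk => ?_⟩
  rw [pr_add]
  exact h3 k hk

private theorem LVB_fib {S : Finset (Fin n)} {γ : Fin (n + 1) → ℕ} (hγ : γ ∈ Gam n S) :
    (XS n S).filter (fun p => (fun i => p.1 i + p.2 i) = γ) =
      (Bx γ n).image (fun a => (a, fun i => γ i - a i)) := by
  rw [mem_Gam] at hγ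
  ext p
  simp only [mem_filter, mem_image, mem_XS, mem_Om, mem_Bx]
  constructor
  · rintro ⟨⟨h1, h2, h3⟩, h4⟩
    have h5 : ∀ i, p.1 i + p.2 i = γ i := fun i => congrFun h4 i
    refine ⟨p.1, ⟨fun i => by have := h5 i; omega, h1⟩, ?_⟩
    refine Prod.ext rfl ?_
    funext i
    have := h5 i
    simp only
    omega
  · rintro ⟨a, ⟨h1, h2⟩, rfl⟩
    have h3 : ∀ i, a i + (γ i - a i) = γ i := fun i => by have := h1 i; omega
    have h4 : ∑ i, a i + ∑ i, (γ i - a i) = 2 * n := by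
      rw [← sum_add_distrib, ← hγ.1]
      exact sum_congr rfl fun i _ => h3 i
    refine ⟨⟨h2, by simp only; omega, fun k hk => ?_⟩, funext h3⟩
    simp only
    rw [← pr_add, ← hγ.2 k hk]
    congr 1
    exact funext h3

private theorem LVB_inj (γ : Fin (n + 1) → ℕ) : Function.Injective
    (fun a : Fin (n + 1) → ℕ => (a, fun i => γ i - a i)) := fun _ _ h => congrArg Prod.fst h

/-- sums over the configurations, group by group -/
private theorem LVB_sum (g : Cf n → ℝ) : ∑ x ∈ Om n, g x =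
    ∑ S : Finset (Fin n), ∑ γ ∈ Gam n S, ∑ a ∈ Bx γ n, g (a, fun i => γ i - a i, S) := by
  rw [← sum_fiberwise (Om n) (fun x : Cf n => x.2.2) g]
  refine sum_congr rfl fun S _ => ?_
  have h1 : (Om n).filter (fun x : Cf n => x.2.2 = S) =
      (XS n S).image (fun p => (p.1, p.2, S)) := by
    ext x
    simp only [mem_filter, mem_image, mem_XS]
    constructor
    · rintro ⟨h, rfl⟩
      exact ⟨(x.1, x.2.1), h, rfl⟩
    · rintro ⟨p, h, rfl⟩
      exact ⟨h, rfl⟩
  have hinj : Function.Injective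
      (fun p : (Fin (n + 1) → ℕ) × (Fin (n + 1) → ℕ) => ((p.1, p.2, S) : Cf n)) := by
    intro p q h
    simp only [Prod.mk.injEq, and_true] at h
    exact Prod.ext h.1 h.2
  rw [h1, sum_image (fun p _ q _ h => hinj h)]
  rw [← sum_fiberwise_of_maps_to (s := XS n S) (t := Gam n S)
    (g := fun p => fun i => p.1 i + p.2 i) (fun p hp => LVB_mem hp)]
  refine sum_congr rfl fun γ hγ => ?_
  rw [LVB_fib hγ, sum_image (fun p _ q _ h => LVB_inj γ h)]

private theorem LVB_mv {S : Finset (Fin n)} {k : Fin n} (hk : k ∉ S) {γ : Fin (n + 1) → ℕ}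
    (hγ : γ ∈ Gam n S) (h1 : 1 ≤ γ k.castSucc) : mv k.castSucc k.succ γ ∈ Gam n S := by
  rw [mem_Gam] at hγ ⊢
  refine ⟨by rw [sum_mv h1]; exact hγ.1, fun j hj => ?_⟩
  rw [pr_mv Fin.castSucc_lt_succ h1]
  rw [if_neg]
  · exact hγ.2 j hj
  · have hjk : j ≠ k := fun h => hk (h ▸ hj)
    have hjk' : j.val ≠ k.val := fun h => hjk (Fin.ext h)
    simp only [Fin.val_castSucc, Fin.val_succ]
    omega

/-- the energy of the moves of the first coordinate at `k`, for the marks `S` -/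
private noncomputable def LVBD (f : Cf n → ℝ) (S : Finset (Fin n)) (k : Fin n) : ℝ :=
  ∑ γ ∈ Gam n S, ∑ a ∈ (Bx γ n).filter (fun a => 1 ≤ a k.castSucc),
    (f (a, fun i => γ i - a i, S) - f (shA k (a, fun i => γ i - a i, S))) ^ 2

private noncomputable def LVBA (f : Cf n → ℝ) (S : Finset (Fin n)) : ℝ :=
  ∑ γ ∈ Gam n S, vr (Bx γ n) (fun a => f (a, fun i => γ i - a i, S))

private theorem LVBA_nonneg (f : Cf n → ℝ) (S : Finset (Fin n)) : 0 ≤ LVBA f S :=
  sum_nonneg fun _ _ => vr_nonneg _ _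

private theorem LVBD_nonneg (f : Cf n → ℝ) (S : Finset (Fin n)) (k : Fin n) : 0 ≤ LVBD f S k :=
  sum_nonneg fun _ _ => sum_nonneg fun _ _ => sq_nonneg _

private theorem LVB_k (f : Cf n → ℝ) {S : Finset (Fin n)} {k : Fin n} (hk : k ∉ S) :
    ∑ γ ∈ (Gam n S).filter (fun γ => 1 ≤ γ k.castSucc),
      ((Bx γ n).card : ℝ) * (av (Bx γ n) (fun a => f (a, fun i => γ i - a i, S)) -
        av (Bx (mv k.castSucc k.succ γ) n)
          (fun a => f (a, fun i => mv k.castSucc k.succ γ i - a i, S))) ^ 2 ≤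
      6 * (2 * LVBA f S + LVBD f S k) := by
  have h1 : ∀ γ ∈ (Gam n S).filter (fun γ => 1 ≤ γ k.castSucc),
      ((Bx γ n).card : ℝ) * (av (Bx γ n) (fun a => f (a, fun i => γ i - a i, S)) -
        av (Bx (mv k.castSucc k.succ γ) n)
          (fun a => f (a, fun i => mv k.castSucc k.succ γ i - a i, S))) ^ 2 ≤
      6 * (vr (Bx γ n) (fun a => f (a, fun i => γ i - a i, S)) +
        vr (Bx (mv k.castSucc k.succ γ) n)
          (fun a => f (a, fun i => mv k.castSucc k.succ γ i - a i, S)) +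
        ∑ a ∈ (Bx γ n).filter (fun a => 1 ≤ a k.castSucc),
          (f (a, fun i => γ i - a i, S) - f (shA k (a, fun i => γ i - a i, S))) ^ 2) := by
    intro γ hγ
    rw [mem_filter] at hγ
    exact trg k hγ.1 hγ.2 f
  refine (sum_le_sum h1).trans ?_
  rw [← mul_sum, sum_add_distrib, sum_add_distrib]
  have h2 : ∑ γ ∈ (Gam n S).filter (fun γ => 1 ≤ γ k.castSucc),
      vr (Bx γ n) (fun a => f (a, fun i => γ i - a i, S)) ≤ LVBA f S :=
    sum_le_sum_of_subset_of_nonneg (filter_subset _ _) fun _ _ _ => vr_nonneg _ _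
  have h3 : ∑ γ ∈ (Gam n S).filter (fun γ => 1 ≤ γ k.castSucc),
      vr (Bx (mv k.castSucc k.succ γ) n)
        (fun a => f (a, fun i => mv k.castSucc k.succ γ i - a i, S)) ≤ LVBA f S := by
    have hinj : Set.InjOn (fun γ : Fin (n + 1) → ℕ => mv k.castSucc k.succ γ)
        ((Gam n S).filter (fun γ => 1 ≤ γ k.castSucc) : Finset (Fin (n + 1) → ℕ)) := by
      intro γ hγ γ' hγ' h
      rw [mem_coe, mem_filter] at hγ hγ'
      exact mv_inj (Fin.castSucc_lt_succ (i := k)).ne hγ.2 hγ'.2 h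
    have h4 : ∑ γ ∈ (Gam n S).filter (fun γ => 1 ≤ γ k.castSucc),
        vr (Bx (mv k.castSucc k.succ γ) n)
          (fun a => f (a, fun i => mv k.castSucc k.succ γ i - a i, S)) =
        ∑ γ' ∈ ((Gam n S).filter (fun γ => 1 ≤ γ k.castSucc)).image
          (fun γ => mv k.castSucc k.succ γ), vr (Bx γ' n) (fun a => f (a, fun i => γ' i - a i, S)) :=
      (sum_image (f := fun γ' : Fin (n + 1) → ℕ =>
        vr (Bx γ' n) (fun a => f (a, fun i => γ' i - a i, S))) hinj).symm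
    rw [h4]
    refine sum_le_sum_of_subset_of_nonneg ?_ fun _ _ _ => vr_nonneg _ _
    intro γ' hγ'
    rw [mem_image] at hγ'
    obtain ⟨γ, hγ, rfl⟩ := hγ'
    rw [mem_filter] at hγ
    exact LVB_mv hk hγ.1 hγ.2
  have h5 : ∑ γ ∈ (Gam n S).filter (fun γ => 1 ≤ γ k.castSucc),
      ∑ a ∈ (Bx γ n).filter (fun a => 1 ≤ a k.castSucc),
        (f (a, fun i => γ i - a i, S) - f (shA k (a, fun i => γ i - a i, S))) ^ 2 ≤ LVBD f S k :=
    sum_le_sum_of_subset_of_nonneg (filter_subset _ _) fun _ _ _ =>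
      sum_nonneg fun _ _ => sq_nonneg _
  linarith

private theorem LVB_S (f : Cf n → ℝ) (S : Finset (Fin n)) :
    vr (XS n S) (fun p => f (p.1, p.2, S)) ≤ LVBA f S +
      192 * ((n : ℝ) + 1) ^ 6 * (2 * n * LVBA f S + ∑ k : Fin n, if k ∉ S then LVBD f S k else 0) := by
  obtain ⟨c, hc⟩ := gmp S (fun γ => av (Bx γ n) (fun a => f (a, fun i => γ i - a i, S)))
  have h1 := vr_fib (XS n S) (fun p => fun i => p.1 i + p.2 i) (Gam n S)
    (fun p hp => LVB_mem hp) (fun p => f (p.1, p.2, S)) c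
  have h2 : ∑ y ∈ Gam n S, vr ((XS n S).filter fun p => (fun i => p.1 i + p.2 i) = y)
      (fun p => f (p.1, p.2, S)) = LVBA f S := by
    refine sum_congr rfl fun γ hγ => ?_
    rw [LVB_fib hγ, vr_image _ _ (LVB_inj γ).injOn]
  have h3 : ∑ y ∈ Gam n S, (((XS n S).filter fun p => (fun i => p.1 i + p.2 i) = y).card : ℝ) *
      (av ((XS n S).filter fun p => (fun i => p.1 i + p.2 i) = y)
        (fun p => f (p.1, p.2, S)) - c) ^ 2 =
      ∑ γ ∈ Gam n S, ((Bx γ n).card : ℝ) *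
        (av (Bx γ n) (fun a => f (a, fun i => γ i - a i, S)) - c) ^ 2 := by
    refine sum_congr rfl fun γ hγ => ?_
    rw [LVB_fib hγ, av_image _ _ (LVB_inj γ).injOn, card_image_of_injective _ (LVB_inj γ)]
  rw [h2, h3] at h1
  have h4 : ∑ k : Fin n, (if k ∉ S then ∑ γ ∈ (Gam n S).filter (fun γ => 1 ≤ γ k.castSucc),
        ((Bx γ n).card : ℝ) * (av (Bx γ n) (fun a => f (a, fun i => γ i - a i, S)) -
          av (Bx (mv k.castSucc k.succ γ) n)
            (fun a => f (a, fun i => mv k.castSucc k.succ γ i - a i, S))) ^ 2 else 0) ≤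
      6 * (2 * n * LVBA f S + ∑ k : Fin n, if k ∉ S then LVBD f S k else 0) := by
    have h5 : ∀ k ∈ (univ : Finset (Fin n)),
        (if k ∉ S then ∑ γ ∈ (Gam n S).filter (fun γ => 1 ≤ γ k.castSucc),
          ((Bx γ n).card : ℝ) * (av (Bx γ n) (fun a => f (a, fun i => γ i - a i, S)) -
            av (Bx (mv k.castSucc k.succ γ) n)
              (fun a => f (a, fun i => mv k.castSucc k.succ γ i - a i, S))) ^ 2 else 0) ≤
        6 * (2 * LVBA f S + if k ∉ S then LVBD f S k else 0) := by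
      intro k _
      by_cases hk : k ∉ S
      · rw [if_pos hk, if_pos hk]
        exact LVB_k f hk
      · rw [if_neg hk, if_neg hk]
        have := LVBA_nonneg f S
        linarith
    refine (sum_le_sum h5).trans (le_of_eq ?_)
    rw [← mul_sum, sum_add_distrib, sum_const, card_univ, Fintype.card_fin, nsmul_eq_mul]
    ring
  have hN : (0 : ℝ) ≤ 32 * ((n : ℝ) + 1) ^ 6 := by positivity
  have h6 := mul_le_mul_of_nonneg_left h4 hN
  have h7 := hc.trans h6
  linarith

private theorem LVB_D (f : Cf n → ℝ) :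
    ∑ S : Finset (Fin n), ∑ k : Fin n, (if k ∉ S then LVBD f S k else 0) ≤ Dir n f := by
  have h1 : ∑ x ∈ Om n, ∑ k : Fin n,
      (if k ∉ x.2.2 ∧ 1 ≤ x.1 k.castSucc then (f x - f (shA k x)) ^ 2 else 0) ≤ Dir n f := by
    unfold Dir
    refine sum_le_sum fun x _ => sum_le_sum fun k _ => ?_
    have h2 : 0 ≤ (if k ∉ x.2.2 ∧ 1 ≤ x.2.1 k.castSucc then (f x - f (shB k x)) ^ 2 else 0) := by
      split_ifs
      · exact sq_nonneg _
      · exact le_rfl
    have h3 : 0 ≤ (if k ∈ x.2.2 then (f x - f (unm k x)) ^ 2 else 0) := by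
      split_ifs
      · exact sq_nonneg _
      · exact le_rfl
    linarith
  refine le_trans (le_of_eq ?_) h1
  rw [LVB_sum]
  refine sum_congr rfl fun S _ => ?_
  have h4 : ∀ k ∈ (univ : Finset (Fin n)), (if k ∉ S then LVBD f S k else 0) =
      ∑ γ ∈ Gam n S, ∑ a ∈ Bx γ n, (if k ∉ S ∧ 1 ≤ a k.castSucc then
        (f (a, fun i => γ i - a i, S) - f (shA k (a, fun i => γ i - a i, S))) ^ 2 else 0) := by
    intro k _
    by_cases hk : k ∉ S
    · rw [if_pos hk]
      unfold LVBD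
      refine sum_congr rfl fun γ _ => ?_
      rw [sum_filter]
      refine sum_congr rfl fun a _ => ?_
      by_cases ha : 1 ≤ a k.castSucc
      · rw [if_pos ha, if_pos ⟨hk, ha⟩]
      · rw [if_neg ha, if_neg fun h => ha h.2]
    · rw [if_neg hk]
      symm
      refine sum_eq_zero fun γ _ => sum_eq_zero fun a _ => ?_
      rw [if_neg fun h => hk h.1]
  rw [sum_congr rfl h4, sum_comm]
  refine sum_congr rfl fun γ _ => ?_
  rw [sum_comm]

theorem lvb : ∃ C k : ℕ, ∀ (n : ℕ) (f : Cf n → ℝ),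
    ∑ S : Finset (Fin n), vr (XS n S) (fun p => f (p.1, p.2, S)) ≤
      (C : ℝ) * ((n : ℝ) + 1) ^ k * Dir n f := by
  refine ⟨4096 * 385 + 192, 18, fun n f => ?_⟩
  have hDir : 0 ≤ Dir n f := by
    refine le_trans ?_ (LVB_D f)
    refine sum_nonneg fun S _ => sum_nonneg fun k _ => ?_
    split_ifs
    · exact le_rfl
    · exact LVBD_nonneg f S k
  have h1 := sum_le_sum (s := (univ : Finset (Finset (Fin n)))) fun S _ => LVB_S f S
  rw [sum_add_distrib, ← mul_sum, sum_add_distrib, ← mul_sum] at h1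
  have h2 : ∑ S : Finset (Fin n), LVBA f S ≤ 4096 * ((n : ℝ) + 1) ^ 11 * Dir n f := lva n f
  have h3 := LVB_D f
  set A := ∑ S : Finset (Fin n), LVBA f S with hA
  set B := ∑ S : Finset (Fin n), ∑ k : Fin n, (if k ∉ S then LVBD f S k else 0) with hB
  set N : ℝ := (n : ℝ) + 1 with hN
  have hn : (0 : ℝ) ≤ n := Nat.cast_nonneg n
  have hN1 : 1 ≤ N := by rw [hN]; linarith
  have hnN : (n : ℝ) ≤ N := by rw [hN]; linarith
  have hN6 : 0 ≤ 192 * N ^ 6 := by positivity
  have h4 : A + 192 * N ^ 6 * (2 * n * A + B) ≤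
      A + 192 * N ^ 6 * (2 * N * A + B) := by
    have hA0 : 0 ≤ A := sum_nonneg fun S _ => LVBA_nonneg f S
    have : 2 * n * A ≤ 2 * N * A := by
      apply mul_le_mul_of_nonneg_right _ hA0
      linarith
    have := mul_le_mul_of_nonneg_left (add_le_add_left this B) hN6
    linarith
  have h5 : A + 192 * N ^ 6 * (2 * N * A + B) = (1 + 384 * N ^ 7) * A + 192 * N ^ 6 * B := by ring
  have h6 : (1 + 384 * N ^ 7) * A ≤ (1 + 384 * N ^ 7) * (4096 * N ^ 11 * Dir n f) :=
    mul_le_mul_of_nonneg_left h2 (by positivity)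
  have h7 : 192 * N ^ 6 * B ≤ 192 * N ^ 6 * Dir n f := mul_le_mul_of_nonneg_left h3 hN6
  have h8 : (1 : ℝ) ≤ N ^ 7 := one_le_pow₀ hN1
  have h9 : (1 + 384 * N ^ 7) * (4096 * N ^ 11 * Dir n f) ≤
      (385 * N ^ 7) * (4096 * N ^ 11 * Dir n f) := by
    apply mul_le_mul_of_nonneg_right
    · linarith
    · positivity
  have h10 : N ^ 6 ≤ N ^ 18 := pow_le_pow_right₀ hN1 (by norm_num)
  have h11 : 192 * N ^ 6 * Dir n f ≤ 192 * N ^ 18 * Dir n f := by
    apply mul_le_mul_of_nonneg_right _ hDir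
    linarith
  have h12 : (385 * N ^ 7) * (4096 * N ^ 11 * Dir n f) + 192 * N ^ 18 * Dir n f =
      ((4096 * 385 + 192 : ℕ) : ℝ) * N ^ 18 * Dir n f := by
    push_cast
    ring
  linarith

end Pool.Agent.FLP
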