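import Pool.Agent.FLP.VRB

/-!
Contraction. q symmetric, with out-rates sum_{y ≠ x} q x y <= 5/6. Put h_t = step^t μ - 1/|s| on s: then
h_{t+1} x = h_t x - L h_t x, L h x = sum_{y in s \ x} q x y (h x - h y) (q symmetric), and sum_s h_t = 0 (the
sum is preserved, since sum_x L h x = 0). Let E h = sum_x sum_{y ≠ x} q x y (h x - h y)^2, so
<h, L h> = E h / 2. By Cauchy-Schwarz (L h x)^2 <= (5/6) sum_y q x y (h x - h y)^2, so |L h|^2 <=
(5/6) E h and |h - L h|^2 <= |h|^2 - E h + (5/6) E h = |h|^2 - E h / 6. Poincare: |h|^2 = vr s h <= Λ E h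
(the average is 0). So |h_{t+1}|^2 <= (1 - 1/(6Λ)) |h_t|^2, |h_0|^2 = 1 - 1/|s| <= 1, and by
Cauchy-Schwarz (sum |h_t|)^2 <= |s| |h_t|^2. Only the values on s matter.
-/

open Finset

namespace Pool.Agent.FLP

/-- one step of the contraction -/
private theorem mk1_aux {X : Type*} [DecidableEq X] (s : Finset X) (q : X → X → ℝ)
    (hq : ∀ x ∈ s, ∀ y ∈ s, 0 ≤ q x y) (hs : ∀ x ∈ s, ∀ y ∈ s, q x y = q y x)
    (h56 : ∀ x ∈ s, ∑ y ∈ s.erase x, q x y ≤ 5 / 6) {Λ : ℝ} (hΛ : 1 ≤ Λ)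
    (hP : ∀ h : X → ℝ, vr s h ≤ Λ * ∑ x ∈ s, ∑ y ∈ s.erase x, q x y * (h x - h y) ^ 2)
    (h h' : X → ℝ) (h0 : ∑ x ∈ s, h x = 0)
    (hh : ∀ x ∈ s, h' x = h x - ∑ y ∈ s.erase x, q x y * (h x - h y)) :
    ∑ x ∈ s, h' x = 0 ∧ ∑ x ∈ s, (h' x) ^ 2 ≤ (1 - 1 / (6 * Λ)) * ∑ x ∈ s, (h x) ^ 2 := by
  have full1 : ∀ x, ∑ y ∈ s.erase x, q x y * (h x - h y) = ∑ y ∈ s, q x y * (h x - h y) := by
    intro x
    apply Finset.sum_erase
    simp
  have full2 : ∀ x, ∑ y ∈ s.erase x, q x y * (h x - h y) ^ 2 =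
      ∑ y ∈ s, q x y * (h x - h y) ^ 2 := by
    intro x
    apply Finset.sum_erase
    simp
  set L : X → ℝ := fun x => ∑ y ∈ s, q x y * (h x - h y) with hL
  set E : ℝ := ∑ x ∈ s, ∑ y ∈ s, q x y * (h x - h y) ^ 2 with hE
  have hh2 : ∀ x ∈ s, h' x = h x - L x := by
    intro x hx
    rw [hh x hx, full1]
  have anti : ∑ x ∈ s, L x = 0 := by
    have e1 : ∑ x ∈ s, L x = ∑ x ∈ s, ∑ y ∈ s, q x y * (h x - h y) := rfl
    have e2 : ∑ x ∈ s, ∑ y ∈ s, q x y * (h x - h y) = ∑ x ∈ s, ∑ y ∈ s, q y x * (h y - h x) := by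
      rw [Finset.sum_comm]
    have e3 : ∑ x ∈ s, ∑ y ∈ s, q y x * (h y - h x) = -∑ x ∈ s, ∑ y ∈ s, q x y * (h x - h y) := by
      rw [← Finset.sum_neg_distrib]
      apply Finset.sum_congr rfl
      intro x hx
      rw [← Finset.sum_neg_distrib]
      apply Finset.sum_congr rfl
      intro y hy
      rw [hs y hy x hx]
      ring
    rw [e1]
    linarith
  have energy : 2 * ∑ x ∈ s, h x * L x = E := by
    have e1 : ∑ x ∈ s, h x * L x = ∑ x ∈ s, ∑ y ∈ s, q x y * (h x * (h x - h y)) := by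
      apply Finset.sum_congr rfl
      intro x _
      rw [hL]
      simp only
      rw [Finset.mul_sum]
      apply Finset.sum_congr rfl
      intro y _
      ring
    have e2 : ∑ x ∈ s, ∑ y ∈ s, q x y * (h x * (h x - h y)) =
        ∑ x ∈ s, ∑ y ∈ s, q x y * (-(h y * (h x - h y))) := by
      rw [Finset.sum_comm]
      apply Finset.sum_congr rfl
      intro x hx
      apply Finset.sum_congr rfl
      intro y hy
      rw [hs y hy x hx]
      ring
    have e3 : E = ∑ x ∈ s, ∑ y ∈ s, q x y * (h x * (h x - h y)) +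
        ∑ x ∈ s, ∑ y ∈ s, q x y * (-(h y * (h x - h y))) := by
      rw [← Finset.sum_add_distrib]
      apply Finset.sum_congr rfl
      intro x _
      rw [← Finset.sum_add_distrib]
      apply Finset.sum_congr rfl
      intro y _
      ring
    rw [e3, ← e2, ← e1]
    ring
  have cs : ∑ x ∈ s, (L x) ^ 2 ≤ 5 / 6 * E := by
    rw [hE, Finset.mul_sum]
    apply Finset.sum_le_sum
    intro x hx
    have e1 : (∑ y ∈ s.erase x, q x y * (h x - h y)) ^ 2 ≤
        (∑ y ∈ s.erase x, q x y) * ∑ y ∈ s.erase x, q x y * (h x - h y) ^ 2 := by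
      apply Finset.sum_sq_le_sum_mul_sum_of_sq_eq_mul
      · intro y hy
        exact hq x hx y (Finset.mem_of_mem_erase hy)
      · intro y hy
        exact mul_nonneg (hq x hx y (Finset.mem_of_mem_erase hy)) (sq_nonneg _)
      · intro y _
        ring
    rw [full1, full2] at e1
    have e2 : 0 ≤ ∑ y ∈ s, q x y * (h x - h y) ^ 2 :=
      Finset.sum_nonneg fun y hy => mul_nonneg (hq x hx y hy) (sq_nonneg _)
    calc (L x) ^ 2 ≤ (∑ y ∈ s.erase x, q x y) * ∑ y ∈ s, q x y * (h x - h y) ^ 2 := e1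
      _ ≤ 5 / 6 * ∑ y ∈ s, q x y * (h x - h y) ^ 2 := mul_le_mul_of_nonneg_right (h56 x hx) e2
  have sum' : ∑ x ∈ s, h' x = 0 := by
    rw [Finset.sum_congr rfl hh2, Finset.sum_sub_distrib, h0, anti]
    simp
  refine ⟨sum', ?_⟩
  have sq' : ∑ x ∈ s, (h' x) ^ 2 = ∑ x ∈ s, (h x) ^ 2 - 2 * ∑ x ∈ s, h x * L x +
      ∑ x ∈ s, (L x) ^ 2 := by
    rw [Finset.mul_sum, ← Finset.sum_sub_distrib, ← Finset.sum_add_distrib]
    apply Finset.sum_congr rfl
    intro x hx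
    rw [hh2 x hx]
    ring
  have poin : ∑ x ∈ s, (h x) ^ 2 ≤ Λ * E := by
    have e1 := hP h
    have e2 : vr s h = ∑ x ∈ s, (h x) ^ 2 := by
      unfold vr av
      rw [h0]
      simp
    have e3 : ∑ x ∈ s, ∑ y ∈ s.erase x, q x y * (h x - h y) ^ 2 = E := by
      rw [hE]
      apply Finset.sum_congr rfl
      intro x _
      exact full2 x
    rw [e2, e3] at e1
    exact e1
  have hΛ0 : 0 < Λ := by linarith
  have e5 : (1 / Λ) * ∑ x ∈ s, (h x) ^ 2 ≤ E := by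
    rw [one_div, inv_mul_le_iff₀ hΛ0]
    exact poin
  have e6 : 1 / (6 * Λ) = 1 / 6 * (1 / Λ) := by
    field_simp
  rw [sq', energy, e6]
  linarith

theorem mk1 {X : Type*} [DecidableEq X] (s : Finset X) (q : X → X → ℝ)
    (hq : ∀ x ∈ s, ∀ y ∈ s, 0 ≤ q x y) (hs : ∀ x ∈ s, ∀ y ∈ s, q x y = q y x)
    (h56 : ∀ x ∈ s, ∑ y ∈ s.erase x, q x y ≤ 5 / 6) {Λ : ℝ} (hΛ : 1 ≤ Λ)
    (hP : ∀ h : X → ℝ, vr s h ≤ Λ * ∑ x ∈ s, ∑ y ∈ s.erase x, q x y * (h x - h y) ^ 2)
    (step : (X → ℝ) → (X → ℝ))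
    (hstep : ∀ μ : X → ℝ, ∀ x, step μ x = μ x * (1 - ∑ y ∈ s.erase x, q x y) +
      ∑ y ∈ s.erase x, μ y * q y x) (x₀ : X) (hx₀ : x₀ ∈ s) (t : ℕ) :
    (∑ x ∈ s, |(step^[t] (fun x => if x = x₀ then (1 : ℝ) else 0)) x - 1 / (s.card : ℝ)|) ^ 2 ≤
      (s.card : ℝ) * (1 - 1 / (6 * Λ)) ^ t := by
  have hcard : (0 : ℝ) < s.card := by
    have : 0 < s.card := Finset.card_pos.mpr ⟨x₀, hx₀⟩
    exact_mod_cast this
  have hone : (1 : ℝ) ≤ s.card := by
    have : 1 ≤ s.card := Finset.card_pos.mpr ⟨x₀, hx₀⟩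
    exact_mod_cast this
  have e0 : 0 ≤ 1 - 1 / (6 * Λ) := by
    have : 1 / (6 * Λ) ≤ 1 := by
      rw [div_le_one (by linarith)]
      linarith
    linarith
  have inv : ∀ t : ℕ, ∑ x ∈ s, ((step^[t] (fun x => if x = x₀ then (1 : ℝ) else 0)) x -
        1 / (s.card : ℝ)) = 0 ∧
      ∑ x ∈ s, ((step^[t] (fun x => if x = x₀ then (1 : ℝ) else 0)) x -
        1 / (s.card : ℝ)) ^ 2 ≤ (1 - 1 / (6 * Λ)) ^ t := by
    intro t
    induction t with
    | zero =>
      simp only [Function.iterate_zero, id_eq, pow_zero]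
      have a1 : ∑ x ∈ s, (if x = x₀ then (1 : ℝ) else 0) = 1 := by
        rw [Finset.sum_ite_eq' s x₀]
        simp [hx₀]
      constructor
      · rw [Finset.sum_sub_distrib, a1, Finset.sum_const, nsmul_eq_mul]
        field_simp
        ring
      · have a2 : ∀ x ∈ s, ((if x = x₀ then (1 : ℝ) else 0) - 1 / (s.card : ℝ)) ^ 2 =
            (1 - 2 / (s.card : ℝ)) * (if x = x₀ then (1 : ℝ) else 0) + (1 / (s.card : ℝ)) ^ 2 := by
          intro x _
          split_ifs <;> ring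
        rw [Finset.sum_congr rfl a2, Finset.sum_add_distrib, ← Finset.mul_sum, a1,
          Finset.sum_const, nsmul_eq_mul]
        have a3 : (s.card : ℝ) * (1 / (s.card : ℝ)) ^ 2 = 1 / (s.card : ℝ) := by
          field_simp
        have a4 : 2 / (s.card : ℝ) = 2 * (1 / (s.card : ℝ)) := by ring
        rw [a3, a4]
        have a5 : 0 < 1 / (s.card : ℝ) := by positivity
        linarith
    | succ t ih =>
      obtain ⟨i1, i2⟩ := ih
      rw [Function.iterate_succ_apply']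
      set μ := step^[t] (fun x => if x = x₀ then (1 : ℝ) else 0) with hμ
      have key := mk1_aux s q hq hs h56 hΛ hP (fun x => μ x - 1 / (s.card : ℝ))
        (fun x => step μ x - 1 / (s.card : ℝ)) i1 (by
          intro x hx
          change step μ x - 1 / (s.card : ℝ) = μ x - 1 / (s.card : ℝ) -
            ∑ y ∈ s.erase x, q x y * (μ x - 1 / (s.card : ℝ) - (μ y - 1 / (s.card : ℝ)))
          rw [hstep μ x]
          have b1 : ∑ y ∈ s.erase x, μ y * q y x = ∑ y ∈ s.erase x, μ y * q x y := by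
            apply Finset.sum_congr rfl
            intro y hy
            rw [hs x hx y (Finset.mem_of_mem_erase hy)]
          have b2 : ∑ y ∈ s.erase x, q x y * (μ x - 1 / (s.card : ℝ) - (μ y - 1 / (s.card : ℝ))) =
              μ x * ∑ y ∈ s.erase x, q x y - ∑ y ∈ s.erase x, μ y * q x y := by
            rw [Finset.mul_sum, ← Finset.sum_sub_distrib]
            apply Finset.sum_congr rfl
            intro y _
            ring
          rw [b1, b2]
          ring)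
      refine ⟨key.1, key.2.trans ?_⟩
      rw [pow_succ']
      exact mul_le_mul_of_nonneg_left i2 e0
  have h1 := (inv t).2
  have h2 : (∑ x ∈ s, |(step^[t] (fun x => if x = x₀ then (1 : ℝ) else 0)) x -
      1 / (s.card : ℝ)|) ^ 2 ≤ (s.card : ℝ) * ∑ x ∈ s,
        |(step^[t] (fun x => if x = x₀ then (1 : ℝ) else 0)) x - 1 / (s.card : ℝ)| ^ 2 :=
    sq_sum_le_card_mul_sum_sq
  refine h2.trans ?_
  simp only [sq_abs]
  exact mul_le_mul_of_nonneg_left h1 hcard.le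

end Pool.Agent.FLP
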