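import Pool.Agent.FLP.Defs

/-!
The final estimate. (1 - 1/(6Λ))^t <= exp(-t/(6Λ)), N <= exp(3 (n+1)^2). It is enough that N exp(-t/(6Λ))
<= (2 ε)^2, i.e. t >= 6 Λ (3 (n+1)^2 + 2 log (1/(2ε))), and log (1/(2ε)) <= 1/ε. So t >= 6 C (n+1)^k
(3 (n+1)^2 + 2/ε) is enough; with y = 2 + n + 1/ε this is at most 30 C y^(k+2): C' = 30 C + 1, k' = k + 2.
-/

open Finset

namespace Pool.Agent.FLP

theorem mk2 (C k : ℕ) : ∃ C' k' : ℕ, ∀ (n N t : ℕ) (Λ ε z : ℝ), N ≤ 2 ^ (3 * (n + 1) ^ 2) →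
    1 ≤ Λ → Λ ≤ (C : ℝ) * ((n : ℝ) + 1) ^ k → 0 < ε → 0 ≤ z →
    z ^ 2 ≤ (N : ℝ) * (1 - 1 / (6 * Λ)) ^ t →
    (C' : ℝ) * ((2 : ℝ) + (n : ℝ) + 1 / ε) ^ k' ≤ (t : ℝ) → (1 / 2 : ℝ) * z ≤ ε := by
  refine ⟨30 * C + 1, k + 2, ?_⟩
  intro n N t Λ ε z hN hΛ hΛC hε hz hz2 ht
  have hu : 0 < 1 / ε := by positivity
  set u : ℝ := 1 / ε with hudef
  set y : ℝ := 2 + (n : ℝ) + u with hy
  have hn : (0 : ℝ) ≤ n := Nat.cast_nonneg n
  have hC : (0 : ℝ) ≤ C := Nat.cast_nonneg C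
  have hy2 : 2 ≤ y := by rw [hy]; linarith
  have hny : (n : ℝ) + 1 ≤ y := by rw [hy]; linarith
  have huy : u ≤ y ^ 2 := by
    have : u ≤ y := by rw [hy]; linarith
    nlinarith
  have hyk : 0 ≤ y ^ k := by positivity
  have hkey : 6 * Λ * (3 * ((n : ℝ) + 1) ^ 2 + u) ≤ t := by
    have e1 : Λ ≤ C * y ^ k := hΛC.trans
      (mul_le_mul_of_nonneg_left (pow_le_pow_left₀ (by linarith) hny k) hC)
    have e2 : 3 * ((n : ℝ) + 1) ^ 2 + u ≤ 4 * y ^ 2 := by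
      have : ((n : ℝ) + 1) ^ 2 ≤ y ^ 2 := pow_le_pow_left₀ (by linarith) hny 2
      linarith
    have e3 : 6 * Λ * (3 * ((n : ℝ) + 1) ^ 2 + u) ≤ 6 * (C * y ^ k) * (4 * y ^ 2) := by
      apply mul_le_mul _ e2 (by positivity) (by positivity)
      linarith
    have e4 : 6 * (C * y ^ k) * (4 * y ^ 2) = 24 * C * y ^ (k + 2) := by
      rw [pow_add]; ring
    have e5 : 24 * (C : ℝ) * y ^ (k + 2) ≤ ((30 * C + 1 : ℕ) : ℝ) * y ^ (k + 2) := by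
      apply mul_le_mul_of_nonneg_right _ (by positivity)
      push_cast
      linarith
    linarith
  have hΛ0 : 0 < 6 * Λ := by linarith
  have h1 : 3 * ((n : ℝ) + 1) ^ 2 + u ≤ t / (6 * Λ) := by
    rw [le_div_iff₀ hΛ0]
    linarith
  have h2 : (1 - 1 / (6 * Λ)) ^ t ≤ Real.exp (-(t / (6 * Λ))) := by
    have e1 : 1 - 1 / (6 * Λ) ≤ Real.exp (-(1 / (6 * Λ))) := by
      have := Real.add_one_le_exp (-(1 / (6 * Λ)))
      linarith
    have e0 : 0 ≤ 1 - 1 / (6 * Λ) := by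
      have : 1 / (6 * Λ) ≤ 1 := by
        rw [div_le_one hΛ0]
        linarith
      linarith
    calc (1 - 1 / (6 * Λ)) ^ t ≤ (Real.exp (-(1 / (6 * Λ)))) ^ t := pow_le_pow_left₀ e0 e1 t
      _ = Real.exp (-(t / (6 * Λ))) := by
        rw [← Real.exp_nat_mul]
        congr 1
        ring
  have h3 : (N : ℝ) ≤ Real.exp (3 * ((n : ℝ) + 1) ^ 2) := by
    have e1 : (N : ℝ) ≤ (2 : ℝ) ^ (3 * (n + 1) ^ 2) := by exact_mod_cast hN
    have e2 : (2 : ℝ) ≤ Real.exp 1 := by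
      have := Real.add_one_le_exp (1 : ℝ)
      linarith
    refine e1.trans ?_
    calc (2 : ℝ) ^ (3 * (n + 1) ^ 2) ≤ (Real.exp 1) ^ (3 * (n + 1) ^ 2) :=
          pow_le_pow_left₀ (by norm_num) e2 _
      _ = Real.exp (3 * ((n : ℝ) + 1) ^ 2) := by
        rw [← Real.exp_nat_mul]
        congr 1
        push_cast
        ring
  have h4 : z ^ 2 ≤ Real.exp (-u) := by
    calc z ^ 2 ≤ (N : ℝ) * (1 - 1 / (6 * Λ)) ^ t := hz2
      _ ≤ (N : ℝ) * Real.exp (-(t / (6 * Λ))) := mul_le_mul_of_nonneg_left h2 (Nat.cast_nonneg N)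
      _ ≤ Real.exp (3 * ((n : ℝ) + 1) ^ 2) * Real.exp (-(t / (6 * Λ))) :=
        mul_le_mul_of_nonneg_right h3 (Real.exp_pos _).le
      _ = Real.exp (3 * ((n : ℝ) + 1) ^ 2 + -(t / (6 * Λ))) := by rw [Real.exp_add]
      _ ≤ Real.exp (-u) := by
        apply Real.exp_le_exp.mpr
        linarith
  have h5 : Real.exp (-u) ≤ (2 * ε) ^ 2 := by
    have e1 := Real.quadratic_le_exp_of_nonneg hu.le
    have e2 : ε * u = 1 := by rw [hudef]; field_simp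
    have e3 : u ^ 2 ≤ 4 * Real.exp u := by nlinarith
    rw [Real.exp_neg, inv_eq_one_div, div_le_iff₀ (Real.exp_pos u)]
    have e4 : 1 = ε ^ 2 * u ^ 2 := by
      rw [← mul_pow, e2]; norm_num
    nlinarith [mul_le_mul_of_nonneg_left e3 (sq_nonneg ε)]
  have h6 : z ^ 2 ≤ (2 * ε) ^ 2 := h4.trans h5
  have h7 : z ≤ 2 * ε := by
    apply le_of_sq_le_sq _ (by positivity)
    exact h6
  linarith

end Pool.Agent.FLP
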