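import Pool.Agent.FLP.Bas

/-!
Om n is contained in a product of cardinality ((n+1)^(n+1))^2 * 2^n <= 2^(2(n+1)^2 + n).
-/

open Finset

namespace Pool.Agent.FLP

theorem om_card (n : ℕ) : (Om n).card ≤ 2 ^ (3 * (n + 1) ^ 2) := by
  have h1 : (Om n).card ≤ ((n + 1) ^ (n + 1)) * (((n + 1) ^ (n + 1)) * 2 ^ n) := by
    unfold Om
    refine (card_filter_le _ _).trans ?_
    rw [card_product, card_product, Fintype.card_piFinset]
    simp
  refine h1.trans ?_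
  have h2 : n + 1 ≤ 2 ^ (n + 1) := Nat.lt_two_pow_self.le
  have h3 : (n + 1) ^ (n + 1) ≤ 2 ^ ((n + 1) * (n + 1)) := by
    rw [pow_mul]
    exact Nat.pow_le_pow_left h2 _
  have h4 : 2 ^ n ≤ 2 ^ ((n + 1) * (n + 1)) := Nat.pow_le_pow_right (by norm_num) (by nlinarith)
  calc ((n + 1) ^ (n + 1)) * (((n + 1) ^ (n + 1)) * 2 ^ n)
      ≤ 2 ^ ((n + 1) * (n + 1)) * (2 ^ ((n + 1) * (n + 1)) * 2 ^ ((n + 1) * (n + 1))) :=
        Nat.mul_le_mul h3 (Nat.mul_le_mul h3 h4)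
    _ = 2 ^ (3 * (n + 1) ^ 2) := by
        rw [← pow_add, ← pow_add]
        congr 1
        ring

end Pool.Agent.FLP
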