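import Pool.Agent.FLP.PNC
import Pool.Agent.FLP.OCD
import Pool.Agent.FLP.MK1
import Pool.Agent.FLP.MK2
import Pool.Agent.FLP.KCT
import Pool.Agent.FLP.DEG
import Pool.Agent.FLP.FDR
import Pool.Agent.FLP.GEO

/-!
Final assembly.
-/

open Finset

namespace Pool.Agent.FLP

theorem fn_adj {n : ℕ} (x y : Cf n) :
    ((Fn x \ Fn y).card = 1 ∧ (Fn y \ Fn x).card = 1) ↔ adj x y := by
  rw [fn_sdiff, fn_sdiff, adj]

open Classical in
theorem fn_K {n : ℕ} (hn : 1 ≤ n) {x : Cf n} (hx : x ∈ Om n) :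
    ((Fn x).filter (fun e => ¬ ((∀ p ∈ e, p.1 = 0) ∨ (∀ p ∈ e, p.1 = 2) ∨
        (∀ p ∈ e, p.2 = 0) ∨ (∀ p ∈ e, p.2 = (n : ℤ))))).card = 5 * n - 2 := by
  rw [← kct hn hx]
  unfold Fn
  rw [filter_image, card_image_of_injective _ toF_inj]
  congr 1
  apply filter_congr
  intro c hc
  rw [bdf ((mxa hx).ok c hc)]

/-- Poincaré inequality for the neighbour relation. -/
theorem pnc_adj : ∃ C k : ℕ, ∀ (n : ℕ) (f : Cf n → ℝ), 1 ≤ n →
    vr (Om n) f ≤ (C : ℝ) * ((n : ℝ) + 1) ^ k *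
      ∑ x ∈ Om n, ∑ y ∈ (Om n).filter (fun y => adj x y), (f x - f y) ^ 2 := by
  obtain ⟨C, k, h⟩ := pnc
  refine ⟨3 * C, k + 1, fun n f _ => ?_⟩
  have h1 := h n f
  have h2 := fdr n f
  set A := ∑ x ∈ Om n, ∑ y ∈ (Om n).filter (fun y => adj x y), (f x - f y) ^ 2 with hA
  have hA0 : 0 ≤ A := sum_nonneg fun x _ => sum_nonneg fun y _ => sq_nonneg _
  have hn0 : (0 : ℝ) ≤ (n : ℝ) := Nat.cast_nonneg n
  have hC0 : (0 : ℝ) ≤ (C : ℝ) := Nat.cast_nonneg C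
  calc vr (Om n) f ≤ (C : ℝ) * ((n : ℝ) + 1) ^ k * Dir n f := h1
    _ ≤ (C : ℝ) * ((n : ℝ) + 1) ^ k * (3 * (n : ℝ) * A) := by gcongr
    _ ≤ (C : ℝ) * ((n : ℝ) + 1) ^ k * (3 * ((n : ℝ) + 1) * A) := by gcongr; linarith
    _ = ((3 * C : ℕ) : ℝ) * ((n : ℝ) + 1) ^ (k + 1) * A := by
      push_cast
      ring

open Classical in
/-- The flip chain on the unimodular triangulations of the `2 × n` rectangle mixes in polynomial
time. -/
theorem main :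
  ∃ C k : ℕ, ∀ n : ℕ, 1 ≤ n →
  ∀ toR : ℤ × ℤ → ℝ × ℝ, (∀ p, toR p = ((p.1 : ℝ), (p.2 : ℝ))) →
  ∀ valid : Finset (ℤ × ℤ) → Prop,
    (∀ e, valid e ↔ (e.card = 2 ∧
      (∀ p ∈ e, 0 ≤ p.1 ∧ p.1 ≤ 2 ∧ 0 ≤ p.2 ∧ p.2 ≤ (n : ℤ)) ∧
      ∀ z : ℤ × ℤ, toR z ∈ convexHull ℝ (toR '' (e : Set (ℤ × ℤ))) → z ∈ e)) →
  ∀ compat : Finset (ℤ × ℤ) → Finset (ℤ × ℤ) → Prop,
    (∀ e f, compat e f ↔ ∀ x ∈ convexHull ℝ (toR '' (e : Set (ℤ × ℤ))) ∩
        convexHull ℝ (toR '' (f : Set (ℤ × ℤ))),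
        x ∈ toR '' ((e ∩ f : Finset (ℤ × ℤ)) : Set (ℤ × ℤ))) →
  ∀ S : Finset (Finset (Finset (ℤ × ℤ))),
    (∀ T, T ∈ S ↔ ((∀ e ∈ T, valid e) ∧
      (∀ e ∈ T, ∀ f ∈ T, e ≠ f → compat e f) ∧
      (∀ e, valid e → (∀ f ∈ T, f ≠ e → compat e f) → e ∈ T))) →
  ∀ K : Finset (Finset (ℤ × ℤ)) → ℕ,
    (∀ T, K T = (T.filter (fun e => ¬ ((∀ p ∈ e, p.1 = 0) ∨ (∀ p ∈ e, p.1 = 2) ∨
        (∀ p ∈ e, p.2 = 0) ∨ (∀ p ∈ e, p.2 = (n : ℤ))))).card) →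
  ∀ q : Finset (Finset (ℤ × ℤ)) → Finset (Finset (ℤ × ℤ)) → ℝ,
    (∀ T T', q T T' = if (T \ T').card = 1 ∧ (T' \ T).card = 1
        then 1 / (2 * (K T : ℝ)) else 0) →
  ∀ step : (Finset (Finset (ℤ × ℤ)) → ℝ) → (Finset (Finset (ℤ × ℤ)) → ℝ),
    (∀ μ T', step μ T' = μ T' * (1 - ∑ T'' ∈ S.erase T', q T' T'')
        + ∑ T ∈ S.erase T', μ T * q T T') →
  ∀ ε : ℝ, 0 < ε → ∀ T0 ∈ S, ∀ t : ℕ,
    (C : ℝ) * ((2 : ℝ) + (n : ℝ) + 1 / ε) ^ k ≤ (t : ℝ) →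
    (1 / 2 : ℝ) * ∑ T ∈ S,
      |(step^[t] (fun T => if T = T0 then (1 : ℝ) else 0)) T - 1 / (S.card : ℝ)| ≤ ε := by
  obtain ⟨C₁, k₁, hP⟩ := pnc_adj
  obtain ⟨C', k', h2⟩ := mk2 (10 * C₁ + 1) (k₁ + 1)
  refine ⟨C', k', ?_⟩
  intro n hn toR' htoR valid hvalid compat hcompat S hS K hK q hq step hstep ε hε T0 hT0 t ht
  classical
  have e1 : toR' = toR := funext fun p => htoR p
  subst e1
  have hval : ∀ e, valid e ↔ vld n e := fun e => hvalid e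
  have hcom : ∀ e f, compat e f ↔ cpt e f := fun e f => hcompat e f
  have hSS : S = (Om n).image Fn := by
    ext T
    rw [hS, geo]
    simp only [hval, hcom]
  have hn1 : (1 : ℝ) ≤ (n : ℝ) := by exact_mod_cast hn
  have hKx : ∀ x ∈ Om n, (K (Fn x) : ℝ) = 5 * (n : ℝ) - 2 := by
    intro x hx
    have h1 := fn_K hn hx
    have h3 : K (Fn x) = 5 * n - 2 := by
      rw [hK, ← h1]
    rw [h3, Nat.cast_sub (by omega)]
    push_cast
    ring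
  set κ : ℝ := 2 * (5 * (n : ℝ) - 2) with hκ
  have hκ0 : 0 < κ := by rw [hκ]; linarith
  have hqx : ∀ x ∈ Om n, ∀ y, q (Fn x) (Fn y) = if adj x y then 1 / κ else 0 := by
    intro x hx y
    rw [hq, hKx x hx]
    by_cases h : adj x y
    · rw [if_pos h, if_pos ((fn_adj x y).mpr h)]
    · rw [if_neg h, if_neg (fun h' => h ((fn_adj x y).mp h'))]
  have hne : ∀ x y : Cf n, adj x y → y ≠ x := by
    rintro x y h rfl
    have := h.1
    simp at this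
  have hsum : ∀ x ∈ Om n, ∀ g : Finset (Finset (ℤ × ℤ)) → ℝ,
      ∑ T ∈ S.erase (Fn x), q (Fn x) T * g T =
        1 / κ * ∑ y ∈ (Om n).filter (fun y => adj x y), g (Fn y) := by
    intro x hx g
    have h4 : S.erase (Fn x) = ((Om n).erase x).image Fn := by
      rw [hSS]
      ext T
      simp only [mem_erase, mem_image]
      constructor
      · rintro ⟨h5, y, hy, rfl⟩
        exact ⟨y, ⟨fun h => h5 (by rw [h]), hy⟩, rfl⟩
      · rintro ⟨y, ⟨h5, hy⟩, rfl⟩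
        exact ⟨fun h => h5 (fn_inj (by exact_mod_cast hy) (by exact_mod_cast hx) h), y, hy, rfl⟩
    rw [h4, sum_image (fun a ha b hb hab => fn_inj
      (by exact_mod_cast (mem_erase.mp ha).2) (by exact_mod_cast (mem_erase.mp hb).2) hab)]
    have h5 : ∀ y ∈ (Om n).erase x, q (Fn x) (Fn y) * g (Fn y) =
        if adj x y then 1 / κ * g (Fn y) else 0 := by
      intro y _
      rw [hqx x hx y]
      split_ifs <;> ring
    rw [sum_congr rfl h5, ← sum_filter, mul_sum]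
    apply sum_congr
    · ext y
      simp only [mem_filter, mem_erase]
      constructor
      · rintro ⟨⟨_, h6⟩, h7⟩
        exact ⟨h6, h7⟩
      · rintro ⟨h6, h7⟩
        exact ⟨⟨hne x y h7, h6⟩, h7⟩
    · intro y _
      rfl
  set Λ : ℝ := ((C₁ : ℝ) * ((n : ℝ) + 1) ^ k₁) * κ + 1 with hΛ
  have hC0 : (0 : ℝ) ≤ (C₁ : ℝ) * ((n : ℝ) + 1) ^ k₁ := by positivity
  have hΛ1 : 1 ≤ Λ := by
    rw [hΛ]
    have := mul_nonneg hC0 hκ0.le
    linarith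
  have key := mk1 S q ?_ ?_ ?_ hΛ1 ?_ step hstep T0 hT0 t
  · refine h2 n S.card t Λ ε _ ?_ hΛ1 ?_ hε ?_ key ht
    · rw [hSS]
      exact card_image_le.trans (om_card n)
    · rw [hΛ, hκ]
      have h6 : (1 : ℝ) ≤ ((n : ℝ) + 1) ^ (k₁ + 1) := one_le_pow₀ (by linarith)
      have h7 : ((n : ℝ) + 1) ^ k₁ * (2 * (5 * (n : ℝ) - 2)) ≤ 10 * ((n : ℝ) + 1) ^ (k₁ + 1) := by
        rw [pow_succ]
        have h8 : (0 : ℝ) ≤ ((n : ℝ) + 1) ^ k₁ := by positivity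
        nlinarith
      have h9 := mul_le_mul_of_nonneg_left h7 (Nat.cast_nonneg (α := ℝ) C₁)
      push_cast
      nlinarith
    · exact sum_nonneg fun _ _ => abs_nonneg _
  · intro x _ y _
    rw [hq]
    split_ifs
    · positivity
    · exact le_refl _
  · intro X hX Y hY
    rw [hSS, mem_image] at hX hY
    obtain ⟨x, hx, rfl⟩ := hX
    obtain ⟨y, hy, rfl⟩ := hY
    rw [hqx x hx, hqx y hy]
    have h3 : adj x y ↔ adj y x := by
      unfold adj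
      exact and_comm
    by_cases h : adj x y
    · rw [if_pos h, if_pos (h3.mp h)]
    · rw [if_neg h, if_neg (fun h' => h (h3.mpr h'))]
  · intro X hX
    rw [hSS, mem_image] at hX
    obtain ⟨x, hx, rfl⟩ := hX
    have h3 := hsum x hx (fun _ => 1)
    simp only [mul_one, sum_const, nsmul_eq_mul] at h3
    rw [h3]
    have h4 : (((Om n).filter fun y => adj x y).card : ℝ) ≤ 5 * (n : ℝ) := by
      exact_mod_cast deg hx
    rw [one_div, inv_mul_le_iff₀ hκ0, hκ]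
    linarith
  · intro h
    have h3 : vr S h = vr (Om n) (fun x => h (Fn x)) := by
      rw [hSS]
      exact vr_image _ _ fn_inj h
    rw [h3]
    have h4 := hP n (fun x => h (Fn x)) hn
    have h5 : ∑ X ∈ S, ∑ Y ∈ S.erase X, q X Y * (h X - h Y) ^ 2 =
        1 / κ * ∑ x ∈ Om n, ∑ y ∈ (Om n).filter (fun y => adj x y),
          (h (Fn x) - h (Fn y)) ^ 2 := by
      rw [show (∑ X ∈ S, ∑ Y ∈ S.erase X, q X Y * (h X - h Y) ^ 2) =
        ∑ X ∈ (Om n).image Fn, ∑ Y ∈ S.erase X, q X Y * (h X - h Y) ^ 2 by rw [← hSS]]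
      rw [sum_image (fun a ha b hb hab => fn_inj (by exact_mod_cast ha)
        (by exact_mod_cast hb) hab), mul_sum]
      apply sum_congr rfl
      intro x hx
      exact hsum x hx (fun Y => (h (Fn x) - h Y) ^ 2)
    rw [h5, hΛ]
    set A := ∑ x ∈ Om n, ∑ y ∈ (Om n).filter (fun y => adj x y),
          (h (Fn x) - h (Fn y)) ^ 2 with hA
    have hA0 : 0 ≤ A := sum_nonneg fun x _ => sum_nonneg fun y _ => sq_nonneg _
    have h6 : ((C₁ : ℝ) * ((n : ℝ) + 1) ^ k₁ * κ + 1) * (1 / κ * A) =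
        (C₁ : ℝ) * ((n : ℝ) + 1) ^ k₁ * A + 1 / κ * A := by
      have h8 : κ * (1 / κ) = 1 := mul_one_div_cancel hκ0.ne'
      linear_combination ((C₁ : ℝ) * ((n : ℝ) + 1) ^ k₁ * A) * h8
    rw [h6]
    have h7 : 0 ≤ 1 / κ * A := mul_nonneg (one_div_pos.mpr hκ0).le hA0
    linarith

end Pool.Agent.FLP
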