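import Pool.Agent.FLP.Bas

/-!
The middle slice of a box is the largest. Put a(j) = #(Bx γ j), G = sum γ. Claim (induction on N, split
off one coordinate with Fin.cons or Fin.snoc; the new sequence is a'(j) = sum_{t=0}^{g} a(j - t), terms
with t > j are 0): (1) a(j) = a(G - j) for j <= G (complement x ↦ γ - x, no induction needed), a(j) = 0
for j > G; (2) a(j) <= a(j + 1) if 2 j + 1 <= G. Step for (2): a'(j+1) - a'(j) = a(j+1) - a(j-g) (second
term 0 if j < g); if 2(j+1) <= G use monotonicity; otherwise a(j+1) = a(G-j-1) by (1) and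
j - g <= G - j - 1 (from 2j+1 <= G+g) and 2(G-j-1) <= G. Hence a(j) <= a(m) for j <= m, 2m = G,
and by (1) for all j.
-/

open Finset

namespace Pool.Agent.FLP

/-- The counting function, with integer argument. -/
def mdbF : (N : ℕ) → (Fin N → ℕ) → ℤ → ℕ
  | 0, _, j => if j = 0 then 1 else 0
  | N + 1, γ, j => ∑ t ∈ range (γ 0 + 1), mdbF N (Fin.tail γ) (j - (t : ℤ))

theorem mdbF_neg {N : ℕ} (γ : Fin N → ℕ) {j : ℤ} (hj : j < 0) : mdbF N γ j = 0 := by
  induction N generalizing j with
  | zero =>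
    show (if j = 0 then 1 else 0) = 0
    rw [if_neg (by omega)]
  | succ N ih =>
    show ∑ t ∈ range (γ 0 + 1), mdbF N (Fin.tail γ) (j - (t : ℤ)) = 0
    exact sum_eq_zero fun t _ => ih _ (by omega)

theorem mdbF_card {N : ℕ} (γ : Fin N → ℕ) (j : ℕ) : (Bx γ j).card = mdbF N γ (j : ℤ) := by
  induction N generalizing j with
  | zero =>
    show (Bx γ j).card = if (j : ℤ) = 0 then 1 else 0
    by_cases hj : j = 0
    · subst hj
      rw [if_pos (by simp), card_eq_one]
      refine ⟨fun i => i.elim0, ?_⟩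
      ext x
      rw [mem_Bx, mem_singleton]
      constructor
      · intro _
        exact funext fun i => i.elim0
      · intro _
        exact ⟨fun i => i.elim0, by simp⟩
    · rw [if_neg (by omega), card_eq_zero]
      apply eq_empty_of_forall_notMem
      intro x hx
      rw [mem_Bx] at hx
      have := hx.2
      simp at this
      omega
  | succ N ih =>
    show (Bx γ j).card = ∑ t ∈ range (γ 0 + 1), mdbF N (Fin.tail γ) ((j : ℤ) - (t : ℤ))
    have hmap : ∀ x ∈ Bx γ j, x 0 ∈ range (γ 0 + 1) := by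
      intro x hx
      rw [mem_Bx] at hx
      rw [mem_range]
      have := hx.1 0
      omega
    rw [card_eq_sum_card_fiberwise hmap]
    refine sum_congr rfl fun t ht => ?_
    rw [mem_range] at ht
    by_cases htj : t ≤ j
    · have e : (j : ℤ) - (t : ℤ) = ((j - t : ℕ) : ℤ) := by omega
      rw [e, ← ih]
      refine card_bij' (fun x _ => Fin.tail x) (fun y _ => Fin.cons t y) ?_ ?_ ?_ ?_
      · intro x hx
        rw [mem_filter, mem_Bx] at hx
        obtain ⟨⟨h1, h2⟩, h3⟩ := hx
        rw [mem_Bx]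
        refine ⟨fun i => h1 i.succ, ?_⟩
        rw [Fin.sum_univ_succ] at h2
        show ∑ i : Fin N, x i.succ = j - t
        omega
      · intro y hy
        rw [mem_Bx] at hy
        rw [mem_filter, mem_Bx]
        refine ⟨⟨?_, ?_⟩, by simp⟩
        · intro i
          refine Fin.cases ?_ (fun i => ?_) i
          · rw [Fin.cons_zero]; omega
          · rw [Fin.cons_succ]; exact hy.1 i
        · rw [Fin.sum_univ_succ, Fin.cons_zero]
          have : ∑ i : Fin N, (Fin.cons t y : Fin (N + 1) → ℕ) i.succ = ∑ i, y i :=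
            sum_congr rfl fun i _ => by rw [Fin.cons_succ]
          rw [this, hy.2]
          omega
      · intro x hx
        rw [mem_filter] at hx
        show Fin.cons t (Fin.tail x) = x
        rw [← hx.2]
        exact Fin.cons_self_tail x
      · intro y _
        show Fin.tail (Fin.cons t y : Fin (N + 1) → ℕ) = y
        exact Fin.tail_cons _ _
    · rw [mdbF_neg _ (by omega), card_eq_zero]
      apply eq_empty_of_forall_notMem
      intro x hx
      rw [mem_filter, mem_Bx] at hx
      have h1 := single_le_sum (f := x) (fun i _ => Nat.zero_le _) (mem_univ 0)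
      omega

theorem mdbF_symm {N : ℕ} (γ : Fin N → ℕ) (j : ℤ) :
    mdbF N γ j = mdbF N γ (((∑ i, γ i : ℕ) : ℤ) - j) := by
  induction N generalizing j with
  | zero =>
    show (if j = 0 then 1 else 0) = (if (((∑ i, γ i : ℕ) : ℤ) - j) = 0 then 1 else 0)
    have : ((∑ i, γ i : ℕ) : ℤ) = 0 := by simp
    rw [this]
    by_cases h : j = 0
    · rw [if_pos h, if_pos (by omega)]
    · rw [if_neg h, if_neg (by omega)]
  | succ N ih =>
    show ∑ t ∈ range (γ 0 + 1), mdbF N (Fin.tail γ) (j - (t : ℤ)) =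
      ∑ t ∈ range (γ 0 + 1), mdbF N (Fin.tail γ) ((((∑ i, γ i : ℕ) : ℤ) - j) - (t : ℤ))
    rw [← sum_range_reflect]
    refine sum_congr rfl fun t ht => ?_
    rw [mem_range] at ht
    rw [ih]
    congr 1
    rw [Fin.sum_univ_succ]
    have e : ∑ i : Fin N, Fin.tail γ i = ∑ i : Fin N, γ i.succ := rfl
    rw [e]
    push_cast
    have h4 : ((γ 0 - t : ℕ) : ℤ) = (γ 0 : ℤ) - t := by omega
    rw [h4]
    ring

theorem mdbF_step {N : ℕ} (γ : Fin (N + 1) → ℕ) (j : ℤ) :
    mdbF (N + 1) γ (j + 1) + mdbF N (Fin.tail γ) (j - (γ 0 : ℤ)) =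
      mdbF (N + 1) γ j + mdbF N (Fin.tail γ) (j + 1) := by
  show ∑ t ∈ range (γ 0 + 1), mdbF N (Fin.tail γ) (j + 1 - (t : ℤ)) +
      mdbF N (Fin.tail γ) (j - (γ 0 : ℤ)) =
    ∑ t ∈ range (γ 0 + 1), mdbF N (Fin.tail γ) (j - (t : ℤ)) + mdbF N (Fin.tail γ) (j + 1)
  rw [sum_range_succ', sum_range_succ]
  have h : ∀ t : ℕ, j + 1 - ((t + 1 : ℕ) : ℤ) = j - (t : ℤ) := by intro t; push_cast; ring
  simp only [h]
  have h0 : j + 1 - ((0 : ℕ) : ℤ) = j + 1 := by simp
  rw [h0]
  omega

theorem mdb_chain {a : ℤ → ℕ} {G : ℤ} (hs : ∀ j, a j = a (G - j))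
    (hst : ∀ j, 2 * j + 1 ≤ G → a j ≤ a (j + 1)) {i k : ℤ} (hik : i ≤ k) (h : i + k ≤ G) :
    a i ≤ a k := by
  have key : ∀ d : ℕ, ∀ i : ℤ, 2 * (i + d) ≤ G + 1 → a i ≤ a (i + d) := by
    intro d
    induction d with
    | zero => intro i _; simp
    | succ d ih =>
      intro i hi
      have h1 := ih i (by push_cast at hi; omega)
      have h2 := hst (i + d) (by push_cast at hi; omega)
      have e : i + ((d + 1 : ℕ) : ℤ) = i + d + 1 := by push_cast; ring
      rw [e]
      exact h1.trans h2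
  rcases le_total (2 * k) G with h2 | h2
  · obtain ⟨d, hd⟩ := Int.eq_ofNat_of_zero_le (sub_nonneg.2 hik)
    have e : k = i + d := by omega
    have := key d i (by omega)
    rw [e]
    exact this
  · rw [hs k]
    obtain ⟨d, hd⟩ := Int.eq_ofNat_of_zero_le (show 0 ≤ (G - k) - i by omega)
    have e : G - k = i + d := by omega
    have := key d i (by omega)
    rw [e]
    exact this

theorem mdbF_mono {N : ℕ} (γ : Fin N → ℕ) {i k : ℤ} (hik : i ≤ k)
    (h : i + k ≤ ((∑ l, γ l : ℕ) : ℤ)) : mdbF N γ i ≤ mdbF N γ k := by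
  induction N generalizing i k with
  | zero =>
    show (if i = 0 then 1 else 0) ≤ (if k = 0 then 1 else 0)
    have : ((∑ l, γ l : ℕ) : ℤ) = 0 := by simp
    rw [this] at h
    by_cases hi : i = 0
    · rw [if_pos hi, if_pos (by omega)]
    · rw [if_neg hi]
      exact Nat.zero_le _
  | succ N ih =>
    refine mdb_chain (mdbF_symm γ) (fun j hj => ?_) hik h
    have h1 := mdbF_step γ j
    have h2 : mdbF N (Fin.tail γ) (j - (γ 0 : ℤ)) ≤ mdbF N (Fin.tail γ) (j + 1) := by
      apply ih
      · omega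
      · rw [Fin.sum_univ_succ] at hj
        have e : ∑ i : Fin N, Fin.tail γ i = ∑ i : Fin N, γ i.succ := rfl
        rw [e]
        push_cast at hj ⊢
        omega
    omega

theorem mdb {N : ℕ} (γ : Fin N → ℕ) (m : ℕ) (h : ∑ i, γ i = 2 * m) (j : ℕ) :
    (Bx γ j).card ≤ (Bx γ m).card := by
  rw [mdbF_card, mdbF_card]
  rcases le_total j m with hj | hj
  · apply mdbF_mono
    · exact_mod_cast hj
    · rw [h]; push_cast; omega
  · rw [mdbF_symm γ (j : ℤ)]
    apply mdbF_mono
    · rw [h]; push_cast; omega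
    · rw [h]; push_cast; omega

end Pool.Agent.FLP
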