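import Pool.Agent.FLP.OMM

/-!
Moving a unit through unmarked boundaries. For x in the index set and t = 0..d-c let x_t = x with the
unit of α moved from c to c + t (x_0 = x). Then x_{t+1} = shA k x_t with k = c + t (unmarked), x_t is in Om
with α_k >= 1, and x ↦ x_t is injective (mv_inj). (f x - f x_{d-c})^2 <= (d-c) sum_t
(f x_t - f x_{t+1})^2 and sum_x (f x_t - f x_{t+1})^2 <= the part of Dir with the boundary k = c + t. The
sum over the d - c <= n different k is at most Dir. The same for β.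
-/

open Finset

namespace Pool.Agent.FLP

variable {n : ℕ}

private theorem mva_sum_le {X Y : Type*} [DecidableEq Y] (A : Finset X) (B : Finset Y) (φ : X → Y)
    (hφ : ∀ x ∈ A, φ x ∈ B) (hi : ∀ x ∈ A, ∀ y ∈ A, φ x = φ y → x = y) (F : Y → ℝ)
    (hF : ∀ y ∈ B, 0 ≤ F y) : ∑ x ∈ A, F (φ x) ≤ ∑ y ∈ B, F y := by
  rw [← sum_image (f := F) (g := φ) (fun x hx y hy h => hi x hx y hy h)]
  exact sum_le_sum_of_subset_of_nonneg (fun y hy => by
    obtain ⟨x, hx, rfl⟩ := mem_image.1 hy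
    exact hφ x hx) (fun y hy _ => hF y hy)

private theorem mva_mvc {ι : Type*} [DecidableEq ι] {i : ι} {x : ι → ℕ} (h : 1 ≤ x i) :
    mv i i x = x := by
  funext l
  unfold mv
  by_cases h1 : l = i
  · subst h1
    simp only [if_true]
    omega
  · simp [h1]

/-- The part of the Dirichlet form with the boundary `k`. -/
private noncomputable def DA (n : ℕ) (f : Cf n → ℝ) (k : ℕ) : ℝ :=
  if h : k < n then ∑ x ∈ (Om n).filter (fun x => (⟨k, h⟩ : Fin n) ∉ x.2.2 ∧
    1 ≤ x.1 (⟨k, h⟩ : Fin n).castSucc), (f x - f (shA ⟨k, h⟩ x)) ^ 2 else 0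

private theorem DA_nonneg (n : ℕ) (f : Cf n → ℝ) (k : ℕ) : 0 ≤ DA n f k := by
  unfold DA
  split_ifs
  · exact sum_nonneg fun _ _ => sq_nonneg _
  · exact le_rfl

private theorem DA_sum (n : ℕ) (f : Cf n → ℝ) : ∑ k ∈ range n, DA n f k ≤ Dir n f := by
  rw [sum_range]
  unfold Dir
  rw [sum_comm]
  refine sum_le_sum fun k _ => ?_
  have h1 : DA n f k.val = ∑ x ∈ Om n,
      (if k ∉ x.2.2 ∧ 1 ≤ x.1 k.castSucc then (f x - f (shA k x)) ^ 2 else 0) := by
    unfold DA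
    rw [dif_pos k.isLt, sum_filter]
  rw [h1]
  refine sum_le_sum fun x _ => ?_
  have h2 : 0 ≤ (if k ∉ x.2.2 ∧ 1 ≤ x.2.1 k.castSucc then (f x - f (shB k x)) ^ 2 else 0) := by
    split_ifs
    · exact sq_nonneg _
    · exact le_rfl
  have h3 : 0 ≤ (if k ∈ x.2.2 then (f x - f (unm k x)) ^ 2 else 0) := by
    split_ifs
    · exact sq_nonneg _
    · exact le_rfl
  linarith

private theorem mva_step {c d : Fin (n + 1)} (f : Cf n → ℝ) (t : ℕ)
    (ht : c.val + t < d.val) :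
    ∑ x ∈ (Om n).filter (fun x => 1 ≤ x.1 c ∧ mk x.2.2 c d = 0),
      (f (mv c ⟨c.val + t, by omega⟩ x.1, x.2.1, x.2.2) -
        f (mv c ⟨c.val + (t + 1), by omega⟩ x.1, x.2.1, x.2.2)) ^ 2 ≤ DA n f (c.val + t) := by
  have hk : c.val + t < n := by have := d.isLt; omega
  have hk' : c.val + t < n + 1 := by omega
  have hk'' : c.val + (t + 1) < n + 1 := by omega
  unfold DA
  rw [dif_pos hk]
  have hmvc : ∀ x : Cf n, 1 ≤ x.1 c → t = 0 → mv c ⟨c.val + t, hk'⟩ x.1 = x.1 := by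
    intro x hx h0
    have : (⟨c.val + t, hk'⟩ : Fin (n + 1)) = c := Fin.ext (by simp [h0])
    rw [this]
    exact mva_mvc hx
  have hne : t ≠ 0 → c ≠ ⟨c.val + t, hk'⟩ := by
    intro h0 h
    have := congrArg Fin.val h
    simp only at this
    omega
  have hstep : ∀ x : Cf n, 1 ≤ x.1 c →
      shA ⟨c.val + t, hk⟩ ((mv c ⟨c.val + t, hk'⟩ x.1, x.2.1, x.2.2) : Cf n) =
        (mv c ⟨c.val + (t + 1), hk''⟩ x.1, x.2.1, x.2.2) := by
    intro x hx
    unfold shA
    have h1 : (⟨c.val + t, hk⟩ : Fin n).castSucc = (⟨c.val + t, hk'⟩ : Fin (n + 1)) := rfl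
    have h2 : (⟨c.val + t, hk⟩ : Fin n).succ = (⟨c.val + (t + 1), hk''⟩ : Fin (n + 1)) := rfl
    simp only [h1, h2]
    congr 1
    by_cases h0 : t = 0
    · rw [hmvc x hx h0]
      have : (⟨c.val + t, hk'⟩ : Fin (n + 1)) = c := Fin.ext (by simp [h0])
      rw [this]
    · refine mv_mv' (hne h0) ?_ ?_ _
      · intro h
        have := congrArg Fin.val h
        simp only at this
        omega
      · intro h
        have := congrArg Fin.val h
        simp only at this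
        omega
  have hrw : ∀ x ∈ (Om n).filter (fun x => 1 ≤ x.1 c ∧ mk x.2.2 c d = 0),
      (f (mv c ⟨c.val + t, hk'⟩ x.1, x.2.1, x.2.2) -
        f (mv c ⟨c.val + (t + 1), hk''⟩ x.1, x.2.1, x.2.2)) ^ 2 =
      (fun y => (f y - f (shA ⟨c.val + t, hk⟩ y)) ^ 2)
        ((fun x : Cf n => ((mv c ⟨c.val + t, hk'⟩ x.1, x.2.1, x.2.2) : Cf n)) x) := by
    intro x hx
    obtain ⟨hx, h1, h2⟩ := mem_filter.1 hx
    simp only
    rw [hstep x h1]
  rw [sum_congr rfl hrw]
  refine mva_sum_le _ _ (fun x : Cf n => ((mv c ⟨c.val + t, hk'⟩ x.1, x.2.1, x.2.2) : Cf n)) ?_ ?_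
    (fun y => (f y - f (shA ⟨c.val + t, hk⟩ y)) ^ 2) (fun _ _ => sq_nonneg _)
  · intro x hx
    obtain ⟨hx, h1, h2⟩ := mem_filter.1 hx
    rw [mk_eq_zero] at h2
    have hkS : (⟨c.val + t, hk⟩ : Fin n) ∉ x.2.2 := by
      intro h
      have := h2 _ h (by simp)
      simp only at this
      omega
    by_cases h0 : t = 0
    · have h3 : ((mv c ⟨c.val + t, hk'⟩ x.1, x.2.1, x.2.2) : Cf n) = x := by
        rw [hmvc x h1 h0]
      simp only [h3]
      refine mem_filter.2 ⟨hx, hkS, ?_⟩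
      have : (⟨c.val + t, hk⟩ : Fin n).castSucc = c := Fin.ext (by simp [h0])
      rw [this]
      exact h1
    · refine mem_filter.2 ⟨?_, hkS, ?_⟩
      · refine mvA_mem hx ?_ ?_ h1
        · show c.val < c.val + t
          omega
        · rw [mk_eq_zero]
          intro k hk1 hk2
          have := h2 k hk1 hk2
          show c.val + t ≤ k.val
          omega
      · show 1 ≤ mv c ⟨c.val + t, hk'⟩ x.1 ⟨c.val + t, hk'⟩
        rw [mv_tgt (hne h0)]
        omega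
  · intro x hx y hy hxy
    obtain ⟨hx, h1, -⟩ := mem_filter.1 hx
    obtain ⟨hy, h1', -⟩ := mem_filter.1 hy
    simp only [Prod.mk.injEq] at hxy
    obtain ⟨e1, e2, e3⟩ := hxy
    have e4 : x.1 = y.1 := by
      by_cases h0 : t = 0
      · rwa [hmvc x h1 h0, hmvc y h1' h0] at e1
      · exact mv_inj (hne h0) h1 h1' e1
    exact Prod.ext e4 (Prod.ext e2 e3)

theorem mva {c d : Fin (n + 1)} (hcd : c < d) (f : Cf n → ℝ) :
    ∑ x ∈ (Om n).filter (fun x => 1 ≤ x.1 c ∧ mk x.2.2 c d = 0),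
      (f x - f (mv c d x.1, x.2.1, x.2.2)) ^ 2 ≤ ((n : ℝ) + 1) * Dir n f := by
  have hcd' : c.val < d.val := hcd
  have hd := d.isLt
  set m := d.val - c.val with hm
  -- the intermediate states
  set e : ℕ → Fin (n + 1) := fun t => if h : c.val + t < n + 1 then ⟨c.val + t, h⟩ else d with he
  have he' : ∀ t, c.val + t ≤ d.val → ∀ h : c.val + t < n + 1, e t = ⟨c.val + t, h⟩ := by
    intro t _ h
    simp only [he]
    rw [dif_pos h]
  have h1 : ∀ x ∈ (Om n).filter (fun x => 1 ≤ x.1 c ∧ mk x.2.2 c d = 0),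
      (f x - f (mv c d x.1, x.2.1, x.2.2)) ^ 2 ≤
      (m : ℝ) * ∑ t ∈ range m, (f (mv c (e t) x.1, x.2.1, x.2.2) -
        f (mv c (e (t + 1)) x.1, x.2.1, x.2.2)) ^ 2 := by
    intro x hx
    obtain ⟨hx, h1, -⟩ := mem_filter.1 hx
    have h2 : f x - f (mv c d x.1, x.2.1, x.2.2) =
        ∑ t ∈ range m, (f (mv c (e t) x.1, x.2.1, x.2.2) -
          f (mv c (e (t + 1)) x.1, x.2.1, x.2.2)) := by
      rw [sum_range_sub' (fun t => f (mv c (e t) x.1, x.2.1, x.2.2))]
      have h3 : e 0 = c := by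
        rw [he' 0 (by omega) (by omega)]
        rfl
      have h4 : e m = d := by
        rw [he' m (by omega) (by omega)]
        exact Fin.ext (by simp only; omega)
      rw [h3, h4, mva_mvc h1]
    rw [h2]
    have h5 := sq_sum_le_card_mul_sum_sq (s := range m)
      (f := fun t => f (mv c (e t) x.1, x.2.1, x.2.2) -
          f (mv c (e (t + 1)) x.1, x.2.1, x.2.2))
    rwa [card_range] at h5
  refine (sum_le_sum h1).trans ?_
  rw [← mul_sum, sum_comm]
  have h2 : ∀ t ∈ range m, ∑ x ∈ (Om n).filter (fun x => 1 ≤ x.1 c ∧ mk x.2.2 c d = 0),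
      (f (mv c (e t) x.1, x.2.1, x.2.2) - f (mv c (e (t + 1)) x.1, x.2.1, x.2.2)) ^ 2 ≤
        DA n f (c.val + t) := by
    intro t ht
    rw [mem_range] at ht
    rw [he' t (by omega) (by omega), he' (t + 1) (by omega) (by omega)]
    exact mva_step f t (by omega)
  have h3 : ∑ t ∈ range m, DA n f (c.val + t) ≤ Dir n f := by
    refine le_trans ?_ (DA_sum n f)
    refine mva_sum_le (range m) (range n) (fun t => c.val + t) ?_ ?_ (DA n f)
      (fun k _ => DA_nonneg n f k)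
    · intro t ht
      rw [mem_range] at ht ⊢
      omega
    · intro t _ t' _ h
      exact Nat.add_left_cancel h
  have h4 := (sum_le_sum h2).trans h3
  have h5 : 0 ≤ Dir n f := (sum_nonneg fun k _ => DA_nonneg n f k).trans (DA_sum n f)
  have h6 : (m : ℝ) ≤ n + 1 := by
    have : m ≤ n + 1 := by omega
    exact_mod_cast this
  exact mul_le_mul h6 h4 (sum_nonneg fun t _ => sum_nonneg fun x _ => sq_nonneg _) (by positivity)

/-- Exchange of `α` and `β`. -/
private def sg (x : Cf n) : Cf n := (x.2.1, x.1, x.2.2)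

private theorem sg_sg (x : Cf n) : sg (sg x) = x := rfl

private theorem sg_Om {x : Cf n} (hx : x ∈ Om n) : sg x ∈ Om n := by
  rw [mem_Om] at hx ⊢
  obtain ⟨h1, h2, h3⟩ := hx
  refine ⟨h2, h1, fun k hk => ?_⟩
  have := h3 k hk
  show pr x.2.1 (k.val + 1) + pr x.1 (k.val + 1) = 2 * k.val + 1
  omega

private theorem sg_sum (A B : Cf n → Prop) [DecidablePred A] [DecidablePred B]
    (hAB : ∀ x, A x ↔ B (sg x)) (F G : Cf n → ℝ) (hFG : ∀ x, F x = G (sg x)) :
    ∑ x ∈ (Om n).filter A, F x = ∑ x ∈ (Om n).filter B, G x := by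
  refine sum_bij' (fun x _ => sg x) (fun x _ => sg x) ?_ ?_ ?_ ?_ ?_
  · intro x hx
    obtain ⟨h1, h2⟩ := mem_filter.1 hx
    exact mem_filter.2 ⟨sg_Om h1, (hAB x).1 h2⟩
  · intro x hx
    obtain ⟨h1, h2⟩ := mem_filter.1 hx
    exact mem_filter.2 ⟨sg_Om h1, (hAB _).2 h2⟩
  · intro x _
    rfl
  · intro x _
    rfl
  · intro x _
    exact hFG x

private theorem sg_Dir (f : Cf n → ℝ) : Dir n (fun x => f (sg x)) = Dir n f := by
  unfold Dir
  have h := sg_sum (n := n) (fun _ => True) (fun _ => True) (fun _ => Iff.rfl)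
    (fun x => ∑ k : Fin n,
    ((if k ∉ x.2.2 ∧ 1 ≤ x.1 k.castSucc then (f (sg x) - f (sg (shA k x))) ^ 2 else 0) +
      (if k ∉ x.2.2 ∧ 1 ≤ x.2.1 k.castSucc then (f (sg x) - f (sg (shB k x))) ^ 2 else 0) +
      (if k ∈ x.2.2 then (f (sg x) - f (sg (unm k x))) ^ 2 else 0)))
    (fun x => ∑ k : Fin n,
    ((if k ∉ x.2.2 ∧ 1 ≤ x.1 k.castSucc then (f x - f (shA k x)) ^ 2 else 0) +
      (if k ∉ x.2.2 ∧ 1 ≤ x.2.1 k.castSucc then (f x - f (shB k x)) ^ 2 else 0) +
      (if k ∈ x.2.2 then (f x - f (unm k x)) ^ 2 else 0)))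
    (fun x => by
      refine sum_congr rfl fun k _ => ?_
      have e1 : sg (shA k x) = shB k (sg x) := rfl
      have e2 : sg (shB k x) = shA k (sg x) := rfl
      have e3 : sg (unm k x) = unm k (sg x) := rfl
      have e4 : (sg x).2.2 = x.2.2 := rfl
      have e5 : (sg x).1 = x.2.1 := rfl
      have e6 : (sg x).2.1 = x.1 := rfl
      rw [e1, e2, e3, e4, e5, e6]
      ring)
  simpa using h

theorem mvb {c d : Fin (n + 1)} (hcd : c < d) (f : Cf n → ℝ) :
    ∑ x ∈ (Om n).filter (fun x => 1 ≤ x.2.1 c ∧ mk x.2.2 c d = 0),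
      (f x - f (x.1, mv c d x.2.1, x.2.2)) ^ 2 ≤ ((n : ℝ) + 1) * Dir n f := by
  rw [← sg_Dir f]
  refine le_of_eq_of_le ?_ (mva hcd (fun x => f (sg x)))
  exact sg_sum (fun x => 1 ≤ x.2.1 c ∧ mk x.2.2 c d = 0)
    (fun x => 1 ≤ x.1 c ∧ mk x.2.2 c d = 0) (fun x => Iff.rfl)
    (fun x => (f x - f (x.1, mv c d x.2.1, x.2.2)) ^ 2)
    (fun x => (f (sg x) - f (sg (mv c d x.1, x.2.1, x.2.2))) ^ 2) (fun x => rfl)

end Pool.Agent.FLP
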