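import Pool.Agent.FLP.Bas
import Pool.Agent.FLP.Defs2

/-!
No gaps. Let L i k in T, (i,k) ≠ (n,n), and suppose that L (i+1) k and L i (k+1) are not in T. L 0 0 and
L n n are in T (compatible with everything). Let (i',k') be the next element of the chain of the L edges
of T (i <= i', k <= k', minimal i' + k' > i + k), then i' + k' >= i + k + 2.
L (i+1) k, if i < i': compatible with all L edges of T, all V and U edges; a G u v in T which crosses it has
u = i and 2k < u + v (otherwise it crosses L i k). L i (k+1), if k < k': a G u v in T which crosses it has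
i < u, u + v = 2k + 1. If i < i' and k < k' both are crossed: G i v1 and G u2 v2 with 2k+1 <= i + v1,
u2 + v2 = 2k+1, i < u2 cross each other (v2 < v1). If k = k': G i v, 2k < i + v, crosses L i' k. If i = i':
G u v, i < u, u + v = 2k+1 crosses L i k', k' >= k+2. So one of the two is compatible with everything:
in T by maximality. gapU: the same with the reflection (L i k ↔ U k i, G i j ↔ G j i, V x ↔ V (2 - x)).
-/

open Finset

namespace Pool.Agent.FLP

variable {n : ℕ}

theorem l00 {T : Finset Ed} (H : MaxC n T) : Ed.L 0 0 ∈ T ∧ Ed.L n n ∈ T := by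
  constructor
  · refine H.max _ ⟨Nat.zero_le _, Nat.zero_le _⟩ fun f hf hne => ?_
    have hok := H.ok f hf
    cases f with
    | V a j => trivial
    | L i k => exact ⟨fun h => by omega, fun h => by omega⟩
    | U k j => trivial
    | G i j => exact ⟨fun h => by omega, fun h => by omega⟩
  · refine H.max _ ⟨le_rfl, le_rfl⟩ fun f hf hne => ?_
    have hok := H.ok f hf
    cases f with
    | V a j => trivial
    | L i k =>
      obtain ⟨h1, h2⟩ : i ≤ n ∧ k ≤ n := hok
      exact ⟨fun h => by omega, fun h => by omega⟩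
    | U k j => trivial
    | G i j =>
      obtain ⟨h1, h2, h3⟩ : i ≤ n ∧ j ≤ n ∧ (i + j) % 2 = 1 := hok
      exact ⟨fun h => by omega, fun h => by omega⟩

theorem u00 {T : Finset Ed} (H : MaxC n T) : Ed.U 0 0 ∈ T ∧ Ed.U n n ∈ T := by
  constructor
  · refine H.max _ ⟨Nat.zero_le _, Nat.zero_le _⟩ fun f hf hne => ?_
    have hok := H.ok f hf
    cases f with
    | V a j => trivial
    | L i k => trivial
    | U k j => exact ⟨fun h => by omega, fun h => by omega⟩
    | G i j => exact ⟨fun h => by omega, fun h => by omega⟩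
  · refine H.max _ ⟨le_rfl, le_rfl⟩ fun f hf hne => ?_
    have hok := H.ok f hf
    cases f with
    | V a j => trivial
    | L i k => trivial
    | U k j =>
      obtain ⟨h1, h2⟩ : k ≤ n ∧ j ≤ n := hok
      exact ⟨fun h => by omega, fun h => by omega⟩
    | G i j =>
      obtain ⟨h1, h2, h3⟩ : i ≤ n ∧ j ≤ n ∧ (i + j) % 2 = 1 := hok
      exact ⟨fun h => by omega, fun h => by omega⟩

/-- The abstract statement. -/
theorem mxb_gap (W Gs : ℕ → ℕ → Prop) (hb : ∀ i k, W i k → i ≤ n ∧ k ≤ n)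
    (hgb : ∀ u v, Gs u v → (u + v) % 2 = 1) (hn : W n n)
    (hc : ∀ i k i' k', W i k → W i' k' → ¬ (i < i' ∧ k' < k))
    (hwg : ∀ i k u v, W i k → Gs u v → ¬ (i < u ∧ u + v < 2 * k) ∧ ¬ (u < i ∧ 2 * k < u + v))
    (hgg : ∀ u v u' v', Gs u v → Gs u' v' → ¬ (u < u' ∧ v' < v))
    (hmax : ∀ i k, i ≤ n → k ≤ n →
      (∀ a b, W a b → ¬ (i < a ∧ b < k) ∧ ¬ (a < i ∧ k < b)) →
      (∀ u v, Gs u v → ¬ (i < u ∧ u + v < 2 * k) ∧ ¬ (u < i ∧ 2 * k < u + v)) → W i k)
    {i k : ℕ} (h : W i k) (hne : (i, k) ≠ (n, n)) : W (i + 1) k ∨ W i (k + 1) := by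
  classical
  by_contra hcon
  push Not at hcon
  obtain ⟨hc1, hc2⟩ := hcon
  obtain ⟨hin, hkn⟩ := hb i k h
  have hex : ∃ s, ∃ i' k', W i' k' ∧ i + k < i' + k' ∧ i' + k' = s := by
    refine ⟨n + n, n, n, hn, ?_, rfl⟩
    by_contra h'
    apply hne
    have h1 : i = n := by omega
    have h2 : k = n := by omega
    rw [h1, h2]
  obtain ⟨i', k', hw', hlt, hs⟩ := Nat.find_spec hex
  have hmin : ∀ a b, W a b → i + k < a + b → i' + k' ≤ a + b := by
    intro a b hab hlt'
    rw [hs]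
    exact Nat.find_min' hex ⟨a, b, hab, hlt', rfl⟩
  obtain ⟨hin', hkn'⟩ := hb i' k' hw'
  have c1 := hc _ _ _ _ h hw'
  have c2 := hc _ _ _ _ hw' h
  have hi : i ≤ i' := by omega
  have hk : k ≤ k' := by omega
  have hch : ∀ a b, W a b → (a ≤ i ∧ b ≤ k) ∨ (i' ≤ a ∧ k' ≤ b) := by
    intro a b hab
    have d1 := hc _ _ _ _ h hab
    have d2 := hc _ _ _ _ hab h
    have d3 := hc _ _ _ _ hw' hab
    have d4 := hc _ _ _ _ hab hw'
    by_cases hle : a + b ≤ i + k
    · left
      constructor <;> omega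
    · right
      have := hmin a b hab (by omega)
      constructor <;> omega
  have e1 : i < i' → ∃ v, Gs i v ∧ 2 * k < i + v := by
    intro hlt1
    by_contra hno
    push Not at hno
    apply hc1
    refine hmax _ _ (by omega) hkn (fun a b hab => ?_) (fun u v huv => ?_)
    · rcases hch a b hab with ⟨h1, h2⟩ | ⟨h1, h2⟩
      · exact ⟨fun h => by omega, fun h => by omega⟩
      · exact ⟨fun h => by omega, fun h => by omega⟩
    · have h1 := hwg _ _ _ _ h huv
      refine ⟨fun h2 => h1.1 ⟨by omega, h2.2⟩, fun h2 => ?_⟩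
      have h3 : u = i := by omega
      subst h3
      have := hno v huv
      omega
  have e2 : k < k' → ∃ u v, Gs u v ∧ i < u ∧ u + v = 2 * k + 1 := by
    intro hlt1
    by_contra hno
    push Not at hno
    apply hc2
    refine hmax _ _ hin (by omega) (fun a b hab => ?_) (fun u v huv => ?_)
    · rcases hch a b hab with ⟨h1, h2⟩ | ⟨h1, h2⟩
      · exact ⟨fun h => by omega, fun h => by omega⟩
      · exact ⟨fun h => by omega, fun h => by omega⟩
    · have h1 := hwg _ _ _ _ h huv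
      have h4 := hgb u v huv
      refine ⟨fun h2 => ?_, fun h2 => h1.2 ⟨h2.1, by omega⟩⟩
      have := hno u v huv h2.1
      omega
  rcases Nat.lt_or_ge i i' with hii | hii
  · obtain ⟨v1, hg1, hv1⟩ := e1 hii
    rcases Nat.lt_or_ge k k' with hkk | hkk
    · obtain ⟨u2, v2, hg2, hu2, hs2⟩ := e2 hkk
      have := hgg _ _ _ _ hg1 hg2
      omega
    · have := (hwg _ _ _ _ hw' hg1).2
      omega
  · have hkk : k < k' := by omega
    obtain ⟨u2, v2, hg2, hu2, hs2⟩ := e2 hkk
    have h5 : i = i' := by omega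
    have h6 : k + 2 ≤ k' := by
      by_contra h7
      have h8 : k' = k + 1 := by omega
      rw [h8, ← h5] at hw'
      exact hc2 hw'
    have := (hwg _ _ _ _ hw' hg2).1
    omega

theorem gapL {T : Finset Ed} (H : MaxC n T) {i k : ℕ} (h : Ed.L i k ∈ T) (hne : (i, k) ≠ (n, n)) :
    Ed.L (i + 1) k ∈ T ∨ Ed.L i (k + 1) ∈ T := by
  refine mxb_gap (fun i k => Ed.L i k ∈ T) (fun u v => Ed.G u v ∈ T) (fun i k h => H.ok _ h)
    (fun u v h => (H.ok _ h).2.2) (l00 H).2 ?_ ?_ ?_ ?_ h hne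
  · intro i k i' k' h1 h2 h3
    exact (H.cmp _ h1 _ h2 (by simp only [ne_eq, Ed.L.injEq]; omega)).1 h3
  · intro i k u v h1 h2
    exact H.cmp _ h1 _ h2 (by simp)
  · intro u v u' v' h1 h2 h3
    exact (H.cmp _ h1 _ h2 (by simp only [ne_eq, Ed.G.injEq]; omega)).1 h3
  · intro i k hi hk h1 h2
    refine H.max _ ⟨hi, hk⟩ fun f hf hne => ?_
    cases f with
    | V a j => trivial
    | L a b => exact h1 a b hf
    | U a b => trivial
    | G u v => exact h2 u v hf

theorem gapU {T : Finset Ed} (H : MaxC n T) {j k : ℕ} (h : Ed.U k j ∈ T) (hne : (j, k) ≠ (n, n)) :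
    Ed.U k (j + 1) ∈ T ∨ Ed.U (k + 1) j ∈ T := by
  refine mxb_gap (fun i k => Ed.U k i ∈ T) (fun u v => Ed.G v u ∈ T)
    (fun i k h => ⟨(H.ok _ h).2, (H.ok _ h).1⟩)
    (fun u v h => by have := (H.ok _ h).2.2; omega) (u00 H).2 ?_ ?_ ?_ ?_ h hne
  · intro i k i' k' h1 h2 h3
    exact (H.cmp _ h1 _ h2 (by simp only [ne_eq, Ed.U.injEq]; omega)).2 ⟨h3.2, h3.1⟩
  · intro i k u v h1 h2
    have h3 : Ed.cmp (Ed.U k i) (Ed.G v u) := H.cmp _ h1 _ h2 (by simp)
    obtain ⟨h4, h5⟩ : ¬ (i < u ∧ v + u < 2 * k) ∧ ¬ (u < i ∧ 2 * k < v + u) := h3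
    exact ⟨fun h => h4 ⟨h.1, by omega⟩, fun h => h5 ⟨h.1, by omega⟩⟩
  · intro u v u' v' h1 h2 h3
    exact (H.cmp _ h1 _ h2 (by simp only [ne_eq, Ed.G.injEq]; omega)).2 ⟨h3.2, h3.1⟩
  · intro i k hi hk h1 h2
    refine H.max _ ⟨hk, hi⟩ fun f hf hne => ?_
    cases f with
    | V a j => trivial
    | L a b => trivial
    | U b a =>
      have h3 := h1 a b hf
      exact ⟨fun h => h3.2 ⟨h.2, h.1⟩, fun h => h3.1 ⟨h.2, h.1⟩⟩
    | G v u =>
      have h3 := h2 u v hf
      exact ⟨fun h => h3.1 ⟨h.1, by omega⟩, fun h => h3.2 ⟨h.1, by omega⟩⟩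

end Pool.Agent.FLP
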