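import Pool.Agent.FLP.Bas

/-!
Closure properties of Om: everything with mem_Om, sum_mv, pr_mv, pr_mv' and the fact that the initial sums at a
mark k do not change when the unit does not cross the mark (mk = 0 means there is no mark k with
c <= k < d).
-/

open Finset

namespace Pool.Agent.FLP

variable {n : ℕ}

theorem mk_eq_zero {S : Finset (Fin n)} {c d : Fin (n + 1)} :
    mk S c d = 0 ↔ ∀ k ∈ S, c.val ≤ k.val → d.val ≤ k.val := by
  unfold mk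
  rw [card_eq_zero, filter_eq_empty_iff]
  constructor
  · intro h k hk h1
    by_contra h2
    exact h hk ⟨h1, by omega⟩
  · intro h k hk h1
    have := h k hk h1.1
    omega

theorem mvA_mem {x : Cf n} (hx : x ∈ Om n) {c d : Fin (n + 1)} (hcd : c < d) (h0 : mk x.2.2 c d = 0)
    (h1 : 1 ≤ x.1 c) : ((mv c d x.1, x.2.1, x.2.2) : Cf n) ∈ Om n := by
  rw [mem_Om] at hx ⊢
  obtain ⟨ha, hb, hc⟩ := hx
  refine ⟨?_, hb, ?_⟩
  · show ∑ i, mv c d x.1 i = n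
    rw [sum_mv h1, ha]
  · intro k hk
    have h2 := mk_eq_zero.1 h0 k hk
    have h3 := hc k hk
    show pr (mv c d x.1) (k.val + 1) + pr x.2.1 (k.val + 1) = 2 * k.val + 1
    rw [pr_mv hcd h1, if_neg (by omega)]
    exact h3

theorem mvB_mem {x : Cf n} (hx : x ∈ Om n) {c d : Fin (n + 1)} (hcd : c < d) (h0 : mk x.2.2 c d = 0)
    (h1 : 1 ≤ x.2.1 c) : ((x.1, mv c d x.2.1, x.2.2) : Cf n) ∈ Om n := by
  rw [mem_Om] at hx ⊢
  obtain ⟨ha, hb, hc⟩ := hx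
  refine ⟨ha, ?_, ?_⟩
  · show ∑ i, mv c d x.2.1 i = n
    rw [sum_mv h1, hb]
  · intro k hk
    have h2 := mk_eq_zero.1 h0 k hk
    have h3 := hc k hk
    show pr x.1 (k.val + 1) + pr (mv c d x.2.1) (k.val + 1) = 2 * k.val + 1
    rw [pr_mv hcd h1, if_neg (by omega)]
    exact h3

theorem mvB_mem' {x : Cf n} (hx : x ∈ Om n) {c d : Fin (n + 1)} (hcd : c < d)
    (h0 : mk x.2.2 c d = 0) (h1 : 1 ≤ x.2.1 d) : ((x.1, mv d c x.2.1, x.2.2) : Cf n) ∈ Om n := by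
  rw [mem_Om] at hx ⊢
  obtain ⟨ha, hb, hc⟩ := hx
  refine ⟨ha, ?_, ?_⟩
  · show ∑ i, mv d c x.2.1 i = n
    rw [sum_mv h1, hb]
  · intro k hk
    have h2 := mk_eq_zero.1 h0 k hk
    have h3 := hc k hk
    show pr x.1 (k.val + 1) + pr (mv d c x.2.1) (k.val + 1) = 2 * k.val + 1
    rw [pr_mv' hcd h1, if_neg (by omega)]
    exact h3

private theorem omm_mk {S : Finset (Fin n)} {k : Fin n} (hk : k ∉ S) :
    mk S k.castSucc k.succ = 0 := by
  rw [mk_eq_zero]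
  intro k' hk' h
  have h1 : k' ≠ k := fun h2 => hk (h2 ▸ hk')
  have h2 : k'.val ≠ k.val := fun h3 => h1 (Fin.ext h3)
  rw [Fin.val_castSucc] at h
  rw [Fin.val_succ]
  omega

theorem shA_mem {x : Cf n} (hx : x ∈ Om n) {k : Fin n} (hk : k ∉ x.2.2)
    (h1 : 1 ≤ x.1 k.castSucc) : shA k x ∈ Om n :=
  mvA_mem hx Fin.castSucc_lt_succ (omm_mk hk) h1

theorem shB_mem {x : Cf n} (hx : x ∈ Om n) {k : Fin n} (hk : k ∉ x.2.2)
    (h1 : 1 ≤ x.2.1 k.castSucc) : shB k x ∈ Om n :=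
  mvB_mem hx Fin.castSucc_lt_succ (omm_mk hk) h1

theorem unm_mem {x : Cf n} (hx : x ∈ Om n) (k : Fin n) : unm k x ∈ Om n := by
  rw [mem_Om] at hx ⊢
  obtain ⟨ha, hb, hc⟩ := hx
  refine ⟨ha, hb, ?_⟩
  intro j hj
  exact hc j (mem_of_mem_erase hj)

theorem TT_mem {x : Cf n} (hx : x ∈ Om n) {c d : Fin (n + 1)} (hcd : c < d)
    (h1 : 1 ≤ x.1 c) (h2 : 1 ≤ x.2.1 d) : TT c d x ∈ Om n := by
  rw [mem_Om] at hx ⊢
  obtain ⟨ha, hb, hc⟩ := hx
  refine ⟨?_, ?_, ?_⟩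
  · show ∑ i, mv c d x.1 i = n
    rw [sum_mv h1, ha]
  · show ∑ i, mv d c x.2.1 i = n
    rw [sum_mv h2, hb]
  · intro k hk
    have h3 := hc k hk
    show pr (mv c d x.1) (k.val + 1) + pr (mv d c x.2.1) (k.val + 1) = 2 * k.val + 1
    rw [pr_mv hcd h1, pr_mv' hcd h2]
    by_cases h : c.val < k.val + 1 ∧ k.val + 1 ≤ d.val
    · rw [if_pos h, if_pos h]
      have := pr_pos h1 h.1
      omega
    · rw [if_neg h, if_neg h]
      exact h3

end Pool.Agent.FLP
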