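import Pool.Agent.FLP.VRB

/-!
Canonical paths for sets of marks. Zk S S' 0 = S, Zk S S' n = S', and Zk S S' (k+1), Zk S S' k differ at
most in k: F S - F S' = sum_{k<n} (F (Zk k) - F (Zk (k+1))), (F S - F S')^2 <= n sum_k (...)^2. Multiply by
w S w S' <= P w (Zk S S' k) w (Zk S' S k) and sum over S, S': for fixed k the map (S, S') ↦ (Z, E) =
(Zk S S' k, Zk S' S k) is an involution, Zk S S' (k+1) is insert k Z if k ∈ E and Z.erase k otherwise. So
the double sum is <= n P W sum_k sum_Z w Z ((F Z - F (insert k Z))^2 or (F Z - F (erase k Z))^2 if k ∈ Z),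
W = sum w, and (Z with k and without k) <= n P W (P' + 1) sum_k sum_{Z, k not in Z}
w (insert k Z) (F Z - F (insert k Z))^2. Conclude with vr_weight (even with a factor 2 to spare).
-/

open Finset

namespace Pool.Agent.FLP

variable {n : ℕ}

private theorem slv_mem (S S' : Finset (Fin n)) (k : ℕ) (j : Fin n) :
    j ∈ Zk S S' k ↔ (j ∈ S' ∧ j.val < k) ∨ (j ∈ S ∧ k ≤ j.val) := by
  simp [Zk]

private theorem slv_invol (S S' : Finset (Fin n)) (k : ℕ) :
    Zk (Zk S S' k) (Zk S' S k) k = S := by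
  ext j
  simp only [slv_mem]
  by_cases h : j.val < k
  · have h' : ¬ k ≤ j.val := by omega
    simp [h, h']
  · have h' : k ≤ j.val := by omega
    simp [h, h']

private theorem slv_zero (S S' : Finset (Fin n)) : Zk S S' 0 = S := by
  ext j
  simp [slv_mem]

private theorem slv_n (S S' : Finset (Fin n)) : Zk S S' n = S' := by
  ext j
  have h1 : j.val < n := j.isLt
  have h2 : ¬ n ≤ j.val := by omega
  simp [slv_mem, h1]

private theorem slv_succ (S S' : Finset (Fin n)) (k : Fin n) :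
    Zk S S' (k.val + 1) = if k ∈ Zk S' S k.val then insert k (Zk S S' k.val)
      else (Zk S S' k.val).erase k := by
  ext j
  by_cases hk : k ∈ Zk S' S k.val
  · rw [if_pos hk, Finset.mem_insert]
    have hk' : k ∈ S' := by
      rcases (slv_mem _ _ _ _).1 hk with h | h
      · omega
      · exact h.1
    simp only [slv_mem]
    rcases lt_trichotomy j.val k.val with h | h | h
    · have e1 : j.val < k.val + 1 := by omega
      have e2 : ¬ k.val + 1 ≤ j.val := by omega
      have e3 : ¬ k.val ≤ j.val := by omega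
      have e4 : j ≠ k := fun h' => by rw [h'] at h; omega
      simp [e1, e2, e3, e4, h]
    · have e0 : j = k := Fin.ext h
      subst e0
      simp [hk']
    · have e1 : ¬ j.val < k.val + 1 := by omega
      have e2 : k.val + 1 ≤ j.val := by omega
      have e3 : k.val ≤ j.val := by omega
      have e4 : j ≠ k := fun h' => by rw [h'] at h; omega
      have e5 : ¬ j.val < k.val := by omega
      simp [e1, e2, e3, e4, e5]
  · rw [if_neg hk, Finset.mem_erase]
    have hk' : k ∉ S' := fun h => hk ((slv_mem _ _ _ _).2 (Or.inr ⟨h, le_rfl⟩))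
    simp only [slv_mem]
    rcases lt_trichotomy j.val k.val with h | h | h
    · have e1 : j.val < k.val + 1 := by omega
      have e2 : ¬ k.val + 1 ≤ j.val := by omega
      have e3 : ¬ k.val ≤ j.val := by omega
      have e4 : j ≠ k := fun h' => by rw [h'] at h; omega
      simp [e1, e2, e3, e4, h]
    · have e0 : j = k := Fin.ext h
      subst e0
      simp [hk']
    · have e1 : ¬ j.val < k.val + 1 := by omega
      have e2 : k.val + 1 ≤ j.val := by omega
      have e3 : k.val ≤ j.val := by omega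
      have e4 : j ≠ k := fun h' => by rw [h'] at h; omega
      have e5 : ¬ j.val < k.val := by omega
      simp [e1, e2, e3, e4, e5]

/-- The pairs of sets, with the parts from `k` on exchanged. -/
private theorem slv_swap (G : Finset (Fin n) → Finset (Fin n) → ℝ) (k : ℕ) :
    ∑ S, ∑ S', G (Zk S S' k) (Zk S' S k) = ∑ Z, ∑ E, G Z E := by
  have hinv : Function.Involutive (fun x : Finset (Fin n) × Finset (Fin n) =>
      (Zk x.1 x.2 k, Zk x.2 x.1 k)) := by
    intro x
    exact Prod.ext (slv_invol x.1 x.2 k) (slv_invol x.2 x.1 k)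
  have h := Equiv.sum_comp hinv.toPerm (fun x : Finset (Fin n) × Finset (Fin n) => G x.1 x.2)
  rw [Fintype.sum_prod_type, Fintype.sum_prod_type] at h
  exact h

private theorem slv_up (w : Finset (Fin n) → ℝ) {P' : ℝ}
    (h2 : ∀ S : Finset (Fin n), ∀ k ∉ S, w S ≤ P' * w (insert k S)) (F : Finset (Fin n) → ℝ)
    (k : Fin n) :
    ∑ Z, w Z * (F Z - F (insert k Z)) ^ 2 ≤ P' * ∑ S : Finset (Fin n),
      (if k ∉ S then w (insert k S) * (F S - F (insert k S)) ^ 2 else 0) := by
  rw [Finset.mul_sum]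
  refine Finset.sum_le_sum fun Z _ => ?_
  by_cases hk : k ∈ Z
  · rw [Finset.insert_eq_of_mem hk, if_neg (not_not.2 hk)]
    simp
  · rw [if_pos hk, ← mul_assoc]
    exact mul_le_mul_of_nonneg_right (h2 Z k hk) (sq_nonneg _)

private theorem slv_down (w : Finset (Fin n) → ℝ) (F : Finset (Fin n) → ℝ)
    (k : Fin n) :
    ∑ Z, w Z * (F Z - F (Z.erase k)) ^ 2 = ∑ S : Finset (Fin n),
      (if k ∉ S then w (insert k S) * (F S - F (insert k S)) ^ 2 else 0) := by
  have e1 : ∑ Z, w Z * (F Z - F (Z.erase k)) ^ 2 =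
      ∑ Z ∈ (univ : Finset (Finset (Fin n))).filter (fun Z => k ∈ Z),
        w Z * (F Z - F (Z.erase k)) ^ 2 := by
    rw [Finset.sum_filter]
    refine Finset.sum_congr rfl fun Z _ => ?_
    by_cases hk : k ∈ Z
    · rw [if_pos hk]
    · rw [if_neg hk, Finset.erase_eq_of_notMem hk]
      simp
  rw [e1, ← Finset.sum_filter]
  refine Finset.sum_nbij' (fun Z => Z.erase k) (fun S => insert k S) ?_ ?_ ?_ ?_ ?_
  · intro Z _
    simp
  · intro S _
    simp
  · intro Z hZ
    exact Finset.insert_erase (Finset.mem_filter.1 hZ).2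
  · intro S hS
    exact Finset.erase_insert (Finset.mem_filter.1 hS).2
  · intro Z hZ
    change w Z * (F Z - F (Z.erase k)) ^ 2 =
      w (insert k (Z.erase k)) * (F (Z.erase k) - F (insert k (Z.erase k))) ^ 2
    rw [Finset.insert_erase (Finset.mem_filter.1 hZ).2]
    ring

theorem slv (w : Finset (Fin n) → ℝ) (hw : ∀ S, 0 ≤ w S) {P P' : ℝ} (hP : 0 ≤ P) (hP' : 0 ≤ P')
    (h1 : ∀ S S' : Finset (Fin n), ∀ k ≤ n, w S * w S' ≤ P * (w (Zk S S' k) * w (Zk S' S k)))
    (h2 : ∀ S : Finset (Fin n), ∀ k ∉ S, w S ≤ P' * w (insert k S)) (F : Finset (Fin n) → ℝ) :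
    ∃ c : ℝ, ∑ S, w S * (F S - c) ^ 2 ≤ (n : ℝ) * P * (P' + 1) *
      ∑ S : Finset (Fin n), ∑ k : Fin n,
        if k ∉ S then w (insert k S) * (F S - F (insert k S)) ^ 2 else 0 := by
  have hD0 : ∀ (k : Fin n) (S : Finset (Fin n)),
      0 ≤ (if k ∉ S then w (insert k S) * (F S - F (insert k S)) ^ 2 else 0) := by
    intro k S
    split_ifs
    · exact le_rfl
    · exact mul_nonneg (hw _) (sq_nonneg _)
  have hW : 0 ≤ ∑ S, w S := Finset.sum_nonneg fun S _ => hw S
  have hswap : ∑ S : Finset (Fin n), ∑ k : Fin n,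
      (if k ∉ S then w (insert k S) * (F S - F (insert k S)) ^ 2 else 0) =
      ∑ k : Fin n, ∑ S : Finset (Fin n),
        (if k ∉ S then w (insert k S) * (F S - F (insert k S)) ^ 2 else 0) := Finset.sum_comm
  rw [hswap]
  set D : Fin n → ℝ := fun k => ∑ S : Finset (Fin n),
    (if k ∉ S then w (insert k S) * (F S - F (insert k S)) ^ 2 else 0) with hDdef
  have hDk : ∀ k, 0 ≤ D k := fun k => Finset.sum_nonneg fun S _ => hD0 k S
  have hDs : 0 ≤ ∑ k, D k := Finset.sum_nonneg fun k _ => hDk k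
  -- one step
  have hstep : ∀ k : Fin n, ∑ S, ∑ S', w (Zk S S' k.val) * w (Zk S' S k.val) *
      (F (Zk S S' k.val) - F (Zk S S' (k.val + 1))) ^ 2 ≤ (∑ S, w S) * ((P' + 1) * D k) := by
    intro k
    have e1 : ∑ S, ∑ S', w (Zk S S' k.val) * w (Zk S' S k.val) *
        (F (Zk S S' k.val) - F (Zk S S' (k.val + 1))) ^ 2 =
        ∑ Z, ∑ E, w Z * w E * (F Z - F (if k ∈ E then insert k Z else Z.erase k)) ^ 2 := by
      rw [← slv_swap (fun Z E => w Z * w E *
        (F Z - F (if k ∈ E then insert k Z else Z.erase k)) ^ 2) k.val]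
      refine Finset.sum_congr rfl fun S _ => Finset.sum_congr rfl fun S' _ => ?_
      rw [slv_succ]
    rw [e1]
    have e2 : ∀ Z E : Finset (Fin n),
        w Z * w E * (F Z - F (if k ∈ E then insert k Z else Z.erase k)) ^ 2 ≤
        w E * (w Z * (F Z - F (insert k Z)) ^ 2 + w Z * (F Z - F (Z.erase k)) ^ 2) := by
      intro Z E
      have g1 : 0 ≤ w Z * (F Z - F (insert k Z)) ^ 2 := mul_nonneg (hw _) (sq_nonneg _)
      have g2 : 0 ≤ w Z * (F Z - F (Z.erase k)) ^ 2 := mul_nonneg (hw _) (sq_nonneg _)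
      have g3 := mul_nonneg (hw E) g1
      have g4 := mul_nonneg (hw E) g2
      split_ifs
      · nlinarith
      · nlinarith
    have e3 : ∑ Z, ∑ E, w Z * w E * (F Z - F (if k ∈ E then insert k Z else Z.erase k)) ^ 2 ≤
        ∑ Z, ∑ E, w E * (w Z * (F Z - F (insert k Z)) ^ 2 + w Z * (F Z - F (Z.erase k)) ^ 2) :=
      Finset.sum_le_sum fun Z _ => Finset.sum_le_sum fun E _ => e2 Z E
    refine e3.trans ?_
    have e4 : ∑ Z, ∑ E, w E * (w Z * (F Z - F (insert k Z)) ^ 2 + w Z * (F Z - F (Z.erase k)) ^ 2)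
        = (∑ S, w S) * (∑ Z, w Z * (F Z - F (insert k Z)) ^ 2 +
          ∑ Z, w Z * (F Z - F (Z.erase k)) ^ 2) := by
      rw [← Finset.sum_add_distrib, Finset.mul_sum]
      refine Finset.sum_congr rfl fun Z _ => ?_
      rw [Finset.sum_mul]
    rw [e4]
    refine mul_le_mul_of_nonneg_left ?_ hW
    have g1 := slv_up w h2 F k
    have g2 := slv_down w F k
    have g3 : (P' + 1) * D k = P' * D k + D k := by ring
    rw [g3, g2]
    exact add_le_add g1 le_rfl
  refine vr_weight univ w (fun S _ => hw S) F _ ?_ (by positivity)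
  -- telescoping
  have htel : ∀ S S' : Finset (Fin n), w S * w S' * (F S - F S') ^ 2 ≤
      (n : ℝ) * P * ∑ k : Fin n, w (Zk S S' k.val) * w (Zk S' S k.val) *
        (F (Zk S S' k.val) - F (Zk S S' (k.val + 1))) ^ 2 := by
    intro S S'
    have e1 : F S - F S' = ∑ k ∈ range n, (F (Zk S S' k) - F (Zk S S' (k + 1))) := by
      rw [Finset.sum_range_sub' (fun k => F (Zk S S' k)), slv_zero, slv_n]
    have e2 : (F S - F S') ^ 2 ≤ (n : ℝ) * ∑ k ∈ range n,
        (F (Zk S S' k) - F (Zk S S' (k + 1))) ^ 2 := by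
      rw [e1]
      have := sq_sum_le_card_mul_sum_sq (s := range n)
        (f := fun k => F (Zk S S' k) - F (Zk S S' (k + 1)))
      rwa [Finset.card_range] at this
    have hww : 0 ≤ w S * w S' := mul_nonneg (hw _) (hw _)
    refine (mul_le_mul_of_nonneg_left e2 hww).trans ?_
    rw [Finset.sum_range, Finset.mul_sum, Finset.mul_sum, Finset.mul_sum]
    refine Finset.sum_le_sum fun k _ => ?_
    have e3 := h1 S S' k.val k.isLt.le
    have e4 : 0 ≤ (n : ℝ) * (F (Zk S S' k.val) - F (Zk S S' (k.val + 1))) ^ 2 := by positivity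
    have e5 := mul_le_mul_of_nonneg_right e3 e4
    linarith
  calc ∑ S, ∑ S', w S * w S' * (F S - F S') ^ 2
      ≤ ∑ S, ∑ S', (n : ℝ) * P * ∑ k : Fin n, w (Zk S S' k.val) * w (Zk S' S k.val) *
        (F (Zk S S' k.val) - F (Zk S S' (k.val + 1))) ^ 2 :=
        Finset.sum_le_sum fun S _ => Finset.sum_le_sum fun S' _ => htel S S'
    _ = (n : ℝ) * P * ∑ k : Fin n, ∑ S, ∑ S', w (Zk S S' k.val) * w (Zk S' S k.val) *
        (F (Zk S S' k.val) - F (Zk S S' (k.val + 1))) ^ 2 := by
        have e1 : ∀ S : Finset (Fin n), ∑ S', (n : ℝ) * P * ∑ k : Fin n,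
            w (Zk S S' k.val) * w (Zk S' S k.val) *
              (F (Zk S S' k.val) - F (Zk S S' (k.val + 1))) ^ 2 =
            (n : ℝ) * P * ∑ k : Fin n, ∑ S', w (Zk S S' k.val) * w (Zk S' S k.val) *
              (F (Zk S S' k.val) - F (Zk S S' (k.val + 1))) ^ 2 := by
          intro S
          rw [← Finset.mul_sum, Finset.sum_comm]
        rw [Finset.sum_congr rfl fun S _ => e1 S, ← Finset.mul_sum, Finset.sum_comm]
    _ ≤ (n : ℝ) * P * ∑ k : Fin n, (∑ S, w S) * ((P' + 1) * D k) :=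
        mul_le_mul_of_nonneg_left (Finset.sum_le_sum fun k _ => hstep k) (by positivity)
    _ = (∑ S, w S) * ((n : ℝ) * P * (P' + 1) * ∑ k, D k) := by
        rw [← Finset.mul_sum, ← Finset.mul_sum]
        ring
    _ ≤ 2 * (∑ S, w S) * ((n : ℝ) * P * (P' + 1) * ∑ k, D k) := by
        have g1 : 0 ≤ (∑ S, w S) * ((n : ℝ) * P * (P' + 1) * ∑ k, D k) := by positivity
        linarith

end Pool.Agent.FLP
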