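import Pool.Agent.FLP.RWA
import Pool.Agent.FLP.GWX

/-!
rwx: with A, l from rw_left for S and A', l' for S' (at k): Rw S = A Rw S l, Rw S' = A' Rw S' l',
Rw (Zk S S' k) = A' Rw S l' (marks of S' before k, marks of S from k on: rw_left for S', rw_right),
Rw (Zk S' S k) = A Rw S' l. By rw_first Rw S l = Gw l r ρ, Rw S l' = Gw l' r ρ, etc.; gwx.
rwi: k not in S: at k: Rw S 0 n = A Rw S l (n-k), Rw S l (n-k) = Rw S l (n-k-1) = Gw l r ρ with r >= k+1
(unfold one step), Rw (insert k S) 0 n = A Gw l k Rw S (k+1) (n-k-1) = A Gw l k Gw (k+1) r ρ; gws.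
-/

open Finset

namespace Pool.Agent.FLP

variable {n : ℕ}

private theorem rwx_mem {S S' : Finset (Fin n)} {k : ℕ} {j : Fin n} :
    j ∈ Zk S S' k ↔ (j ∈ S' ∧ j.val < k) ∨ (j ∈ S ∧ k ≤ j.val) := by
  unfold Zk
  simp only [mem_union, mem_filter]

private theorem rwx_lt {S S' : Finset (Fin n)} {k : ℕ} (j : Fin n) (h : j.val < k) :
    j ∈ S' ↔ j ∈ Zk S S' k := by
  rw [rwx_mem]
  constructor
  · intro h1
    exact Or.inl ⟨h1, h⟩
  · rintro (h1 | h1)
    · exact h1.1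
    · omega

private theorem rwx_ge {S S' : Finset (Fin n)} {k : ℕ} (j : Fin n) (h : k ≤ j.val) :
    j ∈ Zk S S' k ↔ j ∈ S := by
  rw [rwx_mem]
  constructor
  · rintro (h1 | h1)
    · omega
    · exact h1.1
  · intro h1
    exact Or.inr ⟨h1, h⟩

private theorem rwx_zk (S S' : Finset (Fin n)) {k : ℕ} (hk : k ≤ n) {A' l' : ℕ}
    (H : ∀ T : Finset (Fin n), (∀ j : Fin n, j.val < k → (j ∈ S' ↔ j ∈ T)) →
      Rw n T 0 n = A' * Rw n T l' (n - k)) :
    Rw n (Zk S S' k) 0 n = A' * Rw n S l' (n - k) := by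
  rw [H (Zk S S' k) (fun j hj => rwx_lt j hj)]
  congr 1
  apply rw_right
  intro j hj
  exact rwx_ge j (by omega)

theorem rwx (S S' : Finset (Fin n)) {k : ℕ} (hk : k ≤ n) :
    Rw n S 0 n * Rw n S' 0 n ≤
      (4 * n + 2) ^ 2 * (Rw n (Zk S S' k) 0 n * Rw n (Zk S' S k) 0 n) := by
  obtain ⟨A, l, hl, hA⟩ := rw_left S hk
  obtain ⟨A', l', hl', hA'⟩ := rw_left S' hk
  obtain ⟨r, ρ, hr1, hr2, hr⟩ := rw_first S (d := n - k) (by omega)
  obtain ⟨r', ρ', hr1', hr2', hr'⟩ := rw_first S' (d := n - k) (by omega)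
  rw [rwx_zk S S' hk hA', rwx_zk S' S hk hA, hA S (fun _ _ => Iff.rfl),
    hA' S' (fun _ _ => Iff.rfl), hr, hr, hr', hr']
  have h := gwx (n := n) (l := l) (l' := l') (r := r) (r' := r') (by omega) (by omega) (by omega)
    (by omega) hr2 hr2'
  calc A * (Gw n l r * ρ) * (A' * (Gw n l' r' * ρ'))
      = A * A' * ρ * ρ' * (Gw n l r * Gw n l' r') := by ring
    _ ≤ A * A' * ρ * ρ' * ((4 * n + 2) ^ 2 * (Gw n l' r * Gw n l r')) :=
        Nat.mul_le_mul le_rfl h
    _ = (4 * n + 2) ^ 2 * (A' * (Gw n l' r * ρ) * (A * (Gw n l r' * ρ'))) := by ring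

theorem rwi {S : Finset (Fin n)} {k : Fin n} (hk : k ∉ S) :
    Rw n S 0 n ≤ 2 * (4 * n + 2) ^ 2 * Rw n (insert k S) 0 n := by
  obtain ⟨A, l, hl, hA⟩ := rw_left S (k := k.val) (by omega)
  obtain ⟨d, hd⟩ : ∃ d, n - k.val = d + 1 := ⟨n - k.val - 1, by omega⟩
  obtain ⟨r, ρ, hr1, hr2, hr⟩ := rw_first S (d := d) (by omega)
  have hkd : n - (d + 1) = k.val := by omega
  have h1 : Rw n S 0 n = A * (Gw n l r * ρ) := by
    rw [hA S (fun _ _ => Iff.rfl), hd]
    have h2 : ¬ ∃ k' ∈ S, k'.val = n - (d + 1) := by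
      rintro ⟨k', hk', h3⟩
      rw [hkd] at h3
      exact hk (Fin.ext h3 ▸ hk')
    rw [Rw, if_neg h2, hr]
  have h4 : Rw n (insert k S) 0 n = A * (Gw n l k * (Gw n (k + 1) r * ρ)) := by
    rw [hA (insert k S) (fun j hj => ?_), hd]
    · have h2 : ∃ k' ∈ insert k S, k'.val = n - (d + 1) :=
        ⟨k, mem_insert_self _ _, hkd.symm⟩
      rw [Rw, if_pos h2, hkd]
      have h5 : Rw n (insert k S) (k.val + 1) d = Rw n S (k.val + 1) d := by
        apply rw_right
        intro j hj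
        rw [mem_insert]
        constructor
        · rintro (h6 | h6)
          · rw [h6] at hj
            omega
          · exact h6
        · exact Or.inr
      rw [h5, hr]
    · rw [mem_insert]
      constructor
      · exact Or.inr
      · rintro (h6 | h6)
        · rw [h6] at hj
          omega
        · exact h6
  have h := gws (n := n) (l := l) (k := k.val) (r := r) hl (by omega) hr2
  rw [h1, h4]
  calc A * (Gw n l r * ρ) = A * ρ * Gw n l r := by ring
    _ ≤ A * ρ * (2 * (4 * n + 2) ^ 2 * (Gw n l k.val * Gw n (k.val + 1) r)) :=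
        Nat.mul_le_mul le_rfl h
    _ = 2 * (4 * n + 2) ^ 2 * (A * (Gw n l k * (Gw n (k + 1) r * ρ))) := by ring

end Pool.Agent.FLP
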