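import Pool.Agent.FLP.CNT
import Pool.Agent.FLP.RWX
import Pool.Agent.FLP.MGB

/-!
xs_card: fibres of p ↦ p.1 + p.2 (see LVB). xs_le, le_xs: bx_le, le_bx, cnt. wx, wi: rwx, rwi.
-/

open Finset

namespace Pool.Agent.FLP

variable {n : ℕ}

private theorem WTS_mem {S : Finset (Fin n)} {p : (Fin (n + 1) → ℕ) × (Fin (n + 1) → ℕ)}
    (hp : p ∈ XS n S) : (fun i => p.1 i + p.2 i) ∈ Gam n S := by
  rw [mem_XS, mem_Om] at hp
  obtain ⟨h1, h2, h3⟩ := hp
  rw [mem_Gam]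
  simp only at h1 h2 h3
  refine ⟨by rw [sum_add_distrib, h1, h2]; ring, fun k hk => ?_⟩
  rw [pr_add]
  exact h3 k hk

private theorem WTS_fib {S : Finset (Fin n)} {γ : Fin (n + 1) → ℕ} (hγ : γ ∈ Gam n S) :
    (XS n S).filter (fun p => (fun i => p.1 i + p.2 i) = γ) =
      (Bx γ n).image (fun a => (a, fun i => γ i - a i)) := by
  rw [mem_Gam] at hγ
  ext p
  simp only [mem_filter, mem_image, mem_XS, mem_Om, mem_Bx]
  constructor
  · rintro ⟨⟨h1, h2, h3⟩, h4⟩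
    have h5 : ∀ i, p.1 i + p.2 i = γ i := fun i => congrFun h4 i
    refine ⟨p.1, ⟨fun i => by have := h5 i; omega, h1⟩, ?_⟩
    refine Prod.ext rfl ?_
    funext i
    have := h5 i
    simp only
    omega
  · rintro ⟨a, ⟨h1, h2⟩, rfl⟩
    have h3 : ∀ i, a i + (γ i - a i) = γ i := fun i => by have := h1 i; omega
    have h4 : ∑ i, a i + ∑ i, (γ i - a i) = 2 * n := by
      rw [← sum_add_distrib, ← hγ.1]
      exact sum_congr rfl fun i _ => h3 i
    refine ⟨⟨h2, by simp only; omega, fun k hk => ?_⟩, funext h3⟩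
    simp only
    rw [← pr_add, ← hγ.2 k hk]
    congr 1
    exact funext h3

theorem xs_card (S : Finset (Fin n)) : (XS n S).card = ∑ γ ∈ Gam n S, (Bx γ n).card := by
  rw [card_eq_sum_card_fiberwise (f := fun p => fun i => p.1 i + p.2 i) (t := Gam n S)
    (fun p hp => WTS_mem hp)]
  refine sum_congr rfl fun γ hγ => ?_
  rw [WTS_fib hγ]
  exact card_image_of_injective _ fun a b h => congrArg Prod.fst h

theorem xs_le (S : Finset (Fin n)) : (XS n S).card ≤ Rw n S 0 n := by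
  rw [xs_card, ← cnt]
  exact sum_le_sum fun γ _ => bx_le

theorem le_xs (S : Finset (Fin n)) : Rw n S 0 n ≤ (2 * n + 1) * (XS n S).card := by
  rw [xs_card, ← cnt, mul_sum]
  exact sum_le_sum fun γ hγ => le_bx ((mem_Gam S γ).1 hγ).1

theorem wx (S S' : Finset (Fin n)) {k : ℕ} (hk : k ≤ n) :
    (XS n S).card * (XS n S').card ≤ ((4 * n + 2) ^ 2 * (2 * n + 1) ^ 2) *
      ((XS n (Zk S S' k)).card * (XS n (Zk S' S k)).card) := by
  calc (XS n S).card * (XS n S').card ≤ Rw n S 0 n * Rw n S' 0 n :=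
        Nat.mul_le_mul (xs_le S) (xs_le S')
    _ ≤ (4 * n + 2) ^ 2 * (Rw n (Zk S S' k) 0 n * Rw n (Zk S' S k) 0 n) := rwx S S' hk
    _ ≤ (4 * n + 2) ^ 2 * (((2 * n + 1) * (XS n (Zk S S' k)).card) *
        ((2 * n + 1) * (XS n (Zk S' S k)).card)) :=
        Nat.mul_le_mul_left _ (Nat.mul_le_mul (le_xs _) (le_xs _))
    _ = _ := by ring

theorem wi {S : Finset (Fin n)} {k : Fin n} (hk : k ∉ S) :
    (XS n S).card ≤ (2 * (4 * n + 2) ^ 2 * (2 * n + 1)) * (XS n (insert k S)).card := by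
  calc (XS n S).card ≤ Rw n S 0 n := xs_le S
    _ ≤ 2 * (4 * n + 2) ^ 2 * Rw n (insert k S) 0 n := rwi hk
    _ ≤ 2 * (4 * n + 2) ^ 2 * ((2 * n + 1) * (XS n (insert k S)).card) :=
        Nat.mul_le_mul_left _ (le_xs _)
    _ = _ := by ring

end Pool.Agent.FLP
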