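import Pool.Agent.FLP.LVB
import Pool.Agent.FLP.WTS
import Pool.Agent.FLP.SLV

/-!
Poincare inequality for the flips. vr_fib for Om n with the map x ↦ x.2.2 to univ: the fibre over S is
the image of XS n S (mem_XS). w S = #(XS n S), F S = av (XS n S) (f (p.1, p.2, S)), c from slv (wx, wi).
For k not in S: trp with s1 = XS n S, s2 = z = XS n (insert k S), u = v = id (XS n (insert k S) is contained
in XS n S: unm): w (insert k S) (F S - F (insert k S))^2 <= 3 (vr (XS n S) + vr (XS n (insert k S)) +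
sum over p in XS n (insert k S) of (f (p, S) - f (p, insert k S))^2). Sum over S and k: the variances give
at most 2 n times the left side of lvb, the last terms are the third part of Dir n f.
-/

open Finset

namespace Pool.Agent.FLP

variable {n : ℕ}

private theorem PNC_fib (S : Finset (Fin n)) : (Om n).filter (fun x => x.2.2 = S) =
    (XS n S).image (fun p => ((p.1, p.2, S) : Cf n)) := by
  ext x
  rw [mem_filter, mem_image]
  constructor
  · rintro ⟨h1, h2⟩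
    refine ⟨(x.1, x.2.1), ?_, ?_⟩
    · rw [mem_XS, ← h2]
      exact h1
    · rw [← h2]
  · rintro ⟨p, hp, rfl⟩
    exact ⟨(mem_XS S p).mp hp, rfl⟩

private theorem PNC_inj (S : Finset (Fin n)) (A : Set ((Fin (n + 1) → ℕ) × (Fin (n + 1) → ℕ))) :
    Set.InjOn (fun p => ((p.1, p.2, S) : Cf n)) A := by
  intro p _ q _ h
  simp only [Prod.mk.injEq, and_true] at h
  exact Prod.ext h.1 h.2

private theorem PNC_ins (k : Fin n) (G : Finset (Fin n) → ℝ) :
    ∑ S : Finset (Fin n), (if k ∉ S then G (insert k S) else 0) =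
      ∑ S : Finset (Fin n), if k ∈ S then G S else 0 := by
  rw [← sum_filter, ← sum_filter]
  refine sum_bij' (fun S _ => insert k S) (fun S _ => S.erase k) ?_ ?_ ?_ ?_ ?_
  · intro S _
    simp
  · intro S _
    simp
  · intro S hS
    rw [mem_filter] at hS
    exact erase_insert hS.2
  · intro S hS
    rw [mem_filter] at hS
    exact insert_erase hS.2
  · intro S _
    rfl

private theorem PNC_sub {S : Finset (Fin n)} {k : Fin n}
    {p : (Fin (n + 1) → ℕ) × (Fin (n + 1) → ℕ)} (hp : p ∈ XS n (insert k S)) : p ∈ XS n S := by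
  rw [mem_XS, mem_Om] at hp ⊢
  exact ⟨hp.1, hp.2.1, fun j hj => hp.2.2 j (mem_insert_of_mem hj)⟩

private theorem PNC_D3 (f : Cf n → ℝ) :
    ∑ S : Finset (Fin n), ∑ k : Fin n, (if k ∉ S then
      ∑ p ∈ XS n (insert k S), (f (p.1, p.2, S) - f (p.1, p.2, insert k S)) ^ 2 else 0) ≤
      Dir n f := by
  have h1 : ∑ x ∈ Om n, ∑ k : Fin n, (if k ∈ x.2.2 then (f x - f (unm k x)) ^ 2 else 0) ≤
      Dir n f := by
    unfold Dir
    apply sum_le_sum
    intro x _
    apply sum_le_sum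
    intro k _
    have h2 : 0 ≤ (if k ∉ x.2.2 ∧ 1 ≤ x.1 k.castSucc then (f x - f (shA k x)) ^ 2 else 0) := by
      split_ifs <;> positivity
    have h3 : 0 ≤ (if k ∉ x.2.2 ∧ 1 ≤ x.2.1 k.castSucc then (f x - f (shB k x)) ^ 2 else 0) := by
      split_ifs <;> positivity
    linarith
  refine le_trans (le_of_eq ?_) h1
  rw [sum_comm, sum_comm (s := Om n)]
  apply sum_congr rfl
  intro k _
  have h4 : ∀ S : Finset (Fin n), (if k ∉ S then
      ∑ p ∈ XS n (insert k S), (f (p.1, p.2, S) - f (p.1, p.2, insert k S)) ^ 2 else 0) =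
      if k ∉ S then (fun T : Finset (Fin n) =>
        ∑ p ∈ XS n T, (f (p.1, p.2, T.erase k) - f (p.1, p.2, T)) ^ 2) (insert k S) else 0 := by
    intro S
    by_cases h : k ∈ S
    · simp [h]
    · simp only [h, not_false_eq_true, if_true, erase_insert]
  rw [sum_congr rfl (fun S _ => h4 S), PNC_ins k (fun T : Finset (Fin n) =>
        ∑ p ∈ XS n T, (f (p.1, p.2, T.erase k) - f (p.1, p.2, T)) ^ 2)]
  rw [← sum_fiberwise_of_maps_to (s := Om n) (t := (univ : Finset (Finset (Fin n))))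
    (g := fun x => x.2.2) (fun x _ => mem_univ _)]
  apply sum_congr rfl
  intro S _
  rw [PNC_fib, sum_image (PNC_inj S _)]
  by_cases h : k ∈ S
  · simp only [h, if_true]
    apply sum_congr rfl
    intro p _
    unfold unm
    ring
  · simp [h]

private theorem PNC_const (n C₁ k₁ : ℕ) {P P' A D E V : ℝ} (hP0 : 0 ≤ P) (hP'0 : 0 ≤ P')
    (hA0 : 0 ≤ A) (hD0 : 0 ≤ D) (hE0 : 0 ≤ E)
    (hP : P = (((4 * n + 2) ^ 2 * (2 * n + 1) ^ 2 : ℕ) : ℝ))
    (hP' : P' = ((2 * (4 * n + 2) ^ 2 * (2 * n + 1) : ℕ) : ℝ))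
    (hA1 : A ≤ (C₁ : ℝ) * ((n : ℝ) + 1) ^ k₁ * D)
    (h5 : E ≤ 3 * ((n : ℝ) * A + (n : ℝ) * A + D))
    (hV : V ≤ A + (n : ℝ) * P * (P' + 1) * E) :
    V ≤ ((C₁ + 12480 * (2 * C₁ + 1) : ℕ) : ℝ) * ((n : ℝ) + 1) ^ (k₁ + 9) * D := by
  have hn0 : (0 : ℝ) ≤ n := Nat.cast_nonneg n
  have hPb : P ≤ 64 * ((n : ℝ) + 1) ^ 4 := by
    rw [hP]
    push_cast
    have h10 : (4 * (n : ℝ) + 2) ^ 2 ≤ (4 * ((n : ℝ) + 1)) ^ 2 := by gcongr; linarith
    have h11 : (2 * (n : ℝ) + 1) ^ 2 ≤ (2 * ((n : ℝ) + 1)) ^ 2 := by gcongr; linarith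
    calc (4 * (n : ℝ) + 2) ^ 2 * (2 * (n : ℝ) + 1) ^ 2 ≤
        (4 * ((n : ℝ) + 1)) ^ 2 * (2 * ((n : ℝ) + 1)) ^ 2 := by gcongr
      _ = 64 * ((n : ℝ) + 1) ^ 4 := by ring
  have hP'b : P' + 1 ≤ 65 * ((n : ℝ) + 1) ^ 3 := by
    have h10 : P' ≤ 64 * ((n : ℝ) + 1) ^ 3 := by
      rw [hP']
      push_cast
      have h10 : (4 * (n : ℝ) + 2) ^ 2 ≤ (4 * ((n : ℝ) + 1)) ^ 2 := by gcongr; linarith
      calc 2 * (4 * (n : ℝ) + 2) ^ 2 * (2 * (n : ℝ) + 1) ≤
          2 * (4 * ((n : ℝ) + 1)) ^ 2 * (2 * ((n : ℝ) + 1)) := by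
            gcongr; linarith
        _ = 64 * ((n : ℝ) + 1) ^ 3 := by ring
    have h11 : 1 ≤ ((n : ℝ) + 1) ^ 3 := one_le_pow₀ (by linarith)
    linarith
  clear hP hP'
  obtain ⟨N, hN⟩ : ∃ N : ℝ, N = (n : ℝ) + 1 := ⟨_, rfl⟩
  rw [← hN] at hPb hP'b hA1 ⊢
  have hN1 : 1 ≤ N := by rw [hN]; linarith
  have hnN : (n : ℝ) ≤ N := by rw [hN]; linarith
  have hN0 : 0 ≤ N := by linarith
  have hP'1 : 0 ≤ P' + 1 := by linarith
  have h12 : (n : ℝ) * P * (P' + 1) ≤ 4160 * N ^ 8 := by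
    calc (n : ℝ) * P * (P' + 1) ≤ N * (64 * N ^ 4) * (65 * N ^ 3) := by gcongr
      _ = 4160 * N ^ 8 := by ring
  have h15 : E ≤ 3 * (N * A + N * A + D) := by
    have := mul_le_mul_of_nonneg_right hnN hA0
    linarith
  have h14 : (n : ℝ) * P * (P' + 1) * E ≤ 4160 * N ^ 8 * (3 * (N * A + N * A + D)) := by
    calc (n : ℝ) * P * (P' + 1) * E ≤ 4160 * N ^ 8 * E := by gcongr
      _ ≤ _ := by gcongr
  have h13 : V ≤ A + 4160 * N ^ 8 * (3 * (N * A + N * A + D)) := by linarith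
  refine h13.trans ?_
  have hC0 : (0 : ℝ) ≤ (C₁ : ℝ) := Nat.cast_nonneg _
  have h16 : N * A ≤ (C₁ : ℝ) * N ^ (k₁ + 1) * D := by
    calc N * A ≤ N * ((C₁ : ℝ) * N ^ k₁ * D) := by gcongr
      _ = _ := by ring
  have h17 : A ≤ (C₁ : ℝ) * N ^ (k₁ + 9) * D := by
    refine hA1.trans ?_
    have := pow_le_pow_right₀ hN1 (show k₁ ≤ k₁ + 9 by omega)
    gcongr
  have h18 : N ^ 8 * (N * A) ≤ (C₁ : ℝ) * N ^ (k₁ + 9) * D := by
    calc N ^ 8 * (N * A) ≤ N ^ 8 * ((C₁ : ℝ) * N ^ (k₁ + 1) * D) := by gcongr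
      _ = _ := by ring
  have h19 : N ^ 8 * D ≤ N ^ (k₁ + 9) * D := by
    have := pow_le_pow_right₀ hN1 (show 8 ≤ k₁ + 9 by omega)
    gcongr
  push_cast
  generalize N ^ (k₁ + 9) = Q at h17 h18 h19 ⊢
  have h20 : 4160 * N ^ 8 * (3 * (N * A + N * A + D)) =
      24960 * (N ^ 8 * (N * A)) + 12480 * (N ^ 8 * D) := by ring
  rw [h20]
  have h21 : ((C₁ : ℝ) + 12480 * (2 * (C₁ : ℝ) + 1)) * Q * D =
      C₁ * Q * D + 24960 * (C₁ * Q * D) + 12480 * (Q * D) := by ring
  rw [h21]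
  linarith

theorem pnc : ∃ C k : ℕ, ∀ (n : ℕ) (f : Cf n → ℝ),
    vr (Om n) f ≤ (C : ℝ) * ((n : ℝ) + 1) ^ k * Dir n f := by
  obtain ⟨C₁, k₁, hlvb⟩ := lvb
  refine ⟨C₁ + 12480 * (2 * C₁ + 1), k₁ + 9, fun n f => ?_⟩
  set A : ℝ := ∑ S : Finset (Fin n), vr (XS n S) (fun p => f (p.1, p.2, S)) with hA
  have hA1 : A ≤ (C₁ : ℝ) * ((n : ℝ) + 1) ^ k₁ * Dir n f := hlvb n f
  have hA0 : 0 ≤ A := sum_nonneg fun S _ => vr_nonneg _ _
  have hD0 : 0 ≤ Dir n f := by
    unfold Dir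
    refine sum_nonneg fun x _ => sum_nonneg fun k _ => ?_
    have h1 : 0 ≤ (if k ∉ x.2.2 ∧ 1 ≤ x.1 k.castSucc then (f x - f (shA k x)) ^ 2 else 0) := by
      split_ifs <;> positivity
    have h2 : 0 ≤ (if k ∉ x.2.2 ∧ 1 ≤ x.2.1 k.castSucc then (f x - f (shB k x)) ^ 2 else 0) := by
      split_ifs <;> positivity
    have h3 : 0 ≤ (if k ∈ x.2.2 then (f x - f (unm k x)) ^ 2 else 0) := by
      split_ifs <;> positivity
    linarith
  set w : Finset (Fin n) → ℝ := fun S => ((XS n S).card : ℝ) with hw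
  set F : Finset (Fin n) → ℝ := fun S => av (XS n S) (fun p => f (p.1, p.2, S)) with hF
  set P : ℝ := (((4 * n + 2) ^ 2 * (2 * n + 1) ^ 2 : ℕ) : ℝ) with hP
  set P' : ℝ := ((2 * (4 * n + 2) ^ 2 * (2 * n + 1) : ℕ) : ℝ) with hP'
  have hP0 : 0 ≤ P := Nat.cast_nonneg _
  have hP'0 : 0 ≤ P' := Nat.cast_nonneg _
  obtain ⟨c, hc⟩ := slv w (fun S => Nat.cast_nonneg _) hP0 hP'0
    (fun S S' k hk => by
      simp only [hw, hP]
      exact_mod_cast wx S S' hk)
    (fun S k hk => by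
      simp only [hw, hP']
      exact_mod_cast wi hk) F
  -- the fibres
  have h1 := vr_fib (Om n) (fun x => x.2.2) univ (fun x _ => mem_univ _) f c
  have h2 : ∀ S : Finset (Fin n), vr ((Om n).filter fun x => x.2.2 = S) f =
      vr (XS n S) (fun p => f (p.1, p.2, S)) := by
    intro S
    rw [PNC_fib, vr_image _ _ (PNC_inj S _)]
  have h3 : ∀ S : Finset (Fin n), (((Om n).filter fun x => x.2.2 = S).card : ℝ) *
      (av ((Om n).filter fun x => x.2.2 = S) f - c) ^ 2 = w S * (F S - c) ^ 2 := by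
    intro S
    rw [PNC_fib, av_image _ _ (PNC_inj S _), card_image_of_injOn (PNC_inj S _)]
  rw [sum_congr rfl (fun S _ => h2 S), sum_congr rfl (fun S _ => h3 S)] at h1
  -- transport
  have h4 : ∀ S : Finset (Fin n), ∀ k ∉ S, w (insert k S) * (F S - F (insert k S)) ^ 2 ≤
      3 * (vr (XS n S) (fun p => f (p.1, p.2, S)) +
        vr (XS n (insert k S)) (fun p => f (p.1, p.2, insert k S)) +
        ∑ p ∈ XS n (insert k S), (f (p.1, p.2, S) - f (p.1, p.2, insert k S)) ^ 2) := by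
    intro S k _
    exact trp (XS n S) (XS n (insert k S)) (XS n (insert k S)) id id
      (fun p hp => PNC_sub hp) Function.injective_id.injOn (fun p hp => hp)
      Function.injective_id.injOn (fun p => f (p.1, p.2, S)) (fun p => f (p.1, p.2, insert k S))
  have h5 : ∑ S : Finset (Fin n), ∑ k : Fin n,
      (if k ∉ S then w (insert k S) * (F S - F (insert k S)) ^ 2 else 0) ≤
      3 * ((n : ℝ) * A + (n : ℝ) * A + Dir n f) := by
    have h6 : ∀ S : Finset (Fin n), ∀ k : Fin n,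
        (if k ∉ S then w (insert k S) * (F S - F (insert k S)) ^ 2 else 0) ≤
        3 * (vr (XS n S) (fun p => f (p.1, p.2, S)) +
          (if k ∉ S then (fun T => vr (XS n T) (fun p => f (p.1, p.2, T))) (insert k S) else 0) +
          (if k ∉ S then ∑ p ∈ XS n (insert k S),
            (f (p.1, p.2, S) - f (p.1, p.2, insert k S)) ^ 2 else 0)) := by
      intro S k
      by_cases h : k ∈ S
      · simp only [h, not_true_eq_false, if_false, add_zero]
        have := vr_nonneg (XS n S) (fun p => f (p.1, p.2, S))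
        linarith
      · simp only [h, not_false_eq_true, if_true]
        exact h4 S k h
    refine (sum_le_sum fun S _ => sum_le_sum fun k _ => h6 S k).trans ?_
    simp only [← mul_sum, sum_add_distrib]
    have h7 : ∑ S : Finset (Fin n), ∑ _k : Fin n, vr (XS n S) (fun p => f (p.1, p.2, S)) =
        (n : ℝ) * A := by
      simp only [sum_const, card_univ, Fintype.card_fin, nsmul_eq_mul]
      rw [hA, mul_sum]
    have h8 : ∑ S : Finset (Fin n), ∑ k : Fin n, (if k ∉ S then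
        (fun T => vr (XS n T) (fun p => f (p.1, p.2, T))) (insert k S) else 0) ≤ (n : ℝ) * A := by
      rw [sum_comm]
      refine (sum_le_card_nsmul _ _ A ?_).trans ?_
      · intro k _
        rw [PNC_ins k (fun T => vr (XS n T) (fun p => f (p.1, p.2, T)))]
        rw [hA]
        apply sum_le_sum
        intro S _
        split_ifs
        · exact le_refl _
        · exact vr_nonneg _ _
      · rw [nsmul_eq_mul, card_univ, Fintype.card_fin]
    have h9 := PNC_D3 f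
    rw [h7]
    linarith
  have hE0 : 0 ≤ ∑ S : Finset (Fin n), ∑ k : Fin n,
      (if k ∉ S then w (insert k S) * (F S - F (insert k S)) ^ 2 else 0) := by
    refine sum_nonneg fun S _ => sum_nonneg fun k _ => ?_
    by_cases h : k ∈ S
    · simp [h]
    · simp only [h, not_false_eq_true, if_true]
      exact mul_nonneg (Nat.cast_nonneg _) (sq_nonneg _)
  exact PNC_const n C₁ k₁ hP0 hP'0 hA0 hD0 hE0 hP hP' hA1 h5 (by linarith)

end Pool.Agent.FLP
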