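import Pool.Agent.FLP.Bas

/-!
Structure of the product formula. rw_first: induction on d. rw_left: induction on the number of
processed boundaries: there are a factor A and a start l (depending only on the marks before k) with
Rw n T 0 n = A * Rw n T l (n - k) for every T with the same marks before k: l = 0, A = 1 for k = 0; step
k -> k + 1: if k is a mark then A' = A * Gw n l k, l' = k + 1, otherwise nothing changes.
rw_right: Rw n S l d depends only on the marks k with n - d <= k.
-/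

open Finset

namespace Pool.Agent.FLP

variable {n : ℕ}

theorem rw_first (S : Finset (Fin n)) {d : ℕ} (hd : d ≤ n) :
    ∃ r ρ : ℕ, n - d ≤ r ∧ r ≤ n ∧ ∀ l : ℕ, Rw n S l d = Gw n l r * ρ := by
  induction d with
  | zero => exact ⟨n, 1, by omega, le_rfl, fun l => by rw [Rw, mul_one]⟩
  | succ d ih =>
    by_cases h : ∃ k ∈ S, k.val = n - (d + 1)
    · refine ⟨n - (d + 1), Rw n S (n - (d + 1) + 1) d, le_rfl, by omega, fun l => ?_⟩
      rw [Rw, if_pos h]
    · obtain ⟨r, ρ, h1, h2, h3⟩ := ih (by omega)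
      refine ⟨r, ρ, by omega, h2, fun l => ?_⟩
      rw [Rw, if_neg h, h3]

theorem rw_right {S T : Finset (Fin n)} {d : ℕ} (h : ∀ k : Fin n, n - d ≤ k.val → (k ∈ S ↔ k ∈ T))
    (l : ℕ) : Rw n S l d = Rw n T l d := by
  induction d generalizing l with
  | zero => rw [Rw, Rw]
  | succ d ih =>
    have h1 : (∃ k ∈ S, k.val = n - (d + 1)) ↔ (∃ k ∈ T, k.val = n - (d + 1)) := by
      constructor
      · rintro ⟨k, hk, hv⟩
        exact ⟨k, (h k (by omega)).mp hk, hv⟩
      · rintro ⟨k, hk, hv⟩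
        exact ⟨k, (h k (by omega)).mpr hk, hv⟩
    have h2 : ∀ l, Rw n S l d = Rw n T l d := fun l => ih (fun k hk => h k (by omega)) l
    rw [Rw, Rw]
    by_cases h3 : ∃ k ∈ S, k.val = n - (d + 1)
    · rw [if_pos h3, if_pos (h1.mp h3), h2]
    · rw [if_neg h3, if_neg (fun h4 => h3 (h1.mpr h4)), h2]

theorem rw_left (S : Finset (Fin n)) {k : ℕ} (hk : k ≤ n) :
    ∃ A l : ℕ, l ≤ k ∧ ∀ T : Finset (Fin n), (∀ j : Fin n, j.val < k → (j ∈ S ↔ j ∈ T)) →
      Rw n T 0 n = A * Rw n T l (n - k) := by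
  induction k with
  | zero =>
    refine ⟨1, 0, le_rfl, fun T _ => ?_⟩
    rw [one_mul, Nat.sub_zero]
  | succ k ih =>
    obtain ⟨A, l, hl, H⟩ := ih (by omega)
    have e1 : n - k = (n - (k + 1)) + 1 := by omega
    have e2 : n - ((n - (k + 1)) + 1) = k := by omega
    by_cases h : ∃ j ∈ S, j.val = k
    · refine ⟨A * Gw n l k, k + 1, le_rfl, fun T hT => ?_⟩
      have hT' : ∃ j ∈ T, j.val = n - ((n - (k + 1)) + 1) := by
        obtain ⟨j, hj, hv⟩ := h
        exact ⟨j, (hT j (by omega)).mp hj, by omega⟩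
      rw [H T (fun j hj => hT j (by omega)), e1, Rw, if_pos hT', e2, mul_assoc]
    · refine ⟨A, l, by omega, fun T hT => ?_⟩
      have hT' : ¬ ∃ j ∈ T, j.val = n - ((n - (k + 1)) + 1) := by
        rintro ⟨j, hj, hv⟩
        exact h ⟨j, (hT j (by omega)).mpr hj, by omega⟩
      rw [H T (fun j hj => hT j (by omega)), e1, Rw, if_neg hT']

end Pool.Agent.FLP
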