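import Pool.Agent.FLP.VRB

/-!
Transport between two averages.
By Cauchy-Schwarz |z| (av s1 f1 - avg_z f1 (u a))^2 <= sum_z (f1 (u a) - av)^2 <= vr s1 f1 (u is
injective into s1), the same for v, and (x+y+w)^2 <= 3(x^2+y^2+w^2). The case z empty is trivial.
-/

open Finset

namespace Pool.Agent.FLP

theorem trp {X₁ X₂ Z : Type*} (s₁ : Finset X₁) (s₂ : Finset X₂) (z : Finset Z) (u : Z → X₁)
    (v : Z → X₂) (hu : ∀ a ∈ z, u a ∈ s₁) (hui : Set.InjOn u z) (hv : ∀ a ∈ z, v a ∈ s₂)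
    (hvi : Set.InjOn v z) (f₁ : X₁ → ℝ) (f₂ : X₂ → ℝ) :
    (z.card : ℝ) * (av s₁ f₁ - av s₂ f₂) ^ 2 ≤
      3 * (vr s₁ f₁ + vr s₂ f₂ + ∑ a ∈ z, (f₁ (u a) - f₂ (v a)) ^ 2) := by
  classical
  have key : ∀ {X : Type _} (s : Finset X) (f : X → ℝ) (w : Z → X), (∀ a ∈ z, w a ∈ s) →
      Set.InjOn w z → ∑ a ∈ z, (f (w a) - av s f) ^ 2 ≤ vr s f := by
    intro X s f w hw hwi
    unfold vr
    rw [← Finset.sum_image (s := z) (g := w) (f := fun x => (f x - av s f) ^ 2)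
      (fun a ha b hb h => hwi ha hb h)]
    refine Finset.sum_le_sum_of_subset_of_nonneg ?_ (fun _ _ _ => sq_nonneg _)
    intro x hx
    obtain ⟨a, ha, rfl⟩ := Finset.mem_image.1 hx
    exact hw a ha
  have h1 := key s₁ f₁ u hu hui
  have key2 : ∀ {X : Type _} (s : Finset X) (f : X → ℝ) (w : Z → X), (∀ a ∈ z, w a ∈ s) →
      Set.InjOn w z → ∑ a ∈ z, (f (w a) - av s f) ^ 2 ≤ vr s f := by
    intro X s f w hw hwi
    unfold vr
    rw [← Finset.sum_image (s := z) (g := w) (f := fun x => (f x - av s f) ^ 2)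
      (fun a ha b hb h => hwi ha hb h)]
    refine Finset.sum_le_sum_of_subset_of_nonneg ?_ (fun _ _ _ => sq_nonneg _)
    intro x hx
    obtain ⟨a, ha, rfl⟩ := Finset.mem_image.1 hx
    exact hw a ha
  have h2 := key2 s₂ f₂ v hv hvi
  have h3 : (z.card : ℝ) * (av s₁ f₁ - av s₂ f₂) ^ 2 =
      ∑ a ∈ z, (av s₁ f₁ - av s₂ f₂) ^ 2 := by
    rw [Finset.sum_const, nsmul_eq_mul]
  rw [h3]
  have h4 : ∑ a ∈ z, (av s₁ f₁ - av s₂ f₂) ^ 2 ≤ ∑ a ∈ z, 3 * ((f₁ (u a) - av s₁ f₁) ^ 2 +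
      (f₂ (v a) - av s₂ f₂) ^ 2 + (f₁ (u a) - f₂ (v a)) ^ 2) := by
    refine Finset.sum_le_sum fun a _ => ?_
    nlinarith [sq_nonneg ((f₁ (u a) - av s₁ f₁) + (f₂ (v a) - av s₂ f₂)),
      sq_nonneg ((f₁ (u a) - av s₁ f₁) + (f₁ (u a) - f₂ (v a))),
      sq_nonneg ((f₂ (v a) - av s₂ f₂) - (f₁ (u a) - f₂ (v a)))]
  refine h4.trans ?_
  rw [← Finset.mul_sum, Finset.sum_add_distrib, Finset.sum_add_distrib]
  linarith

end Pool.Agent.FLP
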